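import Pool.Agent.Q228.Rep.Aff

/-!
# Foldings of polyominoes to cubes: two pieces with a common segment
-/

set_option autoImplicit false

namespace Pool.Agent.Q228.Rep

open Pool.Agent.Helper697.Rep MeasureTheory

/-- the point with coordinates `s, t` along and across the direction `(e0, e1)` through `p` -/
noncomputable def P (p : Plane) (e0 e1 s t : ℝ) : Plane := p + !₂[s * e0 - t * e1, s * e1 + t * e0]

lemma P0 (p : Plane) (e0 e1 s t : ℝ) : P p e0 e1 s t 0 = p 0 + (s * e0 - t * e1) := by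
  simp [P]

lemma P1 (p : Plane) (e0 e1 s t : ℝ) : P p e0 e1 s t 1 = p 1 + (s * e1 + t * e0) := by
  simp [P]

lemma aff_P (y u w : Space) (p : Plane) (e0 e1 s t : ℝ) (i : Fin 3) :
    aff y u w (P p e0 e1 s t) i = aff y u w p i + s * (e0 * u i + e1 * w i) +
      t * (-e1 * u i + e0 * w i) := by
  rw [aff_apply, aff_apply, P0, P1]; ring

lemma eq_P (p : Plane) (e0 e1 : ℝ) (he : e0 ^ 2 + e1 ^ 2 = 1) (x : Plane) :
    x = P p e0 e1 ((x 0 - p 0) * e0 + (x 1 - p 1) * e1)
      (-(x 0 - p 0) * e1 + (x 1 - p 1) * e0) := by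
  ext i
  fin_cases i
  · change x 0 = P _ _ _ _ _ 0
    rw [P0]
    linear_combination -(x 0 - p 0) * he
  · change x 1 = P _ _ _ _ _ 1
    rw [P1]
    linear_combination -(x 1 - p 1) * he

lemma others (j : Fin 3) : ∃ a b : Fin 3, (∀ g : Fin 3 → ℝ, g 0 + g 1 + g 2 = g j + g a + g b) ∧
    ∀ i, i = j ∨ i = a ∨ i = b := by
  fin_cases j
  · exact ⟨1, 2, fun g => by simp, by decide⟩
  · exact ⟨0, 2, fun g => by simp; ring, by decide⟩
  · exact ⟨0, 1, fun g => by simp; ring, by decide⟩

/-- two face parametrisations that agree in two points: either they define the same cosine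
function, or one is the other one reflected in the line through these points -/
lemma adjacent (l : ℝ) (hl : 0 < l) (y u w y' u' w' : Space) (h : Ortho u w) (h' : Ortho u' w')
    (hF : InFace l y u w) (hF' : InFace l y' u' w') (p : Plane) (e0 e1 : ℝ)
    (he : e0 ^ 2 + e1 ^ 2 = 1) (r : ℝ) (hr : r ≠ 0)
    (hp : aff y u w p = aff y' u' w' p)
    (hq : aff y u w (P p e0 e1 r 0) = aff y' u' w' (P p e0 e1 r 0)) :
    (∀ x, hh l (aff y u w x) = hh l (aff y' u' w' x)) ∨
    (∀ s t : ℝ, aff y u w (P p e0 e1 s t) = aff y' u' w' (P p e0 e1 s (-t))) := by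
  obtain ⟨j, huj, hwj, hyj⟩ := hF
  obtain ⟨j', huj', hwj', hyj'⟩ := hF'
  set E : Fin 3 → ℝ := fun i => e0 * u i + e1 * w i with hE
  set N : Fin 3 → ℝ := fun i => -e1 * u i + e0 * w i with hN
  set E' : Fin 3 → ℝ := fun i => e0 * u' i + e1 * w' i with hE'
  set N' : Fin 3 → ℝ := fun i => -e1 * u' i + e0 * w' i with hN'
  have affE : ∀ s t i, aff y u w (P p e0 e1 s t) i = aff y u w p i + s * E i + t * N i :=
    fun s t i => aff_P y u w p e0 e1 s t i
  have affE' : ∀ s t i, aff y' u' w' (P p e0 e1 s t) i = aff y' u' w' p i + s * E' i + t * N' i :=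
    fun s t i => aff_P y' u' w' p e0 e1 s t i
  have hEE' : ∀ i, E' i = E i := by
    intro i
    have h1 := congrArg (fun z : Space => z i) hq
    have h2 := congrArg (fun z : Space => z i) hp
    simp only [affE, affE'] at h1 h2
    rw [← h2] at h1
    have : r * (E' i - E i) = 0 := by linarith
    have := (mul_eq_zero.mp this).resolve_left hr
    linarith
  have EE : E 0 ^ 2 + E 1 ^ 2 + E 2 ^ 2 = 1 := by
    simp only [hE]
    linear_combination e0 ^ 2 * h.uu + e1 ^ 2 * h.ww + 2 * e0 * e1 * h.uw + he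
  have NN : N 0 ^ 2 + N 1 ^ 2 + N 2 ^ 2 = 1 := by
    simp only [hN]
    linear_combination e1 ^ 2 * h.uu + e0 ^ 2 * h.ww - 2 * e0 * e1 * h.uw + he
  have EN : E 0 * N 0 + E 1 * N 1 + E 2 * N 2 = 0 := by
    simp only [hE, hN]
    linear_combination -e0 * e1 * h.uu + e0 * e1 * h.ww + (e0 ^ 2 - e1 ^ 2) * h.uw
  have NN' : N' 0 ^ 2 + N' 1 ^ 2 + N' 2 ^ 2 = 1 := by
    simp only [hN']
    linear_combination e1 ^ 2 * h'.uu + e0 ^ 2 * h'.ww - 2 * e0 * e1 * h'.uw + he
  have EN' : E 0 * N' 0 + E 1 * N' 1 + E 2 * N' 2 = 0 := by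
    rw [← hEE' 0, ← hEE' 1, ← hEE' 2]
    simp only [hE', hN']
    linear_combination -e0 * e1 * h'.uu + e0 * e1 * h'.ww + (e0 ^ 2 - e1 ^ 2) * h'.uw
  have hEj : E j = 0 := by simp only [hE, huj, hwj]; ring
  have hNj : N j = 0 := by simp only [hN, huj, hwj]; ring
  have hEj' : E j' = 0 := by rw [← hEE']; simp only [hE', huj', hwj']; ring
  have hNj' : N' j' = 0 := by simp only [hN', huj', hwj']; ring
  by_cases hjj : j = j'
  · subst hjj
    obtain ⟨a, b, hsum, hall⟩ := others j
    have s1 := hsum (fun i => E i ^ 2)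
    have s2 := hsum (fun i => N i ^ 2)
    have s3 := hsum (fun i => E i * N i)
    have s4 := hsum (fun i => N' i ^ 2)
    have s5 := hsum (fun i => E i * N' i)
    simp only [EE, NN, EN, NN', EN', hEj, hNj, hNj'] at s1 s2 s3 s4 s5
    have hκ : ∀ M : Fin 3 → ℝ, M j = 0 → 1 = (0 : ℝ) ^ 2 + M a ^ 2 + M b ^ 2 →
        0 = 0 * (0 : ℝ) + E a * M a + E b * M b →
        ∃ κ : ℝ, (κ = 1 ∨ κ = -1) ∧ M a = κ * (-E b) ∧ M b = κ * E a := by
      intro M _ m2 m3
      refine ⟨M b * E a - M a * E b, ?_, ?_, ?_⟩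
      · apply mul_self_eq_one_iff.mp
        linear_combination (-(M a ^ 2) - M b ^ 2) * s1 - m2 - (-E a * M a - E b * M b) * m3
      · linear_combination M a * s1 + (-E a) * m3
      · linear_combination M b * s1 + (-E b) * m3
    obtain ⟨κ, hk, k1, k2⟩ := hκ N hNj s2 s3
    obtain ⟨κ', hk', k1', k2'⟩ := hκ N' hNj' s4 s5
    by_cases hkk : κ = κ'
    · left
      have hNN : ∀ i, N' i = N i := by
        intro i
        rcases hall i with rfl | rfl | rfl
        · rw [hNj, hNj']
        · rw [k1, k1', hkk]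
        · rw [k2, k2', hkk]
      intro x
      congr 1
      rw [eq_P p e0 e1 he x]
      ext i
      rw [affE, affE', hEE', hNN, hp]
    · right
      have hκκ : κ' = -κ := by
        rcases hk with g1 | g1 <;> rcases hk' with g2 | g2
        · exact absurd (g1.trans g2.symm) hkk
        · rw [g1, g2]
        · rw [g1, g2]; norm_num
        · exact absurd (g1.trans g2.symm) hkk
      have hNN : ∀ i, N' i = -N i := by
        intro i
        rcases hall i with rfl | rfl | rfl
        · rw [hNj, hNj']; ring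
        · rw [k1, k1', hκκ]; ring
        · rw [k2, k2', hκκ]; ring
      intro s t
      ext i
      rw [affE, affE', hEE', hNN, hp]
      ring
  · left
    obtain ⟨d, hsum⟩ := third j j' hjj
    have s1 := hsum (fun i => E i ^ 2)
    have s2 := hsum (fun i => N i ^ 2)
    have s3 := hsum (fun i => E i * N i)
    have s4 := hsum (fun i => N' i ^ 2)
    have s5 := hsum (fun i => E i * N' i)
    simp only [EE, NN, EN, NN', EN', hEj, hNj, hNj', hEj'] at s1 s2 s3 s4 s5
    have hEd : E d ^ 2 = 1 := by linarith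
    have hEd0 : E d ≠ 0 := by
      intro hc; rw [hc] at hEd; norm_num at hEd
    have hNd : N d = 0 := by
      have : E d * N d = 0 := by linarith
      exact (mul_eq_zero.mp this).resolve_left hEd0
    have hNd' : N' d = 0 := by
      have : E d * N' d = 0 := by linarith
      exact (mul_eq_zero.mp this).resolve_left hEd0
    have hN1 : N j' ^ 2 = 1 := by rw [hNd] at s2; linarith
    have hN1' : N' j ^ 2 = 1 := by rw [hNd'] at s4; linarith
    have c1 : aff y u w p j = 0 ∨ aff y u w p j = l := by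
      rw [aff_apply, huj, hwj]; simpa using hyj
    have c2 : aff y u w p j' = 0 ∨ aff y u w p j' = l := by
      rw [hp, aff_apply, huj', hwj']; simpa using hyj'
    intro x
    rw [eq_P p e0 e1 he x]
    generalize (x 0 - p 0) * e0 + (x 1 - p 1) * e1 = s
    generalize -(x 0 - p 0) * e1 + (x 1 - p 1) * e0 = t
    unfold hh
    have q1 := hsum (fun i => Real.cos (2 * Real.pi * (aff y u w (P p e0 e1 s t) i / l)))
    have q2 := hsum (fun i => Real.cos (2 * Real.pi * (aff y' u' w' (P p e0 e1 s t) i / l)))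
    simp only at q1 q2
    rw [q1, q2]
    simp only [affE, affE', hEE', ← hp, hEj, hNj, hEj', hNj', hNd, hNd', mul_zero, add_zero]
    have f1 := cos_shift l _ 0 1 hl.ne' c1 (by norm_num)
    have f2 := cos_shift l _ 0 1 hl.ne' c2 (by norm_num)
    have f3 := cos_shift l _ t (N j') hl.ne' c2 hN1
    have f4 := cos_shift l _ t (N' j) hl.ne' c1 hN1'
    simp only [zero_mul, add_zero] at f1 f2
    rw [f1, f2, f3, f4]
    ring

/-- a convex set containing two points and a point off their line contains small half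
neighbourhoods of the midpoint -/
lemma half_nbhd (D : Set Plane) (hD : Convex ℝ D) (p : Plane) (e0 e1 r : ℝ) (hr : 0 < r)
    (h0 : p ∈ D) (h1 : P p e0 e1 r 0 ∈ D) (su tu : ℝ) (htu : tu ≠ 0)
    (hu : P p e0 e1 su tu ∈ D) :
    ∃ τ : ℝ, 0 < τ ∧ ∀ t, 0 ≤ t → t < τ → P p e0 e1 (r / 2) (t * SignType.sign tu) ∈ D := by
  set σ : ℝ := ((SignType.sign tu : SignType) : ℝ) with hσ
  have hσtu : σ * |tu| = tu := by rw [hσ]; exact sign_mul_abs tu
  have htu' : 0 < |tu| := abs_pos.mpr htu
  -- λ = t / |tu|, third weight λ, the others (1 - λ)/2 ± λ (r/2 - su)/r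
  set M := |r / 2 - su| / r with hM
  have hM0 : 0 ≤ M := by positivity
  refine ⟨|tu| / (2 * (M + 1)), by positivity, ?_⟩
  intro t ht0 ht
  set lam := t / |tu| with hlam
  have hlam0 : 0 ≤ lam := by positivity
  have hlam1 : lam * (2 * (M + 1)) < 1 := by
    rw [hlam, div_mul_eq_mul_div, div_lt_one htu']
    rwa [lt_div_iff₀ (by positivity)] at ht
  have hb : |(r / 2 - su) / r| = M := by rw [abs_div, abs_of_pos hr]
  have hb' := abs_le.mp hb.le
  set B := (r / 2 - su) / r with hB
  -- weights: on p: (1-λ) - μ, on q: μ, with μ r + λ su = r/2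
  set μ := 1 / 2 - lam * (su / r) with hμ
  have hsu : su / r = 1 / 2 - B := by rw [hB]; field_simp; ring
  have hμ0 : 0 ≤ μ := by
    rw [hμ, hsu]
    nlinarith [mul_nonneg hlam0 hM0, mul_le_mul_of_nonneg_left hb'.1 hlam0]
  have hν0 : 0 ≤ 1 - lam - μ := by
    rw [hμ, hsu]
    nlinarith [mul_nonneg hlam0 hM0, mul_le_mul_of_nonneg_left hb'.2 hlam0]
  have key : P p e0 e1 (r / 2) (t * σ) = (1 - lam - μ) • p + μ • P p e0 e1 r 0 +
      lam • P p e0 e1 su tu := by
    have hμr : μ * r + lam * su = r / 2 := by rw [hμ]; field_simp; ring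
    have hlt : lam * tu = t * σ := by
      rw [hlam, div_mul_eq_mul_div, div_eq_iff htu'.ne']
      rw [mul_assoc, hσtu]
    ext i
    fin_cases i
    · change P _ _ _ _ _ 0 = (1 - lam - μ) * p 0 + μ * P _ _ _ _ _ 0 + lam * P _ _ _ _ _ 0
      rw [P0, P0, P0]
      linear_combination -e0 * hμr + e1 * hlt
    · change P _ _ _ _ _ 1 = (1 - lam - μ) * p 1 + μ * P _ _ _ _ _ 1 + lam * P _ _ _ _ _ 1
      rw [P1, P1, P1]
      linear_combination -e1 * hμr - e0 * hlt
  rw [key]
  have := hD.sum_mem (t := Finset.univ) (w := ![1 - lam - μ, μ, lam])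
    (z := ![p, P p e0 e1 r 0, P p e0 e1 su tu])
    (by
      intro i _
      fin_cases i
      · exact hν0
      · exact hμ0
      · exact hlam0) (by simp [Fin.sum_univ_three])
    (by
      intro i _
      fin_cases i
      · exact h0
      · exact h1
      · exact hu)
  simpa [Fin.sum_univ_three] using this

end Pool.Agent.Q228.Rep
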