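import Mathlib
import Pool.Agent.Helper697.RepDefs

/-!
# Foldings of polyominoes to cubes: the pieces and the cosine function
-/

set_option autoImplicit false

namespace Pool.Agent.Q228.Rep

open Pool.Agent.Helper697.Rep MeasureTheory

lemma dist_sq2 (p q : Plane) : dist p q ^ 2 = (p 0 - q 0) ^ 2 + (p 1 - q 1) ^ 2 := by
  rw [EuclideanSpace.dist_eq, Real.sq_sqrt (by positivity), Fin.sum_univ_two]
  simp only [Real.dist_eq, sq_abs]

lemma dist_sq3 (p q : Space) :
    dist p q ^ 2 = (p 0 - q 0) ^ 2 + (p 1 - q 1) ^ 2 + (p 2 - q 2) ^ 2 := by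
  rw [EuclideanSpace.dist_eq, Real.sq_sqrt (by positivity), Fin.sum_univ_three]
  simp only [Real.dist_eq, sq_abs]

/-- orthonormal pairs -/
structure Ortho (u w : Space) : Prop where
  uu : u 0 ^ 2 + u 1 ^ 2 + u 2 ^ 2 = 1
  ww : w 0 ^ 2 + w 1 ^ 2 + w 2 ^ 2 = 1
  uw : u 0 * w 0 + u 1 * w 1 + u 2 * w 2 = 0

/-- affine isometric parametrisation of a plane -/
noncomputable def aff (y u w : Space) (x : Plane) : Space := y + x 0 • u + x 1 • w

lemma aff_apply (y u w : Space) (x : Plane) (i : Fin 3) :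
    aff y u w x i = y i + x 0 * u i + x 1 * w i := by
  simp [aff]

lemma aff_dist {y u w : Space} (h : Ortho u w) (x x' : Plane) :
    dist (aff y u w x) (aff y u w x') = dist x x' := by
  have : dist (aff y u w x) (aff y u w x') ^ 2 = dist x x' ^ 2 := by
    rw [dist_sq2, dist_sq3]
    simp only [aff_apply]
    linear_combination (x 0 - x' 0) ^ 2 * h.uu + (x 1 - x' 1) ^ 2 * h.ww +
      2 * (x 0 - x' 0) * (x 1 - x' 1) * h.uw
  exact (pow_left_inj₀ dist_nonneg dist_nonneg two_ne_zero).mp this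

/-- an isometric map on a set containing a small right triangle is affine -/
lemma ext_aff (f : Plane → Space) (D : Set Plane) (p0 : Plane) (δ : ℝ) (hδ : 0 < δ)
    (h0 : p0 ∈ D) (h1 : p0 + !₂[δ, 0] ∈ D) (h2 : p0 + !₂[0, δ] ∈ D)
    (hf : ∀ x ∈ D, ∀ y ∈ D, dist (f x) (f y) = dist x y) :
    ∃ y u w : Space, Ortho u w ∧ ∀ x ∈ D, f x = aff y u w x := by
  set p1 := p0 + !₂[δ, 0] with hp1
  set p2 := p0 + !₂[0, δ] with hp2
  have a10 : p1 0 = p0 0 + δ := by simp [hp1]
  have a11 : p1 1 = p0 1 := by simp [hp1]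
  have a20 : p2 0 = p0 0 := by simp [hp2]
  have a21 : p2 1 = p0 1 + δ := by simp [hp2]
  have hδ' := hδ.ne'
  let u : Space := (1 / δ) • (f p1 - f p0)
  let w : Space := (1 / δ) • (f p2 - f p0)
  have hu : ∀ i, u i * δ = f p1 i - f p0 i := by
    intro i; simp only [u, PiLp.smul_apply, PiLp.sub_apply, smul_eq_mul]; field_simp
  have hw : ∀ i, w i * δ = f p2 i - f p0 i := by
    intro i; simp only [w, PiLp.smul_apply, PiLp.sub_apply, smul_eq_mul]; field_simp
  have key : ∀ x ∈ D, ∀ y ∈ D, (f x 0 - f y 0) ^ 2 + (f x 1 - f y 1) ^ 2 + (f x 2 - f y 2) ^ 2 =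
      (x 0 - y 0) ^ 2 + (x 1 - y 1) ^ 2 := by
    intro x hx y hy
    rw [← dist_sq3, ← dist_sq2, hf x hx y hy]
  have e10 := key p1 h1 p0 h0
  have e20 := key p2 h2 p0 h0
  have e12 := key p1 h1 p2 h2
  rw [a10, a11] at e10
  rw [a20, a21] at e20
  rw [a10, a11, a20, a21] at e12
  have huu : u 0 ^ 2 + u 1 ^ 2 + u 2 ^ 2 = 1 := by
    have : (u 0 ^ 2 + u 1 ^ 2 + u 2 ^ 2) * δ ^ 2 = 1 * δ ^ 2 := by
      have b0 := hu 0
      have b1 := hu 1
      have b2 := hu 2
      calc (u 0 ^ 2 + u 1 ^ 2 + u 2 ^ 2) * δ ^ 2 = (u 0 * δ) ^ 2 + (u 1 * δ) ^ 2 + (u 2 * δ) ^ 2 := by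
            ring
        _ = 1 * δ ^ 2 := by rw [b0, b1, b2]; linarith
    exact mul_right_cancel₀ (pow_ne_zero 2 hδ') this
  have hww : w 0 ^ 2 + w 1 ^ 2 + w 2 ^ 2 = 1 := by
    have : (w 0 ^ 2 + w 1 ^ 2 + w 2 ^ 2) * δ ^ 2 = 1 * δ ^ 2 := by
      have b0 := hw 0
      have b1 := hw 1
      have b2 := hw 2
      calc (w 0 ^ 2 + w 1 ^ 2 + w 2 ^ 2) * δ ^ 2 = (w 0 * δ) ^ 2 + (w 1 * δ) ^ 2 + (w 2 * δ) ^ 2 := by
            ring
        _ = 1 * δ ^ 2 := by rw [b0, b1, b2]; linarith
    exact mul_right_cancel₀ (pow_ne_zero 2 hδ') this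
  have huw : u 0 * w 0 + u 1 * w 1 + u 2 * w 2 = 0 := by
    have : (u 0 * w 0 + u 1 * w 1 + u 2 * w 2) * δ ^ 2 = 0 := by
      calc (u 0 * w 0 + u 1 * w 1 + u 2 * w 2) * δ ^ 2 =
            (u 0 * δ) * (w 0 * δ) + (u 1 * δ) * (w 1 * δ) + (u 2 * δ) * (w 2 * δ) := by ring
        _ = 0 := by
            rw [hu, hu, hu, hw, hw, hw]
            linear_combination (e10 + e20 - e12) / 2
    exact (mul_eq_zero.mp this).resolve_right (pow_ne_zero 2 hδ')
  refine ⟨f p0 - p0 0 • u - p0 1 • w, u, w, ⟨huu, hww, huw⟩, ?_⟩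
  intro x hx
  set a := x 0 - p0 0 with ha
  set b := x 1 - p0 1 with hb
  have k0 := key x hx p0 h0
  have k1 := key x hx p1 h1
  have k2 := key x hx p2 h2
  rw [a10, a11] at k1
  rw [a20, a21] at k2
  have c0 := hu 0
  have c1 := hu 1
  have c2 := hu 2
  have d0 := hw 0
  have d1 := hw 1
  have d2 := hw 2
  set F0 := f x 0 - f p0 0 with hF0
  set F1 := f x 1 - f p0 1 with hF1
  set F2 := f x 2 - f p0 2 with hF2
  have g10 : f x 0 - f p1 0 = F0 - u 0 * δ := by rw [c0]; ring
  have g11 : f x 1 - f p1 1 = F1 - u 1 * δ := by rw [c1]; ring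
  have g12 : f x 2 - f p1 2 = F2 - u 2 * δ := by rw [c2]; ring
  have g20 : f x 0 - f p2 0 = F0 - w 0 * δ := by rw [d0]; ring
  have g21 : f x 1 - f p2 1 = F1 - w 1 * δ := by rw [d1]; ring
  have g22 : f x 2 - f p2 2 = F2 - w 2 * δ := by rw [d2]; ring
  rw [g10, g11, g12] at k1
  rw [g20, g21, g22] at k2
  have r1 : x 0 - (p0 0 + δ) = a - δ := by rw [ha]; ring
  have r2 : x 1 - (p0 1 + δ) = b - δ := by rw [hb]; ring
  rw [r1, ← hb] at k1
  rw [r2, ← ha] at k2
  have hFu : F0 * u 0 + F1 * u 1 + F2 * u 2 = a := by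
    have : (F0 * u 0 + F1 * u 1 + F2 * u 2) * (2 * δ) = a * (2 * δ) := by
      linear_combination k0 - k1 + δ ^ 2 * huu
    exact mul_right_cancel₀ (by positivity) this
  have hFw : F0 * w 0 + F1 * w 1 + F2 * w 2 = b := by
    have : (F0 * w 0 + F1 * w 1 + F2 * w 2) * (2 * δ) = b * (2 * δ) := by
      linear_combination k0 - k2 + δ ^ 2 * hww
    exact mul_right_cancel₀ (by positivity) this
  have hz : (F0 - a * u 0 - b * w 0) ^ 2 + (F1 - a * u 1 - b * w 1) ^ 2 +
      (F2 - a * u 2 - b * w 2) ^ 2 = 0 := by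
    linear_combination k0 + a ^ 2 * huu + b ^ 2 * hww + 2 * a * b * huw - 2 * a * hFu - 2 * b * hFw
  have z0 : F0 - a * u 0 - b * w 0 = 0 := by
    have := sq_nonneg (F0 - a * u 0 - b * w 0)
    have := sq_nonneg (F1 - a * u 1 - b * w 1)
    have := sq_nonneg (F2 - a * u 2 - b * w 2)
    have : (F0 - a * u 0 - b * w 0) ^ 2 = 0 := by linarith
    exact pow_eq_zero_iff two_ne_zero |>.mp this
  have z1 : F1 - a * u 1 - b * w 1 = 0 := by
    have := sq_nonneg (F0 - a * u 0 - b * w 0)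
    have := sq_nonneg (F1 - a * u 1 - b * w 1)
    have := sq_nonneg (F2 - a * u 2 - b * w 2)
    have : (F1 - a * u 1 - b * w 1) ^ 2 = 0 := by linarith
    exact pow_eq_zero_iff two_ne_zero |>.mp this
  have z2 : F2 - a * u 2 - b * w 2 = 0 := by
    have := sq_nonneg (F0 - a * u 0 - b * w 0)
    have := sq_nonneg (F1 - a * u 1 - b * w 1)
    have := sq_nonneg (F2 - a * u 2 - b * w 2)
    have : (F2 - a * u 2 - b * w 2) ^ 2 = 0 := by linarith
    exact pow_eq_zero_iff two_ne_zero |>.mp this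
  ext i
  rw [aff_apply]
  simp only [PiLp.sub_apply, PiLp.smul_apply, smul_eq_mul]
  fin_cases i
  · change f x 0 = f p0 0 - p0 0 * u 0 - p0 1 * w 0 + x 0 * u 0 + x 1 * w 0
    rw [hF0] at z0; rw [ha, hb] at z0; linear_combination z0
  · change f x 1 = f p0 1 - p0 0 * u 1 - p0 1 * w 1 + x 0 * u 1 + x 1 * w 1
    rw [hF1] at z1; rw [ha, hb] at z1; linear_combination z1
  · change f x 2 = f p0 2 - p0 0 * u 2 - p0 1 * w 2 + x 0 * u 2 + x 1 * w 2
    rw [hF2] at z2; rw [ha, hb] at z2; linear_combination z2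

/-- a set with nonempty interior contains a small right triangle -/
lemma exists_triangle (D : Set Plane) (h : (interior D).Nonempty) :
    ∃ p0 : Plane, ∃ δ : ℝ, 0 < δ ∧ p0 ∈ D ∧ p0 + !₂[δ, 0] ∈ D ∧ p0 + !₂[0, δ] ∈ D := by
  obtain ⟨p0, hp0⟩ := h
  obtain ⟨ε, hε, hball⟩ := Metric.isOpen_iff.1 isOpen_interior p0 hp0
  refine ⟨p0, ε / 2, by positivity, interior_subset hp0, ?_, ?_⟩
  · apply interior_subset
    apply hball
    rw [Metric.mem_ball]
    apply lt_of_pow_lt_pow_left₀ 2 hε.le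
    rw [dist_sq2]
    simp
    nlinarith
  · apply interior_subset
    apply hball
    rw [Metric.mem_ball]
    apply lt_of_pow_lt_pow_left₀ 2 hε.le
    rw [dist_sq2]
    simp
    nlinarith

/-- lines are null sets -/
lemma vol_line (a b c : ℝ) (h : a ≠ 0 ∨ b ≠ 0) :
    volume {x : Plane | a * x 0 + b * x 1 = c} = 0 := by
  rcases Set.eq_empty_or_nonempty {x : Plane | a * x 0 + b * x 1 = c} with h0 | ⟨x0, hx0⟩
  · rw [h0]; simp
  let L : Plane →ₗ[ℝ] ℝ :=
    { toFun := fun x => a * x 0 + b * x 1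
      map_add' := fun x y => by simp; ring
      map_smul' := fun r x => by simp; ring }
  have hker : LinearMap.ker L ≠ ⊤ := by
    intro hc
    have h1 : L !₂[1, 0] = 0 := by
      have : (!₂[1, 0] : Plane) ∈ LinearMap.ker L := by rw [hc]; trivial
      exact this
    have h2 : L !₂[0, 1] = 0 := by
      have : (!₂[0, 1] : Plane) ∈ LinearMap.ker L := by rw [hc]; trivial
      exact this
    simp [L] at h1 h2
    rcases h with h | h
    · exact h h1
    · exact h h2
  have h1 := Measure.addHaar_submodule (volume : Measure Plane) _ hker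
  have h2 : {x : Plane | a * x 0 + b * x 1 = c} = (fun x => x - x0) ⁻¹' (LinearMap.ker L : Set Plane) := by
    ext x
    simp only [Set.mem_ofPred_eq, Set.mem_preimage, SetLike.mem_coe, LinearMap.mem_ker]
    have hx0' : a * x0 0 + b * x0 1 = c := hx0
    change _ ↔ a * (x - x0) 0 + b * (x - x0) 1 = 0
    simp only [PiLp.sub_apply]
    constructor <;> intro h <;> linarith
  rw [h2]
  have h3 := measure_preimage_add_right (volume : Measure Plane) (-x0)
    (LinearMap.ker L : Set Plane)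
  simp only [← sub_eq_add_neg] at h3
  rw [h3]
  exact h1

/-- the map `aff y u w` stays in a face plane of the cube of edge `l` -/
def InFace (l : ℝ) (y u w : Space) : Prop :=
  ∃ j : Fin 3, u j = 0 ∧ w j = 0 ∧ (y j = 0 ∨ y j = l)

lemma inFace_of (l : ℝ) (y u w : Space) (D : Set Plane) (hD : (interior D).Nonempty)
    (hS : ∀ x ∈ D, aff y u w x ∈ cubeSurface l) : InFace l y u w := by
  by_contra hcon
  have hcon' : ∀ j, (u j ≠ 0 ∨ w j ≠ 0) ∨ (y j ≠ 0 ∧ y j ≠ l) := by
    intro j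
    by_contra hj
    push Not at hj
    apply hcon
    refine ⟨j, hj.1.1, hj.1.2, ?_⟩
    by_cases h : y j = 0
    · exact Or.inl h
    · exact Or.inr (hj.2 h)
  -- for each `j` the set where the `j`-th coordinate is `0` or `l` is null
  have hnull : ∀ (j : Fin 3) (c : ℝ), (c = 0 ∨ c = l) →
      volume {x : Plane | aff y u w x j = c} = 0 := by
    intro j c hc
    rcases hcon' j with h | ⟨h1, h2⟩
    · have e : {x : Plane | aff y u w x j = c} = {x : Plane | u j * x 0 + w j * x 1 = c - y j} := by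
        ext x
        simp only [Set.mem_ofPred_eq, aff_apply]
        constructor <;> intro h <;> linarith
      rw [e]
      exact vol_line _ _ _ h
    · by_cases huw : u j ≠ 0 ∨ w j ≠ 0
      · have e : {x : Plane | aff y u w x j = c} =
            {x : Plane | u j * x 0 + w j * x 1 = c - y j} := by
          ext x
          simp only [Set.mem_ofPred_eq, aff_apply]
          constructor <;> intro h <;> linarith
        rw [e]
        exact vol_line _ _ _ huw
      · push Not at huw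
        have e : {x : Plane | aff y u w x j = c} = ∅ := by
          ext x
          simp only [Set.mem_ofPred_eq, aff_apply, huw.1, huw.2, mul_zero, add_zero,
            Set.mem_empty_iff_false, iff_false]
          rcases hc with hc | hc
          · rw [hc]; exact h1
          · rw [hc]; exact h2
        rw [e]; simp
  have hsub : interior D ⊆ ⋃ j : Fin 3, ({x : Plane | aff y u w x j = 0} ∪
      {x : Plane | aff y u w x j = l}) := by
    intro x hx
    obtain ⟨-, i, hi⟩ := hS x (interior_subset hx)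
    rw [Set.mem_iUnion]
    exact ⟨i, hi⟩
  have h0 : volume (interior D) = 0 := by
    apply measure_mono_null hsub
    rw [measure_iUnion_null_iff]
    intro j
    exact measure_union_null (hnull j 0 (Or.inl rfl)) (hnull j l (Or.inr rfl))
  have := isOpen_interior.measure_pos (volume : Measure Plane) hD
  exact this.ne' h0

/-- the cosine function -/
noncomputable def hh (l : ℝ) (z : Space) : ℝ :=
  Real.cos (2 * Real.pi * (z 0 / l)) + Real.cos (2 * Real.pi * (z 1 / l)) +
    Real.cos (2 * Real.pi * (z 2 / l)) - 1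

lemma third (j j' : Fin 3) (h : j ≠ j') : ∃ d : Fin 3, ∀ g : Fin 3 → ℝ,
    g 0 + g 1 + g 2 = g j + g j' + g d := by
  fin_cases j <;> fin_cases j' <;> first | exact absurd rfl h | skip
  · exact ⟨2, fun g => by simp⟩
  · exact ⟨1, fun g => by simp; ring⟩
  · exact ⟨2, fun g => by simp; ring⟩
  · exact ⟨0, fun g => by simp; ring⟩
  · exact ⟨1, fun g => by simp; ring⟩
  · exact ⟨0, fun g => by simp; ring⟩

lemma cos_shift (l c t ν : ℝ) (hl : l ≠ 0) (hc : c = 0 ∨ c = l) (hν : ν ^ 2 = 1) :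
    Real.cos (2 * Real.pi * ((c + t * ν) / l)) = Real.cos (2 * Real.pi * (t / l)) := by
  have h1 : Real.cos (2 * Real.pi * ((t * ν) / l)) = Real.cos (2 * Real.pi * (t / l)) := by
    have hν' : ν = 1 ∨ ν = -1 := mul_self_eq_one_iff.mp (by rw [← pow_two]; exact hν)
    rcases hν' with h | h
    · rw [h, mul_one]
    · rw [h]
      have : 2 * Real.pi * (t * -1 / l) = -(2 * Real.pi * (t / l)) := by ring
      rw [this, Real.cos_neg]
  rcases hc with hc | hc
  · rw [hc, zero_add]; exact h1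
  · rw [hc]
    have : 2 * Real.pi * ((l + t * ν) / l) = 2 * Real.pi * ((t * ν) / l) + 2 * Real.pi := by
      field_simp
      ring
    rw [this, Real.cos_add_two_pi]
    exact h1

end Pool.Agent.Q228.Rep
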