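import Pool.Agent.Q228.Rep.GrowN

/-!
# Verification of rep-cubes from data
-/

set_option autoImplicit false

namespace Pool.Agent.Q228.Rep

open Pool.Agent.Helper697.Rep

/-! ### No holes -/

section holes

variable {P : Finset (ℤ × ℤ)}

def Out (P : Finset (ℤ × ℤ)) (a b : ℤ × ℤ) : Prop := a ∉ P ∧ b ∉ P ∧ EdgeAdj a b

lemma out_symm {a b : ℤ × ℤ} (h : Out P a b) : Out P b a := by
  refine ⟨h.2.1, h.1, ?_⟩
  have := h.2.2
  unfold EdgeAdj at *
  rw [abs_sub_comm b.1, abs_sub_comm b.2]; exact this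

lemma outs_symm {a b : ℤ × ℤ} (h : Relation.ReflTransGen (Out P) a b) :
    Relation.ReflTransGen (Out P) b a := by
  induction h with
  | refl => exact Relation.ReflTransGen.refl
  | tail _ hbc ih => exact Relation.ReflTransGen.head (out_symm hbc) ih

lemma run {g : ℕ → ℤ × ℤ} (hg : ∀ n, g n ∉ P) (hadj : ∀ n, EdgeAdj (g n) (g (n + 1))) (n : ℕ) :
    Relation.ReflTransGen (Out P) (g 0) (g n) := by
  induction n with
  | zero => exact Relation.ReflTransGen.refl
  | succ n ih => exact ih.tail ⟨hg n, hg (n + 1), hadj n⟩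

variable {x0 x1 y0 y1 : ℤ} (hbox : ∀ c ∈ P, (x0 < c.1 ∧ c.1 < x1) ∧ y0 < c.2 ∧ c.2 < y1)

include hbox

lemma runX1 {x y : ℤ} (hx : x1 ≤ x) : Relation.ReflTransGen (Out P) (x1, y) (x, y) := by
  have h := run (P := P) (g := fun n : ℕ => (x1 + n, y))
    (fun n hc => by have := hbox _ hc; simp only at this; omega)
    (fun n => by simp only [EdgeAdj]; push_cast; ring_nf; simp) (x - x1).toNat
  rw [Int.toNat_of_nonneg (by omega)] at h
  simpa using h

lemma runX0 {x y : ℤ} (hx : x ≤ x0) : Relation.ReflTransGen (Out P) (x0, y) (x, y) := by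
  have h := run (P := P) (g := fun n : ℕ => (x0 - n, y))
    (fun n hc => by have := hbox _ hc; simp only at this; omega)
    (fun n => by simp only [EdgeAdj]; push_cast; ring_nf; simp) (x0 - x).toNat
  rw [Int.toNat_of_nonneg (by omega)] at h
  simpa using h

lemma runY1 {x y : ℤ} (hy : y1 ≤ y) : Relation.ReflTransGen (Out P) (x, y1) (x, y) := by
  have h := run (P := P) (g := fun n : ℕ => (x, y1 + n))
    (fun n hc => by have := hbox _ hc; simp only at this; omega)
    (fun n => by simp only [EdgeAdj]; push_cast; ring_nf; simp) (y - y1).toNat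
  rw [Int.toNat_of_nonneg (by omega)] at h
  simpa using h

lemma runY0 {x y : ℤ} (hy : y ≤ y0) : Relation.ReflTransGen (Out P) (x, y0) (x, y) := by
  have h := run (P := P) (g := fun n : ℕ => (x, y0 - n))
    (fun n hc => by have := hbox _ hc; simp only at this; omega)
    (fun n => by simp only [EdgeAdj]; push_cast; ring_nf; simp) (y0 - y).toNat
  rw [Int.toNat_of_nonneg (by omega)] at h
  simpa using h

lemma to_box (hx : x0 ≤ x1) (hy : y0 ≤ y1) (c : ℤ × ℤ) (hc : c ∉ P) :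
    ∃ d, d ∉ P ∧ (x0 ≤ d.1 ∧ d.1 ≤ x1) ∧ (y0 ≤ d.2 ∧ d.2 ≤ y1) ∧
      Relation.ReflTransGen (Out P) d c := by
  obtain ⟨x, y⟩ := c
  have nx1 : ∀ y, (x1, y) ∉ P := fun y h => by have := hbox _ h; simp only at this; omega
  have nx0 : ∀ y, (x0, y) ∉ P := fun y h => by have := hbox _ h; simp only at this; omega
  have ny1 : ∀ x, (x, y1) ∉ P := fun y h => by have := hbox _ h; simp only at this; omega
  have ny0 : ∀ x, (x, y0) ∉ P := fun y h => by have := hbox _ h; simp only at this; omega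
  rcases le_or_gt x1 x with h1 | h1
  · have p1 := runX1 hbox (y := y) h1
    rcases le_or_gt y1 y with h2 | h2
    · exact ⟨(x1, y1), nx1 _, ⟨hx, le_rfl⟩, ⟨hy, le_rfl⟩, (runY1 hbox h2).trans p1⟩
    · rcases le_or_gt y y0 with h3 | h3
      · exact ⟨(x1, y0), nx1 _, ⟨hx, le_rfl⟩, ⟨le_rfl, hy⟩, (runY0 hbox h3).trans p1⟩
      · exact ⟨(x1, y), nx1 _, ⟨hx, le_rfl⟩, ⟨h3.le, h2.le⟩, p1⟩
  · rcases le_or_gt x x0 with h0 | h0
    · have p1 := runX0 hbox (y := y) h0
      rcases le_or_gt y1 y with h2 | h2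
      · exact ⟨(x0, y1), nx0 _, ⟨le_rfl, hx⟩, ⟨hy, le_rfl⟩, (runY1 hbox h2).trans p1⟩
      · rcases le_or_gt y y0 with h3 | h3
        · exact ⟨(x0, y0), nx0 _, ⟨le_rfl, hx⟩, ⟨le_rfl, hy⟩, (runY0 hbox h3).trans p1⟩
        · exact ⟨(x0, y), nx0 _, ⟨le_rfl, hx⟩, ⟨h3.le, h2.le⟩, p1⟩
    · rcases le_or_gt y1 y with h2 | h2
      · exact ⟨(x, y1), ny1 _, ⟨h0.le, h1.le⟩, ⟨hy, le_rfl⟩, runY1 hbox h2⟩
      · rcases le_or_gt y y0 with h3 | h3
        · exact ⟨(x, y0), ny0 _, ⟨h0.le, h1.le⟩, ⟨le_rfl, hy⟩, runY0 hbox h3⟩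
        · exact ⟨(x, y), hc, ⟨h0.le, h1.le⟩, ⟨h3.le, h2.le⟩, Relation.ReflTransGen.refl⟩

end holes

/-- the check for holes: `C` lists the squares of the box `[x0, x0 + m] × [y0, y0 + n]` outside
`L` -/
def holeM (L C : List ℕ) (x0 y0 m n : ℕ) : Bool :=
  (L.all fun c => (Nat.blt x0 (Nat.div c 64) && Nat.blt (Nat.div c 64) (Nat.add x0 m)) &&
    (Nat.blt y0 (Nat.mod c 64) && Nat.blt (Nat.mod c 64) (Nat.add y0 n))) &&
  (connL C && (Nat.beq (Nat.land (maskOf L) (maskOf C)) 0 &&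
  (Nat.ble (Nat.add y0 n) 63 && force (Nat.lor (maskOf L) (maskOf C)) fun M =>
    (List.range (m + 1)).all fun i => (List.range (n + 1)).all fun j =>
      bt M (64 * (x0 + i) + (y0 + j)))))

lemma noHoles_of {L C : List ℕ} {x0 y0 : ℕ} {m n : ℕ} (h : holeM L C x0 y0 m n = true) :
    NoHoles (decL L) := by
  simp only [holeM, Bool.and_eq_true, List.all_eq_true, Nat.ble_eq, force_eq, bt_eq,
    List.mem_range, nbeq_iff, Nat.blt_eq] at h
  obtain ⟨h1, h2, h3, h5, h4⟩ := h
  have h3' : (maskOf L) &&& (maskOf C) = 0 := h3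
  have hbox : ∀ c ∈ decL L, ((x0 : ℤ) < c.1 ∧ c.1 < (x0 : ℤ) + m) ∧
      (y0 : ℤ) < c.2 ∧ c.2 < (y0 : ℤ) + n := by
    intro c hc
    obtain ⟨k, hk, rfl⟩ := mem_decL.mp hc
    obtain ⟨⟨a1, a2⟩, a3, a4⟩ := h1 k hk
    have a1' : x0 < k / 64 := a1
    have a2' : k / 64 < x0 + m := a2
    have a3' : y0 < k % 64 := a3
    have a4' : k % 64 < y0 + n := a4
    simp only [dec]
    omega
  have hC : ∀ c ∈ C, c ∉ L := by
    intro c hc hcL
    have h6 : ((maskOf L) &&& (maskOf C)).testBit c = true := by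
      rw [Nat.testBit_and, Bool.and_eq_true, testBit_maskOf, testBit_maskOf]
      exact ⟨hcL, hc⟩
    rw [h3'] at h6
    simp at h6
  have hin : ∀ d : ℤ × ℤ, d ∉ decL L → ((x0 : ℤ) ≤ d.1 ∧ d.1 ≤ (x0 : ℤ) + m) →
      ((y0 : ℤ) ≤ d.2 ∧ d.2 ≤ (y0 : ℤ) + n) → ∃ k ∈ C, dec k = d := by
    rintro ⟨x, y⟩ hd ⟨a1, a2⟩ ⟨a3, a4⟩
    simp only at a1 a2 a3 a4
    have h5' : y0 + n ≤ 63 := h5
    have := h4 (x - x0).toNat (by omega) (y - y0).toNat (by omega)
    change ((maskOf L) ||| (maskOf C)).testBit _ = true at this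
    rw [Nat.testBit_or, Bool.or_eq_true, testBit_maskOf, testBit_maskOf] at this
    have e : dec (64 * (x0 + (x - x0).toNat) + (y0 + (y - y0).toNat)) = (x, y) := by
      have e1 : (64 * (x0 + (x - x0).toNat) + (y0 + (y - y0).toNat)) / 64 =
          x0 + (x - x0).toNat := by omega
      have e2 : (64 * (x0 + (x - x0).toNat) + (y0 + (y - y0).toNat)) % 64 =
          y0 + (y - y0).toNat := by omega
      simp only [dec]
      rw [e1, e2]
      ext
      · simp only; omega
      · simp only; omega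
    rcases this with h | h
    · exact absurd (by rw [← e]; exact dec_mem_decL.mpr h) hd
    · exact ⟨_, h, e⟩
  have hCC : ∀ c ∈ C, ∀ d ∈ C, Relation.ReflTransGen (Out (decL L)) (dec c) (dec d) := by
    intro c hc d hd
    have := connL_spec (P := decL C) h2 (fun c hc => dec_mem_decL.mpr hc) c hc d hd
    refine Relation.ReflTransGen.mono ?_ _ _ this
    rintro a b ⟨ha, hb, hab⟩
    obtain ⟨a', ha', rfl⟩ := mem_decL.mp ha
    obtain ⟨b', hb', rfl⟩ := mem_decL.mp hb
    exact ⟨fun h => hC a' ha' (dec_mem_decL.mp h), fun h => hC b' hb' (dec_mem_decL.mp h), hab⟩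
  intro c hc d hd
  have hm : (x0 : ℤ) ≤ x0 + m := by omega
  have hn : (y0 : ℤ) ≤ y0 + n := by omega
  obtain ⟨c', c1, c2, c3, c4⟩ := to_box hbox hm hn c hc
  obtain ⟨d', d1, d2, d3, d4⟩ := to_box hbox hm hn d hd
  obtain ⟨c'', c5, rfl⟩ := hin c' c1 c2 c3
  obtain ⟨d'', d5, rfl⟩ := hin d' d1 d2 d3
  exact ((outs_symm c4).trans (hCC c'' c5 d'' d5)).trans d4

/-! ### Partitions -/

lemma partition_of_list (L : List (List (ℤ × ℤ))) (h1 : L.flatten.Nodup)
    (h2 : ∀ l ∈ L, l ≠ []) :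
    (L.map List.toFinset).toFinset.card = L.length ∧
    (∀ A ∈ (L.map List.toFinset).toFinset, ∀ B ∈ (L.map List.toFinset).toFinset, A ≠ B →
      Disjoint A B) ∧
    (L.map List.toFinset).toFinset.biUnion id = L.flatten.toFinset := by
  rw [List.nodup_flatten] at h1
  obtain ⟨h3, h4⟩ := h1
  have hdis : ∀ l l' : List (ℤ × ℤ), List.Disjoint l l' → Disjoint l.toFinset l'.toFinset := by
    intro l l' h
    rw [Finset.disjoint_left]
    intro x hx hx'
    exact h (by simpa using hx) (by simpa using hx')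
  have hpw : (L.map List.toFinset).Pairwise Disjoint := by
    rw [List.pairwise_map]
    exact h4.imp (fun {l l'} h => hdis l l' h)
  have hne : ∀ A ∈ L.map List.toFinset, A ≠ ∅ := by
    intro A hA
    obtain ⟨l, hl, rfl⟩ := List.mem_map.mp hA
    intro hc
    apply h2 l hl
    rwa [List.toFinset_eq_empty_iff] at hc
  have hnd : (L.map List.toFinset).Nodup := by
    refine hpw.imp_of_mem ?_
    intro A B hA _ hAB hc
    rw [← hc, disjoint_self] at hAB
    exact hne A hA hAB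
  refine ⟨?_, ?_, ?_⟩
  · rw [List.toFinset_card_of_nodup hnd, List.length_map]
  · intro A hA B hB hAB
    rw [List.mem_toFinset] at hA hB
    have : Std.Symm (fun A B : Finset (ℤ × ℤ) => Disjoint A B) := ⟨fun _ _ h => h.symm⟩
    exact List.Pairwise.forall (R := fun A B : Finset (ℤ × ℤ) => Disjoint A B) hpw hA hB hAB
  · ext x
    simp only [Finset.mem_biUnion, List.mem_toFinset, List.mem_map, id, List.mem_flatten]
    constructor
    · rintro ⟨A, ⟨l, hl, rfl⟩, hx⟩
      exact ⟨l, hl, by simpa using hx⟩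
    · rintro ⟨l, hl, hx⟩
      exact ⟨l.toFinset, ⟨l, hl, rfl⟩, by simpa using hx⟩

/-! ### Pieces with data -/

structure ND where
  D : NData
  W : List (List ℕ)
  C : List ℕ
  x0 : ℕ
  y0 : ℕ
  m : ℕ
  n : ℕ

def ND.L (x : ND) : List ℕ := x.D.map Prod.fst

def ND.cells (x : ND) : Finset (ℤ × ℤ) := decL x.L

def ND.ok (π : Par) (x : ND) : Bool :=
  foldN π x.D x.W && (connL x.L && holeM x.L x.C x.x0 x.y0 x.m x.n)

lemma ND.spec {π : Par} {x : ND} (h : x.ok π = true) (hp : ∀ y ∈ x.D, pairN π x.D y = true) :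
    IsPolyomino x.cells ∧ NoHoles x.cells ∧
      IsNet x.cells √(π.N : ℝ) ∧ x.L.Nodup ∧ (x.L.length : ℤ) = 6 * π.N := by
  simp only [ND.ok, Bool.and_eq_true] at h
  obtain ⟨h1, h2, h3⟩ := h
  obtain ⟨a1, a2, a3⟩ := foldN_spec h1 hp
  exact ⟨polyomino_of_connL h2, noHoles_of h3, a3, a1, by rw [ND.L, List.length_map]; exact a2⟩

/-- the lattice of the unit cube -/
def p10 : Par := ⟨1, 0, by norm_num⟩

def ND.okp (x : ND) : Bool := x.ok p10 && x.D.all (pairN p10 x.D)

def allN (Ps : List ND) : List ℕ := (Ps.map ND.L).flatten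

def repN (π : Par) (k : ℕ) (X : ND) (Ps : List ND) : Bool :=
  decide ((k : ℤ) = π.N ∧ Ps.length = k) && (nodupM (allN Ps) 0 &&
  Nat.beq (maskOf (allN Ps)) (maskOf X.L))

/-- the set of the pieces -/
def pcs (Ps : List ND) : Finset (Finset (ℤ × ℤ)) :=
  ((Ps.map fun x => x.L.map dec).map List.toFinset).toFinset

lemma mem_pcs {Ps : List ND} {A : Finset (ℤ × ℤ)} :
    A ∈ pcs Ps ↔ ∃ x ∈ Ps, A = x.cells := by
  simp only [pcs, List.mem_toFinset, List.mem_map]
  constructor
  · rintro ⟨l, ⟨x, hx, rfl⟩, rfl⟩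
    exact ⟨x, hx, rfl⟩
  · rintro ⟨x, hx, rfl⟩
    exact ⟨_, ⟨x, hx, rfl⟩, rfl⟩

theorem repCube_of {π : Par} {k : ℕ} {X : ND} {Ps : List ND} (hX : X.ok π = true)
    (hXp : ∀ y ∈ X.D, pairN π X.D y = true) (hPs : ∀ x ∈ Ps, x.okp = true)
    (h : repN π k X Ps = true) :
    RepCube k X.cells (pcs Ps) ∧ NoHoles X.cells ∧
      (∀ A ∈ pcs Ps, NoHoles A) ∧ ∀ x ∈ Ps, x.L.Nodup ∧ x.L.length = 6 := by
  simp only [repN, Bool.and_eq_true, decide_eq_true_eq, nbeq_iff] at h
  obtain ⟨⟨hk, hlen⟩, hnd, hmask⟩ := h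
  obtain ⟨x1, x2, x3, x4, x5⟩ := ND.spec hX hXp
  have hp : ∀ x ∈ Ps, IsPolyomino x.cells ∧ NoHoles x.cells ∧
      IsNet x.cells 1 ∧ x.L.Nodup ∧ x.L.length = 6 := by
    intro x hx
    have h1 := hPs x hx
    simp only [ND.okp, Bool.and_eq_true, List.all_eq_true] at h1
    obtain ⟨a1, a2, a3, a4, a5⟩ := ND.spec h1.1 h1.2
    have e : (p10.N : ℤ) = 1 := rfl
    rw [e] at a3 a5
    refine ⟨a1, a2, ?_, a4, by omega⟩
    simpa using a3
  have hne : ∀ l ∈ Ps.map (fun x => x.L.map dec), l ≠ [] := by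
    intro l hl
    obtain ⟨x, hx, rfl⟩ := List.mem_map.mp hl
    intro hc
    have := (hp x hx).2.2.2.2
    rw [List.map_eq_nil_iff] at hc
    rw [hc] at this
    simp at this
  have hfl : (Ps.map fun x => x.L.map dec).flatten = (allN Ps).map dec := by
    rw [allN, List.map_flatten, List.map_map]
    rfl
  have hnd' : (Ps.map fun x => x.L.map dec).flatten.Nodup := by
    rw [hfl]; exact (nodupM_spec _ _ hnd).1.map dec_inj
  obtain ⟨q1, q2, q3⟩ := partition_of_list (Ps.map fun x => x.L.map dec) hnd' hne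
  have hkN : (π.N : ℝ) = (k : ℝ) := by
    have : ((π.N : ℤ) : ℝ) = ((k : ℤ) : ℝ) := by rw [hk]
    simpa using this
  refine ⟨⟨x1, ?_, ?_, ?_, ?_, q2, ?_⟩, x2, ?_, ?_⟩
  · rw [ND.cells, decL, List.toFinset_card_of_nodup (x4.map dec_inj), List.length_map]; omega
  · rw [← hkN]; exact x3
  · unfold pcs; rw [q1, List.length_map, hlen]
  · intro A hA
    obtain ⟨x, hx, rfl⟩ := mem_pcs.mp hA
    exact ⟨(hp x hx).1, (hp x hx).2.2.1⟩
  · unfold pcs
    rw [q3, hfl, ND.cells, decL]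
    ext c
    simp only [List.mem_toFinset, List.mem_map]
    have hm : ∀ n, n ∈ allN Ps ↔ n ∈ X.L := by
      intro n
      rw [← testBit_maskOf (allN Ps), ← testBit_maskOf X.L, hmask]
    constructor
    · rintro ⟨n, hn, h⟩; exact ⟨n, (hm n).mp hn, h⟩
    · rintro ⟨n, hn, h⟩; exact ⟨n, (hm n).mpr hn, h⟩
  · intro A hA
    obtain ⟨x, hx, rfl⟩ := mem_pcs.mp hA
    exact (hp x hx).2.1
  · intro x hx
    exact (hp x hx).2.2.2

/-! ### Congruence -/

def ieq (a b : ℤ) : Bool :=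
  match a, b with
  | .ofNat m, .ofNat n => Nat.beq m n
  | .negSucc m, .negSucc n => Nat.beq m n
  | _, _ => false

lemma ieq_iff {a b : ℤ} : ieq a b = true ↔ a = b := by
  cases a <;> cases b <;> simp [ieq]

def ceq (c d : ℤ × ℤ) : Bool := ieq c.1 d.1 && ieq c.2 d.2

lemma ceq_iff {c d : ℤ × ℤ} : ceq c d = true ↔ c = d := by
  rw [ceq, Bool.and_eq_true, ieq_iff, ieq_iff, Prod.ext_iff]

/-- `c` is the cell of a member of the list -/
def memB (c : ℤ × ℤ) (L : List ℕ) : Bool := L.any fun d => ceq c (dec d)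

lemma memB_iff {c : ℤ × ℤ} {L : List ℕ} : memB c L = true ↔ c ∈ decL L := by
  simp only [memB, List.any_eq_true, ceq_iff, mem_decL]
  constructor
  · rintro ⟨d, hd, h⟩; exact ⟨d, hd, h.symm⟩
  · rintro ⟨d, hd, h⟩; exact ⟨d, hd, h.symm⟩

/-- the symmetry `g` followed by the translation moving `s` to `b` maps `S` into `B` -/
def mvB (g : Fin 8) (s b : ℕ) (S B : List ℕ) : Bool :=
  S.all fun c => memB (sym g (dec c) + (dec b - sym g (dec s))) B

def congL (gs : List (Fin 8)) (S B : List ℕ) : Bool :=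
  match S with
  | [] => false
  | s :: _ => gs.any fun g => B.any fun b => mvB g s b S B

lemma sym_add (g : Fin 8) (c v : ℤ × ℤ) : sym g (c + v) = sym g c + sym g v := by
  fin_cases g <;> (ext <;> simp [sym] <;> ring)

lemma sym_inj (g : Fin 8) : Function.Injective (sym g) := by
  intro c d h
  obtain ⟨a, b⟩ := c
  obtain ⟨x, y⟩ := d
  fin_cases g <;> (simp [sym] at h; ext <;> simp <;> omega)


lemma mvB_spec {g : Fin 8} {s b : ℕ} {S B : List ℕ} (hS : S.Nodup) (hB : B.Nodup)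
    (hl : S.length = B.length) (h : mvB g s b S B = true) :
    decL B = (decL S).image fun c => sym g c + (dec b - sym g (dec s)) := by
  simp only [mvB, List.all_eq_true, memB_iff] at h
  symm
  apply Finset.eq_of_subset_of_card_le
  · intro x hx
    obtain ⟨c, hc, rfl⟩ := Finset.mem_image.mp hx
    obtain ⟨n, hn, rfl⟩ := mem_decL.mp hc
    exact h n hn
  · rw [Finset.card_image_of_injective _
      (fun a b hab => sym_inj g (add_right_cancel hab)), decL, decL,
      List.toFinset_card_of_nodup (hS.map dec_inj),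
      List.toFinset_card_of_nodup (hB.map dec_inj), List.length_map, List.length_map, hl]

lemma congL_of {gs : List (Fin 8)} {S B : List ℕ} (hS : S ≠ []) {g : Fin 8} (hg : g ∈ gs)
    {w : ℤ × ℤ} (h : decL B = (decL S).image fun c => sym g c + w) :
    congL gs S B = true := by
  unfold congL
  split
  · exact absurd rfl hS
  · rename_i s l
    have hm : ∀ c ∈ s :: l, sym g (dec c) + w ∈ decL B := by
      intro c hc
      rw [h, Finset.mem_image]
      exact ⟨dec c, dec_mem_decL.mpr hc, rfl⟩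
    obtain ⟨b, hb, hb'⟩ := mem_decL.mp (hm s (List.mem_cons_self ..))
    simp only [List.any_eq_true, mvB, List.all_eq_true, memB_iff]
    refine ⟨g, hg, b, hb, fun c hc => ?_⟩
    rw [hb', add_sub_cancel_left]
    exact hm c hc

/-- from the list to the translate -/
lemma image_shift {S : List ℕ} {N : Finset (ℤ × ℤ)} {v : ℤ × ℤ}
    (hv : ∀ x, x + v ∈ N ↔ x ∈ decL S) (g : Fin 8) (w : ℤ × ℤ) :
    ((decL S).image fun c => sym g c + w) = N.image fun c => sym g c + (w - sym g v) := by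
  ext x
  simp only [Finset.mem_image]
  constructor
  · rintro ⟨c, hc, rfl⟩
    refine ⟨c + v, (hv c).mpr hc, ?_⟩
    rw [sym_add]; abel
  · rintro ⟨c, hc, rfl⟩
    have e : c = (c - v) + v := by rw [sub_add_cancel]
    refine ⟨c - v, (hv _).mp (by rw [← e]; exact hc), ?_⟩
    conv_rhs => rw [e, sym_add]
    abel

/-! the rotations form a group -/

set_option linter.unusedTactic false in
lemma rot_comp' (g h : Fin 8) (hg : g < 4) (hh : h < 4) :
    ∃ k : Fin 8, k < 4 ∧ ∀ c, sym k c = sym g (sym h c) := by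
  fin_cases g <;> fin_cases h <;>
    first
    | exact absurd hg (by decide)
    | exact absurd hh (by decide)
    | (refine ⟨0, by decide, fun c => ?_⟩; simp [sym]; done)
    | (refine ⟨1, by decide, fun c => ?_⟩; simp [sym]; done)
    | (refine ⟨2, by decide, fun c => ?_⟩; simp [sym]; done)
    | (refine ⟨3, by decide, fun c => ?_⟩; simp [sym]; done)

set_option linter.unusedTactic false in
lemma rot_inv' (g : Fin 8) (hg : g < 4) : ∃ k : Fin 8, k < 4 ∧ ∀ c, sym k (sym g c) = c := by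
  fin_cases g <;>
    first
    | exact absurd hg (by decide)
    | (refine ⟨0, by decide, fun c => ?_⟩; simp [sym]; done)
    | (refine ⟨1, by decide, fun c => ?_⟩; simp [sym]; done)
    | (refine ⟨2, by decide, fun c => ?_⟩; simp [sym]; done)
    | (refine ⟨3, by decide, fun c => ?_⟩; simp [sym]; done)

lemma RotCongruent.trans {A B C : Finset (ℤ × ℤ)} (h : RotCongruent A B)
    (h' : RotCongruent B C) : RotCongruent A C := by
  obtain ⟨g, hg, v, rfl⟩ := h
  obtain ⟨g', hg', v', rfl⟩ := h'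
  obtain ⟨k, hk, hk'⟩ := rot_comp' g' g hg' hg
  refine ⟨k, hk, sym g' v + v', ?_⟩
  rw [Finset.image_image]
  congr 1
  funext c
  simp only [Function.comp_apply]
  rw [sym_add, hk', add_assoc]

lemma RotCongruent.symm {A B : Finset (ℤ × ℤ)} (h : RotCongruent A B) : RotCongruent B A := by
  obtain ⟨g, hg, v, rfl⟩ := h
  obtain ⟨k, hk, hk'⟩ := rot_inv' g hg
  refine ⟨k, hk, -sym k v, ?_⟩
  rw [Finset.image_image]
  have : ((fun c => sym k c + -sym k v) ∘ fun c => sym g c + v) = id := by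
    funext c
    simp only [Function.comp_apply, id]
    rw [sym_add, hk']; abel
  rw [this, Finset.image_id]

/-! ### An invariant of congruence -/

def inv (A : Finset (ℤ × ℤ)) : ℤ :=
  ∑ c ∈ A, ∑ d ∈ A, ((c.1 - d.1) * (c.1 - d.1) + (c.2 - d.2) * (c.2 - d.2)) ^ 2

lemma inv_congr {A B : Finset (ℤ × ℤ)} (h : Congruent A B) : inv B = inv A := by
  obtain ⟨g, v, rfl⟩ := h
  have hinj : ∀ a b, sym g a + v = sym g b + v → a = b :=
    fun a b hab => sym_inj g (add_right_cancel hab)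
  unfold inv
  rw [Finset.sum_image (fun a _ b _ hab => hinj a b hab)]
  refine Finset.sum_congr rfl fun c _ => ?_
  rw [Finset.sum_image (fun a _ b _ hab => hinj a b hab)]
  refine Finset.sum_congr rfl fun d _ => ?_
  fin_cases g <;> simp [sym] <;> ring

/-! ### Edge nets from data -/

def tbF (tb : List ((ℤ × ℤ) × Pos)) (c : ℤ × ℤ) : Pos :=
  ((tb.find? fun x => decide (x.1 = c)).map Prod.snd).getD pos0

def edgeB (tb : List ((ℤ × ℤ) × Pos)) : Bool :=
  connB (tb.map Prod.fst) && (decide ((tb.map Prod.fst).Nodup ∧ tb.length = 6) &&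
  (((tb.map Prod.fst).any fun c => decide (tbF tb c = pos0)) &&
  ((tb.map Prod.fst).all fun c =>
    (!((tb.map Prod.fst).contains (c.1 + 1, c.2)) ||
      decide (tbF tb (c.1 + 1, c.2) = tipR (tbF tb c))) &&
    ((!((tb.map Prod.fst).contains (c.1, c.2 + 1)) ||
      decide (tbF tb (c.1, c.2 + 1) = tipU (tbF tb c))) &&
    (tb.map Prod.fst).all fun d => !decide ((tbF tb c).1 = (tbF tb d).1) || decide (c = d)))))

lemma edgeNet_of {tb : List ((ℤ × ℤ) × Pos)} (h : edgeB tb = true) :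
    IsEdgeNet (tb.map Prod.fst).toFinset := by
  simp only [edgeB, Bool.and_eq_true, decide_eq_true_eq, List.any_eq_true, List.all_eq_true,
    Bool.or_eq_true, Bool.not_eq_true', decide_eq_false_iff_not] at h
  obtain ⟨h1, ⟨h2, h3⟩, ⟨c0, hc0, hc0'⟩, h5⟩ := h
  refine ⟨polyomino_of_list _ h1, ?_, tbF tb, ⟨c0, by rwa [List.mem_toFinset], hc0'⟩, ?_, ?_, ?_⟩
  · rw [List.toFinset_card_of_nodup h2, List.length_map, h3]
  · intro c hc hc'
    rw [List.mem_toFinset] at hc hc'
    refine (h5 c hc).1.resolve_left ?_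
    rw [← Bool.not_eq_true, List.contains_iff_mem, not_not]
    exact hc'
  · intro c hc hc'
    rw [List.mem_toFinset] at hc hc'
    refine (h5 c hc).2.1.resolve_left ?_
    rw [← Bool.not_eq_true, List.contains_iff_mem, not_not]
    exact hc'
  · intro c hc d hd hcd
    rw [List.mem_toFinset] at hc hd
    exact ((h5 c hc).2.2 d hd).resolve_left (fun hn => hn hcd)

/-! ### Edge nets from the folding data -/

def z3eq (a b : Z3) : Bool := ieq a.1 b.1 && (ieq a.2.1 b.2.1 && ieq a.2.2 b.2.2)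

lemma z3eq_iff {a b : Z3} : z3eq a b = true ↔ a = b := by
  rw [z3eq, Bool.and_eq_true, Bool.and_eq_true, ieq_iff, ieq_iff, ieq_iff, Prod.ext_iff,
    Prod.ext_iff]

def edgeN (D : NData) : Bool :=
  (D.any fun x => z3eq x.2.W (0, 0, 1) && (z3eq x.2.U (1, 0, 0) && z3eq x.2.V (0, 1, 0))) &&
  D.all fun x => D.all fun y =>
    cond (Nat.beq y.1 (Nat.add x.1 64))
      (z3eq y.2.U x.2.W && (z3eq y.2.V x.2.V && z3eq y.2.W (-x.2.U)))
      (cond (Nat.beq y.1 (Nat.add x.1 1))
        (z3eq y.2.U x.2.U && (z3eq y.2.V x.2.W && z3eq y.2.W (-x.2.V))) true) &&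
    (Nat.beq x.1 y.1 || !z3eq x.2.W y.2.W)

/-- the position of a state -/
def frT (T : St) : Pos := (-T.W, T.U, T.V)

open Classical in
noncomputable def frF (D : NData) (c : ℤ × ℤ) : Pos :=
  if h : ∃ x ∈ D, dec x.1 = c then frT h.choose.2 else pos0

lemma frF_eq {D : NData} (hnd : (D.map Prod.fst).Nodup) {x : ℕ × St} (hx : x ∈ D) :
    frF D (dec x.1) = frT x.2 := by
  have h : ∃ y ∈ D, dec y.1 = dec x.1 := ⟨x, hx, rfl⟩
  unfold frF
  rw [dif_pos h]
  have e : h.choose = x :=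
    List.inj_on_of_nodup_map hnd h.choose_spec.1 hx (dec_inj h.choose_spec.2)
  rw [e]

lemma edgeN_spec {D : NData} (hnd : (D.map Prod.fst).Nodup) (hr : ∀ x ∈ D, rg x.1 = true)
    (hp : IsPolyomino (decL (D.map Prod.fst))) (hl : D.length = 6) (h : edgeN D = true) :
    IsEdgeNet (decL (D.map Prod.fst)) := by
  simp only [edgeN, Bool.and_eq_true, List.any_eq_true, List.all_eq_true, z3eq_iff] at h
  obtain ⟨⟨x0, hx0, w1, w2, w3⟩, h⟩ := h
  have hm : ∀ c ∈ decL (D.map Prod.fst), ∃ x ∈ D, dec x.1 = c := by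
    intro c hc
    obtain ⟨n, hn, rfl⟩ := mem_decL.mp hc
    obtain ⟨x, hx, rfl⟩ := List.mem_map.mp hn
    exact ⟨x, hx, rfl⟩
  refine ⟨hp, ?_, frF D, ⟨dec x0.1, dec_mem_decL.mpr (List.mem_map.mpr ⟨x0, hx0, rfl⟩), ?_⟩, ?_,
    ?_, ?_⟩
  · rw [decL, List.toFinset_card_of_nodup (hnd.map dec_inj), List.length_map, List.length_map, hl]
  · rw [frF_eq hnd hx0, frT, w1, w2, w3]; rfl
  · intro c hc hc'
    obtain ⟨x, hx, rfl⟩ := hm c hc
    obtain ⟨y, hy, hxy⟩ := hm _ hc'
    rw [← hxy, frF_eq hnd hx, frF_eq hnd hy]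
    have e := eq_right hxy
    have h1 := (h x hx y hy).1
    have hb : Nat.beq y.1 (Nat.add x.1 64) = true := nbeq_iff.mpr e
    rw [hb, cond_true] at h1
    simp only [Bool.and_eq_true, z3eq_iff] at h1
    obtain ⟨k1, k2, k3⟩ := h1
    simp only [frT, tipR, k1, k2, k3, neg_neg]
  · intro c hc hc'
    obtain ⟨x, hx, rfl⟩ := hm c hc
    obtain ⟨y, hy, hxy⟩ := hm _ hc'
    rw [← hxy, frF_eq hnd hx, frF_eq hnd hy]
    have e := eq_up (rg_spec (hr x hx)).2.2 hxy
    have h1 := (h x hx y hy).1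
    have hb : Nat.beq y.1 (Nat.add x.1 64) = false := by
      rw [← Bool.not_eq_true, nbeq_iff]
      intro hcon
      have : y.1 = x.1 + 64 := hcon
      omega
    have hb' : Nat.beq y.1 (Nat.add x.1 1) = true := nbeq_iff.mpr e
    rw [hb, cond_false, hb', cond_true] at h1
    simp only [Bool.and_eq_true, z3eq_iff] at h1
    obtain ⟨k1, k2, k3⟩ := h1
    simp only [frT, tipU, k1, k2, k3, neg_neg]
  · intro c hc d hd hcd
    obtain ⟨x, hx, rfl⟩ := hm c hc
    obtain ⟨y, hy, rfl⟩ := hm d hd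
    rw [frF_eq hnd hx, frF_eq hnd hy] at hcd
    have h1 := (h x hx y hy).2
    simp only [Bool.or_eq_true, nbeq_iff, Bool.not_eq_true'] at h1
    rcases h1 with h1 | h1
    · rw [h1]
    · exfalso
      rw [← Bool.not_eq_true, z3eq_iff] at h1
      apply h1
      have : -x.2.W = -y.2.W := hcd
      exact neg_inj.mp this

lemma pcs_edge {Ps : List ND} (hPs : ∀ x ∈ Ps, x.okp = true)
    (hl : ∀ x ∈ Ps, x.L.Nodup ∧ x.L.length = 6) (h : (Ps.all fun x => edgeN x.D) = true) :
    ∀ A ∈ pcs Ps, IsEdgeNet A := by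
  intro A hA
  obtain ⟨x, hx, rfl⟩ := mem_pcs.mp hA
  simp only [List.all_eq_true] at h
  have h1 := hPs x hx
  simp only [ND.okp, Bool.and_eq_true, List.all_eq_true] at h1
  have h2 := (ND.spec h1.1 h1.2).1
  have h3 := h1.1
  simp only [ND.ok, Bool.and_eq_true, foldN, List.all_eq_true] at h3
  refine edgeN_spec (hl x hx).1 (fun y hy => h3.1.2.2.2.2.2.1 y hy) h2 ?_ (h x hx)
  have := (hl x hx).2
  rwa [ND.L, List.length_map] at this

/-! ### Certificates for congruence -/

def okC (Ps : List ND) (n : ℕ) (S : List ℕ) (c : ℕ × Fin 8 × ℕ) : Bool :=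
  match Ps[c.1]?, S with
  | some x, s :: _ => Nat.blt c.2.1.val n && (match x.L[c.2.2]? with
    | some b => mvB c.2.1 s b S x.L
    | none => false)
  | _, _ => false

lemma okC_spec {Ps : List ND} {n : ℕ} {S : List ℕ} {c : ℕ × Fin 8 × ℕ}
    (h : okC Ps n S c = true) : ∃ x ∈ Ps, ∃ g : Fin 8, g.val < n ∧ ∃ s b, mvB g s b S x.L = true := by
  unfold okC at h
  split at h
  · rename_i x s l hx
    rw [Bool.and_eq_true, Nat.blt_eq] at h
    obtain ⟨h1, h2⟩ := h
    split at h2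
    · exact ⟨x, List.mem_of_getElem? hx, _, h1, _, _, h2⟩
    · exact absurd h2 (by simp)
  · exact absurd h (by simp)

def certB (Ps : List ND) (n : ℕ) : List (List ℕ) → List (ℕ × Fin 8 × ℕ) → Bool
  | [], _ => true
  | S :: L, c :: cs => okC Ps n S c && certB Ps n L cs
  | _ :: _, [] => false

lemma certB_spec {Ps : List ND} {n : ℕ} : ∀ (L : List (List ℕ)) (cs : List (ℕ × Fin 8 × ℕ)),
    certB Ps n L cs = true → ∀ S ∈ L, ∃ x ∈ Ps, ∃ g : Fin 8, g.val < n ∧
      ∃ s b, mvB g s b S x.L = true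
  | [], _, _ => by simp
  | _ :: _, [], h => by simp [certB] at h
  | S :: L, c :: cs, h => by
    simp only [certB, Bool.and_eq_true] at h
    intro S' hS'
    rcases List.mem_cons.mp hS' with rfl | hS'
    · exact okC_spec h.1
    · exact certB_spec L cs h.2 S' hS'

def allC (S : List ℕ) : List ND → List (Fin 8 × ℕ) → Bool
  | [], [] => true
  | x :: Ps, c :: cs => (match S, x.L[c.2]? with
    | s :: _, some b => mvB c.1 s b S x.L
    | _, _ => false) && allC S Ps cs
  | _, _ => false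

lemma allC_spec {S : List ℕ} : ∀ (Ps : List ND) (cs : List (Fin 8 × ℕ)), allC S Ps cs = true →
    ∀ x ∈ Ps, ∃ g s b, mvB g s b S x.L = true
  | [], [], _ => by simp
  | [], _ :: _, h => by simp [allC] at h
  | _ :: _, [], h => by simp [allC] at h
  | x :: Ps, c :: cs, h => by
    simp only [allC, Bool.and_eq_true] at h
    obtain ⟨h1, h2⟩ := h
    intro y hy
    rcases List.mem_cons.mp hy with rfl | hy
    · split at h1
      · exact ⟨_, _, _, h1⟩
      · exact absurd h1 (by simp)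
    · exact allC_spec Ps cs h2 y hy

def uniC (U : List (List ND)) : List (List ℕ) → List (ℕ × List (Fin 8 × ℕ)) → Bool
  | [], _ => true
  | S :: L, c :: cs => (match U[c.1]? with
    | some Ps => allC S Ps c.2
    | none => false) && uniC U L cs
  | _ :: _, [] => false

lemma uniC_spec {U : List (List ND)} : ∀ (L : List (List ℕ))
    (cs : List (ℕ × List (Fin 8 × ℕ))), uniC U L cs = true →
    ∀ S ∈ L, ∃ Ps ∈ U, ∀ x ∈ Ps, ∃ g s b, mvB g s b S x.L = true
  | [], _, _ => by simp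
  | _ :: _, [], h => by simp [uniC] at h
  | S :: L, c :: cs, h => by
    simp only [uniC, Bool.and_eq_true] at h
    obtain ⟨h1, h2⟩ := h
    intro S' hS'
    rcases List.mem_cons.mp hS' with rfl | hS'
    · split at h1
      · rename_i Ps hPs
        exact ⟨Ps, List.mem_of_getElem? hPs, allC_spec _ _ h1⟩
      · exact absurd h1 (by simp)
    · exact uniC_spec L cs h2 S' hS'

def rot4 : List (Fin 8) := [0, 1, 2, 3]

/-- the absolute value of the difference -/
def ad (a b : ℕ) : ℕ := Nat.add (Nat.sub a b) (Nat.sub b a)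

/-- the invariant, for codes -/
def qd2 (c d : ℕ) : ℕ :=
  Nat.pow (Nat.add (Nat.pow (ad (Nat.div c 64) (Nat.div d 64)) 2)
    (Nat.pow (ad (Nat.mod c 64) (Nat.mod d 64)) 2)) 2

def invL (S : List ℕ) : ℕ := (S.map fun c => (S.map fun d => qd2 c d).sum).sum

lemma ad_sq (a b : ℕ) : (((ad a b) ^ 2 : ℕ) : ℤ) = ((a : ℤ) - b) * ((a : ℤ) - b) := by
  have e : ad a b = (a - b) + (b - a) := rfl
  rw [e]
  rcases le_total a b with h | h
  · have : a - b = 0 := by omega
    rw [this, zero_add]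
    push_cast [h]
    ring
  · have : b - a = 0 := by omega
    rw [this, add_zero]
    push_cast [h]
    ring

lemma qd2_eq (c d : ℕ) : ((qd2 c d : ℕ) : ℤ) =
    (((dec c).1 - (dec d).1) * ((dec c).1 - (dec d).1) +
      ((dec c).2 - (dec d).2) * ((dec c).2 - (dec d).2)) ^ 2 := by
  have e : qd2 c d = ((ad (c / 64) (d / 64)) ^ 2 + (ad (c % 64) (d % 64)) ^ 2) ^ 2 := rfl
  rw [e, Nat.cast_pow, Nat.cast_add, ad_sq, ad_sq]
  rfl

lemma inv_decL {S : List ℕ} (hS : S.Nodup) : inv (decL S) = invL S := by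
  unfold inv invL decL
  have hnd : (S.map dec).Nodup := hS.map dec_inj
  rw [List.sum_toFinset _ hnd, List.map_map, Nat.cast_list_sum, List.map_map]
  congr 1
  apply List.map_congr_left
  intro c _
  simp only [Function.comp_apply]
  rw [List.sum_toFinset _ hnd, List.map_map, Nat.cast_list_sum, List.map_map]
  congr 1
  apply List.map_congr_left
  intro d _
  simp only [Function.comp_apply]
  rw [qd2_eq]

/-- no two members are equal up to rotation and translation -/
def pairsB : List ND → Bool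
  | [] => true
  | x :: l => force (invL x.L) (fun k => l.all fun y =>
      !Nat.beq (invL y.L) k || !congL rot4 x.L y.L) && pairsB l

lemma lt_rot4 {g : Fin 8} (h : g < 4) : g ∈ rot4 := by
  revert g; decide

lemma pairsB_spec : ∀ (Ps : List ND), pairsB Ps = true → (∀ x ∈ Ps, x.L.Nodup ∧ x.L.length = 6) →
    Ps.Pairwise fun x y => ¬ RotCongruent x.cells y.cells
  | [], _, _ => List.Pairwise.nil
  | x :: l, h, hne => by
    simp only [pairsB, Bool.and_eq_true, List.all_eq_true, Bool.not_eq_true', force_eq,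
      Bool.or_eq_true] at h
    obtain ⟨h1, h2⟩ := h
    refine List.Pairwise.cons ?_
      (pairsB_spec l h2 (fun y hy => hne y (List.mem_cons_of_mem _ hy)))
    rintro y hy ⟨g, hg, w, hw⟩
    obtain ⟨x1, x2⟩ := hne x (List.mem_cons_self ..)
    obtain ⟨y1, -⟩ := hne y (List.mem_cons_of_mem _ hy)
    have hx : x.L ≠ [] := by
      intro hc; rw [hc] at x2; simp at x2
    have h3 := congL_of (gs := rot4) hx (lt_rot4 hg) hw
    rcases h1 y hy with h4 | h4
    · rw [← Bool.not_eq_true, nbeq_iff] at h4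
      apply h4
      have h5 := inv_congr ⟨g, w, hw⟩
      rw [ND.cells, ND.cells, inv_decL x1, inv_decL y1] at h5
      exact_mod_cast h5
    · rw [h3] at h4
      exact absurd h4 (by simp)

lemma pairsB_eq {Ps : List ND} (h : pairsB Ps = true)
    (hne : ∀ x ∈ Ps, x.L.Nodup ∧ x.L.length = 6) {x y : ND}
    (hx : x ∈ Ps) (hy : y ∈ Ps) (hxy : RotCongruent x.cells y.cells) : x = y := by
  by_contra hcon
  have hs : Std.Symm (fun x y : ND => ¬ RotCongruent x.cells y.cells) :=
    ⟨fun _ _ h h' => h h'.symm⟩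
  exact List.Pairwise.forall (R := fun x y : ND => ¬ RotCongruent x.cells y.cells)
    (pairsB_spec Ps h hne) hx hy hcon hxy

end Pool.Agent.Q228.Rep
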