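import Pool.Agent.Q228.Rep.Adj

/-!
# Foldings of polyominoes to cubes: the cosine function is global
-/

set_option autoImplicit false

namespace Pool.Agent.Q228.Rep

open Pool.Agent.Helper697.Rep MeasureTheory

/-- data of a full-dimensional piece -/
structure IsPiece (l : ℝ) (f : Plane → Space) (D : Set Plane) (y u w : Space) : Prop where
  conv : Convex ℝ D
  closed : IsClosed D
  int : (interior D).Nonempty
  ortho : Ortho u w
  face : InFace l y u w
  eq : ∀ x ∈ D, f x = aff y u w x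

lemma exists_off_line (D : Set Plane) (hD : (interior D).Nonempty) (p : Plane) (e0 e1 : ℝ)
    (he : e0 ^ 2 + e1 ^ 2 = 1) : ∃ s t : ℝ, t ≠ 0 ∧ P p e0 e1 s t ∈ D := by
  by_contra hcon
  push Not at hcon
  have hsub : interior D ⊆ {x : Plane | (-e1) * x 0 + e0 * x 1 = (-e1) * p 0 + e0 * p 1} := by
    intro x hx
    by_contra hx'
    have h1 := eq_P p e0 e1 he x
    have h2 : -(x 0 - p 0) * e1 + (x 1 - p 1) * e0 ≠ 0 := by
      intro hc
      apply hx'
      simp only [Set.mem_ofPred_eq]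
      linarith
    apply hcon _ _ h2
    rw [← h1]
    exact interior_subset hx
  have h0 : volume (interior D) = 0 := by
    apply measure_mono_null hsub
    apply vol_line
    by_contra hc
    push Not at hc
    have h1 : e1 = 0 := by linarith [hc.1]
    rw [h1, hc.2] at he
    norm_num at he
  exact (isOpen_interior.measure_pos (volume : Measure Plane) hD).ne' h0

lemma dist_P (p : Plane) (e0 e1 : ℝ) (he : e0 ^ 2 + e1 ^ 2 = 1) (s t s' t' : ℝ) :
    dist (P p e0 e1 s t) (P p e0 e1 s' t') ^ 2 = (s - s') ^ 2 + (t - t') ^ 2 := by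
  rw [dist_sq2, P0, P0, P1, P1]
  linear_combination ((s - s') ^ 2 + (t - t') ^ 2) * he

/-- two pieces with two common points, one of them in the open set where `f` is injective -/
lemma two_pieces (l : ℝ) (hl : 0 < l) (f : Plane → Space) (U : Set Plane) (hU : IsOpen U)
    (hf : Set.InjOn f U) (D D' : Set Plane) (y u w y' u' w' : Space)
    (hD : IsPiece l f D y u w) (hD' : IsPiece l f D' y' u' w') (p q : Plane) (hpq : p ≠ q)
    (hp : p ∈ D) (hp' : p ∈ D') (hq : q ∈ D) (hq' : q ∈ D') (hpU : p ∈ U) :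
    ∀ x, hh l (aff y u w x) = hh l (aff y' u' w' x) := by
  obtain ⟨ε, hε, hball⟩ := Metric.isOpen_iff.1 hU p hpU
  have hd : 0 < dist q p := dist_pos.mpr (Ne.symm hpq)
  set δ := dist q p with hδ
  have hδ2 : δ ^ 2 = (q 0 - p 0) ^ 2 + (q 1 - p 1) ^ 2 := dist_sq2 q p
  set e0 := (q 0 - p 0) / δ with he0
  set e1 := (q 1 - p 1) / δ with he1
  have he : e0 ^ 2 + e1 ^ 2 = 1 := by
    rw [he0, he1, div_pow, div_pow, ← add_div, ← hδ2]
    exact div_self (by positivity)
  have hqP : q = P p e0 e1 δ 0 := by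
    ext i
    fin_cases i
    · change q 0 = P _ _ _ _ _ 0
      rw [P0, he0]; field_simp; ring
    · change q 1 = P _ _ _ _ _ 1
      rw [P1, he1]; field_simp; ring
  set r := min δ (ε / 2) with hr
  have hr0 : 0 < r := lt_min hd (by positivity)
  have hrδ : r ≤ δ := min_le_left _ _
  have hrε : r ≤ ε / 2 := min_le_right _ _
  -- the point `P r 0` is on the segment
  have hseg : ∀ S : Set Plane, Convex ℝ S → p ∈ S → q ∈ S → P p e0 e1 r 0 ∈ S := by
    intro S hS h1 h2
    have e : P p e0 e1 r 0 = (1 - r / δ) • p + (r / δ) • q := by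
      rw [hqP]
      ext i
      fin_cases i
      · change P _ _ _ _ _ 0 = (1 - r / δ) * p 0 + (r / δ) * P _ _ _ _ _ 0
        rw [P0, P0]; field_simp; ring
      · change P _ _ _ _ _ 1 = (1 - r / δ) * p 1 + (r / δ) * P _ _ _ _ _ 1
        rw [P1, P1]; field_simp; ring
    rw [e]
    refine hS h1 h2 ?_ (by positivity) (by ring)
    rw [sub_nonneg, div_le_one hd]; exact hrδ
  have hrD := hseg D hD.conv hp hq
  have hrD' := hseg D' hD'.conv hp' hq'
  rcases adjacent l hl y u w y' u' w' hD.ortho hD'.ortho hD.face hD'.face p e0 e1 he r hr0.ne'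
    (by rw [← hD.eq p hp, ← hD'.eq p hp']) (by rw [← hD.eq _ hrD, ← hD'.eq _ hrD']) with h | h
  · exact h
  exfalso
  obtain ⟨s1, t1, ht1, hm1⟩ := exists_off_line D hD.int p e0 e1 he
  obtain ⟨s2, t2, ht2, hm2⟩ := exists_off_line D' hD'.int p e0 e1 he
  obtain ⟨τ1, hτ1, hh1⟩ := half_nbhd D hD.conv p e0 e1 r hr0 hp hrD s1 t1 ht1 hm1
  obtain ⟨τ2, hτ2, hh2⟩ := half_nbhd D' hD'.conv p e0 e1 r hr0 hp' hrD' s2 t2 ht2 hm2
  set t := min (min (τ1 / 2) (τ2 / 2)) (ε / 4) with ht
  have ht0 : 0 < t := lt_min (lt_min (by positivity) (by positivity)) (by positivity)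
  have hta : t < τ1 := by
    have : t ≤ τ1 / 2 := (min_le_left _ _).trans (min_le_left _ _)
    linarith
  have htb : t < τ2 := by
    have : t ≤ τ2 / 2 := (min_le_left _ _).trans (min_le_right _ _)
    linarith
  have htε : t ≤ ε / 4 := min_le_right _ _
  have m1 := hh1 t ht0.le hta
  have m2 := hh2 t ht0.le htb
  set σ1 : ℝ := ((SignType.sign t1 : SignType) : ℝ) with hσ1
  set σ2 : ℝ := ((SignType.sign t2 : SignType) : ℝ) with hσ2
  have hs1 : σ1 = 1 ∨ σ1 = -1 := by
    rcases lt_or_gt_of_ne ht1 with h | h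
    · right; rw [hσ1, sign_neg h]; simp
    · left; rw [hσ1, sign_pos h]; simp
  have hs2 : σ2 = 1 ∨ σ2 = -1 := by
    rcases lt_or_gt_of_ne ht2 with h | h
    · right; rw [hσ2, sign_neg h]; simp
    · left; rw [hσ2, sign_pos h]; simp
  have hUmem : ∀ σ : ℝ, (σ = 1 ∨ σ = -1) → P p e0 e1 (r / 2) (t * σ) ∈ U := by
    intro σ hσ
    apply hball
    rw [Metric.mem_ball]
    have hpP : p = P p e0 e1 0 0 := by ext i; fin_cases i <;> simp [P]
    have h1 : dist (P p e0 e1 (r / 2) (t * σ)) p ^ 2 = (r / 2) ^ 2 + t ^ 2 := by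
      conv_lhs => rw [hpP]
      have h2 : P (P p e0 e1 0 0) e0 e1 (r / 2) (t * σ) = P p e0 e1 (r / 2) (t * σ) := by
        rw [← hpP]
      rw [h2, dist_P p e0 e1 he]
      rcases hσ with h | h <;> rw [h] <;> ring
    apply lt_of_pow_lt_pow_left₀ 2 hε.le
    rw [h1]
    nlinarith
  have u1 := hUmem σ1 hs1
  have u2 := hUmem σ2 hs2
  have E1 := hD.eq _ m1
  have E2 := hD'.eq _ m2
  by_cases hs : σ1 = σ2
  · rw [← hs] at E2 m2
    rw [E1, h] at E2
    have h3 := aff_dist (y := y') hD'.ortho (P p e0 e1 (r / 2) (-(t * σ1)))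
      (P p e0 e1 (r / 2) (t * σ1))
    rw [E2, dist_self] at h3
    have h4 := dist_P p e0 e1 he (r / 2) (-(t * σ1)) (r / 2) (t * σ1)
    rw [← h3] at h4
    have h5 : σ1 ^ 2 = 1 := by rcases hs1 with h | h <;> rw [h] <;> norm_num
    nlinarith [mul_pos ht0 ht0]
  · have hs' : σ2 = -σ1 := by
      rcases hs1 with g1 | g1 <;> rcases hs2 with g2 | g2
      · exact absurd (g1.trans g2.symm) hs
      · rw [g1, g2]
      · rw [g1, g2]; norm_num
      · exact absurd (g1.trans g2.symm) hs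
    rw [h] at E1
    have h6 : -(t * σ1) = t * σ2 := by rw [hs']; ring
    rw [h6, ← E2] at E1
    have h7 := hf u1 u2 E1
    have h8 := dist_P p e0 e1 he (r / 2) (t * σ1) (r / 2) (t * σ2)
    rw [h7, dist_self, hs'] at h8
    have h5 : σ1 ^ 2 = 1 := by rcases hs1 with h | h <;> rw [h] <;> norm_num
    nlinarith [mul_pos ht0 ht0]

/-- a finite family of pieces, given by their parametrisations -/
structure Fam (l : ℝ) (f : Plane → Space) (𝒟 : Set (Set Plane)) : Prop where
  fin : 𝒟.Finite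
  piece : ∀ D ∈ 𝒟, ∃ y u w, IsPiece l f D y u w

/-- all parametrisations of pieces in `𝒟` meeting the convex open set `W` define the same
function -/
lemma local_class (l : ℝ) (hl : 0 < l) (f : Plane → Space) (U : Set Plane) (hU : IsOpen U)
    (hf : Set.InjOn f U) (𝒟 : Set (Set Plane)) (h𝒟 : Fam l f 𝒟) (W : Set Plane)
    (hWo : IsOpen W) (hWc : Convex ℝ W) (hWU : W ⊆ U) (hcov : W ⊆ ⋃₀ 𝒟)
    (D D' : Set Plane) (hD : D ∈ 𝒟) (hD' : D' ∈ 𝒟) (y u w y' u' w' : Space)
    (hp : IsPiece l f D y u w) (hp' : IsPiece l f D' y' u' w')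
    (hm : (interior D ∩ W).Nonempty) (hm' : (interior D' ∩ W).Nonempty) :
    ∀ x, hh l (aff y u w x) = hh l (aff y' u' w' x) := by
  by_contra hcon
  -- the two classes
  let good : Set Plane → Prop := fun S => ∃ a b c, IsPiece l f S a b c ∧
    ∀ x, hh l (aff a b c x) = hh l (aff y u w x)
  let E1 : Set Plane := ⋃₀ {S ∈ 𝒟 | good S}
  let E2 : Set Plane := ⋃₀ {S ∈ 𝒟 | ¬ good S}
  have hE1 : IsClosed E1 := by
    change IsClosed (⋃₀ {S ∈ 𝒟 | good S})
    rw [Set.sUnion_eq_biUnion]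
    apply (h𝒟.fin.subset (Set.sep_subset _ _)).isClosed_biUnion
    intro S hS
    obtain ⟨a, b, c, h⟩ := h𝒟.piece S hS.1
    exact h.closed
  have hE2 : IsClosed E2 := by
    change IsClosed (⋃₀ {S ∈ 𝒟 | ¬ good S})
    rw [Set.sUnion_eq_biUnion]
    apply (h𝒟.fin.subset (Set.sep_subset _ _)).isClosed_biUnion
    intro S hS
    obtain ⟨a, b, c, h⟩ := h𝒟.piece S hS.1
    exact h.closed
  -- uniqueness: two parametrisations of the same piece define the same function
  have huniq : ∀ S ∈ 𝒟, ∀ a b c a' b' c', IsPiece l f S a b c → IsPiece l f S a' b' c' →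
      ∀ x, aff a b c x = aff a' b' c' x := by
    intro S _ a b c a' b' c' h1 h2 x
    obtain ⟨p0, δ, hδ, g0, g1, g2⟩ := exists_triangle S h1.int
    have k0 := (h1.eq _ g0).symm.trans (h2.eq _ g0)
    have k1 := (h1.eq _ g1).symm.trans (h2.eq _ g1)
    have k2 := (h1.eq _ g2).symm.trans (h2.eq _ g2)
    ext i
    have k0' := congrArg (fun z : Space => z i) k0
    have k1' := congrArg (fun z : Space => z i) k1
    have k2' := congrArg (fun z : Space => z i) k2
    simp only [aff_apply] at k0' k1' k2' ⊢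
    simp at k1' k2'
    have hb : b i = b' i := by
      have : δ * (b i - b' i) = 0 := by linarith
      have := (mul_eq_zero.mp this).resolve_left hδ.ne'
      linarith
    have hc : c i = c' i := by
      have : δ * (c i - c' i) = 0 := by linarith
      have := (mul_eq_zero.mp this).resolve_left hδ.ne'
      linarith
    have ha : a i = a' i := by rw [hb, hc] at k0'; linarith
    rw [ha, hb, hc]
  have hDgood : good D := ⟨y, u, w, hp, fun _ => rfl⟩
  have hD'bad : ¬ good D' := by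
    rintro ⟨a, b, c, h1, h2⟩
    apply hcon
    intro x
    rw [← h2 x, huniq D' hD' _ _ _ _ _ _ h1 hp' x]
  -- the intersection is finite
  let T : Set Plane := E1 ∩ E2 ∩ W
  have hT : T.Finite := by
    have hsub : T ⊆ ⋃ S ∈ {S ∈ 𝒟 | good S}, ⋃ S' ∈ {S ∈ 𝒟 | ¬ good S}, (S ∩ S' ∩ W) := by
      rintro x ⟨⟨⟨S, hS, hxS⟩, ⟨S', hS', hxS'⟩⟩, hxW⟩
      simp only [Set.mem_iUnion]
      exact ⟨S, hS, S', hS', ⟨hxS, hxS'⟩, hxW⟩
    refine Set.Finite.subset ?_ hsub
    apply (h𝒟.fin.subset (Set.sep_subset _ _)).biUnion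
    intro S hS
    apply (h𝒟.fin.subset (Set.sep_subset _ _)).biUnion
    intro S' hS'
    apply Set.Subsingleton.finite
    intro a ha b hb
    by_contra hab
    obtain ⟨y1, u1, w1, q1, r1⟩ := hS.2
    obtain ⟨y2, u2, w2, q2⟩ := h𝒟.piece S' hS'.1
    apply hS'.2
    refine ⟨y2, u2, w2, q2, fun x => ?_⟩
    rw [← r1 x]
    exact (two_pieces l hl f U hU hf S S' y1 u1 w1 y2 u2 w2 q1 q2 a b hab ha.1.1 ha.1.2 hb.1.1
      hb.1.2 (hWU ha.2) x).symm
  -- choose `a`
  have hopen1 : IsOpen (interior D ∩ W) := isOpen_interior.inter hWo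
  have hopen2 : IsOpen (interior D' ∩ W) := isOpen_interior.inter hWo
  have hTnull : volume T = 0 := hT.measure_zero _
  obtain ⟨a, ha1, haT⟩ : ∃ a ∈ interior D ∩ W, a ∉ T := by
    by_contra hc
    push Not at hc
    exact (hopen1.measure_pos (volume : Measure Plane) hm).ne' (measure_mono_null hc hTnull)
  obtain ⟨b, hb1, hbT⟩ : ∃ b ∈ interior D' ∩ W, ∀ t ∈ T,
      (t 1 - a 1) * b 0 + (-(t 0 - a 0)) * b 1 ≠ (t 1 - a 1) * a 0 + (-(t 0 - a 0)) * a 1 := by
    by_contra hc
    push Not at hc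
    have hsub : interior D' ∩ W ⊆ ⋃ t ∈ T, {b : Plane | (t 1 - a 1) * b 0 + (-(t 0 - a 0)) * b 1 =
        (t 1 - a 1) * a 0 + (-(t 0 - a 0)) * a 1} := by
      intro b hb
      obtain ⟨t, ht, h⟩ := hc b hb
      simp only [Set.mem_iUnion]
      exact ⟨t, ht, h⟩
    refine (hopen2.measure_pos (volume : Measure Plane) hm').ne' (measure_mono_null hsub ?_)
    rw [measure_biUnion_null_iff hT.countable]
    intro t ht
    apply vol_line
    by_contra hcc
    push Not at hcc
    apply haT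
    have : a = t := by
      ext i
      fin_cases i
      · change a 0 = t 0; linarith [hcc.2]
      · change a 1 = t 1; linarith [hcc.1]
    rw [this]; exact ht
  have hseg : segment ℝ a b ⊆ W := hWc.segment_subset ha1.2 hb1.2
  have hpre : IsPreconnected (segment ℝ a b) := (convex_segment a b).isPreconnected
  rw [isPreconnected_closed_iff] at hpre
  obtain ⟨x, hx, hx1, hx2⟩ := hpre E1 E2 hE1 hE2 (by
      intro x hx
      obtain ⟨S, hS, hxS⟩ := hcov (hseg hx)
      by_cases hg : good S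
      · exact Or.inl ⟨S, ⟨hS, hg⟩, hxS⟩
      · exact Or.inr ⟨S, ⟨hS, hg⟩, hxS⟩)
    ⟨a, left_mem_segment ℝ a b, D, ⟨hD, hDgood⟩, interior_subset ha1.1⟩
    ⟨b, right_mem_segment ℝ a b, D', ⟨hD', hD'bad⟩, interior_subset hb1.1⟩
  have hxT : x ∈ T := ⟨⟨hx1, hx2⟩, hseg hx⟩
  obtain ⟨α, β, hα, hβ, hαβ, hxe⟩ := hx
  have hβ0 : β ≠ 0 := by
    intro hc
    rw [hc, add_zero] at hαβ
    rw [hc, hαβ, one_smul, zero_smul, add_zero] at hxe
    rw [← hxe] at hxT
    exact haT hxT
  apply hbT x hxT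
  have x0 : x 0 = α * a 0 + β * b 0 := by rw [← hxe]; simp
  have x1 : x 1 = α * a 1 + β * b 1 := by rw [← hxe]; simp
  have hα' : α = 1 - β := by linarith
  rw [x0, x1, hα']
  ring

end Pool.Agent.Q228.Rep
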