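import Pool.Agent.Q228.Rep.Assemble

/-! # Eleven edge nets -/

set_option autoImplicit false

namespace Pool.Agent.Q228.Rep

open Pool.Agent.Helper697.Rep

def tb0 : List ((ℤ × ℤ) × Pos) := [
  ((3, 1), ((-1, 0, 0), (0, 1, 0), (0, 0, 1))), ((2, 1), ((0, -1, 0), (-1, 0, 0), (0, 0, 1))),
  ((0, 2), ((0, 0, 1), (1, 0, 0), (0, -1, 0))), ((1, 1), ((1, 0, 0), (0, -1, 0), (0, 0, 1))),
  ((0, 1), ((0, 1, 0), (1, 0, 0), (0, 0, 1))), ((0, 0), ((0, 0, -1), (1, 0, 0), (0, 1, 0)))]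

lemma net0 : IsEdgeNet (tb0.map Prod.fst).toFinset := edgeNet_of (by decide +kernel)

lemma inv0 : inv (tb0.map Prod.fst).toFinset = 784 := by decide +kernel

def tb1 : List ((ℤ × ℤ) × Pos) := [
  ((1, 4), ((-1, 0, 0), (0, 0, -1), (0, 1, 0))), ((1, 3), ((0, -1, 0), (0, 0, -1), (-1, 0, 0))),
  ((1, 2), ((1, 0, 0), (0, 0, -1), (0, -1, 0))), ((0, 2), ((0, 0, 1), (1, 0, 0), (0, -1, 0))),
  ((0, 1), ((0, 1, 0), (1, 0, 0), (0, 0, 1))), ((0, 0), ((0, 0, -1), (1, 0, 0), (0, 1, 0)))]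

lemma net1 : IsEdgeNet (tb1.map Prod.fst).toFinset := edgeNet_of (by decide +kernel)

lemma inv1 : inv (tb1.map Prod.fst).toFinset = 1218 := by decide +kernel

def tb2 : List ((ℤ × ℤ) × Pos) := [
  ((1, 3), ((-1, 0, 0), (0, -1, 0), (0, 0, -1))), ((1, 2), ((0, 0, 1), (0, -1, 0), (-1, 0, 0))),
  ((2, 1), ((0, -1, 0), (-1, 0, 0), (0, 0, 1))), ((1, 1), ((1, 0, 0), (0, -1, 0), (0, 0, 1))),
  ((0, 1), ((0, 1, 0), (1, 0, 0), (0, 0, 1))), ((0, 0), ((0, 0, -1), (1, 0, 0), (0, 1, 0)))]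

lemma net2 : IsEdgeNet (tb2.map Prod.fst).toFinset := edgeNet_of (by decide +kernel)

lemma inv2 : inv (tb2.map Prod.fst).toFinset = 498 := by decide +kernel

def tb3 : List ((ℤ × ℤ) × Pos) := [
  ((1, 3), ((-1, 0, 0), (0, -1, 0), (0, 0, -1))), ((2, 2), ((0, -1, 0), (0, 0, -1), (-1, 0, 0))),
  ((1, 2), ((0, 0, 1), (0, -1, 0), (-1, 0, 0))), ((1, 1), ((1, 0, 0), (0, -1, 0), (0, 0, 1))),
  ((0, 1), ((0, 1, 0), (1, 0, 0), (0, 0, 1))), ((0, 0), ((0, 0, -1), (1, 0, 0), (0, 1, 0)))]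

lemma net3 : IsEdgeNet (tb3.map Prod.fst).toFinset := edgeNet_of (by decide +kernel)

lemma inv3 : inv (tb3.map Prod.fst).toFinset = 552 := by decide +kernel

def tb4 : List ((ℤ × ℤ) × Pos) := [
  ((2, 3), ((0, -1, 0), (1, 0, 0), (0, 0, -1))), ((1, 3), ((-1, 0, 0), (0, -1, 0), (0, 0, -1))),
  ((1, 2), ((0, 0, 1), (0, -1, 0), (-1, 0, 0))), ((1, 1), ((1, 0, 0), (0, -1, 0), (0, 0, 1))),
  ((0, 1), ((0, 1, 0), (1, 0, 0), (0, 0, 1))), ((0, 0), ((0, 0, -1), (1, 0, 0), (0, 1, 0)))]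

lemma net4 : IsEdgeNet (tb4.map Prod.fst).toFinset := edgeNet_of (by decide +kernel)

lemma inv4 : inv (tb4.map Prod.fst).toFinset = 882 := by decide +kernel

def tb5 : List ((ℤ × ℤ) × Pos) := [
  ((3, 1), ((-1, 0, 0), (0, 1, 0), (0, 0, 1))), ((1, 2), ((0, 0, 1), (0, -1, 0), (-1, 0, 0))),
  ((2, 1), ((0, -1, 0), (-1, 0, 0), (0, 0, 1))), ((1, 1), ((1, 0, 0), (0, -1, 0), (0, 0, 1))),
  ((0, 1), ((0, 1, 0), (1, 0, 0), (0, 0, 1))), ((0, 0), ((0, 0, -1), (1, 0, 0), (0, 1, 0)))]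

lemma net5 : IsEdgeNet (tb5.map Prod.fst).toFinset := edgeNet_of (by decide +kernel)

lemma inv5 : inv (tb5.map Prod.fst).toFinset = 610 := by decide +kernel

def tb6 : List ((ℤ × ℤ) × Pos) := [
  ((2, 3), ((-1, 0, 0), (0, 0, -1), (0, 1, 0))), ((2, 2), ((0, -1, 0), (0, 0, -1), (-1, 0, 0))),
  ((1, 2), ((0, 0, 1), (0, -1, 0), (-1, 0, 0))), ((1, 1), ((1, 0, 0), (0, -1, 0), (0, 0, 1))),
  ((0, 1), ((0, 1, 0), (1, 0, 0), (0, 0, 1))), ((0, 0), ((0, 0, -1), (1, 0, 0), (0, 1, 0)))]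

lemma net6 : IsEdgeNet (tb6.map Prod.fst).toFinset := edgeNet_of (by decide +kernel)

lemma inv6 : inv (tb6.map Prod.fst).toFinset = 786 := by decide +kernel

def tb7 : List ((ℤ × ℤ) × Pos) := [
  ((2, 2), ((0, 0, 1), (-1, 0, 0), (0, 1, 0))), ((3, 1), ((-1, 0, 0), (0, 1, 0), (0, 0, 1))),
  ((2, 1), ((0, -1, 0), (-1, 0, 0), (0, 0, 1))), ((1, 1), ((1, 0, 0), (0, -1, 0), (0, 0, 1))),
  ((0, 1), ((0, 1, 0), (1, 0, 0), (0, 0, 1))), ((0, 0), ((0, 0, -1), (1, 0, 0), (0, 1, 0)))]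

lemma net7 : IsEdgeNet (tb7.map Prod.fst).toFinset := edgeNet_of (by decide +kernel)

lemma inv7 : inv (tb7.map Prod.fst).toFinset = 688 := by decide +kernel

def tb8 : List ((ℤ × ℤ) × Pos) := [
  ((3, 2), ((0, 0, 1), (0, 1, 0), (1, 0, 0))), ((3, 1), ((-1, 0, 0), (0, 1, 0), (0, 0, 1))),
  ((2, 1), ((0, -1, 0), (-1, 0, 0), (0, 0, 1))), ((1, 1), ((1, 0, 0), (0, -1, 0), (0, 0, 1))),
  ((0, 1), ((0, 1, 0), (1, 0, 0), (0, 0, 1))), ((0, 0), ((0, 0, -1), (1, 0, 0), (0, 1, 0)))]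

lemma net8 : IsEdgeNet (tb8.map Prod.fst).toFinset := edgeNet_of (by decide +kernel)

lemma inv8 : inv (tb8.map Prod.fst).toFinset = 1090 := by decide +kernel

def tb9 : List ((ℤ × ℤ) × Pos) := [
  ((1, 3), ((-1, 0, 0), (0, 0, 1), (0, -1, 0))), ((1, 0), ((0, -1, 0), (0, 0, 1), (1, 0, 0))),
  ((1, 2), ((0, 1, 0), (0, 0, 1), (-1, 0, 0))), ((2, 1), ((0, 0, 1), (-1, 0, 0), (0, 1, 0))),
  ((1, 1), ((1, 0, 0), (0, 0, 1), (0, 1, 0))), ((0, 1), ((0, 0, -1), (1, 0, 0), (0, 1, 0)))]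

lemma net9 : IsEdgeNet (tb9.map Prod.fst).toFinset := edgeNet_of (by decide +kernel)

lemma inv9 : inv (tb9.map Prod.fst).toFinset = 400 := by decide +kernel

def tb10 : List ((ℤ × ℤ) × Pos) := [
  ((1, 3), ((-1, 0, 0), (0, 0, 1), (0, -1, 0))), ((2, 2), ((0, 0, 1), (0, -1, 0), (-1, 0, 0))),
  ((1, 0), ((0, -1, 0), (0, 0, 1), (1, 0, 0))), ((1, 2), ((0, 1, 0), (0, 0, 1), (-1, 0, 0))),
  ((1, 1), ((1, 0, 0), (0, 0, 1), (0, 1, 0))), ((0, 1), ((0, 0, -1), (1, 0, 0), (0, 1, 0)))]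

lemma net10 : IsEdgeNet (tb10.map Prod.fst).toFinset := edgeNet_of (by decide +kernel)

lemma inv10 : inv (tb10.map Prod.fst).toFinset = 418 := by decide +kernel

end Pool.Agent.Q228.Rep
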