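import Pool.Agent.Q228.Rep.Meas

/-!
# Foldings of polyominoes to cubes: areas on the cube
-/

set_option autoImplicit false

namespace Pool.Agent.Q228.Rep

open Pool.Agent.Helper697.Rep MeasureTheory Set

/-- parametrisation of the plane `z j = c` -/
noncomputable def φ (j : Fin 3) (c : ℝ) (x : Plane) : Space :=
  match j with
  | 0 => !₂[c, x 0, x 1]
  | 1 => !₂[x 0, c, x 1]
  | 2 => !₂[x 0, x 1, c]

lemma φ_dist (j : Fin 3) (c : ℝ) (x y : Plane) : dist (φ j c x) (φ j c y) = dist x y := by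
  have : dist (φ j c x) (φ j c y) ^ 2 = dist x y ^ 2 := by
    rw [dist_sq2, dist_sq3]
    fin_cases j <;> simp [φ]
  exact (pow_left_inj₀ dist_nonneg dist_nonneg two_ne_zero).mp this

lemma φ_self (j : Fin 3) (c : ℝ) (x : Plane) : φ j c x j = c := by
  fin_cases j <;> simp [φ]

lemma φ_other (j j' : Fin 3) (h : j ≠ j') (c : ℝ) (x : Plane) :
    φ j c x j' = x 0 ∨ φ j c x j' = x 1 := by
  fin_cases j <;> fin_cases j' <;> first | exact absurd rfl h | simp [φ]

lemma φ_isometry (j : Fin 3) (c : ℝ) : Isometry (φ j c) := Isometry.of_dist_eq (φ_dist j c)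

lemma φ_closed (j : Fin 3) (c : ℝ) (K : Set Plane) (hK : IsClosed K) : IsClosed (φ j c '' K) :=
  (φ_isometry j c).isClosedEmbedding.isClosedMap K hK

lemma inter_null (j j' : Fin 3) (h : j ≠ j') (c c' : ℝ) (K : Set Plane) :
    μ3 (φ j c '' K ∩ {z | z j' = c'}) = 0 := by
  have hsub : φ j c '' K ∩ {z | z j' = c'} ⊆
      φ j c '' ({x : Plane | 1 * x 0 + 0 * x 1 = c'} ∪ {x : Plane | 0 * x 0 + 1 * x 1 = c'}) := by
    rintro _ ⟨⟨x, -, rfl⟩, hz⟩
    refine ⟨x, ?_, rfl⟩
    simp only [mem_ofPred_eq] at hz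
    rcases φ_other j j' h c x with h1 | h1
    · left; simp only [mem_ofPred_eq]; rw [← hz, h1]; ring
    · right; simp only [mem_ofPred_eq]; rw [← hz, h1]; ring
  apply measure_mono_null hsub
  rw [area_image _ _ (fun x _ y _ => φ_dist j c x y)]
  apply measure_union_null <;> apply vol_line <;> simp

/-- the two levels -/
def lev (l : ℝ) (b : Bool) : ℝ := if b then l else 0

lemma union_area (l : ℝ) (hl : 0 < l) (K : Set Plane) (hK : IsClosed K)
    (s : Finset (Fin 3 × Bool)) :
    μ3 (⋃ i ∈ s, φ i.1 (lev l i.2) '' K) = s.card * volume K := by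
  have h : μ3 (⋃ i ∈ s, φ i.1 (lev l i.2) '' K) = ∑ i ∈ s, μ3 (φ i.1 (lev l i.2) '' K) := by
    apply measure_biUnion_finset₀
    · rintro ⟨j, b⟩ _ ⟨j', b'⟩ _ hne
      by_cases hj : j = j'
      · subst hj
        have hb : b ≠ b' := fun hc => hne (by rw [hc])
        have hemp : φ j (lev l b) '' K ∩ φ j (lev l b') '' K = ∅ := by
          rw [eq_empty_iff_forall_notMem]
          rintro _ ⟨⟨x, -, rfl⟩, ⟨y, -, hy⟩⟩
          have h1 := congrArg (fun z : Space => z j) hy
          simp only [φ_self] at h1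
          cases b <;> cases b' <;> simp [lev] at h1 hb <;> linarith
        change μ3 (φ j (lev l b) '' K ∩ φ j (lev l b') '' K) = 0
        rw [hemp]; simp
      · change μ3 (φ j (lev l b) '' K ∩ φ j' (lev l b') '' K) = 0
        apply measure_mono_null _ (inter_null j j' hj (lev l b) (lev l b') K)
        rintro z ⟨h1, ⟨y, -, rfl⟩⟩
        exact ⟨h1, φ_self _ _ _⟩
    · intro i _
      exact (φ_closed _ _ K hK).measurableSet.nullMeasurableSet
  rw [h]
  have : ∀ i ∈ s, μ3 (φ i.1 (lev l i.2) '' K) = volume K := fun i _ =>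
    area_image _ _ (fun x _ y _ => φ_dist _ _ x y)
  rw [Finset.sum_congr rfl this, Finset.sum_const, nsmul_eq_mul]

/-- the square `[0, l]²` -/
def sq (l : ℝ) : Set Plane := {p : Plane | (0 ≤ p 0 ∧ p 0 ≤ l) ∧ (0 ≤ p 1 ∧ p 1 ≤ l)}

lemma sq_closed (l : ℝ) : IsClosed (sq l) :=
  ((isClosed_le continuous_const (coord_cont 0)).inter
    (isClosed_le (coord_cont 0) continuous_const)).inter
    ((isClosed_le continuous_const (coord_cont 1)).inter
    (isClosed_le (coord_cont 1) continuous_const))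

/-- every point with `j`-th coordinate `c` is in the parametrised plane -/
lemma exists_φ (j : Fin 3) (z : Space) : ∃ x : Plane, φ j (z j) x = z ∧
    ∃ a b : Fin 3, a ≠ j ∧ b ≠ j ∧ a ≠ b ∧ x 0 = z a ∧ x 1 = z b ∧
      z 0 ^ 2 + z 1 ^ 2 + z 2 ^ 2 = z j ^ 2 + x 0 ^ 2 + x 1 ^ 2 := by
  fin_cases j
  · refine ⟨!₂[z 1, z 2], ?_, 1, 2, by decide, by decide, by decide, by simp, by simp, by simp⟩
    ext i; fin_cases i <;> simp [φ]
  · refine ⟨!₂[z 0, z 2], ?_, 0, 2, by decide, by decide, by decide, by simp, by simp, ?_⟩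
    · ext i; fin_cases i <;> simp [φ]
    · simp; ring
  · refine ⟨!₂[z 0, z 1], ?_, 0, 1, by decide, by decide, by decide, by simp, by simp, ?_⟩
    · ext i; fin_cases i <;> simp [φ]
    · simp; ring

lemma surface_eq (l : ℝ) (hl : 0 < l) :
    cubeSurface l = ⋃ i ∈ (Finset.univ : Finset (Fin 3 × Bool)), φ i.1 (lev l i.2) '' sq l := by
  ext z
  simp only [mem_iUnion, Finset.mem_univ, exists_prop, true_and]
  constructor
  · rintro ⟨h1, j, hj⟩
    obtain ⟨x, hx, a, b, -, -, -, hxa, hxb, -⟩ := exists_φ j z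
    rcases hj with hj | hj
    · refine ⟨(j, false), x, ⟨?_, ?_⟩, ?_⟩
      · rw [hxa]; exact h1 a
      · rw [hxb]; exact h1 b
      · simp only [lev]; rw [hj] at hx; simpa using hx
    · refine ⟨(j, true), x, ⟨?_, ?_⟩, ?_⟩
      · rw [hxa]; exact h1 a
      · rw [hxb]; exact h1 b
      · simp only [lev]; rw [hj] at hx; simpa using hx
  · rintro ⟨⟨j, b⟩, x, hx, rfl⟩
    refine ⟨fun i => ?_, j, ?_⟩
    · by_cases hij : j = i
      · subst hij
        rw [φ_self]
        cases b <;> simp [lev, hl.le]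
      · rcases φ_other j i hij (lev l b) x with h | h
        · rw [h]; exact hx.1
        · rw [h]; exact hx.2
    · rw [φ_self]
      cases b <;> simp [lev]

lemma surface_area (l : ℝ) (hl : 0 < l) : μ3 (cubeSurface l) = ENNReal.ofReal (6 * l ^ 2) := by
  rw [surface_eq l hl, union_area l hl (sq l) (sq_closed l)]
  have h := vol_box 0 l 0 l hl.le hl.le
  have h' : volume (sq l) = ENNReal.ofReal ((l - 0) * (l - 0)) := h
  rw [h']
  have hc : ((Finset.univ : Finset (Fin 3 × Bool)).card : ENNReal) = ENNReal.ofReal 6 := by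
    have : (Finset.univ : Finset (Fin 3 × Bool)).card = 6 := by decide
    rw [this]; norm_num
  rw [hc, ← ENNReal.ofReal_mul (by norm_num)]
  congr 1
  ring

/-- a polyomino of `n` cells that folds to the cube of edge `l` has `n = 6 l²` -/
theorem area_eq {A : Finset (ℤ × ℤ)} {l : ℝ} {f : Plane → Space} (hf : Folds A l f) :
    6 * l ^ 2 = A.card := by
  have h := area_preserving hf univ isClosed_univ
  rw [inter_univ, preimage_univ, inter_univ, vol_region, surface_area l hf.pos] at h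
  have h2 : ENNReal.ofReal (6 * l ^ 2) = ENNReal.ofReal (A.card : ℝ) := by
    rw [h, ENNReal.ofReal_natCast]
  exact (ENNReal.ofReal_eq_ofReal_iff (by positivity) (by positivity)).mp h2

/-- closed quarter disc -/
def qd (ε : ℝ) : Set Plane := {p : Plane | (0 ≤ p 0 ∧ 0 ≤ p 1) ∧ p 0 ^ 2 + p 1 ^ 2 ≤ ε ^ 2}

lemma qd_closed (ε : ℝ) : IsClosed (qd ε) :=
  ((isClosed_le continuous_const (coord_cont 0)).inter
    (isClosed_le continuous_const (coord_cont 1))).inter
    (isClosed_le (f := fun p : Plane => p 0 ^ 2 + p 1 ^ 2) (by fun_prop) continuous_const)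

lemma corner_eq (l ε : ℝ) (hε : 0 < ε) (hl : ε < l) :
    cubeSurface l ∩ Metric.closedBall 0 ε =
      ⋃ i ∈ (Finset.univ.filter fun i : Fin 3 × Bool => i.2 = false),
        φ i.1 (lev l i.2) '' qd ε := by
  have hball : ∀ z : Space, z ∈ Metric.closedBall (0 : Space) ε ↔
      z 0 ^ 2 + z 1 ^ 2 + z 2 ^ 2 ≤ ε ^ 2 := by
    intro z
    rw [Metric.mem_closedBall]
    have h := dist_sq3 z 0
    simp only [PiLp.zero_apply, sub_zero] at h
    rw [← h]
    exact (pow_le_pow_iff_left₀ dist_nonneg hε.le two_ne_zero).symm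
  ext z
  simp only [mem_iUnion, Finset.mem_filter, Finset.mem_univ, true_and, exists_prop]
  constructor
  · rintro ⟨⟨h1, j, hj⟩, hz⟩
    rw [hball] at hz
    obtain ⟨x, hx, a, b, -, -, -, hxa, hxb, hsum⟩ := exists_φ j z
    rw [hsum] at hz
    have hj0 : z j = 0 := by
      rcases hj with h | h
      · exact h
      · exfalso
        rw [h] at hz
        nlinarith [sq_nonneg (x 0), sq_nonneg (x 1)]
    refine ⟨(j, false), rfl, x, ⟨⟨?_, ?_⟩, ?_⟩, ?_⟩
    · rw [hxa]; exact (h1 a).1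
    · rw [hxb]; exact (h1 b).1
    · rw [hj0] at hz; linarith
    · simp only [lev]; rw [hj0] at hx; simpa using hx
  · rintro ⟨⟨j, b⟩, hb, x, ⟨⟨hx0, hx1⟩, hx2⟩, rfl⟩
    simp only at hb
    subst hb
    have hb0 : x 0 ≤ l := by nlinarith [sq_nonneg (x 1)]
    have hb1 : x 1 ≤ l := by nlinarith [sq_nonneg (x 0)]
    have hl0 : 0 ≤ l := by linarith
    refine ⟨⟨fun i => ?_, j, ?_⟩, ?_⟩
    · by_cases hij : j = i
      · subst hij
        rw [φ_self]
        simp [lev, hl0]
      · rcases φ_other j i hij (lev l false) x with h | h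
        · rw [h]; exact ⟨hx0, hb0⟩
        · rw [h]; exact ⟨hx1, hb1⟩
    · rw [φ_self]; simp [lev]
    · rw [hball]
      fin_cases j <;> simp [φ, lev] <;> linarith

lemma corner_area (l ε : ℝ) (hε : 0 < ε) (hl : ε < l) :
    μ3 (cubeSurface l ∩ Metric.closedBall 0 ε) = 3 * volume (qd ε) := by
  rw [corner_eq l ε hε hl, union_area l (by linarith) (qd ε) (qd_closed ε)]
  have : (Finset.univ.filter fun i : Fin 3 × Bool => i.2 = false).card = 3 := by decide
  rw [this]; norm_num

end Pool.Agent.Q228.Rep
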