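import Pool.Agent.Q228.Rep.NetDefs
import Pool.Agent.Helper697.RepData

/-!
# Enumeration of polyominoes and of edge nets
-/

set_option autoImplicit false

namespace Pool.Agent.Q228.Rep

open Pool.Agent.Helper697.Rep

def nbrs (c : ℤ × ℤ) : List (ℤ × ℤ) :=
  [(c.1 + 1, c.2), (c.1, c.2 + 1), (c.1 - 1, c.2), (c.1, c.2 - 1)]

lemma edgeAdj_iff {c d : ℤ × ℤ} : EdgeAdj c d ↔ d ∈ nbrs c := by
  obtain ⟨a, b⟩ := c
  obtain ⟨x, y⟩ := d
  simp only [EdgeAdj, nbrs, List.mem_cons, Prod.mk.injEq, List.not_mem_nil, or_false]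
  constructor
  · intro h
    rcases abs_cases (a - x) with ⟨h1, h2⟩ | ⟨h1, h2⟩ <;>
      rcases abs_cases (b - y) with ⟨h3, h4⟩ | ⟨h3, h4⟩ <;> omega
  · intro h
    rcases abs_cases (a - x) with ⟨h1, h2⟩ | ⟨h1, h2⟩ <;>
      rcases abs_cases (b - y) with ⟨h3, h4⟩ | ⟨h3, h4⟩ <;> omega

lemma exists_boundary {A T : Finset (ℤ × ℤ)} (hA : IsPolyomino A) (hT : T ⊆ A)
    (hne : T.Nonempty) (hlt : T ≠ A) : ∃ s ∈ T, ∃ t ∈ A, t ∉ T ∧ t ∈ nbrs s := by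
  by_contra hcon
  push Not at hcon
  obtain ⟨s0, hs0⟩ := hne
  apply hlt
  apply Finset.Subset.antisymm hT
  intro t ht
  have h := hA.2 s0 (hT hs0) t ht
  induction h with
  | refl => exact hs0
  | tail _ hbc ih =>
    rename_i b c _
    by_contra hc
    exact hcon b (ih hbc.1) c hbc.2.1 hc (edgeAdj_iff.mp hbc.2.2)

end Pool.Agent.Q228.Rep
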