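import Pool.Agent.Q228.Rep.TwMain
import Pool.Agent.Q228.Rep.GrowBase

/-!
# Faster checks: cells are coded by natural numbers, sets of cells by bit masks
-/

set_option autoImplicit false

namespace Pool.Agent.Q228.Rep

open Pool.Agent.Helper697.Rep

def force (n : ℕ) (f : ℕ → Bool) : Bool := Nat.rec (f 0) (fun m _ => f (Nat.succ m)) n

lemma force_eq (n : ℕ) (f : ℕ → Bool) : force n f = f n := by
  cases n <;> rfl

def bt (m c : ℕ) : Bool := Nat.beq (Nat.land (Nat.shiftRight m c) 1) 1

lemma bt_eq (m c : ℕ) : bt m c = m.testBit c := by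
  unfold bt Nat.testBit
  have h1 : Nat.land (Nat.shiftRight m c) 1 = (m >>> c) &&& 1 := rfl
  rw [h1, Nat.and_comm (m >>> c) 1, Nat.one_and_eq_mod_two]
  rcases Nat.mod_two_eq_zero_or_one (m >>> c) with h | h <;> rw [h] <;> rfl

def sb (m c : ℕ) : ℕ := Nat.lor m (Nat.shiftLeft 1 c)

lemma testBit_sb (m c d : ℕ) : (sb m c).testBit d = true ↔ m.testBit d = true ∨ d = c := by
  have h1 : sb m c = m ||| (1 <<< c) := rfl
  rw [h1, Nat.testBit_or, Nat.one_shiftLeft, Nat.testBit_two_pow, Bool.or_eq_true,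
    decide_eq_true_eq]
  constructor
  · rintro (h | h)
    · exact Or.inl h
    · exact Or.inr h.symm
  · rintro (h | h)
    · exact Or.inl h
    · exact Or.inr h.symm

def maskOf : List ℕ → ℕ
  | [] => 0
  | c :: l => sb (maskOf l) c

lemma testBit_maskOf (L : List ℕ) (c : ℕ) : (maskOf L).testBit c = true ↔ c ∈ L := by
  induction L with
  | nil => simp [maskOf]
  | cons a l ih => rw [maskOf, testBit_sb, ih, List.mem_cons]; tauto

def nodupM : List ℕ → ℕ → Bool
  | [], _ => true
  | c :: l, m => !bt m c && force (sb m c) (nodupM l)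

lemma nodupM_spec : ∀ (L : List ℕ) (m : ℕ), nodupM L m = true →
    L.Nodup ∧ ∀ c ∈ L, m.testBit c = false
  | [], m, _ => ⟨List.nodup_nil, by simp⟩
  | a :: l, m, h => by
    simp only [nodupM, Bool.and_eq_true, Bool.not_eq_true', bt_eq, force_eq] at h
    obtain ⟨h1, h2⟩ := h
    obtain ⟨i1, i2⟩ := nodupM_spec l (sb m a) h2
    have h3 : ∀ c ∈ l, m.testBit c = false ∧ c ≠ a := by
      intro c hc
      have := i2 c hc
      rw [← Bool.not_eq_true, testBit_sb] at this
      push Not at this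
      exact ⟨by rw [← Bool.not_eq_true]; exact this.1, this.2⟩
    refine ⟨List.nodup_cons.mpr ⟨fun hc => (h3 a hc).2 rfl, i1⟩, ?_⟩
    intro c hc
    rcases List.mem_cons.mp hc with rfl | hc
    · exact h1
    · exact (h3 c hc).1

/-! ### Cells -/

def dec (n : ℕ) : ℤ × ℤ := (((n / 64 : ℕ) : ℤ), ((n % 64 : ℕ) : ℤ))

lemma dec_inj : Function.Injective dec := by
  intro m n h
  simp only [dec, Prod.mk.injEq, Nat.cast_inj] at h
  omega

lemma dec_right (n : ℕ) : dec (n + 64) = ((dec n).1 + 1, (dec n).2) := by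
  simp only [dec, Prod.mk.injEq]
  constructor
  · have : (n + 64) / 64 = n / 64 + 1 := by omega
    rw [this]; push_cast; ring
  · have : (n + 64) % 64 = n % 64 := by omega
    rw [this]

lemma dec_up (n : ℕ) (h : n % 64 ≤ 62) : dec (n + 1) = ((dec n).1, (dec n).2 + 1) := by
  simp only [dec, Prod.mk.injEq]
  constructor
  · have : (n + 1) / 64 = n / 64 := by omega
    rw [this]
  · have : (n + 1) % 64 = n % 64 + 1 := by omega
    rw [this]; push_cast; ring

/-- the code is in the range -/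
def rg (n : ℕ) : Bool := Nat.ble 64 n && (Nat.ble 1 (Nat.mod n 64) && Nat.ble (Nat.mod n 64) 62)

lemma rg_spec {n : ℕ} (h : rg n = true) : 64 ≤ n ∧ 1 ≤ n % 64 ∧ n % 64 ≤ 62 := by
  simp only [rg, Bool.and_eq_true, Nat.ble_eq] at h
  exact h

lemma eq_right {m n : ℕ} (h : dec m = ((dec n).1 + 1, (dec n).2)) : m = n + 64 := by
  rw [← dec_right] at h; exact dec_inj h

lemma eq_up {m n : ℕ} (hn : n % 64 ≤ 62) (h : dec m = ((dec n).1, (dec n).2 + 1)) :
    m = n + 1 := by
  rw [← dec_up n hn] at h; exact dec_inj h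

lemma dec_diag (n : ℕ) (hn : n % 64 ≤ 62) : dec (n + 65) = ((dec n).1 + 1, (dec n).2 + 1) := by
  have e : n + 65 = (n + 1) + 64 := by ring
  rw [e, dec_right, dec_up n hn]

lemma dec_down (n : ℕ) (hn : 1 ≤ n % 64) : dec (n - 1) = ((dec n).1, (dec n).2 - 1) := by
  have e : n = (n - 1) + 1 := by omega
  have h := dec_up (n - 1) (by omega)
  rw [← e] at h
  rw [h]
  simp

lemma dec_anti (n : ℕ) (hn : 1 ≤ n % 64) : dec (n + 63) = ((dec n).1 + 1, (dec n).2 - 1) := by
  have e : n + 63 = (n - 1) + 64 := by omega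
  rw [e, dec_right, dec_down n hn]

lemma dec_left (n : ℕ) (hn : 64 ≤ n) : dec (n - 64) = ((dec n).1 - 1, (dec n).2) := by
  have e : n = (n - 64) + 64 := by omega
  have h := dec_right (n - 64)
  rw [← e] at h
  rw [h]
  simp

/-! ### Connectivity -/

/-- every member of the list has a neighbour in the mask or before it in the list -/
def connM : List ℕ → ℕ → Bool
  | [], _ => true
  | c :: l, m => (bt m (Nat.add c 64) || (bt m (Nat.add c 1) || (bt m (Nat.sub c 1) ||
      bt m (Nat.sub c 64)))) && force (sb m c) (connM l)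

lemma connM_spec {P : Finset (ℤ × ℤ)} (c0 : ℕ) : ∀ (L : List ℕ) (m : ℕ), connM L m = true →
    (∀ c ∈ L, rg c = true ∧ dec c ∈ P) →
    (∀ c, m.testBit c = true → dec c ∈ P ∧ Conn P (dec c0) (dec c)) →
    ∀ c ∈ L, Conn P (dec c0) (dec c)
  | [], _, _, _, _ => by simp
  | a :: l, m, h, hL, hm => by
    simp only [connM, Bool.and_eq_true, Bool.or_eq_true, bt_eq, force_eq] at h
    obtain ⟨h1, h2⟩ := h
    obtain ⟨ha, haP⟩ := hL a (List.mem_cons_self ..)
    obtain ⟨r1, r2, r3⟩ := rg_spec ha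
    have hstep : ∀ d : ℕ, dec d ∈ P → EdgeAdj (dec d) (dec a) → Conn P (dec c0) (dec d) →
        Conn P (dec c0) (dec a) := fun d hd hadj hc => hc.tail ⟨hd, haP, hadj⟩
    have hconn : Conn P (dec c0) (dec a) := by
      rcases h1 with h1 | h1 | h1 | h1
      · obtain ⟨p1, p2⟩ := hm _ h1
        refine hstep _ p1 ?_ p2
        change EdgeAdj (dec (a + 64)) (dec a)
        rw [dec_right]
        simp [EdgeAdj]
      · obtain ⟨p1, p2⟩ := hm _ h1
        refine hstep _ p1 ?_ p2
        change EdgeAdj (dec (a + 1)) (dec a)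
        rw [dec_up a r3]
        simp [EdgeAdj]
      · obtain ⟨p1, p2⟩ := hm _ h1
        refine hstep _ p1 ?_ p2
        change EdgeAdj (dec (a - 1)) (dec a)
        rw [dec_down a r2]
        simp [EdgeAdj]
      · obtain ⟨p1, p2⟩ := hm _ h1
        refine hstep _ p1 ?_ p2
        change EdgeAdj (dec (a - 64)) (dec a)
        rw [dec_left a r1]
        simp [EdgeAdj]
    have ih := connM_spec c0 l (sb m a) h2 (fun c hc => hL c (List.mem_cons_of_mem _ hc)) (by
      intro c hc
      rw [testBit_sb] at hc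
      rcases hc with hc | rfl
      · exact hm c hc
      · exact ⟨haP, hconn⟩)
    intro c hc
    rcases List.mem_cons.mp hc with rfl | hc
    · exact hconn
    · exact ih c hc

/-- the list is connected -/
def connL : List ℕ → Bool
  | [] => false
  | c :: l => (c :: l).all rg && force (sb 0 c) (connM l)

lemma connL_spec {P : Finset (ℤ × ℤ)} {L : List ℕ} (h : connL L = true)
    (hP : ∀ c ∈ L, dec c ∈ P) : ∀ c ∈ L, ∀ d ∈ L, Conn P (dec c) (dec d) := by
  match L with
  | [] => simp [connL] at h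
  | a :: l =>
    simp only [connL, Bool.and_eq_true, force_eq, List.all_eq_true] at h
    obtain ⟨h1, h2⟩ := h
    have haP := hP a (List.mem_cons_self ..)
    have key := connM_spec (P := P) a l _ h2
      (fun c hc => ⟨h1 c (List.mem_cons_of_mem _ hc), hP c (List.mem_cons_of_mem _ hc)⟩) (by
        intro c hc
        rw [testBit_sb] at hc
        rcases hc with hc | rfl
        · simp at hc
        · exact ⟨haP, Conn.refl _⟩)
    have key' : ∀ c ∈ a :: l, Conn P (dec a) (dec c) := by
      intro c hc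
      rcases List.mem_cons.mp hc with rfl | hc
      · exact Conn.refl _
      · exact key c hc
    intro c hc d hd
    exact (key' c hc).symm.trans (key' d hd)

def decL (L : List ℕ) : Finset (ℤ × ℤ) := (L.map dec).toFinset

lemma mem_decL {L : List ℕ} {c : ℤ × ℤ} : c ∈ decL L ↔ ∃ n ∈ L, dec n = c := by
  simp [decL]

lemma dec_mem_decL {L : List ℕ} {n : ℕ} : dec n ∈ decL L ↔ n ∈ L := by
  rw [mem_decL]
  constructor
  · rintro ⟨m, hm, h⟩
    rwa [← dec_inj h]
  · intro h
    exact ⟨n, h, rfl⟩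

lemma polyomino_of_connL {L : List ℕ} (h : connL L = true) : IsPolyomino (decL L) := by
  refine ⟨?_, ?_⟩
  · match L with
    | [] => simp [connL] at h
    | a :: l => exact ⟨dec a, dec_mem_decL.mpr (List.mem_cons_self ..)⟩
  · intro c hc d hd
    obtain ⟨m, hm, rfl⟩ := mem_decL.mp hc
    obtain ⟨n, hn, rfl⟩ := mem_decL.mp hd
    exact connL_spec h (fun c hc => dec_mem_decL.mpr hc) m hm n hn

/-! ### The folding data -/

abbrev NData : Type := List (ℕ × St)

def toData (D : NData) : Data := D.map fun x => (dec x.1, x.2)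

def pairN (π : Par) (D : NData) (x : ℕ × St) : Bool :=
  D.all fun y => cond (Nat.beq y.1 (Nat.add x.1 64))
    (ag π x.2 y.2 (dec (x.1 + 64)) (dec (x.1 + 65)))
    (cond (Nat.beq y.1 (Nat.add x.1 1)) (ag π x.2 y.2 (dec (x.1 + 1)) (dec (x.1 + 65))) true)

/-- no pinch points; `M` is the mask -/
def pinM (M : ℕ) (c : ℕ) : Bool :=
  (!bt M (Nat.add c 65) || (bt M (Nat.add c 64) || bt M (Nat.add c 1))) &&
  (!bt M (Nat.add c 63) || (bt M (Nat.add c 64) || bt M (Nat.sub c 1)))

lemma nbeq_iff {m n : ℕ} : Nat.beq m n = true ↔ m = n := by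
  constructor
  · exact Nat.eq_of_beq_eq_true
  · rintro rfl; exact Nat.beq_refl m

lemma pairN_spec {π : Par} {D : NData} (hr : ∀ x ∈ D, rg x.1 = true)
    (h : ∀ x ∈ D, pairN π D x = true)
    (hp : ∀ x ∈ D, pinM (maskOf (D.map Prod.fst)) x.1 = true) :
    ∀ x ∈ toData D, ∀ y ∈ toData D, pairOK π (toData D) x y = true := by
  intro x' hx0 y' hy0
  obtain ⟨x, hx, rfl⟩ := List.mem_map.mp hx0
  obtain ⟨y, hy, rfl⟩ := List.mem_map.mp hy0
  obtain ⟨r1, r2, r3⟩ := rg_spec (hr x hx)
  have h1 := h x hx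
  simp only [pairN, List.all_eq_true] at h1
  have h2 := h1 y hy
  have h3 := hp x hx
  simp only [pinM, Bool.and_eq_true, Bool.or_eq_true, Bool.not_eq_true', bt_eq] at h3
  have hmem : ∀ n, (maskOf (D.map Prod.fst)).testBit n = true ↔ ∃ z ∈ D, z.1 = n := by
    intro n; rw [testBit_maskOf]; simp
  have hz : ∀ n, (∃ z ∈ D, z.1 = n) → ∃ z ∈ toData D, z.1 = dec n := by
    rintro n ⟨z, hz, rfl⟩
    exact ⟨(dec z.1, z.2), List.mem_map.mpr ⟨z, hz, rfl⟩, rfl⟩
  simp only [pairOK, Bool.and_eq_true, Bool.or_eq_true, Bool.not_eq_true',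
    decide_eq_false_iff_not, List.any_eq_true, decide_eq_true_eq]
  refine ⟨?_, ?_, ?_, ?_⟩
  · by_cases hc : dec y.1 = ((dec x.1).1 + 1, (dec x.1).2)
    · right
      have e := eq_right hc
      have hb : Nat.beq y.1 (Nat.add x.1 64) = true := nbeq_iff.mpr e
      rw [hb, cond_true] at h2
      rw [dec_right, dec_diag _ r3] at h2
      exact h2
    · exact Or.inl hc
  · by_cases hc : dec y.1 = ((dec x.1).1, (dec x.1).2 + 1)
    · right
      have e := eq_up r3 hc
      have hb : Nat.beq y.1 (Nat.add x.1 64) = false := by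
        rw [← Bool.not_eq_true, nbeq_iff]
        intro hcon
        have : y.1 = x.1 + 64 := hcon
        omega
      have hb' : Nat.beq y.1 (Nat.add x.1 1) = true := nbeq_iff.mpr e
      rw [hb, cond_false, hb', cond_true] at h2
      rw [dec_up _ r3, dec_diag _ r3] at h2
      exact h2
    · exact Or.inl hc
  · by_cases hc : dec y.1 = ((dec x.1).1 + 1, (dec x.1).2 + 1)
    · right
      rw [← dec_diag _ r3] at hc
      have e := dec_inj hc
      have hb : (maskOf (D.map Prod.fst)).testBit (Nat.add x.1 65) = true :=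
        (hmem _).mpr ⟨y, hy, e⟩
      rcases h3.1 with h4 | h4 | h4
      · rw [hb] at h4; exact absurd h4 (by simp)
      · obtain ⟨z, hz1, hz2⟩ := hz _ ((hmem _).mp h4)
        exact ⟨z, hz1, Or.inl (by rw [hz2]; exact dec_right _)⟩
      · obtain ⟨z, hz1, hz2⟩ := hz _ ((hmem _).mp h4)
        exact ⟨z, hz1, Or.inr (by rw [hz2]; exact dec_up _ r3)⟩
    · exact Or.inl hc
  · by_cases hc : dec y.1 = ((dec x.1).1 + 1, (dec x.1).2 - 1)
    · right
      rw [← dec_anti _ r2] at hc
      have e := dec_inj hc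
      have hb : (maskOf (D.map Prod.fst)).testBit (Nat.add x.1 63) = true :=
        (hmem _).mpr ⟨y, hy, e⟩
      rcases h3.2 with h4 | h4 | h4
      · rw [hb] at h4; exact absurd h4 (by simp)
      · obtain ⟨z, hz1, hz2⟩ := hz _ ((hmem _).mp h4)
        exact ⟨z, hz1, Or.inl (by rw [hz2]; exact dec_right _)⟩
      · obtain ⟨z, hz1, hz2⟩ := hz _ ((hmem _).mp h4)
        exact ⟨z, hz1, Or.inr (by rw [hz2]; exact dec_down _ r2)⟩
    · exact Or.inl hc

/-- all checks for the folding except `pairN` -/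
def foldN (π : Par) (D : NData) (W : List (List ℕ)) : Bool :=
  decide (0 ≤ π.a ∧ 0 ≤ π.b) && (nodupM (D.map Prod.fst) 0 &&
  (decide ((D.length : ℤ) = 6 * π.N) && ((D.all fun x => decide (Valid x.2)) &&
  ((D.all fun x => crossOK π x.2 (dec x.1)) && ((D.all fun x => rg x.1) &&
  (force (maskOf (D.map Prod.fst)) (fun M => D.all fun x => pinM M x.1) &&
  covB π (toData D) (fun k => W.getD k [])))))))

lemma foldN_spec {π : Par} {D : NData} {W : List (List ℕ)} (h : foldN π D W = true)
    (hp : ∀ x ∈ D, pairN π D x = true) :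
    (D.map Prod.fst).Nodup ∧ (D.length : ℤ) = 6 * π.N ∧
      FoldsEdge (decL (D.map Prod.fst)) √(π.N : ℝ) := by
  simp only [foldN, Bool.and_eq_true, decide_eq_true_eq, List.all_eq_true, force_eq] at h
  obtain ⟨⟨ha, hb⟩, hnd, hlen, hval, hcross, hrg, hpin, hcov⟩ := h
  obtain ⟨hnd', -⟩ := nodupM_spec _ _ hnd
  have e1 : (toData D).map Prod.fst = (D.map Prod.fst).map dec := by
    simp [toData, Function.comp_def]
  have hnd2 : ((toData D).map Prod.fst).Nodup := by
    rw [e1]; exact hnd'.map dec_inj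
  refine ⟨hnd', hlen, ?_⟩
  have := folds_of_props ha hb hnd2 (by rw [toData, List.length_map]; exact hlen) (by
      intro x hx
      obtain ⟨y, hy, rfl⟩ := List.mem_map.mp hx
      exact hval y hy) (by
      intro x hx
      obtain ⟨y, hy, rfl⟩ := List.mem_map.mp hx
      exact hcross y hy) (pairN_spec hrg hp hpin) hcov
  rw [e1] at this
  exact this

end Pool.Agent.Q228.Rep
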