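import Pool.Agent.Q228.Rep.Vertex

/-!
# Orders of regular rep-cubes are sums of two squares
-/

set_option autoImplicit false

namespace Pool.Agent.Q228.Rep

open Pool.Agent.Helper697.Rep

/-- `P` is a net of some cube: there is a continuous map of its region onto the surface of a
cube of edge `l > 0`, distance preserving on each of finitely many closed convex pieces and
one-to-one on the interior of the region. -/
def NetOfCube (A : Finset (ℤ × ℤ)) : Prop :=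
  ∃ l : ℝ, 0 < l ∧ ∃ f : Plane → Space, ContinuousOn f (region A) ∧
    f '' region A = cubeSurface l ∧ Set.InjOn f (interior (region A)) ∧ CreasedOn f (region A)

lemma netOfCube_of_folds {A : Finset (ℤ × ℤ)} (h : FoldsToCube A) : NetOfCube A := by
  obtain ⟨l, hl, f, h1, h2, h3, h4⟩ := h
  exact ⟨l, hl, f, h1, h2, fun x hx y hy hxy => h3 x hx y (interior_subset hy) hxy, h4⟩

/-- sums of two squares -/
def S2 (n : ℕ) : Prop := ∃ a b : ℕ, n = a ^ 2 + b ^ 2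

lemma S2_iff (n : ℕ) : S2 n ↔ ∀ q ∈ n.primeFactors, q % 4 = 3 → Even (padicValNat q n) := by
  unfold S2
  rw [Nat.eq_sq_add_sq_iff]

lemma S2_div {k X Y : ℕ} (hX : S2 X) (hY : S2 Y) (hX0 : X ≠ 0) (hY0 : Y ≠ 0) (h : k * X = Y) :
    S2 k := by
  rw [S2_iff] at hX hY ⊢
  intro q hq hq3
  have hqp := Nat.prime_of_mem_primeFactors hq
  have : Fact q.Prime := ⟨hqp⟩
  have hk0 : k ≠ 0 := by
    rintro rfl; simp at h; exact hY0 h.symm
  have hdvd : q ∣ k := Nat.dvd_of_mem_primeFactors hq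
  have hqY : q ∈ Y.primeFactors := by
    rw [Nat.mem_primeFactors]
    exact ⟨hqp, h ▸ hdvd.mul_right X, hY0⟩
  have e1 := hY q hqY hq3
  rw [← h, padicValNat.mul hk0 hX0] at e1
  have e2 : Even (padicValNat q X) := by
    by_cases hqX : q ∈ X.primeFactors
    · exact hX q hqX hq3
    · have : ¬ q ∣ X := fun hc => hqX (Nat.mem_primeFactors.mpr ⟨hqp, hc, hX0⟩)
      rw [padicValNat.eq_zero_of_not_dvd this]
      exact Even.zero
  exact (Nat.even_add.mp e1).mpr e2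

lemma S2_mul {X Y : ℕ} (hX : S2 X) (hY : S2 Y) : S2 (X * Y) := by
  obtain ⟨a, b, rfl⟩ := hX
  obtain ⟨c, d, rfl⟩ := hY
  obtain ⟨r, s, h⟩ := Nat.sq_add_sq_mul (x := a) (y := b) (u := c) (v := d) rfl rfl
  exact ⟨r, s, h⟩

lemma natAbs_sq_real (m n : ℤ) :
    ((m.natAbs ^ 2 + n.natAbs ^ 2 : ℕ) : ℝ) = (m : ℝ) ^ 2 + (n : ℝ) ^ 2 := by
  push_cast [Nat.cast_natAbs, sq_abs]
  rfl

/-- the edge of the cube: `6 l² = |A|` and `l² X = Y` with positive sums of two squares -/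
lemma edge_data {A : Finset (ℤ × ℤ)} {l : ℝ} {f : Plane → Space} (hA : IsPolyomino A)
    (hf : Folds A l f) :
    6 * l ^ 2 = A.card ∧ ∃ X Y : ℕ, S2 X ∧ S2 Y ∧ X ≠ 0 ∧ Y ≠ 0 ∧ l ^ 2 * (X : ℝ) = Y := by
  refine ⟨area_eq hf, ?_⟩
  obtain ⟨a, b, m, n, hpos, h⟩ := lattice_relation hA hf
  refine ⟨m.natAbs ^ 2 + n.natAbs ^ 2, a.natAbs ^ 2 + b.natAbs ^ 2, ⟨_, _, rfl⟩, ⟨_, _, rfl⟩, ?_,
    ?_, ?_⟩
  · intro hc
    have h1 : (m : ℤ) ^ 2 + n ^ 2 = 0 := by
      have : ((m.natAbs ^ 2 + n.natAbs ^ 2 : ℕ) : ℤ) = m ^ 2 + n ^ 2 := by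
        push_cast [Int.natCast_natAbs, sq_abs]; rfl
      rw [← this, hc]; rfl
    have h2 : (m : ℝ) ^ 2 + (n : ℝ) ^ 2 = 0 := by exact_mod_cast h1
    rw [h2, mul_zero] at h
    have h3 : (0 : ℝ) < (a : ℝ) ^ 2 + (b : ℝ) ^ 2 := by exact_mod_cast hpos
    linarith
  · intro hc
    have : ((a.natAbs ^ 2 + b.natAbs ^ 2 : ℕ) : ℤ) = a ^ 2 + b ^ 2 := by
      push_cast [Int.natCast_natAbs, sq_abs]; rfl
    rw [hc] at this
    have h2 : (0 : ℤ) = a ^ 2 + b ^ 2 := by exact_mod_cast this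
    omega
  · rw [natAbs_sq_real, natAbs_sq_real, h]

/-- the number of cells of a polyomino that folds to a cube is `6` times a quotient of two sums of
two squares; in other words `6 |A|` is a sum of two squares -/
theorem net_card {A : Finset (ℤ × ℤ)} (hA : IsPolyomino A) (h : NetOfCube A) :
    S2 (6 * A.card) := by
  obtain ⟨l, hl, f, h1, h2, h3, h4⟩ := h
  obtain ⟨harea, X, Y, hX, hY, hX0, hY0, hXY⟩ := edge_data hA ⟨hl, h1, h2, h3, h4⟩
  -- 6 |A| X = 36 Y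
  have e : 6 * A.card * X = 6 ^ 2 * Y := by
    have : ((6 * A.card * X : ℕ) : ℝ) = ((6 ^ 2 * Y : ℕ) : ℝ) := by
      push_cast
      rw [← harea, ← hXY]; ring
    exact_mod_cast this
  exact S2_div hX (S2_mul ⟨6, 0, by norm_num⟩ hY) hX0 (by positivity) e

/-- the quotient of the numbers of cells of two polyominoes that fold to cubes -/
theorem net_ratio {A B : Finset (ℤ × ℤ)} (hA : IsPolyomino A) (hB : IsPolyomino B)
    (hA' : NetOfCube A) (hB' : NetOfCube B) (k : ℕ) (h : A.card = k * B.card) : S2 k := by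
  have h1 := net_card hA hA'
  have h2 := net_card hB hB'
  have hB0 : B.card ≠ 0 := (Finset.card_pos.mpr hB.1).ne'
  have hA0 : A.card ≠ 0 := (Finset.card_pos.mpr hA.1).ne'
  exact S2_div h2 h1 (by positivity) (by positivity) (by rw [h]; ring)

/-- `P` is a regular rep-cube of order `k` -/
def IsRegularRepCube (k : ℕ) (P : Finset (ℤ × ℤ)) : Prop :=
  IsPolyomino P ∧ NetOfCube P ∧
    ∃ Q : Finset (Finset (ℤ × ℤ)), Q.card = k ∧ (∀ A ∈ Q, IsPolyomino A ∧ NetOfCube A) ∧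
      (∀ A ∈ Q, ∀ B ∈ Q, A ≠ B → Disjoint A B) ∧ Q.biUnion id = P ∧
      ∀ A ∈ Q, ∀ B ∈ Q, A.card = B.card

theorem regular_order (k : ℕ) (hk : 0 < k) (P : Finset (ℤ × ℤ)) (h : IsRegularRepCube k P) :
    S2 k := by
  obtain ⟨hP, hPn, Q, hQk, hQ, hdisj, hU, hreg⟩ := h
  obtain ⟨B, hB⟩ : Q.Nonempty := by rw [← Finset.card_pos]; omega
  have hcard : P.card = k * B.card := by
    have hcb : (Q.biUnion id).card = ∑ A ∈ Q, (id A).card :=
      Finset.card_biUnion (fun A hA B hB hAB => hdisj A hA B hB hAB)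
    rw [← hU, hcb, ← hQk]
    simp only [id]
    rw [Finset.sum_congr rfl (fun A hA => hreg A hA B hB), Finset.sum_const, smul_eq_mul]
  exact net_ratio hP (hQ B hB).1 hPn (hQ B hB).2 k hcard

end Pool.Agent.Q228.Rep
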