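import Pool.Agent.Q228.Rep.Assemble

/-! # The rep-cube of order 13 -/

set_option autoImplicit false

namespace Pool.Agent.Q228.Rep

open Pool.Agent.Helper697.Rep

def p32 : Par := ⟨3, 2, by norm_num⟩

def X13 : ND where
  D := [
    (208, ⟨3, 3, (0, 0, 0), (1, 0, 0), (0, 1, 0), (0, 0, 1)⟩),
    (272, ⟨3, 3, (0, 0, 0), (1, 0, 0), (0, 1, 0), (0, 0, 1)⟩),
    (209, ⟨3, 3, (0, 0, 0), (1, 0, 0), (0, 1, 0), (0, 0, 1)⟩),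
    (273, ⟨3, 3, (0, 0, 0), (1, 0, 0), (0, 1, 0), (0, 0, 1)⟩),
    (210, ⟨3, 3, (0, 0, 0), (1, 0, 0), (0, 1, 0), (0, 0, 1)⟩),
    (337, ⟨3, 3, (0, 0, 0), (1, 0, 0), (0, 1, 0), (0, 0, 1)⟩),
    (274, ⟨3, 3, (0, 0, 0), (1, 0, 0), (0, 1, 0), (0, 0, 1)⟩),
    (401, ⟨4, 3, (1, 0, 0), (0, 0, 1), (0, 1, 0), (-1, 0, 0)⟩),
    (338, ⟨4, 3, (1, 0, 0), (0, 0, 1), (0, 1, 0), (-1, 0, 0)⟩),
    (275, ⟨4, 3, (1, 0, 0), (0, 0, 1), (0, 1, 0), (-1, 0, 0)⟩),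
    (465, ⟨4, 2, (0, 0, 0), (0, 0, 1), (1, 0, 0), (0, 1, 0)⟩),
    (402, ⟨4, 3, (1, 0, 0), (0, 0, 1), (0, 1, 0), (-1, 0, 0)⟩),
    (400, ⟨4, 2, (0, 0, 0), (0, 0, 1), (1, 0, 0), (0, 1, 0)⟩),
    (276, ⟨4, 4, (1, 1, 0), (0, 0, 1), (-1, 0, 0), (0, -1, 0)⟩),
    (529, ⟨4, 2, (0, 0, 0), (0, 0, 1), (1, 0, 0), (0, 1, 0)⟩),
    (466, ⟨4, 3, (1, 0, 0), (0, 0, 1), (0, 1, 0), (-1, 0, 0)⟩),
    (464, ⟨4, 2, (0, 0, 0), (0, 0, 1), (1, 0, 0), (0, 1, 0)⟩),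
    (593, ⟨4, 2, (0, 0, 0), (0, 0, 1), (1, 0, 0), (0, 1, 0)⟩),
    (530, ⟨4, 2, (0, 0, 0), (0, 0, 1), (1, 0, 0), (0, 1, 0)⟩),
    (528, ⟨4, 2, (0, 0, 0), (0, 0, 1), (1, 0, 0), (0, 1, 0)⟩),
    (467, ⟨4, 3, (1, 0, 0), (0, 0, 1), (0, 1, 0), (-1, 0, 0)⟩),
    (463, ⟨4, 2, (0, 0, 0), (0, 0, 1), (1, 0, 0), (0, 1, 0)⟩),
    (657, ⟨5, 2, (0, 0, 1), (0, 1, 0), (1, 0, 0), (0, 0, -1)⟩),
    (594, ⟨5, 2, (0, 0, 1), (0, 1, 0), (1, 0, 0), (0, 0, -1)⟩),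
    (592, ⟨4, 2, (0, 0, 0), (0, 0, 1), (1, 0, 0), (0, 1, 0)⟩),
    (527, ⟨4, 2, (0, 0, 0), (0, 0, 1), (1, 0, 0), (0, 1, 0)⟩),
    (468, ⟨4, 3, (1, 0, 0), (0, 0, 1), (0, 1, 0), (-1, 0, 0)⟩),
    (721, ⟨5, 2, (0, 0, 1), (0, 1, 0), (1, 0, 0), (0, 0, -1)⟩),
    (658, ⟨5, 2, (0, 0, 1), (0, 1, 0), (1, 0, 0), (0, 0, -1)⟩),
    (656, ⟨4, 2, (0, 0, 0), (0, 0, 1), (1, 0, 0), (0, 1, 0)⟩),
    (595, ⟨5, 3, (1, 0, 1), (0, 1, 0), (0, 0, -1), (-1, 0, 0)⟩),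
    (591, ⟨4, 2, (0, 0, 0), (0, 0, 1), (1, 0, 0), (0, 1, 0)⟩),
    (526, ⟨4, 2, (0, 0, 0), (0, 0, 1), (1, 0, 0), (0, 1, 0)⟩),
    (785, ⟨5, 2, (0, 0, 1), (0, 1, 0), (1, 0, 0), (0, 0, -1)⟩),
    (722, ⟨5, 2, (0, 0, 1), (0, 1, 0), (1, 0, 0), (0, 0, -1)⟩),
    (720, ⟨5, 2, (0, 0, 1), (0, 1, 0), (1, 0, 0), (0, 0, -1)⟩),
    (659, ⟨5, 2, (0, 0, 1), (0, 1, 0), (1, 0, 0), (0, 0, -1)⟩),
    (849, ⟨5, 1, (0, 0, 0), (0, 1, 0), (0, 0, 1), (1, 0, 0)⟩),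
    (786, ⟨5, 2, (0, 0, 1), (0, 1, 0), (1, 0, 0), (0, 0, -1)⟩),
    (784, ⟨5, 1, (0, 0, 0), (0, 1, 0), (0, 0, 1), (1, 0, 0)⟩),
    (723, ⟨5, 2, (0, 0, 1), (0, 1, 0), (1, 0, 0), (0, 0, -1)⟩),
    (719, ⟨5, 1, (0, 0, 0), (0, 1, 0), (0, 0, 1), (1, 0, 0)⟩),
    (913, ⟨6, 1, (0, 1, 0), (1, 0, 0), (0, 0, 1), (0, -1, 0)⟩),
    (850, ⟨5, 2, (0, 0, 1), (0, 1, 0), (1, 0, 0), (0, 0, -1)⟩),
    (848, ⟨5, 1, (0, 0, 0), (0, 1, 0), (0, 0, 1), (1, 0, 0)⟩),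
    (787, ⟨5, 2, (0, 0, 1), (0, 1, 0), (1, 0, 0), (0, 0, -1)⟩),
    (783, ⟨5, 1, (0, 0, 0), (0, 1, 0), (0, 0, 1), (1, 0, 0)⟩),
    (724, ⟨5, 2, (0, 0, 1), (0, 1, 0), (1, 0, 0), (0, 0, -1)⟩),
    (977, ⟨6, 1, (0, 1, 0), (1, 0, 0), (0, 0, 1), (0, -1, 0)⟩),
    (912, ⟨5, 1, (0, 0, 0), (0, 1, 0), (0, 0, 1), (1, 0, 0)⟩),
    (851, ⟨6, 2, (0, 1, 1), (0, 0, -1), (1, 0, 0), (0, -1, 0)⟩),
    (847, ⟨5, 1, (0, 0, 0), (0, 1, 0), (0, 0, 1), (1, 0, 0)⟩),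
    (788, ⟨6, 2, (0, 1, 1), (0, 0, -1), (1, 0, 0), (0, -1, 0)⟩),
    (782, ⟨5, 1, (0, 0, 0), (0, 1, 0), (0, 0, 1), (1, 0, 0)⟩),
    (976, ⟨6, 1, (0, 1, 0), (1, 0, 0), (0, 0, 1), (0, -1, 0)⟩),
    (911, ⟨5, 1, (0, 0, 0), (0, 1, 0), (0, 0, 1), (1, 0, 0)⟩),
    (852, ⟨6, 2, (0, 1, 1), (0, 0, -1), (1, 0, 0), (0, -1, 0)⟩),
    (846, ⟨5, 1, (0, 0, 0), (0, 1, 0), (0, 0, 1), (1, 0, 0)⟩),
    (789, ⟨6, 3, (1, 1, 1), (0, 0, -1), (0, -1, 0), (-1, 0, 0)⟩),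
    (1040, ⟨6, 1, (0, 1, 0), (1, 0, 0), (0, 0, 1), (0, -1, 0)⟩),
    (975, ⟨5, 1, (0, 0, 0), (0, 1, 0), (0, 0, 1), (1, 0, 0)⟩),
    (910, ⟨5, 1, (0, 0, 0), (0, 1, 0), (0, 0, 1), (1, 0, 0)⟩),
    (916, ⟨6, 2, (0, 1, 1), (0, 0, -1), (1, 0, 0), (0, -1, 0)⟩),
    (853, ⟨6, 2, (0, 1, 1), (0, 0, -1), (1, 0, 0), (0, -1, 0)⟩),
    (845, ⟨5, 1, (0, 0, 0), (0, 1, 0), (0, 0, 1), (1, 0, 0)⟩),
    (790, ⟨6, 3, (1, 1, 1), (0, 0, -1), (0, -1, 0), (-1, 0, 0)⟩),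
    (1104, ⟨6, 1, (0, 1, 0), (1, 0, 0), (0, 0, 1), (0, -1, 0)⟩),
    (1039, ⟨6, 1, (0, 1, 0), (1, 0, 0), (0, 0, 1), (0, -1, 0)⟩),
    (974, ⟨5, 0, (1, 0, 0), (0, 1, 0), (-1, 0, 0), (0, 0, 1)⟩),
    (917, ⟨6, 2, (0, 1, 1), (0, 0, -1), (1, 0, 0), (0, -1, 0)⟩),
    (854, ⟨6, 3, (1, 1, 1), (0, 0, -1), (0, -1, 0), (-1, 0, 0)⟩),
    (844, ⟨5, 0, (1, 0, 0), (0, 1, 0), (-1, 0, 0), (0, 0, 1)⟩),
    (791, ⟨6, 3, (1, 1, 1), (0, 0, -1), (0, -1, 0), (-1, 0, 0)⟩),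
    (1168, ⟨6, 0, (0, 0, 0), (1, 0, 0), (0, 1, 0), (0, 0, 1)⟩),
    (1103, ⟨6, 0, (0, 0, 0), (1, 0, 0), (0, 1, 0), (0, 0, 1)⟩),
    (855, ⟨6, 3, (1, 1, 1), (0, 0, -1), (0, -1, 0), (-1, 0, 0)⟩),
    (1102, ⟨6, 0, (0, 0, 0), (1, 0, 0), (0, 1, 0), (0, 0, 1)⟩),
    (1101, ⟨6, 0, (0, 0, 0), (1, 0, 0), (0, 1, 0), (0, 0, 1)⟩)]
  W := [[0, 1238, 1362, 1357, 0, 1298, 1541, 1521, 1481, 1337, 1422, 1, 41, 81, 1461, 436, 21, 61, 121,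
      193, 0, 256, 101, 173, 0],
    [0, 345, 461, 617, 0, 585, 441, 561, 721, 528, 701, 541, 681, 801, 941, 789, 661, 761, 901, 1053,
      0, 749, 861, 1013, 0],
    [0, 638, 821, 717, 0, 658, 1061, 921, 781, 677, 1281, 1141, 1021, 881, 741, 1556, 1221, 1101, 981,
      853, 0, 1369, 1201, 1093, 0],
    [0, 125, 181, 277, 0, 105, 161, 1503, 1403, 1271, 141, 221, 1443, 1303, 1163, 209, 301, 401, 521,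
      950, 0, 369, 602, 730, 0],
    [0, 38, 241, 157, 0, 1435, 421, 321, 201, 317, 641, 501, 381, 281, 361, 1076, 621, 481, 341, 473,
      0, 836, 581, 453, 0],
    [0, 985, 841, 868, 0, 1205, 1081, 961, 1004, 908, 1341, 1181, 1244, 1124, 1044, 1489, 1321, 1384,
      1264, 1180, 0, 1469, 262, 1420, 0]]
  C := [
    139, 203, 140, 267, 204, 141, 331, 268, 205, 142, 395, 332, 269, 206, 143, 459, 396, 333,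
    270, 207, 144, 523, 460, 397, 334, 271, 145, 587, 524, 461, 398, 335, 146, 651, 588, 525,
    462, 399, 336, 147, 715, 652, 589, 211, 148, 779, 716, 653, 590, 212, 149, 843, 780, 717,
    654, 213, 150, 907, 781, 718, 655, 277, 214, 151, 971, 908, 341, 278, 215, 152, 1035, 972,
    909, 405, 342, 340, 279, 216, 1099, 1036, 973, 469, 406, 404, 343, 339, 280, 1163, 1100,
    1037, 533, 470, 407, 403, 344, 1227, 1164, 1038, 597, 534, 532, 471, 408, 1228, 1165, 661,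
    598, 596, 535, 531, 472, 1229, 1166, 725, 662, 660, 599, 536, 1230, 1167, 726, 663, 600,
    1231, 727, 664, 1232, 728, 1233, 792, 1234, 1169, 856, 1235, 1170, 1105, 920, 1236, 1171,
    1106, 1041, 984, 919, 1237, 1172, 1107, 1042, 1048, 983, 918, 1238, 1173, 1108, 1043, 978,
    1112, 1047, 982, 1239, 1174, 1109, 1044, 979, 914, 1176, 1111, 1046, 981, 1240, 1175, 1110,
    1045, 980, 915]
  x0 := 2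
  y0 := 11
  m := 17
  n := 13

def q13_0 : ND where
  D := [
    (402, ⟨6, 18, (0, 0, 0), (1, 0, 0), (0, 1, 0), (0, 0, 1)⟩),
    (466, ⟨7, 18, (1, 0, 0), (0, 0, 1), (0, 1, 0), (-1, 0, 0)⟩),
    (530, ⟨8, 18, (1, 0, 1), (-1, 0, 0), (0, 1, 0), (0, 0, -1)⟩),
    (467, ⟨7, 19, (1, 1, 0), (0, 0, 1), (-1, 0, 0), (0, -1, 0)⟩),
    (529, ⟨8, 17, (1, 0, 0), (-1, 0, 0), (0, 0, 1), (0, 1, 0)⟩),
    (468, ⟨7, 20, (0, 1, 0), (0, 0, 1), (0, -1, 0), (1, 0, 0)⟩)]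
  W := [[1],
    [44],
    [102],
    [21],
    [84],
    [62]]
  C := [
    336, 400, 337, 464, 401, 338, 528, 465, 339, 592, 403, 340, 593, 404, 341, 594, 405, 595,
    469, 596, 531, 533, 597, 532]
  x0 := 5
  y0 := 16
  m := 4
  n := 5

def q13_1 : ND where
  D := [
    (594, ⟨9, 18, (0, 0, 0), (1, 0, 0), (0, 1, 0), (0, 0, 1)⟩),
    (595, ⟨9, 19, (0, 1, 0), (1, 0, 0), (0, 0, 1), (0, -1, 0)⟩),
    (659, ⟨10, 19, (1, 1, 0), (0, -1, 0), (0, 0, 1), (-1, 0, 0)⟩),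
    (723, ⟨11, 19, (1, 0, 0), (-1, 0, 0), (0, 0, 1), (0, 1, 0)⟩),
    (787, ⟨12, 19, (0, 0, 0), (0, 1, 0), (0, 0, 1), (1, 0, 0)⟩),
    (724, ⟨11, 20, (1, 0, 1), (-1, 0, 0), (0, 1, 0), (0, 0, -1)⟩)]
  W := [[1],
    [104],
    [81],
    [44],
    [64],
    [21]]
  C := [
    529, 593, 530, 657, 531, 721, 658, 532, 785, 722, 596, 533, 849, 786, 660, 597, 850, 661,
    851, 725, 852, 789, 853, 788]
  x0 := 8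
  y0 := 17
  m := 5
  n := 4

def q13_2 : ND where
  D := [
    (528, ⟨8, 16, (0, 0, 0), (1, 0, 0), (0, 1, 0), (0, 0, 1)⟩),
    (592, ⟨9, 16, (1, 0, 0), (0, 0, 1), (0, 1, 0), (-1, 0, 0)⟩),
    (593, ⟨9, 17, (1, 1, 0), (0, 0, 1), (-1, 0, 0), (0, -1, 0)⟩),
    (657, ⟨10, 17, (1, 1, 1), (0, -1, 0), (-1, 0, 0), (0, 0, -1)⟩),
    (658, ⟨10, 18, (0, 1, 1), (0, -1, 0), (0, 0, -1), (1, 0, 0)⟩),
    (722, ⟨11, 18, (0, 0, 1), (1, 0, 0), (0, 0, -1), (0, 1, 0)⟩)]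
  W := [[1],
    [63],
    [83],
    [21],
    [102],
    [42]]
  C := [
    463, 527, 464, 591, 465, 655, 529, 466, 719, 656, 530, 467, 783, 720, 594, 531, 784, 721,
    595, 785, 659, 786, 723, 787]
  x0 := 7
  y0 := 15
  m := 5
  n := 4

def q13_3 : ND where
  D := [
    (272, ⟨4, 16, (0, 0, 0), (1, 0, 0), (0, 1, 0), (0, 0, 1)⟩),
    (273, ⟨4, 17, (0, 1, 0), (1, 0, 0), (0, 0, 1), (0, -1, 0)⟩),
    (337, ⟨5, 17, (1, 1, 0), (0, -1, 0), (0, 0, 1), (-1, 0, 0)⟩),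
    (401, ⟨6, 17, (1, 0, 0), (-1, 0, 0), (0, 0, 1), (0, 1, 0)⟩),
    (338, ⟨5, 18, (1, 1, 1), (0, -1, 0), (-1, 0, 0), (0, 0, -1)⟩),
    (465, ⟨7, 17, (0, 0, 0), (0, 1, 0), (0, 0, 1), (1, 0, 0)⟩)]
  W := [[1],
    [83],
    [101],
    [44],
    [64],
    [21]]
  C := [
    207, 271, 208, 335, 209, 399, 336, 210, 463, 400, 274, 211, 527, 464, 275, 528, 339, 529,
    403, 530, 467, 402, 531, 466]
  x0 := 3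
  y0 := 15
  m := 5
  n := 4

def q13_4 : ND where
  D := [
    (400, ⟨6, 16, (0, 0, 0), (1, 0, 0), (0, 1, 0), (0, 0, 1)⟩),
    (464, ⟨7, 16, (1, 0, 0), (0, 0, 1), (0, 1, 0), (-1, 0, 0)⟩),
    (463, ⟨7, 15, (0, 0, 0), (0, 0, 1), (1, 0, 0), (0, 1, 0)⟩),
    (527, ⟨8, 15, (0, 0, 1), (0, 1, 0), (1, 0, 0), (0, 0, -1)⟩),
    (591, ⟨9, 15, (0, 1, 1), (0, 0, -1), (1, 0, 0), (0, -1, 0)⟩),
    (526, ⟨8, 14, (0, 0, 0), (0, 1, 0), (0, 0, 1), (1, 0, 0)⟩)]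
  W := [[1],
    [61],
    [101],
    [21],
    [41],
    [84]]
  C := [
    333, 397, 334, 461, 398, 335, 525, 462, 399, 336, 589, 337, 653, 590, 401, 654, 465, 655,
    529, 656, 593, 528, 657, 592]
  x0 := 5
  y0 := 13
  m := 5
  n := 4

def q13_5 : ND where
  D := [
    (656, ⟨10, 16, (0, 0, 0), (1, 0, 0), (0, 1, 0), (0, 0, 1)⟩),
    (720, ⟨11, 16, (1, 0, 0), (0, 0, 1), (0, 1, 0), (-1, 0, 0)⟩),
    (784, ⟨12, 16, (1, 0, 1), (-1, 0, 0), (0, 1, 0), (0, 0, -1)⟩),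
    (721, ⟨11, 17, (1, 1, 0), (0, 0, 1), (-1, 0, 0), (0, -1, 0)⟩),
    (719, ⟨11, 15, (0, 0, 0), (0, 0, 1), (1, 0, 0), (0, 1, 0)⟩),
    (848, ⟨13, 16, (0, 0, 1), (0, 0, -1), (0, 1, 0), (1, 0, 0)⟩)]
  W := [[1],
    [44],
    [104],
    [21],
    [81],
    [62]]
  C := [
    590, 654, 591, 718, 655, 592, 782, 593, 846, 783, 657, 594, 910, 847, 658, 911, 722, 912,
    786, 913, 850, 785, 914, 849]
  x0 := 9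
  y0 := 14
  m := 5
  n := 4

def q13_6 : ND where
  D := [
    (785, ⟨12, 17, (0, 0, 0), (1, 0, 0), (0, 1, 0), (0, 0, 1)⟩),
    (849, ⟨13, 17, (1, 0, 0), (0, 0, 1), (0, 1, 0), (-1, 0, 0)⟩),
    (786, ⟨12, 18, (0, 1, 0), (1, 0, 0), (0, 0, 1), (0, -1, 0)⟩),
    (913, ⟨14, 17, (1, 0, 1), (-1, 0, 0), (0, 1, 0), (0, 0, -1)⟩),
    (977, ⟨15, 17, (0, 0, 1), (0, 0, -1), (0, 1, 0), (1, 0, 0)⟩),
    (976, ⟨15, 16, (1, 0, 1), (0, 0, -1), (-1, 0, 0), (0, 1, 0)⟩)]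
  W := [[1],
    [64],
    [84],
    [21],
    [103],
    [41]]
  C := [
    719, 783, 720, 847, 784, 721, 911, 848, 722, 975, 912, 723, 1039, 787, 1040, 851, 1041, 915,
    850, 1042, 979, 914, 1043, 978]
  x0 := 11
  y0 := 15
  m := 5
  n := 4

def q13_7 : ND where
  D := [
    (788, ⟨12, 20, (0, 0, 0), (1, 0, 0), (0, 1, 0), (0, 0, 1)⟩),
    (852, ⟨13, 20, (1, 0, 0), (0, 0, 1), (0, 1, 0), (-1, 0, 0)⟩),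
    (789, ⟨12, 21, (0, 1, 0), (1, 0, 0), (0, 0, 1), (0, -1, 0)⟩),
    (851, ⟨13, 19, (0, 0, 0), (0, 0, 1), (1, 0, 0), (0, 1, 0)⟩),
    (790, ⟨12, 22, (0, 1, 1), (1, 0, 0), (0, -1, 0), (0, 0, -1)⟩),
    (850, ⟨13, 18, (0, 1, 0), (0, 0, 1), (0, -1, 0), (1, 0, 0)⟩)]
  W := [[1],
    [82],
    [102],
    [21],
    [61],
    [41]]
  C := [
    721, 785, 722, 849, 786, 723, 913, 787, 724, 914, 725, 915, 726, 916, 727, 917, 791, 918,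
    853, 855, 919, 854]
  x0 := 11
  y0 := 17
  m := 3
  n := 6

def q13_8 : ND where
  D := [
    (791, ⟨12, 23, (0, 0, 0), (1, 0, 0), (0, 1, 0), (0, 0, 1)⟩),
    (855, ⟨13, 23, (1, 0, 0), (0, 0, 1), (0, 1, 0), (-1, 0, 0)⟩),
    (854, ⟨13, 22, (0, 0, 0), (0, 0, 1), (1, 0, 0), (0, 1, 0)⟩),
    (853, ⟨13, 21, (0, 1, 0), (0, 0, 1), (0, -1, 0), (1, 0, 0)⟩),
    (917, ⟨14, 21, (0, 1, 1), (1, 0, 0), (0, -1, 0), (0, 0, -1)⟩),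
    (916, ⟨14, 20, (0, 1, 0), (1, 0, 0), (0, 0, 1), (0, -1, 0)⟩)]
  W := [[1],
    [82],
    [62],
    [21],
    [41],
    [101]]
  C := [
    723, 787, 724, 851, 788, 725, 915, 852, 789, 726, 979, 790, 727, 980, 728, 981, 792, 982,
    856, 983, 918, 920, 984, 919]
  x0 := 11
  y0 := 19
  m := 4
  n := 5

def q13_9 : ND where
  D := [
    (782, ⟨12, 14, (0, 0, 0), (1, 0, 0), (0, 1, 0), (0, 0, 1)⟩),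
    (846, ⟨13, 14, (1, 0, 0), (0, 0, 1), (0, 1, 0), (-1, 0, 0)⟩),
    (783, ⟨12, 15, (0, 1, 0), (1, 0, 0), (0, 0, 1), (0, -1, 0)⟩),
    (910, ⟨14, 14, (1, 0, 1), (-1, 0, 0), (0, 1, 0), (0, 0, -1)⟩),
    (845, ⟨13, 13, (0, 0, 0), (0, 0, 1), (1, 0, 0), (0, 1, 0)⟩),
    (844, ⟨13, 12, (0, 1, 0), (0, 0, 1), (0, -1, 0), (1, 0, 0)⟩)]
  W := [[1],
    [64],
    [102],
    [21],
    [81],
    [41]]
  C := [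
    715, 779, 716, 843, 780, 717, 907, 781, 718, 971, 908, 719, 972, 909, 720, 973, 784, 974,
    848, 975, 912, 847, 976, 911]
  x0 := 11
  y0 := 11
  m := 4
  n := 5

def q13_10 : ND where
  D := [
    (847, ⟨13, 15, (0, 0, 0), (1, 0, 0), (0, 1, 0), (0, 0, 1)⟩),
    (911, ⟨14, 15, (1, 0, 0), (0, 0, 1), (0, 1, 0), (-1, 0, 0)⟩),
    (975, ⟨15, 15, (1, 0, 1), (-1, 0, 0), (0, 1, 0), (0, 0, -1)⟩),
    (912, ⟨14, 16, (1, 1, 0), (0, 0, 1), (-1, 0, 0), (0, -1, 0)⟩),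
    (1039, ⟨16, 15, (0, 0, 1), (0, 0, -1), (0, 1, 0), (1, 0, 0)⟩),
    (974, ⟨15, 14, (1, 0, 0), (-1, 0, 0), (0, 0, 1), (0, 1, 0)⟩)]
  W := [[1],
    [44],
    [84],
    [21],
    [104],
    [62]]
  C := [
    781, 845, 782, 909, 846, 783, 973, 910, 784, 1037, 848, 785, 1101, 1038, 849, 1102, 913,
    1103, 977, 1104, 1041, 976, 1105, 1040]
  x0 := 12
  y0 := 13
  m := 5
  n := 4

def q13_11 : ND where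
  D := [
    (1040, ⟨16, 16, (0, 0, 0), (1, 0, 0), (0, 1, 0), (0, 0, 1)⟩),
    (1104, ⟨17, 16, (1, 0, 0), (0, 0, 1), (0, 1, 0), (-1, 0, 0)⟩),
    (1168, ⟨18, 16, (1, 0, 1), (-1, 0, 0), (0, 1, 0), (0, 0, -1)⟩),
    (1103, ⟨17, 15, (0, 0, 0), (0, 0, 1), (1, 0, 0), (0, 1, 0)⟩),
    (1102, ⟨17, 14, (0, 1, 0), (0, 0, 1), (0, -1, 0), (1, 0, 0)⟩),
    (1101, ⟨17, 13, (1, 1, 0), (0, 0, 1), (-1, 0, 0), (0, -1, 0)⟩)]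
  W := [[1],
    [44],
    [82],
    [21],
    [61],
    [102]]
  C := [
    972, 1036, 973, 1100, 1037, 974, 1164, 1038, 975, 1228, 1165, 1039, 976, 1229, 1166, 977,
    1230, 1167, 1041, 1231, 1105, 1232, 1169, 1233]
  x0 := 15
  y0 := 12
  m := 4
  n := 5

def q13_12 : ND where
  D := [
    (208, ⟨3, 16, (0, 0, 0), (1, 0, 0), (0, 1, 0), (0, 0, 1)⟩),
    (209, ⟨3, 17, (0, 1, 0), (1, 0, 0), (0, 0, 1), (0, -1, 0)⟩),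
    (210, ⟨3, 18, (0, 1, 1), (1, 0, 0), (0, -1, 0), (0, 0, -1)⟩),
    (274, ⟨4, 18, (1, 1, 1), (0, 0, -1), (0, -1, 0), (-1, 0, 0)⟩),
    (275, ⟨4, 19, (1, 0, 1), (0, 0, -1), (-1, 0, 0), (0, 1, 0)⟩),
    (276, ⟨4, 20, (0, 0, 1), (0, 0, -1), (0, 1, 0), (1, 0, 0)⟩)]
  W := [[1],
    [42],
    [104],
    [63],
    [83],
    [21]]
  C := [
    143, 207, 144, 271, 145, 335, 272, 146, 336, 273, 147, 337, 211, 148, 338, 212, 149, 339,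
    213, 340, 277, 341]
  x0 := 2
  y0 := 15
  m := 3
  n := 6

def P13 : List ND := [
  q13_0, q13_1, q13_2, q13_3, q13_4, q13_5, q13_6, q13_7, q13_8, q13_9, q13_10, q13_11, q13_12]

lemma okX13 : X13.ok p32 = true := by decide +kernel

lemma pair13_0 : (((X13.D.drop 0).take 39).all (pairN p32 X13.D)) = true := by decide +kernel

lemma pair13_39 : (((X13.D.drop 39).take 39).all (pairN p32 X13.D)) = true := by decide +kernel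

lemma pair13 : ∀ y ∈ X13.D, pairN p32 X13.D y = true := by
  have h : X13.D = (X13.D.drop 0).take 39 ++ (X13.D.drop 39).take 39 := by rfl
  intro y hy
  rw [h] at hy
  simp only [List.mem_append] at hy
  rcases hy with (h | h)
  · exact List.all_eq_true.mp pair13_0 y h
  · exact List.all_eq_true.mp pair13_39 y h

lemma okP13 : (P13.all fun x => x.okp) = true := by decide +kernel

lemma rep13 : repN p32 13 X13 P13 = true := by decide +kernel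

def cert13 : List (ℕ × Fin 8 × ℕ) := [
  (7, 0, 0), (7, 4, 5), (6, 5, 5), (8, 2, 4), (1, 1, 0), (1, 3, 5), (8, 0, 0), (4, 7, 1),
  (3, 1, 0), (10, 5, 5), (3, 3, 4), (2, 1, 1), (4, 5, 5), (0, 2, 2), (11, 0, 0), (5, 1, 4),
  (5, 3, 3), (11, 2, 2), (0, 0, 0), (3, 7, 4), (10, 1, 5), (0, 4, 4), (3, 5, 0), (0, 6, 0),
  (1, 7, 5), (4, 3, 0), (1, 5, 0), (4, 1, 5), (8, 4, 5), (6, 1, 5), (2, 5, 0), (8, 6, 0),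
  (2, 4, 5), (0, 5, 4), (4, 0, 0), (8, 7, 1), (4, 2, 4), (0, 7, 5), (8, 5, 5), (3, 6, 1),
  (5, 0, 0), (1, 6, 1), (10, 0, 0), (10, 4, 4), (5, 2, 5), (6, 0, 0), (1, 4, 4), (3, 4, 5),
  (11, 3, 0), (3, 0, 0), (0, 1, 4), (4, 4, 4), (0, 3, 5), (1, 0, 0), (4, 6, 0), (1, 2, 4),
  (3, 2, 5), (11, 1, 5), (8, 3, 0), (2, 0, 0), (6, 4, 5), (8, 1, 5), (7, 5, 5), (7, 1, 5)]

lemma edge13 : (P13.all fun x => edgeN x.D) = true := by decide +kernel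

end Pool.Agent.Q228.Rep
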