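import Pool.Agent.Q228.Rep.Assemble

/-! # The rep-cube of order 20 -/

set_option autoImplicit false

namespace Pool.Agent.Q228.Rep

open Pool.Agent.Helper697.Rep

def p42 : Par := ⟨4, 2, by norm_num⟩

def X20 : ND where
  D := [
    (203, ⟨1, 1, (0, 0, 0), (1, 0, 0), (0, 1, 0), (0, 0, 1)⟩),
    (267, ⟨2, 1, (1, 0, 0), (0, 0, 1), (0, 1, 0), (-1, 0, 0)⟩),
    (331, ⟨2, 1, (1, 0, 0), (0, 0, 1), (0, 1, 0), (-1, 0, 0)⟩),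
    (268, ⟨2, 2, (1, 1, 0), (0, 0, 1), (-1, 0, 0), (0, -1, 0)⟩),
    (395, ⟨2, 1, (1, 0, 0), (0, 0, 1), (0, 1, 0), (-1, 0, 0)⟩),
    (332, ⟨2, 1, (1, 0, 0), (0, 0, 1), (0, 1, 0), (-1, 0, 0)⟩),
    (269, ⟨2, 2, (1, 1, 0), (0, 0, 1), (-1, 0, 0), (0, -1, 0)⟩),
    (459, ⟨2, 1, (1, 0, 0), (0, 0, 1), (0, 1, 0), (-1, 0, 0)⟩),
    (396, ⟨2, 1, (1, 0, 0), (0, 0, 1), (0, 1, 0), (-1, 0, 0)⟩),
    (394, ⟨2, 1, (1, 0, 0), (0, 0, 1), (0, 1, 0), (-1, 0, 0)⟩),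
    (460, ⟨2, 1, (1, 0, 0), (0, 0, 1), (0, 1, 0), (-1, 0, 0)⟩),
    (397, ⟨2, 2, (1, 1, 0), (0, 0, 1), (-1, 0, 0), (0, -1, 0)⟩),
    (524, ⟨2, 1, (1, 0, 0), (0, 0, 1), (0, 1, 0), (-1, 0, 0)⟩),
    (461, ⟨2, 1, (1, 0, 0), (0, 0, 1), (0, 1, 0), (-1, 0, 0)⟩),
    (588, ⟨3, 1, (1, 0, 1), (-1, 0, 0), (0, 1, 0), (0, 0, -1)⟩),
    (525, ⟨3, 1, (1, 0, 1), (-1, 0, 0), (0, 1, 0), (0, 0, -1)⟩),
    (589, ⟨3, 1, (1, 0, 1), (-1, 0, 0), (0, 1, 0), (0, 0, -1)⟩),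
    (653, ⟨3, 1, (1, 0, 1), (-1, 0, 0), (0, 1, 0), (0, 0, -1)⟩),
    (590, ⟨3, 1, (1, 0, 1), (-1, 0, 0), (0, 1, 0), (0, 0, -1)⟩),
    (717, ⟨3, 1, (1, 0, 1), (-1, 0, 0), (0, 1, 0), (0, 0, -1)⟩),
    (654, ⟨3, 1, (1, 0, 1), (-1, 0, 0), (0, 1, 0), (0, 0, -1)⟩),
    (781, ⟨3, 1, (1, 0, 1), (-1, 0, 0), (0, 1, 0), (0, 0, -1)⟩),
    (718, ⟨3, 1, (1, 0, 1), (-1, 0, 0), (0, 1, 0), (0, 0, -1)⟩),
    (716, ⟨3, 1, (1, 0, 1), (-1, 0, 0), (0, 1, 0), (0, 0, -1)⟩),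
    (845, ⟨4, 1, (0, 0, 1), (0, 0, -1), (0, 1, 0), (1, 0, 0)⟩),
    (782, ⟨3, 1, (1, 0, 1), (-1, 0, 0), (0, 1, 0), (0, 0, -1)⟩),
    (780, ⟨3, 1, (1, 0, 1), (-1, 0, 0), (0, 1, 0), (0, 0, -1)⟩),
    (719, ⟨3, 1, (1, 0, 1), (-1, 0, 0), (0, 1, 0), (0, 0, -1)⟩),
    (909, ⟨4, 1, (0, 0, 1), (0, 0, -1), (0, 1, 0), (1, 0, 0)⟩),
    (846, ⟨4, 1, (0, 0, 1), (0, 0, -1), (0, 1, 0), (1, 0, 0)⟩),
    (844, ⟨3, 1, (1, 0, 1), (-1, 0, 0), (0, 1, 0), (0, 0, -1)⟩),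
    (783, ⟨4, 1, (0, 0, 1), (0, 0, -1), (0, 1, 0), (1, 0, 0)⟩),
    (779, ⟨3, 1, (1, 0, 1), (-1, 0, 0), (0, 1, 0), (0, 0, -1)⟩),
    (973, ⟨4, 1, (0, 0, 1), (0, 0, -1), (0, 1, 0), (1, 0, 0)⟩),
    (910, ⟨4, 1, (0, 0, 1), (0, 0, -1), (0, 1, 0), (1, 0, 0)⟩),
    (908, ⟨4, 1, (0, 0, 1), (0, 0, -1), (0, 1, 0), (1, 0, 0)⟩),
    (847, ⟨4, 1, (0, 0, 1), (0, 0, -1), (0, 1, 0), (1, 0, 0)⟩),
    (843, ⟨3, 0, (1, 0, 0), (-1, 0, 0), (0, 0, 1), (0, 1, 0)⟩),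
    (784, ⟨4, 2, (0, 1, 1), (0, 0, -1), (1, 0, 0), (0, -1, 0)⟩),
    (1037, ⟨4, 1, (0, 0, 1), (0, 0, -1), (0, 1, 0), (1, 0, 0)⟩),
    (974, ⟨4, 1, (0, 0, 1), (0, 0, -1), (0, 1, 0), (1, 0, 0)⟩),
    (972, ⟨4, 0, (1, 0, 1), (0, 0, -1), (-1, 0, 0), (0, 1, 0)⟩),
    (911, ⟨4, 1, (0, 0, 1), (0, 0, -1), (0, 1, 0), (1, 0, 0)⟩),
    (848, ⟨4, 1, (0, 0, 1), (0, 0, -1), (0, 1, 0), (1, 0, 0)⟩),
    (785, ⟨4, 2, (0, 1, 1), (0, 0, -1), (1, 0, 0), (0, -1, 0)⟩),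
    (1101, ⟨4, 0, (1, 0, 1), (0, 0, -1), (-1, 0, 0), (0, 1, 0)⟩),
    (1038, ⟨4, 1, (0, 0, 1), (0, 0, -1), (0, 1, 0), (1, 0, 0)⟩),
    (1036, ⟨4, 0, (1, 0, 1), (0, 0, -1), (-1, 0, 0), (0, 1, 0)⟩),
    (975, ⟨4, 1, (0, 0, 1), (0, 0, -1), (0, 1, 0), (1, 0, 0)⟩),
    (971, ⟨4, 0, (1, 0, 1), (0, 0, -1), (-1, 0, 0), (0, 1, 0)⟩),
    (912, ⟨4, 1, (0, 0, 1), (0, 0, -1), (0, 1, 0), (1, 0, 0)⟩),
    (849, ⟨4, 2, (0, 1, 1), (0, 0, -1), (1, 0, 0), (0, -1, 0)⟩),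
    (786, ⟨4, 2, (0, 1, 1), (0, 0, -1), (1, 0, 0), (0, -1, 0)⟩),
    (721, ⟨4, 2, (0, 1, 1), (0, 0, -1), (1, 0, 0), (0, -1, 0)⟩),
    (1165, ⟨5, 0, (1, 0, 0), (0, 1, 0), (-1, 0, 0), (0, 0, 1)⟩),
    (1102, ⟨4, 1, (0, 0, 1), (0, 0, -1), (0, 1, 0), (1, 0, 0)⟩),
    (1100, ⟨4, 0, (1, 0, 1), (0, 0, -1), (-1, 0, 0), (0, 1, 0)⟩),
    (1039, ⟨4, 1, (0, 0, 1), (0, 0, -1), (0, 1, 0), (1, 0, 0)⟩),
    (1035, ⟨4, 0, (1, 0, 1), (0, 0, -1), (-1, 0, 0), (0, 1, 0)⟩),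
    (976, ⟨4, 1, (0, 0, 1), (0, 0, -1), (0, 1, 0), (1, 0, 0)⟩),
    (970, ⟨4, 0, (1, 0, 1), (0, 0, -1), (-1, 0, 0), (0, 1, 0)⟩),
    (913, ⟨4, 2, (0, 1, 1), (0, 0, -1), (1, 0, 0), (0, -1, 0)⟩),
    (850, ⟨4, 2, (0, 1, 1), (0, 0, -1), (1, 0, 0), (0, -1, 0)⟩),
    (787, ⟨4, 2, (0, 1, 1), (0, 0, -1), (1, 0, 0), (0, -1, 0)⟩),
    (722, ⟨4, 2, (0, 1, 1), (0, 0, -1), (1, 0, 0), (0, -1, 0)⟩),
    (1164, ⟨4, 0, (1, 0, 1), (0, 0, -1), (-1, 0, 0), (0, 1, 0)⟩),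
    (1103, ⟨5, 1, (0, 0, 0), (1, 0, 0), (0, 1, 0), (0, 0, 1)⟩),
    (1099, ⟨4, 0, (1, 0, 1), (0, 0, -1), (-1, 0, 0), (0, 1, 0)⟩),
    (1040, ⟨4, 1, (0, 0, 1), (0, 0, -1), (0, 1, 0), (1, 0, 0)⟩),
    (1034, ⟨4, 0, (1, 0, 1), (0, 0, -1), (-1, 0, 0), (0, 1, 0)⟩),
    (977, ⟨4, 1, (0, 0, 1), (0, 0, -1), (0, 1, 0), (1, 0, 0)⟩),
    (969, ⟨4, 0, (1, 0, 1), (0, 0, -1), (-1, 0, 0), (0, 1, 0)⟩),
    (914, ⟨4, 2, (0, 1, 1), (0, 0, -1), (1, 0, 0), (0, -1, 0)⟩),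
    (851, ⟨4, 2, (0, 1, 1), (0, 0, -1), (1, 0, 0), (0, -1, 0)⟩),
    (788, ⟨4, 2, (0, 1, 1), (0, 0, -1), (1, 0, 0), (0, -1, 0)⟩),
    (723, ⟨4, 2, (0, 1, 1), (0, 0, -1), (1, 0, 0), (0, -1, 0)⟩),
    (1163, ⟨4, 0, (1, 0, 1), (0, 0, -1), (-1, 0, 0), (0, 1, 0)⟩),
    (1167, ⟨5, 1, (0, 0, 0), (1, 0, 0), (0, 1, 0), (0, 0, 1)⟩),
    (1104, ⟨5, 1, (0, 0, 0), (1, 0, 0), (0, 1, 0), (0, 0, 1)⟩),
    (1098, ⟨4, 0, (1, 0, 1), (0, 0, -1), (-1, 0, 0), (0, 1, 0)⟩),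
    (1041, ⟨5, 1, (0, 0, 0), (1, 0, 0), (0, 1, 0), (0, 0, 1)⟩),
    (1033, ⟨4, 0, (1, 0, 1), (0, 0, -1), (-1, 0, 0), (0, 1, 0)⟩),
    (978, ⟨4, 2, (0, 1, 1), (0, 0, -1), (1, 0, 0), (0, -1, 0)⟩),
    (905, ⟨3, 0, (1, 1, 1), (0, -1, 0), (-1, 0, 0), (0, 0, -1)⟩),
    (968, ⟨3, 0, (1, 1, 1), (0, -1, 0), (-1, 0, 0), (0, 0, -1)⟩),
    (915, ⟨4, 2, (0, 1, 1), (0, 0, -1), (1, 0, 0), (0, -1, 0)⟩),
    (659, ⟨4, 2, (0, 1, 1), (0, 0, -1), (1, 0, 0), (0, -1, 0)⟩),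
    (1162, ⟨4, 0, (1, 0, 1), (0, 0, -1), (-1, 0, 0), (0, 1, 0)⟩),
    (1231, ⟨5, 1, (0, 0, 0), (1, 0, 0), (0, 1, 0), (0, 0, 1)⟩),
    (1168, ⟨5, 1, (0, 0, 0), (1, 0, 0), (0, 1, 0), (0, 0, 1)⟩),
    (1097, ⟨4, 0, (1, 0, 1), (0, 0, -1), (-1, 0, 0), (0, 1, 0)⟩),
    (1032, ⟨4, 0, (1, 0, 1), (0, 0, -1), (-1, 0, 0), (0, 1, 0)⟩),
    (904, ⟨3, 0, (1, 1, 1), (0, -1, 0), (-1, 0, 0), (0, 0, -1)⟩),
    (967, ⟨3, -1, (1, 1, 0), (0, -1, 0), (0, 0, 1), (-1, 0, 0)⟩),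
    (1226, ⟨4, 0, (1, 0, 1), (0, 0, -1), (-1, 0, 0), (0, 1, 0)⟩),
    (1161, ⟨4, 0, (1, 0, 1), (0, 0, -1), (-1, 0, 0), (0, 1, 0)⟩),
    (1295, ⟨5, 1, (0, 0, 0), (1, 0, 0), (0, 1, 0), (0, 0, 1)⟩),
    (1096, ⟨4, -1, (1, 1, 1), (0, 0, -1), (0, -1, 0), (-1, 0, 0)⟩),
    (840, ⟨3, 0, (1, 1, 1), (0, -1, 0), (-1, 0, 0), (0, 0, -1)⟩),
    (903, ⟨3, 0, (1, 1, 1), (0, -1, 0), (-1, 0, 0), (0, 0, -1)⟩),
    (966, ⟨3, -1, (1, 1, 0), (0, -1, 0), (0, 0, 1), (-1, 0, 0)⟩),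
    (1225, ⟨4, -1, (1, 1, 1), (0, 0, -1), (0, -1, 0), (-1, 0, 0)⟩),
    (1160, ⟨4, -1, (1, 1, 1), (0, 0, -1), (0, -1, 0), (-1, 0, 0)⟩),
    (902, ⟨3, -1, (1, 1, 0), (0, -1, 0), (0, 0, 1), (-1, 0, 0)⟩),
    (965, ⟨3, -1, (1, 1, 0), (0, -1, 0), (0, 0, 1), (-1, 0, 0)⟩),
    (1289, ⟨5, -1, (1, 1, 0), (-1, 0, 0), (0, -1, 0), (0, 0, 1)⟩),
    (1224, ⟨4, -1, (1, 1, 1), (0, 0, -1), (0, -1, 0), (-1, 0, 0)⟩),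
    (1353, ⟨5, -1, (1, 1, 0), (-1, 0, 0), (0, -1, 0), (0, 0, 1)⟩),
    (1288, ⟨4, -1, (1, 1, 1), (0, 0, -1), (0, -1, 0), (-1, 0, 0)⟩),
    (1417, ⟨5, -1, (1, 1, 0), (-1, 0, 0), (0, -1, 0), (0, 0, 1)⟩),
    (1352, ⟨5, -1, (1, 1, 0), (-1, 0, 0), (0, -1, 0), (0, 0, 1)⟩),
    (1287, ⟨4, -1, (1, 1, 1), (0, 0, -1), (0, -1, 0), (-1, 0, 0)⟩),
    (1416, ⟨5, -1, (1, 1, 0), (-1, 0, 0), (0, -1, 0), (0, 0, 1)⟩),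
    (1351, ⟨5, -1, (1, 1, 0), (-1, 0, 0), (0, -1, 0), (0, 0, 1)⟩),
    (1480, ⟨5, -1, (1, 1, 0), (-1, 0, 0), (0, -1, 0), (0, 0, 1)⟩),
    (1415, ⟨5, -1, (1, 1, 0), (-1, 0, 0), (0, -1, 0), (0, 0, 1)⟩),
    (1544, ⟨5, -1, (1, 1, 0), (-1, 0, 0), (0, -1, 0), (0, 0, 1)⟩),
    (1479, ⟨5, -1, (1, 1, 0), (-1, 0, 0), (0, -1, 0), (0, 0, 1)⟩),
    (1543, ⟨5, -1, (1, 1, 0), (-1, 0, 0), (0, -1, 0), (0, 0, 1)⟩),
    (1478, ⟨5, -2, (1, 1, 1), (-1, 0, 0), (0, 0, -1), (0, -1, 0)⟩)]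
  W := [[0, 0, 1365, 1601, 1648, 0, 1105, 1321, 1561, 2323, 2363, 0, 1082, 1541, 1781, 2283, 2343, 2391,
      1306, 1761, 2183, 2243, 2303, 1, 0, 1921, 2143, 2203, 2263, 33, 0, 1886, 2103, 2167, 0, 0],
    [0, 0, 1435, 1683, 1871, 0, 752, 644, 1663, 1843, 1983, 0, 604, 524, 464, 1963, 284, 248, 496,
      424, 384, 344, 324, 304, 0, 504, 444, 404, 364, 1733, 0, 636, 544, 1073, 0, 0],
    [0, 0, 832, 704, 608, 0, 912, 784, 664, 564, 484, 0, 1104, 924, 804, 684, 584, 508, 1336, 1144,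
      964, 844, 724, 624, 0, 1364, 1184, 1004, 864, 780, 0, 1616, 1404, 1240, 0, 0],
    [0, 0, 2275, 21, 77, 0, 2115, 2163, 2223, 41, 101, 0, 2023, 2123, 181, 81, 161, 237, 1919, 2043,
      2084, 141, 201, 261, 0, 1943, 2004, 2064, 241, 313, 0, 1839, 1864, 2000, 0, 0],
    [0, 0, 1938, 1883, 2031, 0, 1095, 1303, 1523, 1743, 1903, 0, 903, 1123, 1343, 1583, 1803, 1951,
      799, 943, 1163, 1383, 1623, 1823, 0, 823, 983, 1203, 1423, 1687, 0, 719, 744, 660, 0, 0],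
    [0, 0, 872, 764, 551, 0, 1412, 1224, 1024, 884, 1064, 0, 1644, 1444, 1244, 1044, 1284, 371, 2379,
      1704, 1464, 1264, 1504, 1724, 0, 2383, 122, 1484, 222, 270, 0, 9, 62, 110, 0, 0]]
  C := [
    132, 196, 133, 260, 197, 134, 324, 261, 198, 135, 388, 325, 262, 199, 136, 452, 389, 326,
    263, 200, 137, 516, 453, 390, 327, 264, 201, 138, 580, 517, 454, 391, 328, 265, 202, 139,
    644, 581, 518, 455, 392, 329, 266, 140, 708, 645, 582, 519, 456, 393, 330, 204, 141, 772,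
    709, 646, 583, 520, 457, 205, 142, 836, 773, 710, 647, 584, 521, 458, 206, 143, 900, 837,
    774, 711, 648, 585, 522, 270, 207, 144, 964, 901, 838, 775, 712, 649, 586, 523, 334, 271,
    208, 145, 1028, 839, 776, 713, 650, 587, 398, 335, 333, 272, 209, 146, 1092, 1029, 777, 714,
    651, 462, 399, 336, 273, 210, 147, 1156, 1093, 1030, 841, 778, 715, 652, 526, 463, 400, 337,
    274, 211, 148, 1220, 1157, 1094, 1031, 842, 527, 464, 401, 338, 275, 212, 149, 1284, 1221,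
    1158, 1095, 906, 591, 528, 465, 402, 339, 276, 213, 1348, 1285, 1222, 1159, 907, 655, 592,
    529, 466, 403, 340, 277, 1412, 1349, 1286, 1223, 656, 593, 530, 467, 404, 341, 1476, 1413,
    1350, 720, 657, 594, 531, 468, 405, 1540, 1477, 1414, 658, 595, 532, 469, 1604, 1541, 596,
    533, 1605, 1542, 660, 597, 1606, 724, 661, 1607, 725, 1608, 789, 1609, 853, 1610, 1545, 917,
    852, 1611, 1546, 1481, 981, 916, 1612, 1547, 1482, 1045, 980, 1613, 1548, 1483, 1418, 1109,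
    1044, 979, 1614, 1549, 1484, 1419, 1354, 1173, 1108, 1043, 1615, 1550, 1485, 1420, 1355,
    1290, 1237, 1172, 1107, 1042, 1616, 1551, 1486, 1421, 1356, 1291, 1301, 1236, 1171, 1106,
    1617, 1552, 1487, 1422, 1357, 1292, 1227, 1365, 1300, 1235, 1170, 1105, 1618, 1553, 1488,
    1423, 1358, 1293, 1228, 1429, 1364, 1299, 1234, 1169, 1619, 1554, 1489, 1424, 1359, 1294,
    1229, 1493, 1428, 1363, 1298, 1233, 1620, 1555, 1490, 1425, 1360, 1230, 1557, 1492, 1427,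
    1362, 1297, 1232, 1621, 1556, 1491, 1426, 1361, 1296, 1166]
  x0 := 2
  y0 := 4
  m := 23
  n := 17

def q20_0 : ND where
  D := [
    (911, ⟨14, 15, (0, 0, 0), (1, 0, 0), (0, 1, 0), (0, 0, 1)⟩),
    (975, ⟨15, 15, (1, 0, 0), (0, 0, 1), (0, 1, 0), (-1, 0, 0)⟩),
    (1039, ⟨16, 15, (1, 0, 1), (-1, 0, 0), (0, 1, 0), (0, 0, -1)⟩),
    (976, ⟨15, 16, (1, 1, 0), (0, 0, 1), (-1, 0, 0), (0, -1, 0)⟩),
    (1103, ⟨17, 15, (0, 0, 1), (0, 0, -1), (0, 1, 0), (1, 0, 0)⟩),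
    (1102, ⟨17, 14, (1, 0, 1), (0, 0, -1), (-1, 0, 0), (0, 1, 0)⟩)]
  W := [[1],
    [44],
    [84],
    [21],
    [103],
    [62]]
  C := [
    845, 909, 846, 973, 910, 847, 1037, 974, 848, 1101, 1038, 912, 849, 1165, 913, 1166, 977,
    1167, 1041, 1168, 1105, 1040, 1169, 1104]
  x0 := 13
  y0 := 13
  m := 5
  n := 4

def q20_1 : ND where
  D := [
    (973, ⟨15, 13, (0, 0, 0), (1, 0, 0), (0, 1, 0), (0, 0, 1)⟩),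
    (1037, ⟨16, 13, (1, 0, 0), (0, 0, 1), (0, 1, 0), (-1, 0, 0)⟩),
    (1038, ⟨16, 14, (1, 1, 0), (0, 0, 1), (-1, 0, 0), (0, -1, 0)⟩),
    (1036, ⟨16, 12, (0, 0, 0), (0, 0, 1), (1, 0, 0), (0, 1, 0)⟩),
    (1100, ⟨17, 12, (0, 0, 1), (0, 1, 0), (1, 0, 0), (0, 0, -1)⟩),
    (1035, ⟨16, 11, (0, 1, 0), (0, 0, 1), (0, -1, 0), (1, 0, 0)⟩)]
  W := [[1],
    [81],
    [102],
    [21],
    [61],
    [42]]
  C := [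
    906, 970, 907, 1034, 971, 908, 1098, 972, 909, 1162, 1099, 910, 1163, 974, 911, 1164, 975,
    1165, 1039, 1166, 1101, 1103, 1167, 1102]
  x0 := 14
  y0 := 10
  m := 4
  n := 5

def q20_2 : ND where
  D := [
    (1101, ⟨17, 13, (0, 0, 0), (1, 0, 0), (0, 1, 0), (0, 0, 1)⟩),
    (1165, ⟨18, 13, (1, 0, 0), (0, 0, 1), (0, 1, 0), (-1, 0, 0)⟩),
    (1164, ⟨18, 12, (0, 0, 0), (0, 0, 1), (1, 0, 0), (0, 1, 0)⟩),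
    (1163, ⟨18, 11, (0, 1, 0), (0, 0, 1), (0, -1, 0), (1, 0, 0)⟩),
    (1162, ⟨18, 10, (1, 1, 0), (0, 0, 1), (-1, 0, 0), (0, -1, 0)⟩),
    (1226, ⟨19, 10, (1, 1, 1), (0, -1, 0), (-1, 0, 0), (0, 0, -1)⟩)]
  W := [[1],
    [103],
    [62],
    [21],
    [41],
    [82]]
  C := [
    1033, 1097, 1034, 1161, 1098, 1035, 1225, 1099, 1036, 1289, 1100, 1037, 1290, 1038, 1291,
    1102, 1292, 1227, 1166, 1293, 1228, 1230, 1294, 1229]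
  x0 := 16
  y0 := 9
  m := 4
  n := 5

def q20_3 : ND where
  D := [
    (782, ⟨12, 14, (0, 0, 0), (1, 0, 0), (0, 1, 0), (0, 0, 1)⟩),
    (846, ⟨13, 14, (1, 0, 0), (0, 0, 1), (0, 1, 0), (-1, 0, 0)⟩),
    (910, ⟨14, 14, (1, 0, 1), (-1, 0, 0), (0, 1, 0), (0, 0, -1)⟩),
    (847, ⟨13, 15, (1, 1, 0), (0, 0, 1), (-1, 0, 0), (0, -1, 0)⟩),
    (974, ⟨15, 14, (0, 0, 1), (0, 0, -1), (0, 1, 0), (1, 0, 0)⟩),
    (909, ⟨14, 13, (1, 0, 0), (-1, 0, 0), (0, 0, 1), (0, 1, 0)⟩)]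
  W := [[1],
    [44],
    [84],
    [21],
    [104],
    [62]]
  C := [
    716, 780, 717, 844, 781, 718, 908, 845, 719, 972, 783, 720, 1036, 973, 784, 1037, 848, 1038,
    912, 1039, 976, 911, 1040, 975]
  x0 := 11
  y0 := 12
  m := 5
  n := 4

def q20_4 : ND where
  D := [
    (1032, ⟨16, 8, (0, 0, 0), (1, 0, 0), (0, 1, 0), (0, 0, 1)⟩),
    (1033, ⟨16, 9, (0, 1, 0), (1, 0, 0), (0, 0, 1), (0, -1, 0)⟩),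
    (1097, ⟨17, 9, (1, 1, 0), (0, -1, 0), (0, 0, 1), (-1, 0, 0)⟩),
    (1161, ⟨18, 9, (1, 0, 0), (-1, 0, 0), (0, 0, 1), (0, 1, 0)⟩),
    (1098, ⟨17, 10, (1, 1, 1), (0, -1, 0), (-1, 0, 0), (0, 0, -1)⟩),
    (1099, ⟨17, 11, (0, 1, 1), (0, -1, 0), (0, 0, -1), (1, 0, 0)⟩)]
  W := [[1],
    [83],
    [103],
    [44],
    [64],
    [21]]
  C := [
    967, 1031, 968, 1095, 969, 1159, 1096, 970, 1223, 1160, 1034, 971, 1224, 1035, 972, 1225,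
    1036, 1226, 1100, 1227, 1162, 1164, 1228, 1163]
  x0 := 15
  y0 := 7
  m := 4
  n := 5

def q20_5 : ND where
  D := [
    (905, ⟨14, 9, (0, 0, 0), (1, 0, 0), (0, 1, 0), (0, 0, 1)⟩),
    (969, ⟨15, 9, (1, 0, 0), (0, 0, 1), (0, 1, 0), (-1, 0, 0)⟩),
    (970, ⟨15, 10, (1, 1, 0), (0, 0, 1), (-1, 0, 0), (0, -1, 0)⟩),
    (968, ⟨15, 8, (0, 0, 0), (0, 0, 1), (1, 0, 0), (0, 1, 0)⟩),
    (1034, ⟨16, 10, (1, 1, 1), (0, -1, 0), (-1, 0, 0), (0, 0, -1)⟩),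
    (967, ⟨15, 7, (0, 1, 0), (0, 0, 1), (0, -1, 0), (1, 0, 0)⟩)]
  W := [[1],
    [83],
    [102],
    [21],
    [61],
    [42]]
  C := [
    838, 902, 839, 966, 903, 840, 1030, 904, 841, 1094, 1031, 842, 1095, 1032, 906, 843, 1096,
    1033, 907, 1097, 971, 1098, 1035, 1099]
  x0 := 13
  y0 := 6
  m := 4
  n := 5

def q20_6 : ND where
  D := [
    (781, ⟨12, 13, (0, 0, 0), (1, 0, 0), (0, 1, 0), (0, 0, 1)⟩),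
    (845, ⟨13, 13, (1, 0, 0), (0, 0, 1), (0, 1, 0), (-1, 0, 0)⟩),
    (844, ⟨13, 12, (0, 0, 0), (0, 0, 1), (1, 0, 0), (0, 1, 0)⟩),
    (908, ⟨14, 12, (0, 0, 1), (0, 1, 0), (1, 0, 0), (0, 0, -1)⟩),
    (972, ⟨15, 12, (0, 1, 1), (0, 0, -1), (1, 0, 0), (0, -1, 0)⟩),
    (971, ⟨15, 11, (0, 0, 1), (0, 0, -1), (0, 1, 0), (1, 0, 0)⟩)]
  W := [[1],
    [61],
    [104],
    [21],
    [41],
    [84]]
  C := [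
    714, 778, 715, 842, 779, 716, 906, 843, 780, 717, 970, 907, 718, 1034, 782, 1035, 846, 1036,
    910, 1037, 974, 909, 1038, 973]
  x0 := 11
  y0 := 10
  m := 5
  n := 4

def q20_7 : ND where
  D := [
    (653, ⟨10, 13, (0, 0, 0), (1, 0, 0), (0, 1, 0), (0, 0, 1)⟩),
    (717, ⟨11, 13, (1, 0, 0), (0, 0, 1), (0, 1, 0), (-1, 0, 0)⟩),
    (716, ⟨11, 12, (0, 0, 0), (0, 0, 1), (1, 0, 0), (0, 1, 0)⟩),
    (780, ⟨12, 12, (0, 0, 1), (0, 1, 0), (1, 0, 0), (0, 0, -1)⟩),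
    (779, ⟨12, 11, (0, 0, 0), (0, 1, 0), (0, 0, 1), (1, 0, 0)⟩),
    (843, ⟨13, 11, (0, 1, 0), (1, 0, 0), (0, 0, 1), (0, -1, 0)⟩)]
  W := [[1],
    [61],
    [81],
    [21],
    [41],
    [101]]
  C := [
    586, 650, 587, 714, 651, 588, 778, 715, 652, 589, 842, 590, 906, 654, 907, 718, 908, 782,
    909, 844, 846, 781, 910, 845]
  x0 := 9
  y0 := 10
  m := 5
  n := 4

def q20_8 : ND where
  D := [
    (840, ⟨13, 8, (0, 0, 0), (1, 0, 0), (0, 1, 0), (0, 0, 1)⟩),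
    (904, ⟨14, 8, (1, 0, 0), (0, 0, 1), (0, 1, 0), (-1, 0, 0)⟩),
    (903, ⟨14, 7, (0, 0, 0), (0, 0, 1), (1, 0, 0), (0, 1, 0)⟩),
    (902, ⟨14, 6, (0, 1, 0), (0, 0, 1), (0, -1, 0), (1, 0, 0)⟩),
    (966, ⟨15, 6, (0, 1, 1), (1, 0, 0), (0, -1, 0), (0, 0, -1)⟩),
    (965, ⟨15, 5, (0, 1, 0), (1, 0, 0), (0, 0, 1), (0, -1, 0)⟩)]
  W := [[1],
    [82],
    [62],
    [21],
    [41],
    [101]]
  C := [
    772, 836, 773, 900, 837, 774, 964, 901, 838, 775, 1028, 839, 776, 1029, 777, 1030, 841, 1031,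
    905, 1032, 967, 969, 1033, 968]
  x0 := 12
  y0 := 4
  m := 4
  n := 5

def q20_9 : ND where
  D := [
    (1096, ⟨17, 8, (0, 0, 0), (1, 0, 0), (0, 1, 0), (0, 0, 1)⟩),
    (1160, ⟨18, 8, (1, 0, 0), (0, 0, 1), (0, 1, 0), (-1, 0, 0)⟩),
    (1224, ⟨19, 8, (1, 0, 1), (-1, 0, 0), (0, 1, 0), (0, 0, -1)⟩),
    (1225, ⟨19, 9, (1, 1, 1), (-1, 0, 0), (0, 0, -1), (0, -1, 0)⟩),
    (1289, ⟨20, 9, (0, 1, 1), (0, -1, 0), (0, 0, -1), (1, 0, 0)⟩),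
    (1353, ⟨21, 9, (0, 0, 1), (1, 0, 0), (0, 0, -1), (0, 1, 0)⟩)]
  W := [[1],
    [44],
    [83],
    [21],
    [102],
    [63]]
  C := [
    1031, 1095, 1032, 1159, 1033, 1223, 1097, 1034, 1287, 1161, 1098, 1351, 1288, 1162, 1415,
    1352, 1226, 1416, 1290, 1417, 1354, 1418]
  x0 := 16
  y0 := 7
  m := 6
  n := 3

def q20_10 : ND where
  D := [
    (1040, ⟨16, 16, (0, 0, 0), (1, 0, 0), (0, 1, 0), (0, 0, 1)⟩),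
    (1104, ⟨17, 16, (1, 0, 0), (0, 0, 1), (0, 1, 0), (-1, 0, 0)⟩),
    (1168, ⟨18, 16, (1, 0, 1), (-1, 0, 0), (0, 1, 0), (0, 0, -1)⟩),
    (1167, ⟨18, 15, (1, 0, 0), (-1, 0, 0), (0, 0, 1), (0, 1, 0)⟩),
    (1231, ⟨19, 15, (0, 0, 0), (0, 1, 0), (0, 0, 1), (1, 0, 0)⟩),
    (1295, ⟨20, 15, (0, 1, 0), (1, 0, 0), (0, 0, 1), (0, -1, 0)⟩)]
  W := [[1],
    [44],
    [81],
    [21],
    [64],
    [101]]
  C := [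
    974, 1038, 975, 1102, 1039, 976, 1166, 1103, 977, 1230, 1041, 1294, 1105, 1358, 1169, 1359,
    1233, 1360, 1297, 1232, 1361, 1296]
  x0 := 15
  y0 := 14
  m := 6
  n := 3

def q20_11 : ND where
  D := [
    (397, ⟨6, 13, (0, 0, 0), (1, 0, 0), (0, 1, 0), (0, 0, 1)⟩),
    (461, ⟨7, 13, (1, 0, 0), (0, 0, 1), (0, 1, 0), (-1, 0, 0)⟩),
    (525, ⟨8, 13, (1, 0, 1), (-1, 0, 0), (0, 1, 0), (0, 0, -1)⟩),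
    (589, ⟨9, 13, (0, 0, 1), (0, 0, -1), (0, 1, 0), (1, 0, 0)⟩),
    (590, ⟨9, 14, (0, 1, 1), (0, 0, -1), (1, 0, 0), (0, -1, 0)⟩),
    (588, ⟨9, 12, (1, 0, 1), (0, 0, -1), (-1, 0, 0), (0, 1, 0)⟩)]
  W := [[1],
    [44],
    [64],
    [21],
    [103],
    [84]]
  C := [
    331, 395, 332, 459, 396, 333, 523, 460, 334, 587, 524, 398, 335, 651, 462, 399, 652, 526,
    463, 653, 527, 654, 591, 655]
  x0 := 5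
  y0 := 11
  m := 5
  n := 4

def q20_12 : ND where
  D := [
    (331, ⟨5, 11, (0, 0, 0), (1, 0, 0), (0, 1, 0), (0, 0, 1)⟩),
    (395, ⟨6, 11, (1, 0, 0), (0, 0, 1), (0, 1, 0), (-1, 0, 0)⟩),
    (459, ⟨7, 11, (1, 0, 1), (-1, 0, 0), (0, 1, 0), (0, 0, -1)⟩),
    (394, ⟨6, 10, (0, 0, 0), (0, 0, 1), (1, 0, 0), (0, 1, 0)⟩),
    (460, ⟨7, 12, (1, 1, 1), (-1, 0, 0), (0, 0, -1), (0, -1, 0)⟩),
    (524, ⟨8, 12, (0, 1, 1), (0, -1, 0), (0, 0, -1), (1, 0, 0)⟩)]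
  W := [[1],
    [44],
    [103],
    [21],
    [61],
    [83]]
  C := [
    265, 329, 266, 393, 330, 267, 457, 268, 521, 458, 332, 269, 585, 522, 396, 333, 586, 523,
    397, 587, 461, 588, 525, 589]
  x0 := 4
  y0 := 9
  m := 5
  n := 4

def q20_13 : ND where
  D := [
    (659, ⟨10, 19, (0, 0, 0), (1, 0, 0), (0, 1, 0), (0, 0, 1)⟩),
    (723, ⟨11, 19, (1, 0, 0), (0, 0, 1), (0, 1, 0), (-1, 0, 0)⟩),
    (787, ⟨12, 19, (1, 0, 1), (-1, 0, 0), (0, 1, 0), (0, 0, -1)⟩),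
    (851, ⟨13, 19, (0, 0, 1), (0, 0, -1), (0, 1, 0), (1, 0, 0)⟩),
    (788, ⟨12, 20, (1, 1, 1), (-1, 0, 0), (0, 0, -1), (0, -1, 0)⟩),
    (786, ⟨12, 18, (1, 0, 0), (-1, 0, 0), (0, 0, 1), (0, 1, 0)⟩)]
  W := [[1],
    [44],
    [64],
    [21],
    [104],
    [83]]
  C := [
    593, 657, 594, 721, 658, 595, 785, 722, 596, 849, 660, 597, 913, 850, 724, 661, 914, 725,
    915, 789, 916, 853, 917, 852]
  x0 := 9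
  y0 := 17
  m := 5
  n := 4

def q20_14 : ND where
  D := [
    (203, ⟨3, 11, (0, 0, 0), (1, 0, 0), (0, 1, 0), (0, 0, 1)⟩),
    (267, ⟨4, 11, (1, 0, 0), (0, 0, 1), (0, 1, 0), (-1, 0, 0)⟩),
    (268, ⟨4, 12, (1, 1, 0), (0, 0, 1), (-1, 0, 0), (0, -1, 0)⟩),
    (332, ⟨5, 12, (1, 1, 1), (0, -1, 0), (-1, 0, 0), (0, 0, -1)⟩),
    (269, ⟨4, 13, (0, 1, 0), (0, 0, 1), (0, -1, 0), (1, 0, 0)⟩),
    (396, ⟨6, 12, (1, 0, 1), (0, 0, -1), (-1, 0, 0), (0, 1, 0)⟩)]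
  W := [[1],
    [63],
    [82],
    [21],
    [103],
    [42]]
  C := [
    138, 202, 139, 266, 140, 330, 204, 141, 394, 331, 205, 142, 458, 395, 206, 459, 270, 460,
    334, 461, 398, 333, 462, 397]
  x0 := 2
  y0 := 10
  m := 5
  n := 4

def q20_15 : ND where
  D := [
    (1287, ⟨20, 7, (0, 0, 0), (1, 0, 0), (0, 1, 0), (0, 0, 1)⟩),
    (1288, ⟨20, 8, (0, 1, 0), (1, 0, 0), (0, 0, 1), (0, -1, 0)⟩),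
    (1352, ⟨21, 8, (1, 1, 0), (0, -1, 0), (0, 0, 1), (-1, 0, 0)⟩),
    (1416, ⟨22, 8, (1, 0, 0), (-1, 0, 0), (0, 0, 1), (0, 1, 0)⟩),
    (1480, ⟨23, 8, (0, 0, 0), (0, 1, 0), (0, 0, 1), (1, 0, 0)⟩),
    (1417, ⟨22, 9, (1, 0, 1), (-1, 0, 0), (0, 1, 0), (0, 0, -1)⟩)]
  W := [[1],
    [104],
    [81],
    [44],
    [64],
    [21]]
  C := [
    1222, 1286, 1223, 1350, 1224, 1414, 1351, 1225, 1478, 1415, 1289, 1226, 1542, 1479, 1353,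
    1290, 1543, 1354, 1544, 1418, 1545, 1482, 1546, 1481]
  x0 := 19
  y0 := 6
  m := 5
  n := 4

def q20_16 : ND where
  D := [
    (1351, ⟨21, 7, (0, 0, 0), (1, 0, 0), (0, 1, 0), (0, 0, 1)⟩),
    (1415, ⟨22, 7, (1, 0, 0), (0, 0, 1), (0, 1, 0), (-1, 0, 0)⟩),
    (1479, ⟨23, 7, (1, 0, 1), (-1, 0, 0), (0, 1, 0), (0, 0, -1)⟩),
    (1543, ⟨24, 7, (0, 0, 1), (0, 0, -1), (0, 1, 0), (1, 0, 0)⟩),
    (1478, ⟨23, 6, (1, 0, 0), (-1, 0, 0), (0, 0, 1), (0, 1, 0)⟩),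
    (1544, ⟨24, 8, (0, 1, 1), (0, 0, -1), (1, 0, 0), (0, -1, 0)⟩)]
  W := [[1],
    [44],
    [64],
    [21],
    [84],
    [104]]
  C := [
    1285, 1349, 1286, 1413, 1350, 1287, 1477, 1414, 1288, 1541, 1352, 1289, 1605, 1542, 1416,
    1353, 1606, 1480, 1417, 1607, 1481, 1608, 1545, 1609]
  x0 := 20
  y0 := 5
  m := 5
  n := 4

def q20_17 : ND where
  D := [
    (654, ⟨10, 14, (0, 0, 0), (1, 0, 0), (0, 1, 0), (0, 0, 1)⟩),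
    (718, ⟨11, 14, (1, 0, 0), (0, 0, 1), (0, 1, 0), (-1, 0, 0)⟩),
    (719, ⟨11, 15, (1, 1, 0), (0, 0, 1), (-1, 0, 0), (0, -1, 0)⟩),
    (783, ⟨12, 15, (1, 1, 1), (0, -1, 0), (-1, 0, 0), (0, 0, -1)⟩),
    (784, ⟨12, 16, (0, 1, 1), (0, -1, 0), (0, 0, -1), (1, 0, 0)⟩),
    (848, ⟨13, 16, (0, 0, 1), (1, 0, 0), (0, 0, -1), (0, 1, 0)⟩)]
  W := [[1],
    [63],
    [83],
    [21],
    [102],
    [42]]
  C := [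
    589, 653, 590, 717, 591, 781, 655, 592, 845, 782, 656, 593, 909, 846, 720, 657, 910, 847,
    721, 911, 785, 912, 849, 913]
  x0 := 9
  y0 := 13
  m := 5
  n := 4

def q20_18 : ND where
  D := [
    (721, ⟨11, 17, (0, 0, 0), (1, 0, 0), (0, 1, 0), (0, 0, 1)⟩),
    (785, ⟨12, 17, (1, 0, 0), (0, 0, 1), (0, 1, 0), (-1, 0, 0)⟩),
    (722, ⟨11, 18, (0, 1, 0), (1, 0, 0), (0, 0, 1), (0, -1, 0)⟩),
    (849, ⟨13, 17, (1, 0, 1), (-1, 0, 0), (0, 1, 0), (0, 0, -1)⟩),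
    (913, ⟨14, 17, (0, 0, 1), (0, 0, -1), (0, 1, 0), (1, 0, 0)⟩),
    (912, ⟨14, 16, (1, 0, 1), (0, 0, -1), (-1, 0, 0), (0, 1, 0)⟩)]
  W := [[1],
    [64],
    [84],
    [21],
    [103],
    [41]]
  C := [
    655, 719, 656, 783, 720, 657, 847, 784, 658, 911, 848, 659, 975, 723, 976, 787, 977, 851,
    786, 978, 915, 850, 979, 914]
  x0 := 10
  y0 := 15
  m := 5
  n := 4

def q20_19 : ND where
  D := [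
    (850, ⟨13, 18, (0, 0, 0), (1, 0, 0), (0, 1, 0), (0, 0, 1)⟩),
    (914, ⟨14, 18, (1, 0, 0), (0, 0, 1), (0, 1, 0), (-1, 0, 0)⟩),
    (978, ⟨15, 18, (1, 0, 1), (-1, 0, 0), (0, 1, 0), (0, 0, -1)⟩),
    (915, ⟨14, 19, (1, 1, 0), (0, 0, 1), (-1, 0, 0), (0, -1, 0)⟩),
    (977, ⟨15, 17, (1, 0, 0), (-1, 0, 0), (0, 0, 1), (0, 1, 0)⟩),
    (1041, ⟨16, 17, (0, 0, 0), (0, 1, 0), (0, 0, 1), (1, 0, 0)⟩)]
  W := [[1],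
    [44],
    [101],
    [21],
    [84],
    [62]]
  C := [
    784, 848, 785, 912, 849, 786, 976, 913, 787, 1040, 851, 788, 1104, 852, 1105, 916, 1106, 980,
    1107, 1042, 1044, 979, 1108, 1043]
  x0 := 12
  y0 := 16
  m := 5
  n := 4

def P20 : List ND := [
  q20_0, q20_1, q20_2, q20_3, q20_4, q20_5, q20_6, q20_7, q20_8, q20_9, q20_10, q20_11, q20_12,
  q20_13, q20_14, q20_15, q20_16, q20_17, q20_18, q20_19]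

lemma okX20 : X20.ok p42 = true := by decide +kernel

lemma pair20_0 : (((X20.D.drop 0).take 30).all (pairN p42 X20.D)) = true := by decide +kernel

lemma pair20_30 : (((X20.D.drop 30).take 30).all (pairN p42 X20.D)) = true := by decide +kernel

lemma pair20_60 : (((X20.D.drop 60).take 30).all (pairN p42 X20.D)) = true := by decide +kernel

lemma pair20_90 : (((X20.D.drop 90).take 30).all (pairN p42 X20.D)) = true := by decide +kernel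

lemma pair20 : ∀ y ∈ X20.D, pairN p42 X20.D y = true := by
  have h : X20.D = (X20.D.drop 0).take 30 ++ (X20.D.drop 30).take 30 ++ (X20.D.drop 60).take 30 ++ (X20.D.drop 90).take 30 := by rfl
  intro y hy
  rw [h] at hy
  simp only [List.mem_append] at hy
  rcases hy with (((h | h) | h) | h)
  · exact List.all_eq_true.mp pair20_0 y h
  · exact List.all_eq_true.mp pair20_30 y h
  · exact List.all_eq_true.mp pair20_60 y h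
  · exact List.all_eq_true.mp pair20_90 y h

lemma okP20 : (P20.all fun x => x.okp) = true := by decide +kernel

lemma rep20 : repN p42 20 X20 P20 = true := by decide +kernel

def cert20 : List (ℕ × Fin 8 × ℕ) := [
  (9, 1, 2), (10, 1, 5), (2, 0, 0), (8, 2, 4), (15, 1, 0), (15, 3, 5), (8, 0, 0), (12, 3, 4),
  (16, 3, 5), (1, 0, 0), (16, 1, 4), (17, 1, 1), (12, 1, 3), (14, 1, 1), (11, 3, 4), (13, 3, 4),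
  (13, 1, 5), (11, 1, 5), (14, 3, 4), (5, 0, 0), (3, 1, 5), (4, 0, 0), (5, 2, 4), (4, 2, 3),
  (0, 3, 3), (19, 1, 5), (0, 1, 5), (19, 3, 3), (6, 3, 0), (18, 1, 5), (7, 1, 5), (6, 1, 5),
  (7, 0, 0), (4, 1, 0), (19, 2, 5), (6, 2, 4), (19, 0, 0), (4, 3, 5), (6, 0, 0), (5, 3, 2),
  (13, 2, 3), (0, 2, 4), (3, 0, 0), (1, 1, 5), (13, 0, 0), (18, 0, 0), (0, 0, 0), (5, 1, 5),
  (11, 2, 4), (16, 2, 5), (14, 0, 0), (12, 0, 0), (14, 2, 5), (15, 0, 0), (12, 2, 5), (15, 2, 4),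
  (16, 0, 0), (11, 0, 0), (8, 3, 0), (17, 0, 0), (2, 1, 5), (8, 1, 5), (10, 0, 0), (9, 0, 0)]

lemma edge20 : (P20.all fun x => edgeN x.D) = true := by decide +kernel

lemma pairs20 : pairsB P20 = true := by decide +kernel

end Pool.Agent.Q228.Rep
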