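import Pool.Agent.Q228.Rep.Assemble

/-! # Uniform rep-cubes -/

set_option autoImplicit false

namespace Pool.Agent.Q228.Rep

open Pool.Agent.Helper697.Rep

def p11 : Par := ⟨1, 1, by norm_num⟩

def p20 : Par := ⟨2, 0, by norm_num⟩

def p22 : Par := ⟨2, 2, by norm_num⟩

def Xu0 : ND where
  D := [
    (198, ⟨5, 1, (0, 0, 0), (1, 0, 0), (0, 1, 0), (0, 0, 1)⟩),
    (262, ⟨5, 1, (0, 0, 0), (1, 0, 0), (0, 1, 0), (0, 0, 1)⟩),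
    (326, ⟨5, 0, (0, 0, 1), (1, 0, 0), (0, 0, -1), (0, 1, 0)⟩),
    (261, ⟨5, 0, (0, 0, 1), (1, 0, 0), (0, 0, -1), (0, 1, 0)⟩),
    (325, ⟨5, 0, (0, 0, 1), (1, 0, 0), (0, 0, -1), (0, 1, 0)⟩),
    (260, ⟨4, 0, (0, 1, 1), (0, -1, 0), (0, 0, -1), (1, 0, 0)⟩),
    (389, ⟨5, -1, (0, 1, 1), (1, 0, 0), (0, -1, 0), (0, 0, -1)⟩),
    (259, ⟨4, -1, (1, 1, 1), (0, -1, 0), (-1, 0, 0), (0, 0, -1)⟩),
    (453, ⟨6, -1, (1, 1, 1), (0, 0, -1), (0, -1, 0), (-1, 0, 0)⟩),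
    (517, ⟨6, -2, (0, 1, 1), (0, 0, -1), (1, 0, 0), (0, -1, 0)⟩),
    (518, ⟨7, -2, (0, 1, 0), (0, -1, 0), (1, 0, 0), (0, 0, 1)⟩),
    (516, ⟨6, -2, (0, 1, 1), (0, 0, -1), (1, 0, 0), (0, -1, 0)⟩)]
  W := [[1, 188, 21, 204],
    [98, 122, 119, 143],
    [75, 103, 16, 240],
    [212, 163, 46, 127],
    [38, 42, 62, 82],
    [224, 154, 184, 180]]
  C := [
    130, 194, 131, 258, 195, 132, 322, 196, 133, 386, 323, 197, 134, 450, 387, 324, 135, 514,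
    451, 388, 199, 578, 515, 452, 263, 579, 327, 580, 391, 581, 455, 390, 582, 519, 454, 583]
  x0 := 2
  y0 := 2
  m := 7
  n := 5

def qu0_0 : ND where
  D := [
    (198, ⟨3, 6, (0, 0, 0), (1, 0, 0), (0, 1, 0), (0, 0, 1)⟩),
    (262, ⟨4, 6, (1, 0, 0), (0, 0, 1), (0, 1, 0), (-1, 0, 0)⟩),
    (326, ⟨5, 6, (1, 0, 1), (-1, 0, 0), (0, 1, 0), (0, 0, -1)⟩),
    (261, ⟨4, 5, (0, 0, 0), (0, 0, 1), (1, 0, 0), (0, 1, 0)⟩),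
    (260, ⟨4, 4, (0, 1, 0), (0, 0, 1), (0, -1, 0), (1, 0, 0)⟩),
    (259, ⟨4, 3, (1, 1, 0), (0, 0, 1), (-1, 0, 0), (0, -1, 0)⟩)]
  W := [[1],
    [44],
    [82],
    [21],
    [61],
    [102]]
  C := [
    130, 194, 131, 258, 195, 132, 322, 196, 133, 386, 323, 197, 134, 387, 324, 135, 388, 325,
    199, 389, 263, 390, 327, 391]
  x0 := 2
  y0 := 2
  m := 4
  n := 5

def qu0_1 : ND where
  D := [
    (325, ⟨5, 5, (0, 0, 0), (1, 0, 0), (0, 1, 0), (0, 0, 1)⟩),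
    (389, ⟨6, 5, (1, 0, 0), (0, 0, 1), (0, 1, 0), (-1, 0, 0)⟩),
    (453, ⟨7, 5, (1, 0, 1), (-1, 0, 0), (0, 1, 0), (0, 0, -1)⟩),
    (517, ⟨8, 5, (0, 0, 1), (0, 0, -1), (0, 1, 0), (1, 0, 0)⟩),
    (518, ⟨8, 6, (0, 1, 1), (0, 0, -1), (1, 0, 0), (0, -1, 0)⟩),
    (516, ⟨8, 4, (1, 0, 1), (0, 0, -1), (-1, 0, 0), (0, 1, 0)⟩)]
  W := [[1],
    [44],
    [64],
    [21],
    [103],
    [84]]
  C := [
    259, 323, 260, 387, 324, 261, 451, 388, 262, 515, 452, 326, 263, 579, 390, 327, 580, 454,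
    391, 581, 455, 582, 519, 583]
  x0 := 4
  y0 := 3
  m := 5
  n := 4

def Pu0 : List ND := [
  qu0_0, qu0_1]

lemma okXu0 : Xu0.ok p11 = true := by decide +kernel

lemma pairu0_0 : (((Xu0.D.drop 0).take 12).all (pairN p11 Xu0.D)) = true := by decide +kernel

lemma pairu0 : ∀ y ∈ Xu0.D, pairN p11 Xu0.D y = true := by
  have h : Xu0.D = (Xu0.D.drop 0).take 12 := by rfl
  intro y hy
  rw [h] at hy
  exact List.all_eq_true.mp pairu0_0 y hy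

lemma okPu0 : (Pu0.all fun x => x.okp) = true := by decide +kernel

lemma repu0 : repN p11 2 Xu0 Pu0 = true := by decide +kernel

def Xu1 : ND where
  D := [
    (198, ⟨5, 1, (0, 0, 0), (1, 0, 0), (0, 1, 0), (0, 0, 1)⟩),
    (262, ⟨5, 1, (0, 0, 0), (1, 0, 0), (0, 1, 0), (0, 0, 1)⟩),
    (199, ⟨5, 1, (0, 0, 0), (1, 0, 0), (0, 1, 0), (0, 0, 1)⟩),
    (263, ⟨5, 1, (0, 0, 0), (1, 0, 0), (0, 1, 0), (0, 0, 1)⟩),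
    (261, ⟨5, 0, (0, 0, 1), (1, 0, 0), (0, 0, -1), (0, 1, 0)⟩),
    (200, ⟨5, 2, (0, 1, 0), (1, 0, 0), (0, 0, 1), (0, -1, 0)⟩),
    (327, ⟨6, 1, (1, 0, 0), (0, 0, 1), (0, 1, 0), (-1, 0, 0)⟩),
    (260, ⟨4, 0, (0, 1, 1), (0, -1, 0), (0, 0, -1), (1, 0, 0)⟩),
    (391, ⟨6, 0, (0, 0, 0), (0, 0, 1), (1, 0, 0), (0, 1, 0)⟩),
    (392, ⟨7, 0, (0, 0, 1), (0, 1, 0), (1, 0, 0), (0, 0, -1)⟩),
    (456, ⟨7, 0, (0, 0, 1), (0, 1, 0), (1, 0, 0), (0, 0, -1)⟩),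
    (520, ⟨8, 0, (0, 1, 1), (0, 0, -1), (1, 0, 0), (0, -1, 0)⟩)]
  W := [[1, 41, 21, 61],
    [165, 181, 159, 201],
    [95, 143, 16, 240],
    [65, 108, 121, 190],
    [38, 137, 82, 161],
    [224, 208, 49, 101]]
  C := [
    131, 195, 132, 259, 196, 133, 323, 197, 134, 387, 324, 135, 451, 388, 325, 136, 515, 452,
    389, 326, 137, 579, 516, 453, 390, 201, 580, 517, 454, 265, 581, 518, 455, 329, 264, 582,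
    519, 393, 328, 583, 457, 584, 521, 585]
  x0 := 2
  y0 := 3
  m := 7
  n := 6

def qu1_0 : ND where
  D := [
    (198, ⟨3, 6, (0, 0, 0), (1, 0, 0), (0, 1, 0), (0, 0, 1)⟩),
    (262, ⟨4, 6, (1, 0, 0), (0, 0, 1), (0, 1, 0), (-1, 0, 0)⟩),
    (199, ⟨3, 7, (0, 1, 0), (1, 0, 0), (0, 0, 1), (0, -1, 0)⟩),
    (261, ⟨4, 5, (0, 0, 0), (0, 0, 1), (1, 0, 0), (0, 1, 0)⟩),
    (200, ⟨3, 8, (0, 1, 1), (1, 0, 0), (0, -1, 0), (0, 0, -1)⟩),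
    (260, ⟨4, 4, (0, 1, 0), (0, 0, 1), (0, -1, 0), (1, 0, 0)⟩)]
  W := [[1],
    [82],
    [102],
    [21],
    [61],
    [41]]
  C := [
    131, 195, 132, 259, 196, 133, 323, 197, 134, 324, 135, 325, 136, 326, 137, 327, 201, 328,
    263, 265, 329, 264]
  x0 := 2
  y0 := 3
  m := 3
  n := 6

def qu1_1 : ND where
  D := [
    (263, ⟨4, 7, (0, 0, 0), (1, 0, 0), (0, 1, 0), (0, 0, 1)⟩),
    (327, ⟨5, 7, (1, 0, 0), (0, 0, 1), (0, 1, 0), (-1, 0, 0)⟩),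
    (391, ⟨6, 7, (1, 0, 1), (-1, 0, 0), (0, 1, 0), (0, 0, -1)⟩),
    (392, ⟨6, 8, (1, 1, 1), (-1, 0, 0), (0, 0, -1), (0, -1, 0)⟩),
    (456, ⟨7, 8, (0, 1, 1), (0, -1, 0), (0, 0, -1), (1, 0, 0)⟩),
    (520, ⟨8, 8, (0, 0, 1), (1, 0, 0), (0, 0, -1), (0, 1, 0)⟩)]
  W := [[1],
    [44],
    [83],
    [21],
    [102],
    [63]]
  C := [
    198, 262, 199, 326, 200, 390, 264, 201, 454, 328, 265, 518, 455, 329, 582, 519, 393, 583,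
    457, 584, 521, 585]
  x0 := 3
  y0 := 6
  m := 6
  n := 3

def Pu1 : List ND := [
  qu1_0, qu1_1]

lemma okXu1 : Xu1.ok p11 = true := by decide +kernel

lemma pairu1_0 : (((Xu1.D.drop 0).take 12).all (pairN p11 Xu1.D)) = true := by decide +kernel

lemma pairu1 : ∀ y ∈ Xu1.D, pairN p11 Xu1.D y = true := by
  have h : Xu1.D = (Xu1.D.drop 0).take 12 := by rfl
  intro y hy
  rw [h] at hy
  exact List.all_eq_true.mp pairu1_0 y hy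

lemma okPu1 : (Pu1.all fun x => x.okp) = true := by decide +kernel

lemma repu1 : repN p11 2 Xu1 Pu1 = true := by decide +kernel

def Xu2 : ND where
  D := [
    (196, ⟨4, 0, (0, 0, 0), (1, 0, 0), (0, 1, 0), (0, 0, 1)⟩),
    (197, ⟨4, 0, (0, 0, 0), (1, 0, 0), (0, 1, 0), (0, 0, 1)⟩),
    (261, ⟨4, 0, (0, 0, 0), (1, 0, 0), (0, 1, 0), (0, 0, 1)⟩),
    (325, ⟨5, 0, (1, 0, 0), (0, 0, 1), (0, 1, 0), (-1, 0, 0)⟩),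
    (262, ⟨5, 0, (1, 0, 0), (0, 0, 1), (0, 1, 0), (-1, 0, 0)⟩),
    (326, ⟨5, 0, (1, 0, 0), (0, 0, 1), (0, 1, 0), (-1, 0, 0)⟩),
    (263, ⟨5, 1, (1, 1, 0), (0, 0, 1), (-1, 0, 0), (0, -1, 0)⟩),
    (390, ⟨6, 0, (1, 0, 1), (-1, 0, 0), (0, 1, 0), (0, 0, -1)⟩),
    (391, ⟨6, 0, (1, 0, 1), (-1, 0, 0), (0, 1, 0), (0, 0, -1)⟩),
    (455, ⟨7, 0, (0, 0, 1), (0, 0, -1), (0, 1, 0), (1, 0, 0)⟩),
    (392, ⟨7, 0, (0, 0, 1), (0, 0, -1), (0, 1, 0), (1, 0, 0)⟩),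
    (519, ⟨7, -1, (1, 0, 1), (0, 0, -1), (-1, 0, 0), (0, 1, 0)⟩)]
  W := [[1, 21, 226, 41],
    [144, 108, 164, 127],
    [184, 168, 16, 204],
    [45, 81, 61, 101],
    [223, 77, 199, 160],
    [212, 122, 29, 90]]
  C := [
    131, 195, 132, 259, 133, 323, 260, 134, 387, 324, 198, 135, 451, 388, 199, 136, 515, 452,
    389, 200, 137, 579, 516, 453, 264, 201, 580, 517, 454, 328, 265, 581, 518, 329, 327, 582,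
    393, 583, 457, 584, 521, 456, 585, 520]
  x0 := 2
  y0 := 3
  m := 7
  n := 6

def qu2_0 : ND where
  D := [
    (196, ⟨3, 4, (0, 0, 0), (1, 0, 0), (0, 1, 0), (0, 0, 1)⟩),
    (197, ⟨3, 5, (0, 1, 0), (1, 0, 0), (0, 0, 1), (0, -1, 0)⟩),
    (261, ⟨4, 5, (1, 1, 0), (0, -1, 0), (0, 0, 1), (-1, 0, 0)⟩),
    (325, ⟨5, 5, (1, 0, 0), (-1, 0, 0), (0, 0, 1), (0, 1, 0)⟩),
    (262, ⟨4, 6, (1, 1, 1), (0, -1, 0), (-1, 0, 0), (0, 0, -1)⟩),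
    (263, ⟨4, 7, (0, 1, 1), (0, -1, 0), (0, 0, -1), (1, 0, 0)⟩)]
  W := [[1],
    [83],
    [103],
    [44],
    [64],
    [21]]
  C := [
    131, 195, 132, 259, 133, 323, 260, 134, 387, 324, 198, 135, 388, 199, 136, 389, 200, 390,
    264, 391, 326, 328, 392, 327]
  x0 := 2
  y0 := 3
  m := 4
  n := 5

def qu2_1 : ND where
  D := [
    (326, ⟨5, 6, (0, 0, 0), (1, 0, 0), (0, 1, 0), (0, 0, 1)⟩),
    (390, ⟨6, 6, (1, 0, 0), (0, 0, 1), (0, 1, 0), (-1, 0, 0)⟩),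
    (391, ⟨6, 7, (1, 1, 0), (0, 0, 1), (-1, 0, 0), (0, -1, 0)⟩),
    (455, ⟨7, 7, (1, 1, 1), (0, -1, 0), (-1, 0, 0), (0, 0, -1)⟩),
    (392, ⟨6, 8, (0, 1, 0), (0, 0, 1), (0, -1, 0), (1, 0, 0)⟩),
    (519, ⟨8, 7, (1, 0, 1), (0, 0, -1), (-1, 0, 0), (0, 1, 0)⟩)]
  W := [[1],
    [63],
    [82],
    [21],
    [103],
    [42]]
  C := [
    261, 325, 262, 389, 263, 453, 327, 264, 517, 454, 328, 265, 581, 518, 329, 582, 393, 583,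
    457, 584, 521, 456, 585, 520]
  x0 := 4
  y0 := 5
  m := 5
  n := 4

def Pu2 : List ND := [
  qu2_0, qu2_1]

lemma okXu2 : Xu2.ok p11 = true := by decide +kernel

lemma pairu2_0 : (((Xu2.D.drop 0).take 12).all (pairN p11 Xu2.D)) = true := by decide +kernel

lemma pairu2 : ∀ y ∈ Xu2.D, pairN p11 Xu2.D y = true := by
  have h : Xu2.D = (Xu2.D.drop 0).take 12 := by rfl
  intro y hy
  rw [h] at hy
  exact List.all_eq_true.mp pairu2_0 y hy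

lemma okPu2 : (Pu2.all fun x => x.okp) = true := by decide +kernel

lemma repu2 : repN p11 2 Xu2 Pu2 = true := by decide +kernel

def Xu3 : ND where
  D := [
    (265, ⟨2, 4, (0, 0, 0), (1, 0, 0), (0, 1, 0), (0, 0, 1)⟩),
    (329, ⟨2, 4, (0, 0, 0), (1, 0, 0), (0, 1, 0), (0, 0, 1)⟩),
    (393, ⟨3, 4, (1, 0, 0), (0, 0, 1), (0, 1, 0), (-1, 0, 0)⟩),
    (328, ⟨2, 4, (0, 0, 0), (1, 0, 0), (0, 1, 0), (0, 0, 1)⟩),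
    (457, ⟨3, 4, (1, 0, 0), (0, 0, 1), (0, 1, 0), (-1, 0, 0)⟩),
    (394, ⟨3, 5, (1, 1, 0), (0, 0, 1), (-1, 0, 0), (0, -1, 0)⟩),
    (392, ⟨3, 4, (1, 0, 0), (0, 0, 1), (0, 1, 0), (-1, 0, 0)⟩),
    (521, ⟨4, 4, (1, 0, 1), (-1, 0, 0), (0, 1, 0), (0, 0, -1)⟩),
    (458, ⟨3, 5, (1, 1, 0), (0, 0, 1), (-1, 0, 0), (0, -1, 0)⟩),
    (456, ⟨3, 4, (1, 0, 0), (0, 0, 1), (0, 1, 0), (-1, 0, 0)⟩),
    (395, ⟨3, 5, (1, 1, 0), (0, 0, 1), (-1, 0, 0), (0, -1, 0)⟩),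
    (391, ⟨3, 3, (0, 0, 0), (0, 0, 1), (1, 0, 0), (0, 1, 0)⟩),
    (520, ⟨4, 4, (1, 0, 1), (-1, 0, 0), (0, 1, 0), (0, 0, -1)⟩),
    (459, ⟨3, 5, (1, 1, 0), (0, 0, 1), (-1, 0, 0), (0, -1, 0)⟩),
    (455, ⟨3, 3, (0, 0, 0), (0, 0, 1), (1, 0, 0), (0, 1, 0)⟩),
    (390, ⟨3, 3, (0, 0, 0), (0, 0, 1), (1, 0, 0), (0, 1, 0)⟩),
    (584, ⟨4, 4, (1, 0, 1), (-1, 0, 0), (0, 1, 0), (0, 0, -1)⟩),
    (460, ⟨3, 6, (0, 1, 0), (0, 0, 1), (0, -1, 0), (1, 0, 0)⟩),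
    (454, ⟨3, 3, (0, 0, 0), (0, 0, 1), (1, 0, 0), (0, 1, 0)⟩),
    (389, ⟨3, 2, (0, 1, 0), (0, 0, 1), (0, -1, 0), (1, 0, 0)⟩),
    (524, ⟨4, 6, (0, 1, 1), (1, 0, 0), (0, -1, 0), (0, 0, -1)⟩),
    (461, ⟨3, 6, (0, 1, 0), (0, 0, 1), (0, -1, 0), (1, 0, 0)⟩),
    (325, ⟨2, 2, (1, 1, 0), (-1, 0, 0), (0, -1, 0), (0, 0, 1)⟩),
    (388, ⟨3, 2, (0, 1, 0), (0, 0, 1), (0, -1, 0), (1, 0, 0)⟩)]
  W := [[443, 1, 61, 21],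
    [324, 244, 402, 144],
    [382, 422, 462, 342],
    [121, 41, 181, 81],
    [301, 221, 361, 281],
    [202, 262, 102, 162]]
  C := [
    195, 259, 196, 323, 260, 197, 387, 324, 261, 198, 451, 262, 199, 515, 452, 326, 263, 200,
    579, 516, 453, 327, 264, 201, 643, 580, 517, 202, 644, 581, 518, 266, 203, 645, 582, 519,
    330, 267, 204, 646, 583, 331, 268, 205, 647, 332, 269, 206, 648, 396, 333, 270, 649, 397,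
    334, 650, 585, 398, 651, 586, 462, 652, 587, 522, 526, 653, 588, 523, 590, 525, 654, 589]
  x0 := 3
  y0 := 3
  m := 7
  n := 11

def qu3_0 : ND where
  D := [
    (393, ⟨6, 9, (0, 0, 0), (1, 0, 0), (0, 1, 0), (0, 0, 1)⟩),
    (457, ⟨7, 9, (1, 0, 0), (0, 0, 1), (0, 1, 0), (-1, 0, 0)⟩),
    (521, ⟨8, 9, (1, 0, 1), (-1, 0, 0), (0, 1, 0), (0, 0, -1)⟩),
    (458, ⟨7, 10, (1, 1, 0), (0, 0, 1), (-1, 0, 0), (0, -1, 0)⟩),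
    (520, ⟨8, 8, (1, 0, 0), (-1, 0, 0), (0, 0, 1), (0, 1, 0)⟩),
    (584, ⟨9, 8, (0, 0, 0), (0, 1, 0), (0, 0, 1), (1, 0, 0)⟩)]
  W := [[1],
    [44],
    [101],
    [21],
    [84],
    [62]]
  C := [
    327, 391, 328, 455, 392, 329, 519, 456, 330, 583, 394, 331, 647, 395, 648, 459, 649, 523,
    650, 585, 587, 522, 651, 586]
  x0 := 5
  y0 := 7
  m := 5
  n := 4

def qu3_1 : ND where
  D := [
    (265, ⟨4, 9, (0, 0, 0), (1, 0, 0), (0, 1, 0), (0, 0, 1)⟩),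
    (329, ⟨5, 9, (1, 0, 0), (0, 0, 1), (0, 1, 0), (-1, 0, 0)⟩),
    (328, ⟨5, 8, (0, 0, 0), (0, 0, 1), (1, 0, 0), (0, 1, 0)⟩),
    (392, ⟨6, 8, (0, 0, 1), (0, 1, 0), (1, 0, 0), (0, 0, -1)⟩),
    (456, ⟨7, 8, (0, 1, 1), (0, 0, -1), (1, 0, 0), (0, -1, 0)⟩),
    (391, ⟨6, 7, (0, 0, 0), (0, 1, 0), (0, 0, 1), (1, 0, 0)⟩)]
  W := [[1],
    [61],
    [101],
    [21],
    [41],
    [84]]
  C := [
    198, 262, 199, 326, 263, 200, 390, 327, 264, 201, 454, 202, 518, 455, 266, 519, 330, 520,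
    394, 521, 458, 393, 522, 457]
  x0 := 3
  y0 := 6
  m := 5
  n := 4

def qu3_2 : ND where
  D := [
    (325, ⟨5, 5, (0, 0, 0), (1, 0, 0), (0, 1, 0), (0, 0, 1)⟩),
    (389, ⟨6, 5, (1, 0, 0), (0, 0, 1), (0, 1, 0), (-1, 0, 0)⟩),
    (390, ⟨6, 6, (1, 1, 0), (0, 0, 1), (-1, 0, 0), (0, -1, 0)⟩),
    (388, ⟨6, 4, (0, 0, 0), (0, 0, 1), (1, 0, 0), (0, 1, 0)⟩),
    (454, ⟨7, 6, (1, 1, 1), (0, -1, 0), (-1, 0, 0), (0, 0, -1)⟩),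
    (455, ⟨7, 7, (0, 1, 1), (0, -1, 0), (0, 0, -1), (1, 0, 0)⟩)]
  W := [[1],
    [83],
    [103],
    [21],
    [61],
    [42]]
  C := [
    259, 323, 260, 387, 324, 261, 451, 262, 515, 452, 326, 263, 516, 453, 327, 264, 517, 391,
    328, 518, 392, 519, 456, 520]
  x0 := 4
  y0 := 3
  m := 4
  n := 5

def qu3_3 : ND where
  D := [
    (394, ⟨6, 10, (0, 0, 0), (1, 0, 0), (0, 1, 0), (0, 0, 1)⟩),
    (395, ⟨6, 11, (0, 1, 0), (1, 0, 0), (0, 0, 1), (0, -1, 0)⟩),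
    (459, ⟨7, 11, (1, 1, 0), (0, -1, 0), (0, 0, 1), (-1, 0, 0)⟩),
    (460, ⟨7, 12, (1, 1, 1), (0, -1, 0), (-1, 0, 0), (0, 0, -1)⟩),
    (524, ⟨8, 12, (1, 0, 1), (0, 0, -1), (-1, 0, 0), (0, 1, 0)⟩),
    (461, ⟨7, 13, (0, 1, 1), (0, -1, 0), (0, 0, -1), (1, 0, 0)⟩)]
  W := [[1],
    [63],
    [103],
    [44],
    [83],
    [21]]
  C := [
    329, 393, 330, 457, 331, 521, 458, 332, 585, 522, 396, 333, 586, 523, 397, 334, 587, 398,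
    588, 462, 589, 526, 590, 525]
  x0 := 5
  y0 := 9
  m := 4
  n := 5

def Pu3 : List ND := [
  qu3_0, qu3_1, qu3_2, qu3_3]

lemma okXu3 : Xu3.ok p20 = true := by decide +kernel

lemma pairu3_0 : (((Xu3.D.drop 0).take 24).all (pairN p20 Xu3.D)) = true := by decide +kernel

lemma pairu3 : ∀ y ∈ Xu3.D, pairN p20 Xu3.D y = true := by
  have h : Xu3.D = (Xu3.D.drop 0).take 24 := by rfl
  intro y hy
  rw [h] at hy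
  exact List.all_eq_true.mp pairu3_0 y hy

lemma okPu3 : (Pu3.all fun x => x.okp) = true := by decide +kernel

lemma repu3 : repN p20 4 Xu3 Pu3 = true := by decide +kernel

def Xu4 : ND where
  D := [
    (268, ⟨2, 6, (0, 0, 0), (1, 0, 0), (0, 1, 0), (0, 0, 1)⟩),
    (332, ⟨2, 6, (0, 0, 0), (1, 0, 0), (0, 1, 0), (0, 0, 1)⟩),
    (269, ⟨2, 6, (0, 0, 0), (1, 0, 0), (0, 1, 0), (0, 0, 1)⟩),
    (396, ⟨3, 6, (1, 0, 0), (0, 0, 1), (0, 1, 0), (-1, 0, 0)⟩),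
    (395, ⟨3, 5, (0, 0, 0), (0, 0, 1), (1, 0, 0), (0, 1, 0)⟩),
    (459, ⟨3, 5, (0, 0, 0), (0, 0, 1), (1, 0, 0), (0, 1, 0)⟩),
    (394, ⟨3, 5, (0, 0, 0), (0, 0, 1), (1, 0, 0), (0, 1, 0)⟩),
    (458, ⟨3, 5, (0, 0, 0), (0, 0, 1), (1, 0, 0), (0, 1, 0)⟩),
    (393, ⟨3, 4, (0, 1, 0), (0, 0, 1), (0, -1, 0), (1, 0, 0)⟩),
    (457, ⟨3, 4, (0, 1, 0), (0, 0, 1), (0, -1, 0), (1, 0, 0)⟩),
    (392, ⟨3, 4, (0, 1, 0), (0, 0, 1), (0, -1, 0), (1, 0, 0)⟩),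
    (521, ⟨4, 4, (0, 1, 1), (1, 0, 0), (0, -1, 0), (0, 0, -1)⟩),
    (456, ⟨3, 4, (0, 1, 0), (0, 0, 1), (0, -1, 0), (1, 0, 0)⟩),
    (585, ⟨4, 4, (0, 1, 1), (1, 0, 0), (0, -1, 0), (0, 0, -1)⟩),
    (520, ⟨4, 4, (0, 1, 1), (1, 0, 0), (0, -1, 0), (0, 0, -1)⟩),
    (584, ⟨4, 4, (0, 1, 1), (1, 0, 0), (0, -1, 0), (0, 0, -1)⟩),
    (519, ⟨4, 3, (0, 1, 0), (1, 0, 0), (0, 0, 1), (0, -1, 0)⟩),
    (583, ⟨4, 3, (0, 1, 0), (1, 0, 0), (0, 0, 1), (0, -1, 0)⟩),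
    (647, ⟨5, 3, (1, 1, 0), (0, -1, 0), (0, 0, 1), (-1, 0, 0)⟩),
    (711, ⟨5, 3, (1, 1, 0), (0, -1, 0), (0, 0, 1), (-1, 0, 0)⟩),
    (646, ⟨5, 3, (1, 1, 0), (0, -1, 0), (0, 0, 1), (-1, 0, 0)⟩),
    (645, ⟨5, 2, (0, 1, 0), (0, -1, 0), (1, 0, 0), (0, 0, 1)⟩),
    (581, ⟨4, 2, (0, 1, 1), (0, 0, -1), (1, 0, 0), (0, -1, 0)⟩),
    (580, ⟨4, 2, (0, 1, 1), (0, 0, -1), (1, 0, 0), (0, -1, 0)⟩)]
  W := [[1, 41, 21, 424],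
    [222, 262, 282, 302],
    [162, 182, 202, 242],
    [61, 404, 384, 364],
    [121, 81, 141, 101],
    [464, 321, 444, 341]]
  C := [
    195, 259, 196, 323, 260, 197, 387, 324, 261, 198, 451, 388, 325, 262, 199, 515, 452, 389,
    326, 263, 200, 579, 516, 453, 390, 327, 264, 201, 643, 517, 454, 391, 328, 265, 202, 707,
    644, 518, 455, 329, 266, 203, 771, 708, 582, 330, 267, 204, 772, 709, 331, 205, 773, 710,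
    206, 774, 270, 775, 334, 776, 398, 333, 777, 712, 462, 397, 778, 713, 648, 526, 461, 779,
    714, 649, 590, 525, 460, 780, 715, 650, 654, 589, 524, 781, 716, 651, 586, 718, 653, 588,
    523, 782, 717, 652, 587, 522]
  x0 := 3
  y0 := 3
  m := 9
  n := 11

def qu4_0 : ND where
  D := [
    (394, ⟨6, 10, (0, 0, 0), (1, 0, 0), (0, 1, 0), (0, 0, 1)⟩),
    (458, ⟨7, 10, (1, 0, 0), (0, 0, 1), (0, 1, 0), (-1, 0, 0)⟩),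
    (457, ⟨7, 9, (0, 0, 0), (0, 0, 1), (1, 0, 0), (0, 1, 0)⟩),
    (521, ⟨8, 9, (0, 0, 1), (0, 1, 0), (1, 0, 0), (0, 0, -1)⟩),
    (585, ⟨9, 9, (0, 1, 1), (0, 0, -1), (1, 0, 0), (0, -1, 0)⟩),
    (584, ⟨9, 8, (0, 0, 1), (0, 0, -1), (0, 1, 0), (1, 0, 0)⟩)]
  W := [[1],
    [61],
    [104],
    [21],
    [41],
    [84]]
  C := [
    327, 391, 328, 455, 392, 329, 519, 456, 393, 330, 583, 520, 331, 647, 395, 648, 459, 649,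
    523, 650, 587, 522, 651, 586]
  x0 := 5
  y0 := 7
  m := 5
  n := 4

def qu4_1 : ND where
  D := [
    (268, ⟨4, 12, (0, 0, 0), (1, 0, 0), (0, 1, 0), (0, 0, 1)⟩),
    (332, ⟨5, 12, (1, 0, 0), (0, 0, 1), (0, 1, 0), (-1, 0, 0)⟩),
    (269, ⟨4, 13, (0, 1, 0), (1, 0, 0), (0, 0, 1), (0, -1, 0)⟩),
    (396, ⟨6, 12, (1, 0, 1), (-1, 0, 0), (0, 1, 0), (0, 0, -1)⟩),
    (395, ⟨6, 11, (1, 0, 0), (-1, 0, 0), (0, 0, 1), (0, 1, 0)⟩),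
    (459, ⟨7, 11, (0, 0, 0), (0, 1, 0), (0, 0, 1), (1, 0, 0)⟩)]
  W := [[1],
    [64],
    [101],
    [21],
    [84],
    [41]]
  C := [
    202, 266, 203, 330, 267, 204, 394, 331, 205, 458, 206, 522, 270, 523, 334, 524, 398, 333,
    525, 460, 462, 397, 526, 461]
  x0 := 3
  y0 := 10
  m := 5
  n := 4

def qu4_2 : ND where
  D := [
    (580, ⟨9, 4, (0, 0, 0), (1, 0, 0), (0, 1, 0), (0, 0, 1)⟩),
    (581, ⟨9, 5, (0, 1, 0), (1, 0, 0), (0, 0, 1), (0, -1, 0)⟩),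
    (645, ⟨10, 5, (1, 1, 0), (0, -1, 0), (0, 0, 1), (-1, 0, 0)⟩),
    (646, ⟨10, 6, (1, 1, 1), (0, -1, 0), (-1, 0, 0), (0, 0, -1)⟩),
    (647, ⟨10, 7, (0, 1, 1), (0, -1, 0), (0, 0, -1), (1, 0, 0)⟩),
    (711, ⟨11, 7, (0, 0, 1), (1, 0, 0), (0, 0, -1), (0, 1, 0)⟩)]
  W := [[1],
    [63],
    [83],
    [44],
    [102],
    [21]]
  C := [
    515, 579, 516, 643, 517, 707, 644, 518, 771, 708, 582, 519, 772, 709, 583, 520, 773, 710,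
    584, 774, 648, 775, 712, 776]
  x0 := 8
  y0 := 3
  m := 4
  n := 5

def qu4_3 : ND where
  D := [
    (392, ⟨6, 8, (0, 0, 0), (1, 0, 0), (0, 1, 0), (0, 0, 1)⟩),
    (456, ⟨7, 8, (1, 0, 0), (0, 0, 1), (0, 1, 0), (-1, 0, 0)⟩),
    (393, ⟨6, 9, (0, 1, 0), (1, 0, 0), (0, 0, 1), (0, -1, 0)⟩),
    (520, ⟨8, 8, (1, 0, 1), (-1, 0, 0), (0, 1, 0), (0, 0, -1)⟩),
    (519, ⟨8, 7, (1, 0, 0), (-1, 0, 0), (0, 0, 1), (0, 1, 0)⟩),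
    (583, ⟨9, 7, (0, 0, 0), (0, 1, 0), (0, 0, 1), (1, 0, 0)⟩)]
  W := [[1],
    [64],
    [101],
    [21],
    [84],
    [41]]
  C := [
    326, 390, 327, 454, 391, 328, 518, 455, 329, 582, 330, 646, 394, 647, 458, 648, 522, 457,
    649, 584, 586, 521, 650, 585]
  x0 := 5
  y0 := 6
  m := 5
  n := 4

def Pu4 : List ND := [
  qu4_0, qu4_1, qu4_2, qu4_3]

lemma okXu4 : Xu4.ok p20 = true := by decide +kernel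

lemma pairu4_0 : (((Xu4.D.drop 0).take 24).all (pairN p20 Xu4.D)) = true := by decide +kernel

lemma pairu4 : ∀ y ∈ Xu4.D, pairN p20 Xu4.D y = true := by
  have h : Xu4.D = (Xu4.D.drop 0).take 24 := by rfl
  intro y hy
  rw [h] at hy
  exact List.all_eq_true.mp pairu4_0 y hy

lemma okPu4 : (Pu4.all fun x => x.okp) = true := by decide +kernel

lemma repu4 : repN p20 4 Xu4 Pu4 = true := by decide +kernel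

def Xu5 : ND where
  D := [
    (196, ⟨4, 0, (0, 0, 0), (1, 0, 0), (0, 1, 0), (0, 0, 1)⟩),
    (260, ⟨4, 0, (0, 0, 0), (1, 0, 0), (0, 1, 0), (0, 0, 1)⟩),
    (197, ⟨4, 0, (0, 0, 0), (1, 0, 0), (0, 1, 0), (0, 0, 1)⟩),
    (324, ⟨4, -1, (0, 0, 1), (1, 0, 0), (0, 0, -1), (0, 1, 0)⟩),
    (259, ⟨4, -1, (0, 0, 1), (1, 0, 0), (0, 0, -1), (0, 1, 0)⟩),
    (388, ⟨5, -1, (1, 0, 1), (0, 1, 0), (0, 0, -1), (-1, 0, 0)⟩),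
    (452, ⟨5, -2, (0, 0, 1), (0, 1, 0), (1, 0, 0), (0, 0, -1)⟩),
    (387, ⟨5, -2, (0, 0, 1), (0, 1, 0), (1, 0, 0), (0, 0, -1)⟩),
    (516, ⟨6, -2, (0, 1, 1), (0, 0, -1), (1, 0, 0), (0, -1, 0)⟩),
    (453, ⟨6, -2, (0, 1, 1), (0, 0, -1), (1, 0, 0), (0, -1, 0)⟩),
    (451, ⟨5, -2, (0, 0, 1), (0, 1, 0), (1, 0, 0), (0, 0, -1)⟩),
    (454, ⟨6, -1, (1, 1, 1), (0, 0, -1), (0, -1, 0), (-1, 0, 0)⟩)]
  W := [[1, 41, 21, 227],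
    [141, 117, 201, 121],
    [95, 217, 16, 180],
    [223, 191, 66, 102],
    [38, 62, 82, 153],
    [164, 128, 49, 184]]
  C := [
    130, 194, 131, 258, 195, 132, 322, 133, 386, 323, 134, 450, 198, 135, 514, 262, 199, 578,
    515, 326, 263, 261, 579, 390, 327, 325, 580, 391, 389, 581, 455, 582, 517, 519, 583, 518]
  x0 := 2
  y0 := 2
  m := 7
  n := 5

def qu5_0 : ND where
  D := [
    (387, ⟨6, 3, (0, 0, 0), (1, 0, 0), (0, 1, 0), (0, 0, 1)⟩),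
    (451, ⟨7, 3, (1, 0, 0), (0, 0, 1), (0, 1, 0), (-1, 0, 0)⟩),
    (452, ⟨7, 4, (1, 1, 0), (0, 0, 1), (-1, 0, 0), (0, -1, 0)⟩),
    (516, ⟨8, 4, (1, 1, 1), (0, -1, 0), (-1, 0, 0), (0, 0, -1)⟩),
    (453, ⟨7, 5, (0, 1, 0), (0, 0, 1), (0, -1, 0), (1, 0, 0)⟩),
    (454, ⟨7, 6, (0, 0, 0), (0, 0, 1), (1, 0, 0), (0, 1, 0)⟩)]
  W := [[1],
    [63],
    [82],
    [21],
    [101],
    [42]]
  C := [
    322, 386, 323, 450, 324, 514, 388, 325, 578, 515, 389, 326, 579, 390, 327, 580, 391, 581,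
    455, 582, 517, 519, 583, 518]
  x0 := 5
  y0 := 2
  m := 4
  n := 5

def qu5_1 : ND where
  D := [
    (196, ⟨3, 4, (0, 0, 0), (1, 0, 0), (0, 1, 0), (0, 0, 1)⟩),
    (260, ⟨4, 4, (1, 0, 0), (0, 0, 1), (0, 1, 0), (-1, 0, 0)⟩),
    (197, ⟨3, 5, (0, 1, 0), (1, 0, 0), (0, 0, 1), (0, -1, 0)⟩),
    (324, ⟨5, 4, (1, 0, 1), (-1, 0, 0), (0, 1, 0), (0, 0, -1)⟩),
    (259, ⟨4, 3, (0, 0, 0), (0, 0, 1), (1, 0, 0), (0, 1, 0)⟩),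
    (388, ⟨6, 4, (0, 0, 1), (0, 0, -1), (0, 1, 0), (1, 0, 0)⟩)]
  W := [[1],
    [64],
    [104],
    [21],
    [81],
    [41]]
  C := [
    130, 194, 131, 258, 195, 132, 322, 133, 386, 323, 134, 450, 387, 198, 451, 262, 452, 326,
    261, 453, 390, 325, 454, 389]
  x0 := 2
  y0 := 2
  m := 5
  n := 4

def Pu5 : List ND := [
  qu5_0, qu5_1]

lemma okXu5 : Xu5.ok p11 = true := by decide +kernel

lemma pairu5_0 : (((Xu5.D.drop 0).take 12).all (pairN p11 Xu5.D)) = true := by decide +kernel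

lemma pairu5 : ∀ y ∈ Xu5.D, pairN p11 Xu5.D y = true := by
  have h : Xu5.D = (Xu5.D.drop 0).take 12 := by rfl
  intro y hy
  rw [h] at hy
  exact List.all_eq_true.mp pairu5_0 y hy

lemma okPu5 : (Pu5.all fun x => x.okp) = true := by decide +kernel

lemma repu5 : repN p11 2 Xu5 Pu5 = true := by decide +kernel

def Xu6 : ND where
  D := [
    (197, ⟨1, 2, (0, 0, 0), (1, 0, 0), (0, 1, 0), (0, 0, 1)⟩),
    (261, ⟨2, 2, (1, 0, 0), (0, 0, 1), (0, 1, 0), (-1, 0, 0)⟩),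
    (262, ⟨2, 3, (1, 1, 0), (0, 0, 1), (-1, 0, 0), (0, -1, 0)⟩),
    (326, ⟨2, 3, (1, 1, 0), (0, 0, 1), (-1, 0, 0), (0, -1, 0)⟩),
    (263, ⟨2, 3, (1, 1, 0), (0, 0, 1), (-1, 0, 0), (0, -1, 0)⟩),
    (390, ⟨3, 3, (1, 1, 1), (0, -1, 0), (-1, 0, 0), (0, 0, -1)⟩),
    (327, ⟨2, 3, (1, 1, 0), (0, 0, 1), (-1, 0, 0), (0, -1, 0)⟩),
    (264, ⟨2, 4, (0, 1, 0), (0, 0, 1), (0, -1, 0), (1, 0, 0)⟩),
    (199, ⟨1, 3, (1, 0, 0), (0, 1, 0), (-1, 0, 0), (0, 0, 1)⟩),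
    (391, ⟨3, 3, (1, 1, 1), (0, -1, 0), (-1, 0, 0), (0, 0, -1)⟩),
    (389, ⟨3, 2, (1, 1, 0), (0, -1, 0), (0, 0, 1), (-1, 0, 0)⟩),
    (328, ⟨2, 4, (0, 1, 0), (0, 0, 1), (0, -1, 0), (1, 0, 0)⟩),
    (265, ⟨2, 4, (0, 1, 0), (0, 0, 1), (0, -1, 0), (1, 0, 0)⟩),
    (453, ⟨3, 2, (1, 1, 0), (0, -1, 0), (0, 0, 1), (-1, 0, 0)⟩),
    (329, ⟨2, 4, (0, 1, 0), (0, 0, 1), (0, -1, 0), (1, 0, 0)⟩),
    (266, ⟨2, 5, (0, 0, 0), (0, 0, 1), (1, 0, 0), (0, 1, 0)⟩),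
    (201, ⟨1, 4, (1, 1, 0), (-1, 0, 0), (0, -1, 0), (0, 0, 1)⟩),
    (452, ⟨3, 2, (1, 1, 0), (0, -1, 0), (0, 0, 1), (-1, 0, 0)⟩),
    (393, ⟨3, 4, (0, 1, 1), (1, 0, 0), (0, -1, 0), (0, 0, -1)⟩),
    (330, ⟨2, 5, (0, 0, 0), (0, 0, 1), (1, 0, 0), (0, 1, 0)⟩),
    (516, ⟨4, 2, (1, 0, 0), (-1, 0, 0), (0, 0, 1), (0, 1, 0)⟩),
    (331, ⟨2, 5, (0, 0, 0), (0, 0, 1), (1, 0, 0), (0, 1, 0)⟩),
    (515, ⟨4, 1, (1, 1, 0), (-1, 0, 0), (0, -1, 0), (0, 0, 1)⟩),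
    (395, ⟨3, 5, (0, 0, 1), (0, 1, 0), (1, 0, 0), (0, 0, -1)⟩)]
  W := [[323, 162, 443, 1],
    [362, 461, 183, 103],
    [242, 282, 142, 222],
    [344, 21, 264, 204],
    [301, 404, 381, 421],
    [82, 122, 42, 62]]
  C := [
    130, 194, 131, 258, 195, 132, 322, 259, 196, 133, 386, 323, 260, 134, 450, 387, 324, 198,
    135, 514, 451, 388, 325, 136, 578, 200, 137, 579, 138, 580, 202, 139, 581, 203, 140, 582,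
    517, 267, 204, 583, 518, 268, 584, 519, 454, 332, 585, 520, 455, 396, 586, 521, 456, 460,
    587, 522, 457, 392, 524, 459, 588, 523, 458, 394]
  x0 := 2
  y0 := 2
  m := 7
  n := 10

def qu6_0 : ND where
  D := [
    (389, ⟨6, 5, (0, 0, 0), (1, 0, 0), (0, 1, 0), (0, 0, 1)⟩),
    (453, ⟨7, 5, (1, 0, 0), (0, 0, 1), (0, 1, 0), (-1, 0, 0)⟩),
    (390, ⟨6, 6, (0, 1, 0), (1, 0, 0), (0, 0, 1), (0, -1, 0)⟩),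
    (452, ⟨7, 4, (0, 0, 0), (0, 0, 1), (1, 0, 0), (0, 1, 0)⟩),
    (516, ⟨8, 4, (0, 0, 1), (0, 1, 0), (1, 0, 0), (0, 0, -1)⟩),
    (515, ⟨8, 3, (0, 0, 0), (0, 1, 0), (0, 0, 1), (1, 0, 0)⟩)]
  W := [[1],
    [81],
    [101],
    [21],
    [61],
    [41]]
  C := [
    322, 386, 323, 450, 387, 324, 514, 451, 388, 325, 578, 326, 579, 327, 580, 391, 581, 455,
    582, 517, 519, 454, 583, 518]
  x0 := 5
  y0 := 2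
  m := 4
  n := 5

def qu6_1 : ND where
  D := [
    (197, ⟨3, 5, (0, 0, 0), (1, 0, 0), (0, 1, 0), (0, 0, 1)⟩),
    (261, ⟨4, 5, (1, 0, 0), (0, 0, 1), (0, 1, 0), (-1, 0, 0)⟩),
    (262, ⟨4, 6, (1, 1, 0), (0, 0, 1), (-1, 0, 0), (0, -1, 0)⟩),
    (326, ⟨5, 6, (1, 1, 1), (0, -1, 0), (-1, 0, 0), (0, 0, -1)⟩),
    (327, ⟨5, 7, (0, 1, 1), (0, -1, 0), (0, 0, -1), (1, 0, 0)⟩),
    (391, ⟨6, 7, (0, 0, 1), (1, 0, 0), (0, 0, -1), (0, 1, 0)⟩)]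
  W := [[1],
    [63],
    [83],
    [21],
    [102],
    [42]]
  C := [
    132, 196, 133, 260, 134, 324, 198, 135, 388, 325, 199, 136, 452, 389, 263, 200, 453, 390,
    264, 454, 328, 455, 392, 456]
  x0 := 2
  y0 := 4
  m := 5
  n := 4

def qu6_2 : ND where
  D := [
    (201, ⟨3, 9, (0, 0, 0), (1, 0, 0), (0, 1, 0), (0, 0, 1)⟩),
    (265, ⟨4, 9, (1, 0, 0), (0, 0, 1), (0, 1, 0), (-1, 0, 0)⟩),
    (266, ⟨4, 10, (1, 1, 0), (0, 0, 1), (-1, 0, 0), (0, -1, 0)⟩),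
    (330, ⟨5, 10, (1, 1, 1), (0, -1, 0), (-1, 0, 0), (0, 0, -1)⟩),
    (331, ⟨5, 11, (0, 1, 1), (0, -1, 0), (0, 0, -1), (1, 0, 0)⟩),
    (395, ⟨6, 11, (0, 0, 1), (1, 0, 0), (0, 0, -1), (0, 1, 0)⟩)]
  W := [[1],
    [63],
    [83],
    [21],
    [102],
    [42]]
  C := [
    136, 200, 137, 264, 138, 328, 202, 139, 392, 329, 203, 140, 456, 393, 267, 204, 457, 394,
    268, 458, 332, 459, 396, 460]
  x0 := 2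
  y0 := 8
  m := 5
  n := 4

def qu6_3 : ND where
  D := [
    (199, ⟨3, 7, (0, 0, 0), (1, 0, 0), (0, 1, 0), (0, 0, 1)⟩),
    (263, ⟨4, 7, (1, 0, 0), (0, 0, 1), (0, 1, 0), (-1, 0, 0)⟩),
    (264, ⟨4, 8, (1, 1, 0), (0, 0, 1), (-1, 0, 0), (0, -1, 0)⟩),
    (328, ⟨5, 8, (1, 1, 1), (0, -1, 0), (-1, 0, 0), (0, 0, -1)⟩),
    (329, ⟨5, 9, (0, 1, 1), (0, -1, 0), (0, 0, -1), (1, 0, 0)⟩),
    (393, ⟨6, 9, (0, 0, 1), (1, 0, 0), (0, 0, -1), (0, 1, 0)⟩)]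
  W := [[1],
    [63],
    [83],
    [21],
    [102],
    [42]]
  C := [
    134, 198, 135, 262, 136, 326, 200, 137, 390, 327, 201, 138, 454, 391, 265, 202, 455, 392,
    266, 456, 330, 457, 394, 458]
  x0 := 2
  y0 := 6
  m := 5
  n := 4

def Pu6 : List ND := [
  qu6_0, qu6_1, qu6_2, qu6_3]

lemma okXu6 : Xu6.ok p20 = true := by decide +kernel

lemma pairu6_0 : (((Xu6.D.drop 0).take 24).all (pairN p20 Xu6.D)) = true := by decide +kernel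

lemma pairu6 : ∀ y ∈ Xu6.D, pairN p20 Xu6.D y = true := by
  have h : Xu6.D = (Xu6.D.drop 0).take 24 := by rfl
  intro y hy
  rw [h] at hy
  exact List.all_eq_true.mp pairu6_0 y hy

lemma okPu6 : (Pu6.all fun x => x.okp) = true := by decide +kernel

lemma repu6 : repN p20 4 Xu6 Pu6 = true := by decide +kernel

def Xu7 : ND where
  D := [
    (263, ⟨2, 3, (0, 0, 0), (1, 0, 0), (0, 1, 0), (0, 0, 1)⟩),
    (264, ⟨2, 4, (0, 1, 0), (1, 0, 0), (0, 0, 1), (0, -1, 0)⟩),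
    (328, ⟨2, 4, (0, 1, 0), (1, 0, 0), (0, 0, 1), (0, -1, 0)⟩),
    (392, ⟨3, 4, (1, 1, 0), (0, -1, 0), (0, 0, 1), (-1, 0, 0)⟩),
    (456, ⟨3, 4, (1, 1, 0), (0, -1, 0), (0, 0, 1), (-1, 0, 0)⟩),
    (393, ⟨3, 4, (1, 1, 0), (0, -1, 0), (0, 0, 1), (-1, 0, 0)⟩),
    (391, ⟨3, 3, (0, 1, 0), (0, -1, 0), (1, 0, 0), (0, 0, 1)⟩),
    (455, ⟨3, 3, (0, 1, 0), (0, -1, 0), (1, 0, 0), (0, 0, 1)⟩),
    (519, ⟨4, 3, (0, 0, 0), (0, 0, 1), (1, 0, 0), (0, 1, 0)⟩),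
    (454, ⟨3, 3, (0, 1, 0), (0, -1, 0), (1, 0, 0), (0, 0, 1)⟩),
    (583, ⟨4, 3, (0, 0, 0), (0, 0, 1), (1, 0, 0), (0, 1, 0)⟩),
    (518, ⟨4, 3, (0, 0, 0), (0, 0, 1), (1, 0, 0), (0, 1, 0)⟩),
    (647, ⟨5, 3, (0, 0, 1), (0, 1, 0), (1, 0, 0), (0, 0, -1)⟩),
    (584, ⟨4, 4, (1, 0, 0), (0, 0, 1), (0, 1, 0), (-1, 0, 0)⟩),
    (582, ⟨4, 3, (0, 0, 0), (0, 0, 1), (1, 0, 0), (0, 1, 0)⟩),
    (517, ⟨4, 2, (0, 1, 0), (0, 0, 1), (0, -1, 0), (1, 0, 0)⟩),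
    (711, ⟨5, 3, (0, 0, 1), (0, 1, 0), (1, 0, 0), (0, 0, -1)⟩),
    (646, ⟨5, 3, (0, 0, 1), (0, 1, 0), (1, 0, 0), (0, 0, -1)⟩),
    (775, ⟨6, 3, (0, 1, 1), (0, 0, -1), (1, 0, 0), (0, -1, 0)⟩),
    (710, ⟨5, 3, (0, 0, 1), (0, 1, 0), (1, 0, 0), (0, 0, -1)⟩),
    (774, ⟨6, 3, (0, 1, 1), (0, 0, -1), (1, 0, 0), (0, -1, 0)⟩),
    (773, ⟨6, 2, (0, 0, 1), (0, 0, -1), (0, 1, 0), (1, 0, 0)⟩),
    (837, ⟨6, 2, (0, 0, 1), (0, 0, -1), (0, 1, 0), (1, 0, 0)⟩),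
    (772, ⟨6, 2, (0, 0, 1), (0, 0, -1), (0, 1, 0), (1, 0, 0)⟩)]
  W := [[184, 1, 144, 124],
    [341, 241, 381, 321],
    [302, 464, 444, 424],
    [84, 64, 261, 104],
    [221, 161, 281, 201],
    [21, 404, 41, 364]]
  C := [
    195, 259, 196, 323, 260, 197, 387, 324, 261, 198, 451, 388, 325, 262, 199, 515, 452, 389,
    326, 200, 579, 516, 453, 390, 327, 201, 643, 580, 265, 202, 707, 644, 581, 329, 266, 771,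
    708, 645, 330, 835, 709, 394, 899, 836, 458, 900, 522, 457, 901, 586, 521, 902, 650, 585,
    520, 903, 838, 714, 649, 904, 839, 778, 713, 648, 905, 840, 842, 777, 712, 906, 841, 776]
  x0 := 3
  y0 := 3
  m := 11
  n := 7

def qu7_0 : ND where
  D := [
    (517, ⟨8, 5, (0, 0, 0), (1, 0, 0), (0, 1, 0), (0, 0, 1)⟩),
    (518, ⟨8, 6, (0, 1, 0), (1, 0, 0), (0, 0, 1), (0, -1, 0)⟩),
    (582, ⟨9, 6, (1, 1, 0), (0, -1, 0), (0, 0, 1), (-1, 0, 0)⟩),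
    (646, ⟨10, 6, (1, 0, 0), (-1, 0, 0), (0, 0, 1), (0, 1, 0)⟩),
    (710, ⟨11, 6, (0, 0, 0), (0, 1, 0), (0, 0, 1), (1, 0, 0)⟩),
    (647, ⟨10, 7, (1, 0, 1), (-1, 0, 0), (0, 1, 0), (0, 0, -1)⟩)]
  W := [[1],
    [104],
    [81],
    [44],
    [64],
    [21]]
  C := [
    452, 516, 453, 580, 454, 644, 581, 455, 708, 645, 519, 456, 772, 709, 583, 520, 773, 584,
    774, 648, 775, 712, 776, 711]
  x0 := 7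
  y0 := 4
  m := 5
  n := 4

def qu7_1 : ND where
  D := [
    (711, ⟨11, 7, (0, 0, 0), (1, 0, 0), (0, 1, 0), (0, 0, 1)⟩),
    (775, ⟨12, 7, (1, 0, 0), (0, 0, 1), (0, 1, 0), (-1, 0, 0)⟩),
    (774, ⟨12, 6, (0, 0, 0), (0, 0, 1), (1, 0, 0), (0, 1, 0)⟩),
    (773, ⟨12, 5, (0, 1, 0), (0, 0, 1), (0, -1, 0), (1, 0, 0)⟩),
    (837, ⟨13, 5, (0, 1, 1), (1, 0, 0), (0, -1, 0), (0, 0, -1)⟩),
    (772, ⟨12, 4, (1, 1, 0), (0, 0, 1), (-1, 0, 0), (0, -1, 0)⟩)]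
  W := [[1],
    [82],
    [62],
    [21],
    [41],
    [102]]
  C := [
    643, 707, 644, 771, 708, 645, 835, 709, 646, 899, 836, 710, 647, 900, 648, 901, 712, 902,
    776, 903, 838, 840, 904, 839]
  x0 := 10
  y0 := 3
  m := 4
  n := 5

def qu7_2 : ND where
  D := [
    (391, ⟨6, 7, (0, 0, 0), (1, 0, 0), (0, 1, 0), (0, 0, 1)⟩),
    (455, ⟨7, 7, (1, 0, 0), (0, 0, 1), (0, 1, 0), (-1, 0, 0)⟩),
    (519, ⟨8, 7, (1, 0, 1), (-1, 0, 0), (0, 1, 0), (0, 0, -1)⟩),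
    (454, ⟨7, 6, (0, 0, 0), (0, 0, 1), (1, 0, 0), (0, 1, 0)⟩),
    (583, ⟨9, 7, (0, 0, 1), (0, 0, -1), (0, 1, 0), (1, 0, 0)⟩),
    (584, ⟨9, 8, (0, 1, 1), (0, 0, -1), (1, 0, 0), (0, -1, 0)⟩)]
  W := [[1],
    [44],
    [84],
    [21],
    [61],
    [104]]
  C := [
    325, 389, 326, 453, 390, 327, 517, 328, 581, 518, 392, 329, 645, 582, 456, 393, 646, 520,
    457, 647, 521, 648, 585, 649]
  x0 := 5
  y0 := 5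
  m := 5
  n := 4

def qu7_3 : ND where
  D := [
    (263, ⟨4, 7, (0, 0, 0), (1, 0, 0), (0, 1, 0), (0, 0, 1)⟩),
    (264, ⟨4, 8, (0, 1, 0), (1, 0, 0), (0, 0, 1), (0, -1, 0)⟩),
    (328, ⟨5, 8, (1, 1, 0), (0, -1, 0), (0, 0, 1), (-1, 0, 0)⟩),
    (392, ⟨6, 8, (1, 0, 0), (-1, 0, 0), (0, 0, 1), (0, 1, 0)⟩),
    (456, ⟨7, 8, (0, 0, 0), (0, 1, 0), (0, 0, 1), (1, 0, 0)⟩),
    (393, ⟨6, 9, (1, 0, 1), (-1, 0, 0), (0, 1, 0), (0, 0, -1)⟩)]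
  W := [[1],
    [104],
    [81],
    [44],
    [64],
    [21]]
  C := [
    198, 262, 199, 326, 200, 390, 327, 201, 454, 391, 265, 202, 518, 455, 329, 266, 519, 330,
    520, 394, 521, 458, 522, 457]
  x0 := 3
  y0 := 6
  m := 5
  n := 4

def Pu7 : List ND := [
  qu7_0, qu7_1, qu7_2, qu7_3]

lemma okXu7 : Xu7.ok p20 = true := by decide +kernel

lemma pairu7_0 : (((Xu7.D.drop 0).take 24).all (pairN p20 Xu7.D)) = true := by decide +kernel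

lemma pairu7 : ∀ y ∈ Xu7.D, pairN p20 Xu7.D y = true := by
  have h : Xu7.D = (Xu7.D.drop 0).take 24 := by rfl
  intro y hy
  rw [h] at hy
  exact List.all_eq_true.mp pairu7_0 y hy

lemma okPu7 : (Pu7.all fun x => x.okp) = true := by decide +kernel

lemma repu7 : repN p20 4 Xu7 Pu7 = true := by decide +kernel

def Xu8 : ND where
  D := [
    (270, ⟨4, 2, (0, 0, 0), (1, 0, 0), (0, 1, 0), (0, 0, 1)⟩),
    (334, ⟨4, 2, (0, 0, 0), (1, 0, 0), (0, 1, 0), (0, 0, 1)⟩),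
    (271, ⟨4, 2, (0, 0, 0), (1, 0, 0), (0, 1, 0), (0, 0, 1)⟩),
    (398, ⟨5, 2, (1, 0, 0), (0, 0, 1), (0, 1, 0), (-1, 0, 0)⟩),
    (462, ⟨5, 1, (0, 0, 0), (0, 0, 1), (1, 0, 0), (0, 1, 0)⟩),
    (397, ⟨5, 1, (0, 0, 0), (0, 0, 1), (1, 0, 0), (0, 1, 0)⟩),
    (526, ⟨5, 1, (0, 0, 0), (0, 0, 1), (1, 0, 0), (0, 1, 0)⟩),
    (461, ⟨5, 1, (0, 0, 0), (0, 0, 1), (1, 0, 0), (0, 1, 0)⟩),
    (396, ⟨4, 1, (0, 1, 0), (0, -1, 0), (1, 0, 0), (0, 0, 1)⟩),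
    (525, ⟨5, 1, (0, 0, 0), (0, 0, 1), (1, 0, 0), (0, 1, 0)⟩),
    (460, ⟨5, 1, (0, 0, 0), (0, 0, 1), (1, 0, 0), (0, 1, 0)⟩),
    (589, ⟨5, 1, (0, 0, 0), (0, 0, 1), (1, 0, 0), (0, 1, 0)⟩),
    (524, ⟨5, 1, (0, 0, 0), (0, 0, 1), (1, 0, 0), (0, 1, 0)⟩),
    (653, ⟨5, 0, (0, 1, 0), (0, 0, 1), (0, -1, 0), (1, 0, 0)⟩),
    (588, ⟨5, 0, (0, 1, 0), (0, 0, 1), (0, -1, 0), (1, 0, 0)⟩),
    (523, ⟨5, 0, (0, 1, 0), (0, 0, 1), (0, -1, 0), (1, 0, 0)⟩),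
    (717, ⟨6, 0, (0, 1, 1), (1, 0, 0), (0, -1, 0), (0, 0, -1)⟩),
    (652, ⟨5, 0, (0, 1, 0), (0, 0, 1), (0, -1, 0), (1, 0, 0)⟩),
    (587, ⟨5, 0, (0, 1, 0), (0, 0, 1), (0, -1, 0), (1, 0, 0)⟩),
    (522, ⟨4, 0, (1, 1, 0), (-1, 0, 0), (0, -1, 0), (0, 0, 1)⟩),
    (716, ⟨6, 0, (0, 1, 1), (1, 0, 0), (0, -1, 0), (0, 0, -1)⟩),
    (651, ⟨5, 0, (0, 1, 0), (0, 0, 1), (0, -1, 0), (1, 0, 0)⟩),
    (586, ⟨5, 0, (0, 1, 0), (0, 0, 1), (0, -1, 0), (1, 0, 0)⟩),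
    (715, ⟨5, 0, (0, 1, 0), (0, 0, 1), (0, -1, 0), (1, 0, 0)⟩),
    (650, ⟨5, 0, (0, 1, 0), (0, 0, 1), (0, -1, 0), (1, 0, 0)⟩),
    (779, ⟨5, -1, (1, 1, 0), (0, 0, 1), (-1, 0, 0), (0, -1, 0)⟩),
    (714, ⟨5, -1, (1, 1, 0), (0, 0, 1), (-1, 0, 0), (0, -1, 0)⟩),
    (843, ⟨6, -1, (1, 1, 1), (0, -1, 0), (-1, 0, 0), (0, 0, -1)⟩),
    (713, ⟨5, -1, (1, 1, 0), (0, 0, 1), (-1, 0, 0), (0, -1, 0)⟩),
    (907, ⟨6, -1, (1, 1, 1), (0, -1, 0), (-1, 0, 0), (0, 0, -1)⟩),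
    (842, ⟨6, -1, (1, 1, 1), (0, -1, 0), (-1, 0, 0), (0, 0, -1)⟩),
    (971, ⟨6, -1, (1, 1, 1), (0, -1, 0), (-1, 0, 0), (0, 0, -1)⟩),
    (906, ⟨6, -1, (1, 1, 1), (0, -1, 0), (-1, 0, 0), (0, 0, -1)⟩),
    (1035, ⟨6, -2, (1, 1, 0), (0, -1, 0), (0, 0, 1), (-1, 0, 0)⟩),
    (970, ⟨6, -2, (1, 1, 0), (0, -1, 0), (0, 0, 1), (-1, 0, 0)⟩),
    (905, ⟨6, -2, (1, 1, 0), (0, -1, 0), (0, 0, 1), (-1, 0, 0)⟩),
    (1036, ⟨7, -2, (1, 0, 0), (-1, 0, 0), (0, 0, 1), (0, 1, 0)⟩),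
    (1034, ⟨6, -2, (1, 1, 0), (0, -1, 0), (0, 0, 1), (-1, 0, 0)⟩),
    (969, ⟨6, -2, (1, 1, 0), (0, -1, 0), (0, 0, 1), (-1, 0, 0)⟩),
    (904, ⟨5, -2, (0, 1, 0), (1, 0, 0), (0, 0, 1), (0, -1, 0)⟩),
    (1037, ⟨7, -1, (1, 0, 1), (-1, 0, 0), (0, 1, 0), (0, 0, -1)⟩),
    (1033, ⟨6, -2, (1, 1, 0), (0, -1, 0), (0, 0, 1), (-1, 0, 0)⟩),
    (968, ⟨6, -2, (1, 1, 0), (0, -1, 0), (0, 0, 1), (-1, 0, 0)⟩),
    (840, ⟨5, -2, (0, 1, 0), (1, 0, 0), (0, 0, 1), (0, -1, 0)⟩),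
    (1101, ⟨7, -1, (1, 0, 1), (-1, 0, 0), (0, 1, 0), (0, 0, -1)⟩),
    (967, ⟨5, -2, (0, 1, 0), (1, 0, 0), (0, 0, 1), (0, -1, 0)⟩),
    (966, ⟨5, -3, (0, 0, 0), (1, 0, 0), (0, 1, 0), (0, 0, 1)⟩),
    (902, ⟨5, -3, (0, 0, 0), (1, 0, 0), (0, 1, 0), (0, 0, 1)⟩)]
  W := [[0, 455, 941, 0, 315, 383, 921, 917, 216, 164, 1, 41, 0, 116, 21, 0],
    [0, 732, 623, 0, 884, 804, 583, 643, 266, 322, 543, 603, 0, 402, 507, 0],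
    [0, 238, 262, 0, 258, 282, 342, 414, 302, 362, 422, 462, 0, 442, 482, 0],
    [0, 45, 844, 0, 25, 824, 764, 704, 61, 744, 684, 660, 0, 664, 640, 0],
    [0, 101, 77, 0, 201, 141, 81, 668, 241, 181, 121, 724, 0, 221, 900, 0],
    [0, 478, 502, 0, 498, 522, 861, 614, 949, 562, 781, 713, 0, 901, 853, 0]]
  C := [
    197, 261, 198, 325, 262, 199, 389, 326, 263, 200, 453, 390, 327, 264, 201, 517, 454, 391,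
    328, 265, 202, 581, 518, 455, 392, 329, 266, 203, 645, 582, 519, 456, 393, 330, 267, 204,
    709, 646, 583, 520, 457, 394, 331, 268, 205, 773, 710, 647, 584, 521, 458, 395, 332, 269,
    206, 837, 774, 711, 648, 585, 459, 333, 207, 901, 838, 775, 712, 649, 208, 965, 839, 776,
    272, 1029, 903, 777, 336, 1093, 1030, 841, 778, 400, 335, 1157, 1094, 1031, 464, 399, 1158,
    1095, 1032, 528, 463, 1159, 1096, 592, 527, 1160, 1097, 656, 591, 1161, 1098, 720, 655, 590,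
    1162, 1099, 784, 719, 654, 1163, 1100, 848, 783, 718, 1164, 912, 847, 782, 1165, 976, 911,
    846, 781, 1166, 1040, 975, 910, 845, 780, 1167, 1102, 1104, 1039, 974, 909, 844, 1168, 1103,
    1038, 973, 908, 972]
  x0 := 3
  y0 := 5
  m := 15
  n := 11

def qu8_0 : ND where
  D := [
    (396, ⟨6, 12, (0, 0, 0), (1, 0, 0), (0, 1, 0), (0, 0, 1)⟩),
    (460, ⟨7, 12, (1, 0, 0), (0, 0, 1), (0, 1, 0), (-1, 0, 0)⟩),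
    (397, ⟨6, 13, (0, 1, 0), (1, 0, 0), (0, 0, 1), (0, -1, 0)⟩),
    (524, ⟨8, 12, (1, 0, 1), (-1, 0, 0), (0, 1, 0), (0, 0, -1)⟩),
    (588, ⟨9, 12, (0, 0, 1), (0, 0, -1), (0, 1, 0), (1, 0, 0)⟩),
    (587, ⟨9, 11, (1, 0, 1), (0, 0, -1), (-1, 0, 0), (0, 1, 0)⟩)]
  W := [[1],
    [64],
    [84],
    [21],
    [103],
    [41]]
  C := [
    330, 394, 331, 458, 395, 332, 522, 459, 333, 586, 523, 334, 650, 398, 651, 462, 652, 526,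
    461, 653, 590, 525, 654, 589]
  x0 := 5
  y0 := 10
  m := 5
  n := 4

def qu8_1 : ND where
  D := [
    (522, ⟨8, 10, (0, 0, 0), (1, 0, 0), (0, 1, 0), (0, 0, 1)⟩),
    (586, ⟨9, 10, (1, 0, 0), (0, 0, 1), (0, 1, 0), (-1, 0, 0)⟩),
    (523, ⟨8, 11, (0, 1, 0), (1, 0, 0), (0, 0, 1), (0, -1, 0)⟩),
    (650, ⟨10, 10, (1, 0, 1), (-1, 0, 0), (0, 1, 0), (0, 0, -1)⟩),
    (714, ⟨11, 10, (0, 0, 1), (0, 0, -1), (0, 1, 0), (1, 0, 0)⟩),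
    (713, ⟨11, 9, (1, 0, 1), (0, 0, -1), (-1, 0, 0), (0, 1, 0)⟩)]
  W := [[1],
    [64],
    [84],
    [21],
    [103],
    [41]]
  C := [
    456, 520, 457, 584, 521, 458, 648, 585, 459, 712, 649, 460, 776, 524, 777, 588, 778, 652,
    587, 779, 716, 651, 780, 715]
  x0 := 7
  y0 := 8
  m := 5
  n := 4

def qu8_2 : ND where
  D := [
    (902, ⟨14, 6, (0, 0, 0), (1, 0, 0), (0, 1, 0), (0, 0, 1)⟩),
    (966, ⟨15, 6, (1, 0, 0), (0, 0, 1), (0, 1, 0), (-1, 0, 0)⟩),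
    (967, ⟨15, 7, (1, 1, 0), (0, 0, 1), (-1, 0, 0), (0, -1, 0)⟩),
    (968, ⟨15, 8, (0, 1, 0), (0, 0, 1), (0, -1, 0), (1, 0, 0)⟩),
    (969, ⟨15, 9, (0, 0, 0), (0, 0, 1), (1, 0, 0), (0, 1, 0)⟩),
    (1033, ⟨16, 9, (0, 0, 1), (0, 1, 0), (1, 0, 0), (0, 0, -1)⟩)]
  W := [[1],
    [101],
    [62],
    [21],
    [81],
    [42]]
  C := [
    837, 901, 838, 965, 839, 1029, 903, 840, 1093, 1030, 904, 841, 1094, 1031, 905, 842, 1095,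
    1032, 906, 1096, 970, 1097, 1034, 1098]
  x0 := 13
  y0 := 5
  m := 4
  n := 5

def qu8_3 : ND where
  D := [
    (270, ⟨4, 14, (0, 0, 0), (1, 0, 0), (0, 1, 0), (0, 0, 1)⟩),
    (334, ⟨5, 14, (1, 0, 0), (0, 0, 1), (0, 1, 0), (-1, 0, 0)⟩),
    (271, ⟨4, 15, (0, 1, 0), (1, 0, 0), (0, 0, 1), (0, -1, 0)⟩),
    (398, ⟨6, 14, (1, 0, 1), (-1, 0, 0), (0, 1, 0), (0, 0, -1)⟩),
    (462, ⟨7, 14, (0, 0, 1), (0, 0, -1), (0, 1, 0), (1, 0, 0)⟩),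
    (461, ⟨7, 13, (1, 0, 1), (0, 0, -1), (-1, 0, 0), (0, 1, 0)⟩)]
  W := [[1],
    [64],
    [84],
    [21],
    [103],
    [41]]
  C := [
    204, 268, 205, 332, 269, 206, 396, 333, 207, 460, 397, 208, 524, 272, 525, 336, 526, 400,
    335, 527, 464, 399, 528, 463]
  x0 := 3
  y0 := 12
  m := 5
  n := 4

def qu8_4 : ND where
  D := [
    (525, ⟨8, 13, (0, 0, 0), (1, 0, 0), (0, 1, 0), (0, 0, 1)⟩),
    (589, ⟨9, 13, (1, 0, 0), (0, 0, 1), (0, 1, 0), (-1, 0, 0)⟩),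
    (526, ⟨8, 14, (0, 1, 0), (1, 0, 0), (0, 0, 1), (0, -1, 0)⟩),
    (653, ⟨10, 13, (1, 0, 1), (-1, 0, 0), (0, 1, 0), (0, 0, -1)⟩),
    (717, ⟨11, 13, (0, 0, 1), (0, 0, -1), (0, 1, 0), (1, 0, 0)⟩),
    (716, ⟨11, 12, (1, 0, 1), (0, 0, -1), (-1, 0, 0), (0, 1, 0)⟩)]
  W := [[1],
    [64],
    [84],
    [21],
    [103],
    [41]]
  C := [
    459, 523, 460, 587, 524, 461, 651, 588, 462, 715, 652, 463, 779, 527, 780, 591, 781, 655,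
    590, 782, 719, 654, 783, 718]
  x0 := 7
  y0 := 11
  m := 5
  n := 4

def qu8_5 : ND where
  D := [
    (970, ⟨15, 10, (0, 0, 0), (1, 0, 0), (0, 1, 0), (0, 0, 1)⟩),
    (1034, ⟨16, 10, (1, 0, 0), (0, 0, 1), (0, 1, 0), (-1, 0, 0)⟩),
    (1035, ⟨16, 11, (1, 1, 0), (0, 0, 1), (-1, 0, 0), (0, -1, 0)⟩),
    (1036, ⟨16, 12, (0, 1, 0), (0, 0, 1), (0, -1, 0), (1, 0, 0)⟩),
    (1037, ⟨16, 13, (0, 0, 0), (0, 0, 1), (1, 0, 0), (0, 1, 0)⟩),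
    (1101, ⟨17, 13, (0, 0, 1), (0, 1, 0), (1, 0, 0), (0, 0, -1)⟩)]
  W := [[1],
    [101],
    [62],
    [21],
    [81],
    [42]]
  C := [
    905, 969, 906, 1033, 907, 1097, 971, 908, 1161, 1098, 972, 909, 1162, 1099, 973, 910, 1163,
    1100, 974, 1164, 1038, 1165, 1102, 1166]
  x0 := 14
  y0 := 9
  m := 4
  n := 5

def qu8_6 : ND where
  D := [
    (651, ⟨10, 11, (0, 0, 0), (1, 0, 0), (0, 1, 0), (0, 0, 1)⟩),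
    (715, ⟨11, 11, (1, 0, 0), (0, 0, 1), (0, 1, 0), (-1, 0, 0)⟩),
    (652, ⟨10, 12, (0, 1, 0), (1, 0, 0), (0, 0, 1), (0, -1, 0)⟩),
    (779, ⟨12, 11, (1, 0, 1), (-1, 0, 0), (0, 1, 0), (0, 0, -1)⟩),
    (843, ⟨13, 11, (0, 0, 1), (0, 0, -1), (0, 1, 0), (1, 0, 0)⟩),
    (842, ⟨13, 10, (1, 0, 1), (0, 0, -1), (-1, 0, 0), (0, 1, 0)⟩)]
  W := [[1],
    [64],
    [84],
    [21],
    [103],
    [41]]
  C := [
    585, 649, 586, 713, 650, 587, 777, 714, 588, 841, 778, 589, 905, 653, 906, 717, 907, 781,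
    716, 908, 845, 780, 909, 844]
  x0 := 9
  y0 := 9
  m := 5
  n := 4

def qu8_7 : ND where
  D := [
    (840, ⟨13, 8, (0, 0, 0), (1, 0, 0), (0, 1, 0), (0, 0, 1)⟩),
    (904, ⟨14, 8, (1, 0, 0), (0, 0, 1), (0, 1, 0), (-1, 0, 0)⟩),
    (905, ⟨14, 9, (1, 1, 0), (0, 0, 1), (-1, 0, 0), (0, -1, 0)⟩),
    (906, ⟨14, 10, (0, 1, 0), (0, 0, 1), (0, -1, 0), (1, 0, 0)⟩),
    (907, ⟨14, 11, (0, 0, 0), (0, 0, 1), (1, 0, 0), (0, 1, 0)⟩),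
    (971, ⟨15, 11, (0, 0, 1), (0, 1, 0), (1, 0, 0), (0, 0, -1)⟩)]
  W := [[1],
    [101],
    [62],
    [21],
    [81],
    [42]]
  C := [
    775, 839, 776, 903, 777, 967, 841, 778, 1031, 968, 842, 779, 1032, 969, 843, 780, 1033, 970,
    844, 1034, 908, 1035, 972, 1036]
  x0 := 12
  y0 := 7
  m := 4
  n := 5

def Pu8 : List ND := [
  qu8_0, qu8_1, qu8_2, qu8_3, qu8_4, qu8_5, qu8_6, qu8_7]

lemma okXu8 : Xu8.ok p22 = true := by decide +kernel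

lemma pairu8_0 : (((Xu8.D.drop 0).take 48).all (pairN p22 Xu8.D)) = true := by decide +kernel

lemma pairu8 : ∀ y ∈ Xu8.D, pairN p22 Xu8.D y = true := by
  have h : Xu8.D = (Xu8.D.drop 0).take 48 := by rfl
  intro y hy
  rw [h] at hy
  exact List.all_eq_true.mp pairu8_0 y hy

lemma okPu8 : (Pu8.all fun x => x.okp) = true := by decide +kernel

lemma repu8 : repN p22 8 Xu8 Pu8 = true := by decide +kernel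

def Xu9 : ND where
  D := [
    (264, ⟨2, 4, (0, 0, 0), (1, 0, 0), (0, 1, 0), (0, 0, 1)⟩),
    (328, ⟨2, 4, (0, 0, 0), (1, 0, 0), (0, 1, 0), (0, 0, 1)⟩),
    (392, ⟨3, 4, (1, 0, 0), (0, 0, 1), (0, 1, 0), (-1, 0, 0)⟩),
    (329, ⟨2, 4, (0, 0, 0), (1, 0, 0), (0, 1, 0), (0, 0, 1)⟩),
    (327, ⟨2, 3, (0, 0, 1), (1, 0, 0), (0, 0, -1), (0, 1, 0)⟩),
    (456, ⟨3, 4, (1, 0, 0), (0, 0, 1), (0, 1, 0), (-1, 0, 0)⟩),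
    (393, ⟨3, 4, (1, 0, 0), (0, 0, 1), (0, 1, 0), (-1, 0, 0)⟩),
    (330, ⟨2, 5, (0, 1, 0), (1, 0, 0), (0, 0, 1), (0, -1, 0)⟩),
    (457, ⟨3, 4, (1, 0, 0), (0, 0, 1), (0, 1, 0), (-1, 0, 0)⟩),
    (455, ⟨3, 3, (0, 0, 0), (0, 0, 1), (1, 0, 0), (0, 1, 0)⟩),
    (521, ⟨4, 4, (1, 0, 1), (-1, 0, 0), (0, 1, 0), (0, 0, -1)⟩),
    (458, ⟨3, 5, (1, 1, 0), (0, 0, 1), (-1, 0, 0), (0, -1, 0)⟩),
    (519, ⟨4, 3, (0, 0, 1), (0, 1, 0), (1, 0, 0), (0, 0, -1)⟩),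
    (454, ⟨3, 3, (0, 0, 0), (0, 0, 1), (1, 0, 0), (0, 1, 0)⟩),
    (518, ⟨4, 3, (0, 0, 1), (0, 1, 0), (1, 0, 0), (0, 0, -1)⟩),
    (582, ⟨4, 3, (0, 0, 1), (0, 1, 0), (1, 0, 0), (0, 0, -1)⟩),
    (517, ⟨4, 2, (0, 0, 0), (0, 1, 0), (0, 0, 1), (1, 0, 0)⟩),
    (646, ⟨5, 3, (0, 1, 1), (0, 0, -1), (1, 0, 0), (0, -1, 0)⟩),
    (581, ⟨4, 2, (0, 0, 0), (0, 1, 0), (0, 0, 1), (1, 0, 0)⟩),
    (516, ⟨4, 2, (0, 0, 0), (0, 1, 0), (0, 0, 1), (1, 0, 0)⟩),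
    (580, ⟨4, 2, (0, 0, 0), (0, 1, 0), (0, 0, 1), (1, 0, 0)⟩),
    (452, ⟨3, 2, (1, 0, 0), (-1, 0, 0), (0, 0, 1), (0, 1, 0)⟩),
    (644, ⟨5, 2, (0, 1, 0), (1, 0, 0), (0, 0, 1), (0, -1, 0)⟩),
    (579, ⟨4, 1, (1, 0, 0), (0, 1, 0), (-1, 0, 0), (0, 0, 1)⟩)]
  W := [[1, 462, 21, 61],
    [281, 241, 301, 204],
    [381, 321, 401, 361],
    [41, 121, 101, 161],
    [424, 82, 261, 181],
    [441, 344, 141, 222]]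
  C := [
    194, 258, 195, 322, 259, 196, 386, 323, 260, 197, 450, 387, 324, 261, 198, 514, 451, 388,
    325, 262, 199, 578, 515, 389, 326, 263, 200, 642, 453, 390, 201, 706, 643, 391, 265, 202,
    707, 266, 203, 708, 267, 709, 331, 710, 645, 395, 711, 459, 394, 712, 647, 523, 713, 648,
    583, 587, 522, 714, 649, 584, 651, 586, 715, 650, 585, 520]
  x0 := 3
  y0 := 2
  m := 8
  n := 9

def qu9_0 : ND where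
  D := [
    (393, ⟨6, 9, (0, 0, 0), (1, 0, 0), (0, 1, 0), (0, 0, 1)⟩),
    (457, ⟨7, 9, (1, 0, 0), (0, 0, 1), (0, 1, 0), (-1, 0, 0)⟩),
    (521, ⟨8, 9, (1, 0, 1), (-1, 0, 0), (0, 1, 0), (0, 0, -1)⟩),
    (458, ⟨7, 10, (1, 1, 0), (0, 0, 1), (-1, 0, 0), (0, -1, 0)⟩),
    (456, ⟨7, 8, (0, 0, 0), (0, 0, 1), (1, 0, 0), (0, 1, 0)⟩),
    (455, ⟨7, 7, (0, 1, 0), (0, 0, 1), (0, -1, 0), (1, 0, 0)⟩)]
  W := [[1],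
    [44],
    [102],
    [21],
    [81],
    [62]]
  C := [
    326, 390, 327, 454, 391, 328, 518, 392, 329, 582, 519, 330, 583, 520, 394, 331, 584, 395,
    585, 459, 586, 523, 587, 522]
  x0 := 5
  y0 := 6
  m := 4
  n := 5

def qu9_1 : ND where
  D := [
    (454, ⟨7, 6, (0, 0, 0), (1, 0, 0), (0, 1, 0), (0, 0, 1)⟩),
    (518, ⟨8, 6, (1, 0, 0), (0, 0, 1), (0, 1, 0), (-1, 0, 0)⟩),
    (582, ⟨9, 6, (1, 0, 1), (-1, 0, 0), (0, 1, 0), (0, 0, -1)⟩),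
    (519, ⟨8, 7, (1, 1, 0), (0, 0, 1), (-1, 0, 0), (0, -1, 0)⟩),
    (517, ⟨8, 5, (0, 0, 0), (0, 0, 1), (1, 0, 0), (0, 1, 0)⟩),
    (646, ⟨10, 6, (0, 0, 1), (0, 0, -1), (0, 1, 0), (1, 0, 0)⟩)]
  W := [[1],
    [44],
    [104],
    [21],
    [81],
    [62]]
  C := [
    388, 452, 389, 516, 453, 390, 580, 391, 644, 581, 455, 392, 708, 645, 456, 709, 520, 710,
    584, 711, 648, 583, 712, 647]
  x0 := 6
  y0 := 4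
  m := 5
  n := 4

def qu9_2 : ND where
  D := [
    (264, ⟨4, 8, (0, 0, 0), (1, 0, 0), (0, 1, 0), (0, 0, 1)⟩),
    (328, ⟨5, 8, (1, 0, 0), (0, 0, 1), (0, 1, 0), (-1, 0, 0)⟩),
    (392, ⟨6, 8, (1, 0, 1), (-1, 0, 0), (0, 1, 0), (0, 0, -1)⟩),
    (329, ⟨5, 9, (1, 1, 0), (0, 0, 1), (-1, 0, 0), (0, -1, 0)⟩),
    (327, ⟨5, 7, (0, 0, 0), (0, 0, 1), (1, 0, 0), (0, 1, 0)⟩),
    (330, ⟨5, 10, (0, 1, 0), (0, 0, 1), (0, -1, 0), (1, 0, 0)⟩)]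
  W := [[1],
    [44],
    [102],
    [21],
    [81],
    [62]]
  C := [
    198, 262, 199, 326, 263, 200, 390, 201, 454, 391, 265, 202, 455, 266, 203, 456, 267, 457,
    331, 458, 393, 395, 459, 394]
  x0 := 3
  y0 := 6
  m := 4
  n := 5

def qu9_3 : ND where
  D := [
    (452, ⟨7, 4, (0, 0, 0), (1, 0, 0), (0, 1, 0), (0, 0, 1)⟩),
    (516, ⟨8, 4, (1, 0, 0), (0, 0, 1), (0, 1, 0), (-1, 0, 0)⟩),
    (580, ⟨9, 4, (1, 0, 1), (-1, 0, 0), (0, 1, 0), (0, 0, -1)⟩),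
    (644, ⟨10, 4, (0, 0, 1), (0, 0, -1), (0, 1, 0), (1, 0, 0)⟩),
    (581, ⟨9, 5, (1, 1, 1), (-1, 0, 0), (0, 0, -1), (0, -1, 0)⟩),
    (579, ⟨9, 3, (1, 0, 0), (-1, 0, 0), (0, 0, 1), (0, 1, 0)⟩)]
  W := [[1],
    [44],
    [64],
    [21],
    [104],
    [83]]
  C := [
    386, 450, 387, 514, 451, 388, 578, 515, 389, 642, 453, 390, 706, 643, 517, 454, 707, 518,
    708, 582, 709, 646, 710, 645]
  x0 := 6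
  y0 := 2
  m := 5
  n := 4

def Pu9 : List ND := [
  qu9_0, qu9_1, qu9_2, qu9_3]

lemma okXu9 : Xu9.ok p20 = true := by decide +kernel

lemma pairu9_0 : (((Xu9.D.drop 0).take 24).all (pairN p20 Xu9.D)) = true := by decide +kernel

lemma pairu9 : ∀ y ∈ Xu9.D, pairN p20 Xu9.D y = true := by
  have h : Xu9.D = (Xu9.D.drop 0).take 24 := by rfl
  intro y hy
  rw [h] at hy
  exact List.all_eq_true.mp pairu9_0 y hy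

lemma okPu9 : (Pu9.all fun x => x.okp) = true := by decide +kernel

lemma repu9 : repN p20 4 Xu9 Pu9 = true := by decide +kernel

def Xu10 : ND where
  D := [
    (199, ⟨1, 3, (0, 0, 0), (1, 0, 0), (0, 1, 0), (0, 0, 1)⟩),
    (263, ⟨2, 3, (1, 0, 0), (0, 0, 1), (0, 1, 0), (-1, 0, 0)⟩),
    (327, ⟨2, 3, (1, 0, 0), (0, 0, 1), (0, 1, 0), (-1, 0, 0)⟩),
    (264, ⟨2, 4, (1, 1, 0), (0, 0, 1), (-1, 0, 0), (0, -1, 0)⟩),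
    (262, ⟨2, 3, (1, 0, 0), (0, 0, 1), (0, 1, 0), (-1, 0, 0)⟩),
    (391, ⟨3, 3, (1, 0, 1), (-1, 0, 0), (0, 1, 0), (0, 0, -1)⟩),
    (328, ⟨2, 4, (1, 1, 0), (0, 0, 1), (-1, 0, 0), (0, -1, 0)⟩),
    (326, ⟨2, 3, (1, 0, 0), (0, 0, 1), (0, 1, 0), (-1, 0, 0)⟩),
    (265, ⟨2, 4, (1, 1, 0), (0, 0, 1), (-1, 0, 0), (0, -1, 0)⟩),
    (261, ⟨2, 2, (0, 0, 0), (0, 0, 1), (1, 0, 0), (0, 1, 0)⟩),
    (455, ⟨3, 3, (1, 0, 1), (-1, 0, 0), (0, 1, 0), (0, 0, -1)⟩),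
    (390, ⟨3, 3, (1, 0, 1), (-1, 0, 0), (0, 1, 0), (0, 0, -1)⟩),
    (325, ⟨2, 2, (0, 0, 0), (0, 0, 1), (1, 0, 0), (0, 1, 0)⟩),
    (519, ⟨4, 3, (0, 0, 1), (0, 0, -1), (0, 1, 0), (1, 0, 0)⟩),
    (454, ⟨3, 3, (1, 0, 1), (-1, 0, 0), (0, 1, 0), (0, 0, -1)⟩),
    (324, ⟨2, 2, (0, 0, 0), (0, 0, 1), (1, 0, 0), (0, 1, 0)⟩),
    (583, ⟨4, 3, (0, 0, 1), (0, 0, -1), (0, 1, 0), (1, 0, 0)⟩),
    (520, ⟨4, 4, (0, 1, 1), (0, 0, -1), (1, 0, 0), (0, -1, 0)⟩),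
    (518, ⟨4, 3, (0, 0, 1), (0, 0, -1), (0, 1, 0), (1, 0, 0)⟩),
    (647, ⟨5, 3, (0, 0, 0), (1, 0, 0), (0, 1, 0), (0, 0, 1)⟩),
    (582, ⟨4, 3, (0, 0, 1), (0, 0, -1), (0, 1, 0), (1, 0, 0)⟩),
    (646, ⟨5, 3, (0, 0, 0), (1, 0, 0), (0, 1, 0), (0, 0, 1)⟩),
    (581, ⟨4, 2, (1, 0, 1), (0, 0, -1), (-1, 0, 0), (0, 1, 0)⟩),
    (710, ⟨5, 3, (0, 0, 0), (1, 0, 0), (0, 1, 0), (0, 0, 1)⟩)]
  W := [[421, 381, 461, 1],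
    [284, 224, 204, 104],
    [404, 364, 324, 264],
    [81, 21, 141, 41],
    [443, 181, 301, 241],
    [162, 344, 62, 122]]
  C := [
    131, 195, 132, 259, 196, 133, 323, 260, 197, 134, 387, 198, 135, 451, 388, 136, 515, 452,
    389, 200, 137, 579, 516, 453, 201, 138, 643, 580, 517, 202, 707, 644, 266, 771, 708, 645,
    330, 772, 709, 394, 329, 773, 458, 393, 774, 522, 457, 392, 775, 586, 521, 456, 776, 711,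
    650, 585, 777, 712, 714, 649, 584, 778, 713, 648]
  x0 := 2
  y0 := 3
  m := 10
  n := 7

def qu10_0 : ND where
  D := [
    (391, ⟨6, 7, (0, 0, 0), (1, 0, 0), (0, 1, 0), (0, 0, 1)⟩),
    (455, ⟨7, 7, (1, 0, 0), (0, 0, 1), (0, 1, 0), (-1, 0, 0)⟩),
    (519, ⟨8, 7, (1, 0, 1), (-1, 0, 0), (0, 1, 0), (0, 0, -1)⟩),
    (454, ⟨7, 6, (0, 0, 0), (0, 0, 1), (1, 0, 0), (0, 1, 0)⟩),
    (583, ⟨9, 7, (0, 0, 1), (0, 0, -1), (0, 1, 0), (1, 0, 0)⟩),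
    (520, ⟨8, 8, (1, 1, 1), (-1, 0, 0), (0, 0, -1), (0, -1, 0)⟩)]
  W := [[1],
    [44],
    [84],
    [21],
    [61],
    [103]]
  C := [
    325, 389, 326, 453, 390, 327, 517, 328, 581, 518, 392, 329, 645, 582, 456, 393, 646, 457,
    647, 521, 648, 585, 649, 584]
  x0 := 5
  y0 := 5
  m := 5
  n := 4

def qu10_1 : ND where
  D := [
    (518, ⟨8, 6, (0, 0, 0), (1, 0, 0), (0, 1, 0), (0, 0, 1)⟩),
    (582, ⟨9, 6, (1, 0, 0), (0, 0, 1), (0, 1, 0), (-1, 0, 0)⟩),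
    (646, ⟨10, 6, (1, 0, 1), (-1, 0, 0), (0, 1, 0), (0, 0, -1)⟩),
    (581, ⟨9, 5, (0, 0, 0), (0, 0, 1), (1, 0, 0), (0, 1, 0)⟩),
    (710, ⟨11, 6, (0, 0, 1), (0, 0, -1), (0, 1, 0), (1, 0, 0)⟩),
    (647, ⟨10, 7, (1, 1, 1), (-1, 0, 0), (0, 0, -1), (0, -1, 0)⟩)]
  W := [[1],
    [44],
    [84],
    [21],
    [61],
    [103]]
  C := [
    452, 516, 453, 580, 517, 454, 644, 455, 708, 645, 519, 456, 772, 709, 583, 520, 773, 584,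
    774, 648, 775, 712, 776, 711]
  x0 := 7
  y0 := 4
  m := 5
  n := 4

def qu10_2 : ND where
  D := [
    (199, ⟨3, 7, (0, 0, 0), (1, 0, 0), (0, 1, 0), (0, 0, 1)⟩),
    (263, ⟨4, 7, (1, 0, 0), (0, 0, 1), (0, 1, 0), (-1, 0, 0)⟩),
    (264, ⟨4, 8, (1, 1, 0), (0, 0, 1), (-1, 0, 0), (0, -1, 0)⟩),
    (262, ⟨4, 6, (0, 0, 0), (0, 0, 1), (1, 0, 0), (0, 1, 0)⟩),
    (328, ⟨5, 8, (1, 1, 1), (0, -1, 0), (-1, 0, 0), (0, 0, -1)⟩),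
    (265, ⟨4, 9, (0, 1, 0), (0, 0, 1), (0, -1, 0), (1, 0, 0)⟩)]
  W := [[1],
    [83],
    [102],
    [21],
    [61],
    [42]]
  C := [
    133, 197, 134, 261, 198, 135, 325, 136, 389, 326, 200, 137, 390, 327, 201, 138, 391, 202,
    392, 266, 393, 330, 394, 329]
  x0 := 2
  y0 := 5
  m := 4
  n := 5

def qu10_3 : ND where
  D := [
    (261, ⟨4, 5, (0, 0, 0), (1, 0, 0), (0, 1, 0), (0, 0, 1)⟩),
    (325, ⟨5, 5, (1, 0, 0), (0, 0, 1), (0, 1, 0), (-1, 0, 0)⟩),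
    (326, ⟨5, 6, (1, 1, 0), (0, 0, 1), (-1, 0, 0), (0, -1, 0)⟩),
    (324, ⟨5, 4, (0, 0, 0), (0, 0, 1), (1, 0, 0), (0, 1, 0)⟩),
    (390, ⟨6, 6, (1, 1, 1), (0, -1, 0), (-1, 0, 0), (0, 0, -1)⟩),
    (327, ⟨5, 7, (0, 1, 0), (0, 0, 1), (0, -1, 0), (1, 0, 0)⟩)]
  W := [[1],
    [83],
    [102],
    [21],
    [61],
    [42]]
  C := [
    195, 259, 196, 323, 260, 197, 387, 198, 451, 388, 262, 199, 452, 389, 263, 200, 453, 264,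
    454, 328, 455, 392, 456, 391]
  x0 := 3
  y0 := 3
  m := 4
  n := 5

def Pu10 : List ND := [
  qu10_0, qu10_1, qu10_2, qu10_3]

lemma okXu10 : Xu10.ok p20 = true := by decide +kernel

lemma pairu10_0 : (((Xu10.D.drop 0).take 24).all (pairN p20 Xu10.D)) = true := by decide +kernel

lemma pairu10 : ∀ y ∈ Xu10.D, pairN p20 Xu10.D y = true := by
  have h : Xu10.D = (Xu10.D.drop 0).take 24 := by rfl
  intro y hy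
  rw [h] at hy
  exact List.all_eq_true.mp pairu10_0 y hy

lemma okPu10 : (Pu10.all fun x => x.okp) = true := by decide +kernel

lemma repu10 : repN p20 4 Xu10 Pu10 = true := by decide +kernel

def certU : List (ℕ × List (Fin 8 × ℕ)) := [
  (1, [(0, 0), (1, 2)]), (1, [(4, 5), (5, 0)]),
  (8, [(5, 5), (5, 5), (4, 5), (5, 5), (5, 5), (4, 5), (5, 5), (4, 5)]),
  (4, [(7, 1), (5, 4), (6, 1), (5, 4)]), (7, [(1, 0), (0, 0), (3, 5), (1, 0)]),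
  (7, [(3, 5), (2, 4), (1, 3), (3, 5)]), (4, [(5, 5), (7, 2), (4, 5), (7, 2)]),
  (3, [(5, 4), (7, 1), (4, 4), (6, 1)]), (5, [(6, 0), (7, 2)]),
  (10, [(1, 3), (1, 3), (4, 4), (4, 4)]), (5, [(4, 3), (5, 4)]),
  (6, [(0, 0), (1, 1), (1, 1), (1, 1)]), (3, [(7, 3), (5, 5), (6, 0), (4, 4)]),
  (2, [(6, 1), (1, 1)]), (0, [(0, 0), (3, 4)]), (9, [(0, 0), (1, 4), (2, 2), (3, 4)]),
  (9, [(2, 2), (3, 3), (0, 0), (1, 5)]), (0, [(2, 2), (1, 5)]), (2, [(4, 3), (3, 4)]),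
  (5, [(2, 3), (1, 4)]), (10, [(5, 3), (5, 3), (0, 0), (0, 0)]), (2, [(0, 0), (5, 0)]),
  (5, [(0, 0), (3, 2)]), (2, [(2, 3), (7, 4)]), (7, [(7, 5), (4, 4), (5, 3), (7, 5)]),
  (3, [(1, 5), (3, 0), (2, 5), (0, 0)]), (7, [(5, 0), (6, 0), (7, 5), (5, 0)]),
  (3, [(3, 3), (1, 5), (0, 0), (2, 4)]), (4, [(3, 0), (1, 5), (0, 0), (1, 5)]),
  (8, [(1, 5), (1, 5), (0, 0), (1, 5), (1, 5), (0, 0), (1, 5), (0, 0)]),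
  (6, [(4, 5), (5, 0), (5, 0), (5, 0)]), (4, [(1, 5), (3, 2), (2, 5), (3, 2)]),
  (6, [(5, 5), (4, 5), (4, 5), (4, 5)]), (2, [(1, 0), (6, 0)]),
  (3, [(2, 5), (0, 0), (3, 5), (1, 0)]), (4, [(2, 4), (0, 0), (3, 4), (0, 0)]),
  (3, [(0, 0), (2, 4), (1, 3), (3, 5)]), (2, [(3, 5), (4, 5)]),
  (4, [(0, 0), (2, 5), (1, 0), (2, 5)]), (5, [(1, 1), (0, 0)]),
  (9, [(3, 3), (0, 0), (1, 4), (2, 3)]), (7, [(6, 1), (7, 1), (4, 4), (6, 1)]),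
  (10, [(4, 4), (4, 4), (1, 3), (1, 3)]), (10, [(0, 0), (0, 0), (5, 3), (5, 3)]),
  (9, [(1, 5), (2, 5), (3, 5), (0, 0)]),
  (8, [(0, 0), (0, 0), (1, 1), (0, 0), (0, 0), (1, 1), (0, 0), (1, 1)]),
  (7, [(4, 4), (5, 5), (6, 0), (4, 4)]), (5, [(3, 5), (2, 5)]), (0, [(3, 0), (2, 4)]),
  (5, [(5, 0), (6, 2)]), (2, [(5, 0), (0, 0)]), (3, [(6, 0), (4, 4), (5, 3), (7, 5)]),
  (2, [(7, 5), (2, 5)]), (7, [(0, 0), (3, 0), (2, 5), (0, 0)]),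
  (3, [(4, 5), (6, 0), (7, 5), (5, 0)]), (7, [(2, 4), (1, 5), (0, 0), (2, 4)]),
  (5, [(7, 5), (4, 5)]), (0, [(1, 5), (0, 0)]), (4, [(4, 5), (6, 2), (7, 5), (6, 2)]),
  (6, [(1, 5), (0, 0), (0, 0), (0, 0)]),
  (8, [(4, 5), (4, 5), (5, 0), (4, 5), (4, 5), (5, 0), (4, 5), (5, 0)]),
  (4, [(6, 0), (4, 5), (5, 0), (4, 5)]), (1, [(5, 5), (4, 5)]), (1, [(1, 5), (0, 0)])]

end Pool.Agent.Q228.Rep
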