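import Pool.Agent.Q228.Rep.Hexes
import Pool.Agent.Q228.Rep.Eleven
import Pool.Agent.Q228.Rep.O13
import Pool.Agent.Q228.Rep.O20
import Pool.Agent.Q228.Rep.Uni
import Pool.Agent.Q228.Rep.Main

/-!
# Smallest rep-cube with all edge nets; the one-sided edge nets; uniform rep-cubes
-/

set_option autoImplicit false

namespace Pool.Agent.Q228.Rep

open Pool.Agent.Helper697.Rep

lemma FN_ok {S : List ℕ} (hS : S ∈ FN) : S.Nodup ∧ S.length = 6 := by
  have := okFN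
  simp only [List.all_eq_true, Bool.and_eq_true, nbeq_iff] at this
  obtain ⟨h1, h2⟩ := this S hS
  exact ⟨(nodupM_spec _ _ h1).1, h2⟩

/-- from the certificate to the congruence with a translate -/
lemma congr_of {S : List ℕ} {N : Finset (ℤ × ℤ)} {v : ℤ × ℤ} (hS : S ∈ FN)
    (hv : ∀ x, x + v ∈ N ↔ x ∈ decL S) {x : ND} (hx : x.L.Nodup ∧ x.L.length = 6) {g : Fin 8}
    {s b : ℕ} (h : mvB g s b S x.L = true) :
    ∃ w : ℤ × ℤ, x.cells = N.image fun c => sym g c + w := by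
  obtain ⟨s1, s2⟩ := FN_ok hS
  obtain ⟨x1, x2⟩ := hx
  exact ⟨_, (mvB_spec s1 x1 (by omega) h).trans (image_shift hv g _)⟩

lemma any_congruent {n : ℕ} {Ps : List ND} {cs : List (ℕ × Fin 8 × ℕ)}
    (hall : certB Ps n FN cs = true)
    (hP : ∀ x ∈ Ps, x.L.Nodup ∧ x.L.length = 6) {N : Finset (ℤ × ℤ)}
    (hN : IsEdgeNet N) : ∃ A ∈ pcs Ps, ∃ g : Fin 8, g.val < n ∧
      ∃ w : ℤ × ℤ, A = N.image fun c => sym g c + w := by
  obtain ⟨S, hS, v, hv⟩ := class_all N hN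
  obtain ⟨x, hx, g, hg, s, b, h⟩ := certB_spec FN cs hall S hS
  obtain ⟨w, hw⟩ := congr_of hS hv (hP x hx) h
  exact ⟨x.cells, mem_pcs.mpr ⟨x, hx, rfl⟩, g, hg, w, hw⟩

/-! ### The order 13 -/

lemma all13 : certB P13 8 FN cert13 = true := by decide +kernel

lemma hP13 : ∀ x ∈ P13, x.okp = true := List.all_eq_true.mp okP13

theorem exists13 : ∃ P Q, RepCube 13 P Q ∧ NoHoles P ∧ (∀ A ∈ Q, NoHoles A) ∧
    (∀ A ∈ Q, IsEdgeNet A) ∧ ∀ N, IsEdgeNet N → ∃ A ∈ Q, Congruent N A := by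
  obtain ⟨h1, h2, h3, h4⟩ := repCube_of okX13 pair13 hP13 rep13
  refine ⟨_, _, h1, h2, h3, pcs_edge hP13 h4 edge13, ?_⟩
  intro N hN
  obtain ⟨A, hA, g, -, w, h⟩ := any_congruent all13 h4 hN
  exact ⟨A, hA, g, w, h⟩

/-! ### The lower bound -/

lemma netOfCube_of_net {A : Finset (ℤ × ℤ)} {l : ℝ} (h : IsNet A l) : NetOfCube A := by
  obtain ⟨hl, f, h1, h2, h3, h4⟩ := h
  exact ⟨l, hl, f, h1, h2, fun x hx y hy hxy => h3 x hx y (interior_subset hy) hxy, h4⟩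

lemma not_S2_11 : ¬ S2 11 := by
  rintro ⟨a, b, h⟩
  have ha : a ≤ 3 := by nlinarith
  have hb : b ≤ 3 := by nlinarith
  interval_cases a <;> interval_cases b <;> omega

lemma not_S2_12 : ¬ S2 12 := by
  rintro ⟨a, b, h⟩
  have ha : a ≤ 3 := by nlinarith
  have hb : b ≤ 3 := by nlinarith
  interval_cases a <;> interval_cases b <;> omega

theorem lower (k : ℕ) (P : Finset (ℤ × ℤ)) (Q : Finset (Finset (ℤ × ℤ))) (h : RepCube k P Q)
    (hall : ∀ N, IsEdgeNet N → ∃ A ∈ Q, Congruent N A) : 13 ≤ k := by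
  obtain ⟨hP, hcard, hnet, hQ, hpc, hdis, hU⟩ := h
  -- at least eleven pieces
  have h11 : 11 ≤ k := by
    have hsub : ({784, 1218, 498, 552, 882, 610, 786, 688, 1090, 400, 418} : Finset ℤ) ⊆ Q.image inv := by
      have aux : ∀ (N : Finset (ℤ × ℤ)) (z : ℤ), IsEdgeNet N → inv N = z → z ∈ Q.image inv := by
        intro N z hN hz
        obtain ⟨A, hA, hc⟩ := hall N hN
        rw [Finset.mem_image]
        exact ⟨A, hA, (inv_congr hc).trans hz⟩
      intro z hz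
      simp only [Finset.mem_insert, Finset.mem_singleton] at hz
      rcases hz with rfl | rfl | rfl | rfl | rfl | rfl | rfl | rfl | rfl | rfl | rfl
      · exact aux _ _ net0 inv0
      · exact aux _ _ net1 inv1
      · exact aux _ _ net2 inv2
      · exact aux _ _ net3 inv3
      · exact aux _ _ net4 inv4
      · exact aux _ _ net5 inv5
      · exact aux _ _ net6 inv6
      · exact aux _ _ net7 inv7
      · exact aux _ _ net8 inv8
      · exact aux _ _ net9 inv9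
      · exact aux _ _ net10 inv10
    have h1 := Finset.card_le_card hsub
    have h2 : (Q.image inv).card ≤ Q.card := Finset.card_image_le
    have h3 : ({784, 1218, 498, 552, 882, 610, 786, 688, 1090, 400, 418} : Finset ℤ).card = 11 := by decide
    omega
  -- a sum of two squares
  obtain ⟨A, hA⟩ : Q.Nonempty := by rw [← Finset.card_pos]; omega
  have hS2 : S2 k := by
    obtain ⟨hA1, hA2⟩ := hpc A hA
    have e1 : A.card = 6 := by
      have : (6 : ℝ) * 1 ^ 2 = A.card := area_eq (l := 1) (A := A) (f := hA2.2.choose)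
        ⟨hA2.1, hA2.2.choose_spec.1, hA2.2.choose_spec.2.1,
          fun x hx y hy hxy => hA2.2.choose_spec.2.2.1 x hx y (interior_subset hy) hxy,
          hA2.2.choose_spec.2.2.2⟩
      have h6 : ((A.card : ℕ) : ℝ) = ((6 : ℕ) : ℝ) := by rw [← this]; norm_num
      exact_mod_cast h6
    exact net_ratio hP hA1 (netOfCube_of_net hnet) (netOfCube_of_net hA2) k
      (by rw [hcard, e1]; ring)
  by_contra hcon
  have : k = 11 ∨ k = 12 := by omega
  rcases this with rfl | rfl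
  · exact not_S2_11 hS2
  · exact not_S2_12 hS2

theorem least13 : IsLeast {k : ℕ | ∃ P Q, RepCube k P Q ∧
    ∀ N, IsEdgeNet N → ∃ A ∈ Q, Congruent N A} 13 := by
  constructor
  · obtain ⟨P, Q, h1, -, -, -, h5⟩ := exists13
    exact ⟨P, Q, h1, h5⟩
  · rintro k ⟨P, Q, h1, h2⟩
    exact lower k P Q h1 h2

/-! ### The order 20 -/

lemma all20 : certB P20 4 FN cert20 = true := by decide +kernel

lemma hP20 : ∀ x ∈ P20, x.okp = true := List.all_eq_true.mp okP20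

theorem exists20 : ∃ P Q, RepCube 20 P Q ∧ NoHoles P ∧ (∀ A ∈ Q, NoHoles A) ∧
    (∀ A ∈ Q, IsEdgeNet A) ∧ ∀ N, IsEdgeNet N → ∃! A, A ∈ Q ∧ RotCongruent N A := by
  obtain ⟨h1, h2, h3, h4⟩ := repCube_of okX20 pair20 hP20 rep20
  refine ⟨_, _, h1, h2, h3, pcs_edge hP20 h4 edge20, ?_⟩
  intro N hN
  obtain ⟨A, hA, g, hg, w, h⟩ := any_congruent all20 h4 hN
  have hg4 : g < 4 := hg
  refine ⟨A, ⟨hA, g, hg4, w, h⟩, ?_⟩
  rintro B ⟨hB, hNB⟩
  have hNA : RotCongruent N A := ⟨g, hg4, w, h⟩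
  have hAB := hNA.symm.trans hNB
  obtain ⟨x, hx, rfl⟩ := mem_pcs.mp hA
  obtain ⟨y, hy, rfl⟩ := mem_pcs.mp hB
  rw [pairsB_eq pairs20 h4 hx hy hAB]

/-! ### Uniform rep-cubes -/

/-- all uniform examples -/
def uniL : List (List ND) := [Pu0, Pu1, Pu2, Pu3, Pu4, Pu5, Pu6, Pu7, Pu8, Pu9, Pu10]

lemma uni_all : uniC uniL FN certU = true := by decide +kernel

/-- the good lists of pieces -/
def UniOk (Ps : List ND) : Prop := ∃ k, (2 ≤ k ∧ k ≤ 8) ∧ ∃ P, RepCube k P (pcs Ps) ∧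
  NoHoles P ∧ (∀ A ∈ pcs Ps, NoHoles A) ∧ ∀ x ∈ Ps, x.L.Nodup ∧ x.L.length = 6

lemma uniOk_of {π : Par} {k : ℕ} {X : ND} {Ps : List ND} (hk : 2 ≤ k ∧ k ≤ 8)
    (hX : X.ok π = true) (hXp : ∀ y ∈ X.D, pairN π X.D y = true)
    (hPs : (Ps.all fun x => x.okp) = true) (h : repN π k X Ps = true) : UniOk Ps := by
  obtain ⟨h1, h2, h3, h4⟩ := repCube_of hX hXp (List.all_eq_true.mp hPs) h
  exact ⟨k, hk, _, h1, h2, h3, h4⟩

lemma uni_ok : ∀ Ps ∈ uniL, UniOk Ps := by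
  intro Ps hPs
  simp only [uniL, List.mem_cons, List.not_mem_nil, or_false] at hPs
  rcases hPs with rfl | rfl | rfl | rfl | rfl | rfl | rfl | rfl | rfl | rfl | rfl
  · exact uniOk_of (by decide) okXu0 pairu0 okPu0 repu0
  · exact uniOk_of (by decide) okXu1 pairu1 okPu1 repu1
  · exact uniOk_of (by decide) okXu2 pairu2 okPu2 repu2
  · exact uniOk_of (by decide) okXu3 pairu3 okPu3 repu3
  · exact uniOk_of (by decide) okXu4 pairu4 okPu4 repu4
  · exact uniOk_of (by decide) okXu5 pairu5 okPu5 repu5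
  · exact uniOk_of (by decide) okXu6 pairu6 okPu6 repu6
  · exact uniOk_of (by decide) okXu7 pairu7 okPu7 repu7
  · exact uniOk_of (by decide) okXu8 pairu8 okPu8 repu8
  · exact uniOk_of (by decide) okXu9 pairu9 okPu9 repu9
  · exact uniOk_of (by decide) okXu10 pairu10 okPu10 repu10

theorem uniform (N : Finset (ℤ × ℤ)) (hN : IsEdgeNet N) :
    ∃ k, (2 ≤ k ∧ k ≤ 8) ∧ ∃ P Q, RepCube k P Q ∧ NoHoles P ∧
      ∀ A ∈ Q, NoHoles A ∧ Congruent N A := by
  obtain ⟨S, hS, v, hv⟩ := class_all N hN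
  obtain ⟨Ps, hPs, hall⟩ := uniC_spec FN certU uni_all S hS
  obtain ⟨k, hk, P, h1, h2, h3, h4⟩ := uni_ok Ps hPs
  refine ⟨k, hk, P, _, h1, h2, ?_⟩
  intro A hA
  refine ⟨h3 A hA, ?_⟩
  obtain ⟨x, hx, rfl⟩ := mem_pcs.mp hA
  obtain ⟨g, s, b, h⟩ := hall x hx
  obtain ⟨w, hw⟩ := congr_of hS hv (h4 x hx) h
  exact ⟨g, w, hw⟩

end Pool.Agent.Q228.Rep
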