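import Pool.Agent.Q228.Rep.Conn

/-!
# Foldings of polyominoes to cubes: one lattice for the whole polyomino
-/

set_option autoImplicit false

namespace Pool.Agent.Q228.Rep

open Pool.Agent.Helper697.Rep MeasureTheory

/-- `f` folds the polyomino `A` to the cube of edge `l` -/
structure Folds (A : Finset (ℤ × ℤ)) (l : ℝ) (f : Plane → Space) : Prop where
  pos : 0 < l
  cont : ContinuousOn f (region A)
  surj : f '' region A = cubeSurface l
  inj : Set.InjOn f (interior (region A))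
  creased : CreasedOn f (region A)

/-- an open rectangle -/
def rect (a b a' b' : ℝ) : Set Plane := {p | (a < p 0 ∧ p 0 < b) ∧ (a' < p 1 ∧ p 1 < b')}

lemma coord_cont (i : Fin 2) : Continuous fun p : Plane => p i := by fun_prop

lemma rect_open (a b a' b' : ℝ) : IsOpen (rect a b a' b') :=
  ((isOpen_lt continuous_const (coord_cont 0)).inter
    (isOpen_lt (coord_cont 0) continuous_const)).inter
    ((isOpen_lt continuous_const (coord_cont 1)).inter
    (isOpen_lt (coord_cont 1) continuous_const))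

lemma comb_lt {a x y s t : ℝ} (hx : a < x) (hy : a < y) (hs : 0 ≤ s) (ht : 0 ≤ t)
    (hst : s + t = 1) : a < s * x + t * y := by
  rcases eq_or_lt_of_le hs with h | h
  · rw [← h] at hst ⊢
    have : t = 1 := by linarith
    rw [this]; linarith
  · have h1 := mul_lt_mul_of_pos_left hx h
    have h2 := mul_le_mul_of_nonneg_left hy.le ht
    have : a = s * a + t * a := by rw [← add_mul, hst, one_mul]
    linarith

lemma comb_gt {b x y s t : ℝ} (hx : x < b) (hy : y < b) (hs : 0 ≤ s) (ht : 0 ≤ t)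
    (hst : s + t = 1) : s * x + t * y < b := by
  have := comb_lt (a := -b) (x := -x) (y := -y) (by linarith) (by linarith) hs ht hst
  linarith

lemma rect_convex (a b a' b' : ℝ) : Convex ℝ (rect a b a' b') := by
  intro x hx y hy s t hs ht hst
  obtain ⟨⟨h1, h2⟩, h3, h4⟩ := hx
  obtain ⟨⟨k1, k2⟩, k3, k4⟩ := hy
  refine ⟨⟨?_, ?_⟩, ?_, ?_⟩
  · simpa using comb_lt h1 k1 hs ht hst
  · simpa using comb_gt h2 k2 hs ht hst
  · simpa using comb_lt h3 k3 hs ht hst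
  · simpa using comb_gt h4 k4 hs ht hst

/-- the open cell -/
def oc (c : ℤ × ℤ) : Set Plane := rect c.1 (c.1 + 1) c.2 (c.2 + 1)

lemma oc_open (c : ℤ × ℤ) : IsOpen (oc c) := rect_open _ _ _ _

lemma oc_convex (c : ℤ × ℤ) : Convex ℝ (oc c) := rect_convex _ _ _ _

lemma oc_nonempty (c : ℤ × ℤ) : (oc c).Nonempty :=
  ⟨!₂[(c.1 : ℝ) + 1 / 2, (c.2 : ℝ) + 1 / 2], by
    refine ⟨⟨?_, ?_⟩, ?_, ?_⟩ <;> simp <;> norm_num⟩

lemma oc_sub (c : ℤ × ℤ) : oc c ⊆ square c := fun _ h =>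
  ⟨⟨h.1.1.le, h.1.2.le⟩, h.2.1.le, h.2.2.le⟩

lemma square_sub_region {A : Finset (ℤ × ℤ)} {c : ℤ × ℤ} (hc : c ∈ A) : square c ⊆ region A :=
  fun _ hx => Set.mem_biUnion hc hx

/-- a closed cell is the open cell up to a null set -/
lemma square_diff_null (c : ℤ × ℤ) : volume (square c \ oc c) = 0 := by
  have hsub : square c \ oc c ⊆ ({x : Plane | 1 * x 0 + 0 * x 1 = c.1} ∪
      {x : Plane | 1 * x 0 + 0 * x 1 = c.1 + 1}) ∪ ({x : Plane | 0 * x 0 + 1 * x 1 = c.2} ∪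
      {x : Plane | 0 * x 0 + 1 * x 1 = c.2 + 1}) := by
    rintro x ⟨⟨⟨h1, h2⟩, h3, h4⟩, h⟩
    by_contra hc
    apply h
    simp only [Set.mem_union, Set.mem_ofPred_eq, one_mul, zero_mul, add_zero, zero_add,
      not_or] at hc
    exact ⟨⟨lt_of_le_of_ne h1 (Ne.symm hc.1.1), lt_of_le_of_ne h2 hc.1.2⟩,
      lt_of_le_of_ne h3 (Ne.symm hc.2.1), lt_of_le_of_ne h4 hc.2.2⟩
  apply measure_mono_null hsub
  apply measure_union_null <;> apply measure_union_null <;> apply vol_line <;> simp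

lemma square_sub_closure (c : ℤ × ℤ) : square c ⊆ closure (oc c) := by
  intro x hx
  obtain ⟨⟨h1, h2⟩, h3, h4⟩ := hx
  -- points on the segment from `x` to the centre
  set m : Plane := !₂[(c.1 : ℝ) + 1 / 2, (c.2 : ℝ) + 1 / 2] with hm
  have hcont : Continuous fun t : ℝ => x + t • (m - x) := by fun_prop
  have ht : Filter.Tendsto (fun t : ℝ => x + t • (m - x)) (nhdsWithin 0 (Set.Ioi 0))
      (nhds x) := by
    have := (hcont.tendsto 0).mono_left (nhdsWithin_le_nhds (s := Set.Ioi (0 : ℝ)))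
    simpa using this
  apply mem_closure_of_tendsto ht
  have h01 : ∀ᶠ t : ℝ in nhdsWithin 0 (Set.Ioi 0), t ∈ Set.Ioo (0 : ℝ) 1 :=
    Ioo_mem_nhdsGT one_pos
  filter_upwards [h01] with t ht
  obtain ⟨ht0, ht1⟩ := ht
  have m0 : m 0 = c.1 + 1 / 2 := by simp [hm]
  have m1 : m 1 = c.2 + 1 / 2 := by simp [hm]
  refine ⟨⟨?_, ?_⟩, ?_, ?_⟩ <;>
    simp only [PiLp.add_apply, PiLp.smul_apply, PiLp.sub_apply, smul_eq_mul, m0, m1]
  · nlinarith
  · nlinarith
  · nlinarith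
  · nlinarith

lemma frontier_null {S : Set Plane} (h : Convex ℝ S) : volume (frontier S) = 0 :=
  h.addHaar_frontier volume

/-- the full-dimensional pieces -/
def Full (C : Set (Set Plane)) : Set (Set Plane) := {S ∈ C | (interior S).Nonempty}

section

variable {A : Finset (ℤ × ℤ)} {l : ℝ} {f : Plane → Space} {C : Set (Set Plane)}

lemma fam_full (hf : Folds A l f) (hC : C.Finite) (hU : ⋃₀ C = region A)
    (hS : ∀ S ∈ C, Convex ℝ S ∧ IsClosed S ∧ ∀ x ∈ S, ∀ y ∈ S, dist (f x) (f y) = dist x y) :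
    Fam l f (Full C) := by
  refine ⟨hC.subset (Set.sep_subset _ _), ?_⟩
  rintro D ⟨hDC, hDi⟩
  obtain ⟨h1, h2, h3⟩ := hS D hDC
  obtain ⟨p0, δ, hδ, g0, g1, g2⟩ := exists_triangle D hDi
  obtain ⟨y, u, w, ho, heq⟩ := ext_aff f D p0 δ hδ g0 g1 g2 h3
  refine ⟨y, u, w, h1, h2, hDi, ho, ?_, heq⟩
  apply inFace_of l y u w D hDi
  intro x hx
  rw [← heq x hx, ← hf.surj]
  exact ⟨x, by rw [← hU]; exact ⟨D, hDC, hx⟩, rfl⟩

lemma full_closed (hC : C.Finite)
    (hS : ∀ S ∈ C, Convex ℝ S ∧ IsClosed S ∧ ∀ x ∈ S, ∀ y ∈ S, dist (f x) (f y) = dist x y) :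
    IsClosed (⋃₀ Full C) := by
  rw [Set.sUnion_eq_biUnion]
  apply (hC.subset (Set.sep_subset _ _)).isClosed_biUnion
  intro S h
  exact (hS S h.1).2.1

lemma cover (hC : C.Finite) (hU : ⋃₀ C = region A)
    (hS : ∀ S ∈ C, Convex ℝ S ∧ IsClosed S ∧ ∀ x ∈ S, ∀ y ∈ S, dist (f x) (f y) = dist x y) :
    region A ⊆ ⋃₀ Full C := by
  have hcl := full_closed hC hS
  have key : ∀ c ∈ A, oc c ⊆ ⋃₀ Full C := by
    intro c hc
    by_contra hcon
    have hne : (oc c ∩ (⋃₀ Full C)ᶜ).Nonempty := by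
      rw [Set.not_subset] at hcon
      obtain ⟨x, h1, h2⟩ := hcon
      exact ⟨x, h1, h2⟩
    have hop : IsOpen (oc c ∩ (⋃₀ Full C)ᶜ) := (oc_open c).inter hcl.isOpen_compl
    refine (hop.measure_pos (volume : Measure Plane) hne).ne' ?_
    have hsub : oc c ∩ (⋃₀ Full C)ᶜ ⊆ ⋃ S ∈ C, frontier S := by
      rintro x ⟨h1, h2⟩
      have hx : x ∈ ⋃₀ C := by rw [hU]; exact square_sub_region hc (oc_sub c h1)
      obtain ⟨S, hSC, hxS⟩ := hx
      rw [Set.mem_iUnion₂]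
      refine ⟨S, hSC, ?_⟩
      rw [(hS S hSC).2.1.frontier_eq]
      refine ⟨hxS, fun hi => h2 ⟨S, ⟨hSC, ⟨x, hi⟩⟩, hxS⟩⟩
    apply measure_mono_null hsub
    rw [measure_biUnion_null_iff hC.countable]
    intro S hSC
    exact frontier_null (hS S hSC).1
  intro x hx
  obtain ⟨c, hc, hxc⟩ := Set.mem_iUnion₂.mp hx
  exact closure_minimal (key c hc) hcl (square_sub_closure c hxc)

lemma piece_meets (hU : ⋃₀ C = region A) (D : Set Plane) (hD : D ∈ Full C) :
    ∃ c ∈ A, (interior D ∩ oc c).Nonempty := by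
  by_contra hcon
  push Not at hcon
  have hsub : interior D ⊆ ⋃ c ∈ A, (square c \ oc c) := by
    intro x hx
    have hxR : x ∈ region A := by rw [← hU]; exact ⟨D, hD.1, interior_subset hx⟩
    obtain ⟨c, hc, hxc⟩ := Set.mem_iUnion₂.mp hxR
    rw [Set.mem_iUnion₂]
    refine ⟨c, hc, hxc, fun h => ?_⟩
    have : x ∈ interior D ∩ oc c := ⟨hx, h⟩
    rw [hcon c hc] at this
    exact this
  refine (isOpen_interior.measure_pos (volume : Measure Plane) hD.2).ne' ?_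
  apply measure_mono_null hsub
  exact (measure_biUnion_null_iff (I := (A : Set (ℤ × ℤ))) (Finset.countable_toSet A)).mpr
    (fun c _ => square_diff_null c)

lemma cell_meets (hC : C.Finite) (hU : ⋃₀ C = region A)
    (hS : ∀ S ∈ C, Convex ℝ S ∧ IsClosed S ∧ ∀ x ∈ S, ∀ y ∈ S, dist (f x) (f y) = dist x y)
    (c : ℤ × ℤ) (hc : c ∈ A) : ∃ D ∈ Full C, (interior D ∩ oc c).Nonempty := by
  by_contra hcon
  push Not at hcon
  have hcov := cover hC hU hS
  have hsub : oc c ⊆ ⋃ S ∈ C, frontier S := by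
    intro x hx
    obtain ⟨S, hSC, hxS⟩ := hcov (square_sub_region hc (oc_sub c hx))
    rw [Set.mem_iUnion₂]
    refine ⟨S, hSC.1, ?_⟩
    rw [(hS S hSC.1).2.1.frontier_eq]
    refine ⟨hxS, fun hi => ?_⟩
    have : x ∈ interior S ∩ oc c := ⟨hi, hx⟩
    rw [hcon S hSC] at this
    exact this
  refine ((oc_open c).measure_pos (volume : Measure Plane) (oc_nonempty c)).ne' ?_
  apply measure_mono_null hsub
  rw [measure_biUnion_null_iff hC.countable]
  intro S hSC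
  exact frontier_null (hS S hSC).1

/-- two adjacent cells are contained in an open rectangle of the region -/
lemma adj_rect {c d : ℤ × ℤ} (hc : c ∈ A) (hd : d ∈ A) (h : EdgeAdj c d) :
    ∃ W : Set Plane, IsOpen W ∧ Convex ℝ W ∧ W ⊆ region A ∧ oc c ⊆ W ∧ oc d ⊆ W := by
  have aux : ∀ c d : ℤ × ℤ, c ∈ A → d ∈ A → (d = (c.1 + 1, c.2) ∨ d = (c.1, c.2 + 1)) →
      ∃ W : Set Plane, IsOpen W ∧ Convex ℝ W ∧ W ⊆ region A ∧ oc c ⊆ W ∧ oc d ⊆ W := by
    rintro c d hc hd (h | h)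
    · refine ⟨rect c.1 (c.1 + 2) c.2 (c.2 + 1), rect_open _ _ _ _, rect_convex _ _ _ _, ?_, ?_, ?_⟩
      · rintro x ⟨⟨h1, h2⟩, h3, h4⟩
        rcases le_total (x 0) (c.1 + 1) with h5 | h5
        · exact square_sub_region hc ⟨⟨h1.le, h5⟩, h3.le, h4.le⟩
        · refine square_sub_region hd ?_
          rw [h]
          refine ⟨⟨?_, ?_⟩, h3.le, h4.le⟩
          · push_cast; linarith
          · push_cast; linarith
      · rintro x ⟨⟨h1, h2⟩, h3, h4⟩
        exact ⟨⟨h1, by linarith⟩, h3, h4⟩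
      · rintro x ⟨⟨h1, h2⟩, h3, h4⟩
        rw [h] at h1 h2 h3 h4
        push_cast at h1 h2 h3 h4
        exact ⟨⟨by linarith, by linarith⟩, h3, h4⟩
    · refine ⟨rect c.1 (c.1 + 1) c.2 (c.2 + 2), rect_open _ _ _ _, rect_convex _ _ _ _, ?_, ?_, ?_⟩
      · rintro x ⟨⟨h1, h2⟩, h3, h4⟩
        rcases le_total (x 1) (c.2 + 1) with h5 | h5
        · exact square_sub_region hc ⟨⟨h1.le, h2.le⟩, h3.le, h5⟩
        · refine square_sub_region hd ?_
          rw [h]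
          refine ⟨⟨h1.le, h2.le⟩, ?_, ?_⟩
          · push_cast; linarith
          · push_cast; linarith
      · rintro x ⟨⟨h1, h2⟩, h3, h4⟩
        exact ⟨⟨h1, h2⟩, h3, by linarith⟩
      · rintro x ⟨⟨h1, h2⟩, h3, h4⟩
        rw [h] at h1 h2 h3 h4
        push_cast at h1 h2 h3 h4
        exact ⟨⟨h1, h2⟩, by linarith, by linarith⟩
  obtain ⟨c1, c2⟩ := c
  obtain ⟨d1, d2⟩ := d
  unfold EdgeAdj at h
  simp only at h
  have hcases : (d1 = c1 + 1 ∧ d2 = c2) ∨ (d1 = c1 ∧ d2 = c2 + 1) ∨ (c1 = d1 + 1 ∧ c2 = d2) ∨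
      (c1 = d1 ∧ c2 = d2 + 1) := by
    rcases abs_cases (c1 - d1) with ⟨h1, h2⟩ | ⟨h1, h2⟩ <;>
      rcases abs_cases (c2 - d2) with ⟨h3, h4⟩ | ⟨h3, h4⟩ <;> rw [h1, h3] at h <;> omega
  rcases hcases with ⟨h1, h2⟩ | ⟨h1, h2⟩ | ⟨h1, h2⟩ | ⟨h1, h2⟩
  · exact aux _ _ hc hd (Or.inl (by rw [h1, h2]))
  · exact aux _ _ hc hd (Or.inr (by rw [h1, h2]))
  · obtain ⟨W, a, b, e, g1, g2⟩ := aux _ _ hd hc (Or.inl (by rw [h1, h2]))
    exact ⟨W, a, b, e, g2, g1⟩
  · obtain ⟨W, a, b, e, g1, g2⟩ := aux _ _ hd hc (Or.inr (by rw [h1, h2]))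
    exact ⟨W, a, b, e, g2, g1⟩

/-- on the whole polyomino the cosine function of the folded point is the one of a single affine
isometry -/
theorem global (hA : IsPolyomino A) (hf : Folds A l f) :
    ∃ y u w : Space, Ortho u w ∧ InFace l y u w ∧
      ∀ x ∈ region A, hh l (f x) = hh l (aff y u w x) := by
  obtain ⟨C, hC, hU, hS⟩ := hf.creased
  have hfam := fam_full hf hC hU hS
  have hcov := cover hC hU hS
  obtain ⟨c0, hc0⟩ := hA.1
  obtain ⟨D0, hD0, hm0⟩ := cell_meets hC hU hS c0 hc0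
  obtain ⟨y0, u0, w0, hp0⟩ := hfam.piece D0 hD0
  refine ⟨y0, u0, w0, hp0.ortho, hp0.face, ?_⟩
  have key : ∀ c, Relation.ReflTransGen (fun a b => a ∈ A ∧ b ∈ A ∧ EdgeAdj a b) c0 c →
      c ∈ A ∧ ∀ D ∈ Full C, (interior D ∩ oc c).Nonempty → ∀ y u w, IsPiece l f D y u w →
        ∀ x, hh l (aff y0 u0 w0 x) = hh l (aff y u w x) := by
    intro c hc
    induction hc with
    | refl =>
      refine ⟨hc0, fun D hD hm y u w hp => ?_⟩
      have hW : oc c0 ⊆ region A := (oc_sub c0).trans (square_sub_region hc0)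
      exact local_class l hf.pos f (interior (region A)) isOpen_interior hf.inj (Full C) hfam
        (oc c0) (oc_open c0) (oc_convex c0) (interior_maximal hW (oc_open c0)) (hW.trans hcov)
        D0 D hD0 hD y0 u0 w0 y u w hp0 hp hm0 hm
    | @tail c d _ hcd ih =>
      obtain ⟨hcA, hdA, hadj⟩ := hcd
      refine ⟨hdA, fun D hD hm y u w hp x => ?_⟩
      obtain ⟨W, hWo, hWc, hWR, hcW, hdW⟩ := adj_rect hcA hdA hadj
      obtain ⟨Dc, hDc, hmc⟩ := cell_meets hC hU hS c hcA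
      obtain ⟨yc, uc, wc, hpc⟩ := hfam.piece Dc hDc
      rw [ih.2 Dc hDc hmc yc uc wc hpc x]
      exact local_class l hf.pos f (interior (region A)) isOpen_interior hf.inj (Full C) hfam
        W hWo hWc (interior_maximal hWR hWo) (hWR.trans hcov) Dc D hDc hD yc uc wc y u w hpc hp
        (hmc.mono (Set.inter_subset_inter_right _ hcW))
        (hm.mono (Set.inter_subset_inter_right _ hdW)) x
  intro x hx
  obtain ⟨D, hD, hxD⟩ := hcov hx
  obtain ⟨c, hc, hm⟩ := piece_meets hU D hD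
  obtain ⟨y, u, w, hp⟩ := hfam.piece D hD
  rw [hp.eq x hxD]
  exact ((key c (hA.2 c0 hc0 c hc)).2 D hD hm y u w hp x).symm

end

end Pool.Agent.Q228.Rep
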