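import Pool.Agent.Q228.Rep.Fast

/-!
# Enumeration of polyominoes and of edge nets with bit masks
-/

set_option autoImplicit false

namespace Pool.Agent.Q228.Rep

open Pool.Agent.Helper697.Rep

/-- the code is in the small range -/
def yr (c : ℕ) : Bool :=
  Nat.ble 128 c && (Nat.ble 3 (Nat.mod c 64) && Nat.ble (Nat.mod c 64) 13)

lemma yr_spec {c : ℕ} (h : yr c = true) : 128 ≤ c ∧ 3 ≤ c % 64 ∧ c % 64 ≤ 13 := by
  simp only [yr, Bool.and_eq_true, Nat.ble_eq] at h
  exact h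

/-- search trees -/
inductive BT : Type
  | leaf : BT
  | node : BT → ℕ → BT → BT

/-- membership in a search tree -/
noncomputable def BT.mem (m : ℕ) (t : BT) : Bool :=
  BT.rec false (fun _ k _ hl hr => cond (Nat.beq m k) true (cond (Nat.ble m k) hl hr)) t

/-- the keys -/
def BT.keys : BT → List ℕ
  | .leaf => []
  | .node l k r => l.keys ++ k :: r.keys

lemma BT.mem_keys {m : ℕ} : ∀ (t : BT), t.mem m = true → m ∈ t.keys
  | .leaf, h => absurd h (by simp [BT.mem])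
  | .node l k r, h => by
    have h' : (cond (Nat.beq m k) true (cond (Nat.ble m k) (l.mem m) (r.mem m))) = true := h
    rw [BT.keys, List.mem_append, List.mem_cons]
    by_cases hk : Nat.beq m k = true
    · exact Or.inr (Or.inl (nbeq_iff.mp hk))
    · rw [Bool.not_eq_true] at hk
      rw [hk, cond_false] at h'
      by_cases hl : Nat.ble m k = true
      · rw [hl, cond_true] at h'
        exact Or.inl (BT.mem_keys l h')
      · rw [Bool.not_eq_true] at hl
        rw [hl, cond_false] at h'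
        exact Or.inr (Or.inr (BT.mem_keys r h'))

/-- the extension of the mask `M` by `t`, brought to the normal position, is in the list -/
noncomputable def tst (M t : ℕ) (LM : BT) : Bool :=
  bt M t || cond (Nat.ble 520 t) (force (sb M t) fun m => LM.mem m)
    (force (Nat.shiftLeft (sb M t) (Nat.sub 520 t)) fun m => LM.mem m)

noncomputable def growN (L : List (List ℕ)) (LM : BT) : Bool :=
  L.all fun S => (S.all yr) && force (maskOf S) fun M => S.all fun c =>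
    tst M (Nat.add c 64) LM && (tst M (Nat.add c 1) LM && (tst M (Nat.sub c 1) LM &&
      tst M (Nat.sub c 64) LM))

/-- `LM` is the list of the masks of `L` -/
def mskB : List (List ℕ) → List ℕ → Bool
  | [], [] => true
  | S :: L, m :: LM => (S.all yr && Nat.beq (maskOf S) m) && mskB L LM
  | _, _ => false

lemma mskB_spec : ∀ (L : List (List ℕ)) (LM : List ℕ), mskB L LM = true →
    ∀ m ∈ LM, ∃ S ∈ L, maskOf S = m ∧ ∀ c ∈ S, yr c = true
  | [], [], _ => by simp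
  | [], _ :: _, h => by simp [mskB] at h
  | _ :: _, [], h => by simp [mskB] at h
  | S :: L, m :: LM, h => by
    simp only [mskB, Bool.and_eq_true, nbeq_iff, List.all_eq_true] at h
    obtain ⟨⟨h1, h2⟩, h3⟩ := h
    intro m' hm'
    rcases List.mem_cons.mp hm' with rfl | hm'
    · exact ⟨S, List.mem_cons_self .., h2, h1⟩
    · obtain ⟨S', hS', h4⟩ := mskB_spec L LM h3 m' hm'
      exact ⟨S', List.mem_cons_of_mem _ hS', h4⟩

/-- `T` is a translate of a member of `L` -/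
def TrN (L : List (List ℕ)) (T : Finset (ℤ × ℤ)) : Prop :=
  ∃ S ∈ L, ∃ v : ℤ × ℤ, ∀ x, x + v ∈ T ↔ x ∈ decL S

lemma wrap {c c' t : ℕ} (h : c' + t = c + 520) (h1 : c' % 64 ≤ 13) (h2 : t % 64 ≤ 14)
    (h3 : c % 64 ≤ 14) : dec c' = dec c + (dec 520 - dec t) := by
  have e1 : c' / 64 + t / 64 = c / 64 + 8 := by omega
  have e2 : c' % 64 + t % 64 = c % 64 + 8 := by omega
  have f1 : (((c' / 64 : ℕ) : ℤ)) + ((t / 64 : ℕ) : ℤ) = ((c / 64 : ℕ) : ℤ) + 8 := by
    exact_mod_cast e1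
  have f2 : (((c' % 64 : ℕ) : ℤ)) + ((t % 64 : ℕ) : ℤ) = ((c % 64 : ℕ) : ℤ) + 8 := by
    exact_mod_cast e2
  have g1 : (dec 520).1 = 8 := rfl
  have g2 : (dec 520).2 = 8 := rfl
  ext
  · rw [Prod.fst_add, Prod.fst_sub, g1]
    change (((c' / 64 : ℕ) : ℤ)) = ((c / 64 : ℕ) : ℤ) + (8 - ((t / 64 : ℕ) : ℤ))
    linarith
  · rw [Prod.snd_add, Prod.snd_sub, g2]
    change (((c' % 64 : ℕ) : ℤ)) = ((c % 64 : ℕ) : ℤ) + (8 - ((t % 64 : ℕ) : ℤ))
    linarith

/-- one extension -/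
lemma tst_spec {S : List ℕ} {L' : List (List ℕ)} {LM : BT} (hLM : mskB L' LM.keys = true)
    (hS : ∀ c ∈ S, yr c = true) {t : ℕ} (ht : 64 ≤ t ∧ 2 ≤ t % 64 ∧ t % 64 ≤ 14) (htS : t ∉ S)
    (h : tst (maskOf S) t LM = true) {T : Finset (ℤ × ℤ)} {v : ℤ × ℤ}
    (hv : ∀ x, x + v ∈ T ↔ x ∈ decL S) : TrN L' (insert (dec t + v) T) := by
  have hb : bt (maskOf S) t = false := by
    rw [← Bool.not_eq_true, bt_eq, testBit_maskOf]; exact htS
  rw [tst, hb, Bool.false_or] at h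
  obtain ⟨t1, t2, t3⟩ := ht
  rcases le_or_gt 520 t with hlt | hlt
  · have h1 : Nat.ble 520 t = true := by rw [Nat.ble_eq]; exact hlt
    rw [h1, cond_true, force_eq] at h
    obtain ⟨m, hm, hm'⟩ : ∃ m ∈ LM.keys, sb (maskOf S) t = m := ⟨_, BT.mem_keys _ h, rfl⟩
    obtain ⟨S', hS', e, hyr⟩ := mskB_spec _ _ hLM m hm
    refine ⟨S', hS', v, fun x => ?_⟩
    have hmem : ∀ c, c ∈ S' ↔ c ∈ S ∨ c = t := by
      intro c
      rw [← testBit_maskOf S', e, ← hm', testBit_sb, testBit_maskOf]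
    rw [Finset.mem_insert, hv x, mem_decL, mem_decL]
    constructor
    · rintro (h | ⟨n, hn, rfl⟩)
      · exact ⟨t, (hmem t).mpr (Or.inr rfl), (add_right_cancel h).symm⟩
      · exact ⟨n, (hmem n).mpr (Or.inl hn), rfl⟩
    · rintro ⟨n, hn, rfl⟩
      rcases (hmem n).mp hn with h | rfl
      · exact Or.inr ⟨n, h, rfl⟩
      · exact Or.inl rfl
  · have h1 : Nat.ble 520 t = false := by
      rw [← Bool.not_eq_true, Nat.ble_eq]; omega
    rw [h1, cond_false, force_eq] at h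
    obtain ⟨m, hm, hm'⟩ : ∃ m ∈ LM.keys, (sb (maskOf S) t).shiftLeft (Nat.sub 520 t) = m :=
      ⟨_, BT.mem_keys _ h, rfl⟩
    obtain ⟨S', hS', e, hyr⟩ := mskB_spec _ _ hLM m hm
    have hmem : ∀ c, c ∈ S' ↔ 520 - t ≤ c ∧ (c - (520 - t) ∈ S ∨ c - (520 - t) = t) := by
      intro c
      rw [← testBit_maskOf S', e, ← hm']
      change ((sb (maskOf S) t) <<< (520 - t)).testBit c = true ↔ _
      rw [Nat.testBit_shiftLeft, Bool.and_eq_true, decide_eq_true_eq, testBit_sb,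
        testBit_maskOf]
    have hwrap : ∀ c c', c' ∈ S' → c' = c + (520 - t) → (c ∈ S ∨ c = t) →
        dec c' = dec c + (dec 520 - dec t) := by
      intro c c' hc' he hc
      obtain ⟨y1, y2, y3⟩ := yr_spec (hyr c' hc')
      refine wrap (by omega) y3 t3 ?_
      rcases hc with hc | rfl
      · have := (yr_spec (hS c hc)).2.2
        omega
      · exact t3
    refine ⟨S', hS', v - (dec 520 - dec t), fun x => ?_⟩
    rw [Finset.mem_insert, mem_decL]
    have e1 : x + (v - (dec 520 - dec t)) = (x - (dec 520 - dec t)) + v := by abel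
    rw [e1, hv, mem_decL]
    constructor
    · rintro (h | ⟨n, hn, h⟩)
      · have h2 := add_right_cancel h
        have hin : t + (520 - t) ∈ S' := (hmem _).mpr ⟨by omega, Or.inr (by omega)⟩
        refine ⟨t + (520 - t), hin, ?_⟩
        rw [hwrap t _ hin rfl (Or.inr rfl)]
        exact (sub_eq_iff_eq_add.mp h2).symm
      · have hin : n + (520 - t) ∈ S' :=
          (hmem _).mpr ⟨by omega, Or.inl (by rw [Nat.add_sub_cancel]; exact hn)⟩
        refine ⟨n + (520 - t), hin, ?_⟩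
        rw [hwrap n _ hin rfl (Or.inl hn), h]; abel
    · rintro ⟨n, hn, rfl⟩
      obtain ⟨h2, h3⟩ := (hmem n).mp hn
      have h4 := hwrap (n - (520 - t)) n hn (by omega) h3
      rw [h4, add_sub_cancel_right]
      rcases h3 with h3 | h3
      · exact Or.inr ⟨_, h3, rfl⟩
      · left; rw [h3]

lemma growN_spec {L L' : List (List ℕ)} {LM : BT} (h : growN L LM = true)
    (hLM : mskB L' LM.keys = true) {A T : Finset (ℤ × ℤ)}
    (hA : IsPolyomino A) (hT : T ⊆ A) (hne : T.Nonempty) (hlt : T.card < A.card)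
    (hTr : TrN L T) : ∃ T' ⊆ A, T'.card = T.card + 1 ∧ T'.Nonempty ∧ TrN L' T' := by
  obtain ⟨S, hS, v, hv⟩ := hTr
  have hneA : T ≠ A := by rintro rfl; exact lt_irrefl _ hlt
  obtain ⟨s, hs, t, htA, htT, hst⟩ := exists_boundary hA hT hne hneA
  simp only [growN, List.all_eq_true, Bool.and_eq_true, force_eq] at h
  obtain ⟨hyr, h1⟩ := h S hS
  have es : s = (s - v) + v := by rw [sub_add_cancel]
  have et : t = (t - v) + v := by rw [sub_add_cancel]
  have hs' : s - v ∈ decL S := (hv _).mp (by rw [← es]; exact hs)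
  have ht' : t - v ∉ decL S := fun hc => htT (by rw [et]; exact (hv _).mpr hc)
  obtain ⟨c, hc, hcs⟩ := mem_decL.mp hs'
  obtain ⟨y1, y2, y3⟩ := yr_spec (hyr c hc)
  have hn : t - v ∈ nbrs (dec c) := by
    rw [hcs]
    obtain ⟨a, b⟩ := s
    obtain ⟨x, y⟩ := t
    obtain ⟨p, q⟩ := v
    simp only [nbrs, List.mem_cons, Prod.mk_sub_mk, Prod.mk.injEq, List.not_mem_nil,
      or_false] at hst ⊢
    omega
  -- the code of the new cell
  obtain ⟨n, hn1, hn2, hn3⟩ : ∃ n, dec n = t - v ∧ (64 ≤ n ∧ 2 ≤ n % 64 ∧ n % 64 ≤ 14) ∧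
      tst (maskOf S) n LM = true := by
    obtain ⟨k1, k2, k3, k4⟩ := h1 c hc
    simp only [nbrs, List.mem_cons, List.not_mem_nil, or_false] at hn
    rcases hn with h | h | h | h
    · exact ⟨c + 64, by rw [dec_right, h], ⟨by omega, by omega, by omega⟩, k1⟩
    · exact ⟨c + 1, by rw [dec_up c (by omega), h], ⟨by omega, by omega, by omega⟩, k2⟩
    · exact ⟨c - 64, by rw [dec_left c (by omega), h], ⟨by omega, by omega, by omega⟩, k4⟩
    · exact ⟨c - 1, by rw [dec_down c (by omega), h], ⟨by omega, by omega, by omega⟩, k3⟩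
  have htS : n ∉ S := by
    intro hc
    apply ht'
    rw [← hn1]
    exact dec_mem_decL.mpr hc
  have key := tst_spec hLM hyr hn2 htS hn3 hv
  rw [hn1, ← et] at key
  refine ⟨insert t T, ?_, Finset.card_insert_of_notMem htT, Finset.insert_nonempty _ _, key⟩
  intro x hx
  rcases Finset.mem_insert.mp hx with rfl | hx
  · exact htA
  · exact hT hx

/-! ### Symbolic rolling -/

abbrev SF : Type := ℕ × ℕ × ℕ

/-- the opposite direction -/
def ng (a : ℕ) : ℕ := cond (Nat.beq (Nat.mod a 2) 0) (Nat.add a 1) (Nat.sub a 1)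

def ev (p : Pos) (a : ℕ) : ℤ × ℤ × ℤ :=
  match a with
  | 0 => p.1
  | 1 => -p.1
  | 2 => p.2.1
  | 3 => -p.2.1
  | 4 => p.2.2
  | _ => -p.2.2

lemma ev_ng (p : Pos) {a : ℕ} (h : a ≤ 5) : ev p (ng a) = -ev p a ∧ ng a ≤ 5 := by
  have h0 : ng 0 = 1 := rfl
  have h1 : ng 1 = 0 := rfl
  have h2 : ng 2 = 3 := rfl
  have h3 : ng 3 = 2 := rfl
  have h4 : ng 4 = 5 := rfl
  have h5 : ng 5 = 4 := rfl
  interval_cases a <;> simp [ev, h0, h1, h2, h3, h4, h5]

def evF (p : Pos) (f : SF) : Pos := (ev p f.1, ev p f.2.1, ev p f.2.2)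

def okF (f : SF) : Prop := f.1 ≤ 5 ∧ f.2.1 ≤ 5 ∧ f.2.2 ≤ 5

def sR (f : SF) : SF := (f.2.1, ng f.1, f.2.2)
def sU (f : SF) : SF := (f.2.2, f.2.1, ng f.1)
def sL (f : SF) : SF := (ng f.2.1, f.1, f.2.2)
def sD (f : SF) : SF := (ng f.2.2, f.2.1, f.1)

lemma okF_R {f : SF} (p : Pos) (h : okF f) : okF (sR f) ∧ evF p (sR f) = tipR (evF p f) := by
  obtain ⟨h1, h2, h3⟩ := h
  exact ⟨⟨h2, (ev_ng p h1).2, h3⟩, by simp [evF, sR, tipR, (ev_ng p h1).1]⟩

lemma okF_U {f : SF} (p : Pos) (h : okF f) : okF (sU f) ∧ evF p (sU f) = tipU (evF p f) := by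
  obtain ⟨h1, h2, h3⟩ := h
  exact ⟨⟨h3, h2, (ev_ng p h1).2⟩, by simp [evF, sU, tipU, (ev_ng p h1).1]⟩

lemma okF_L {f : SF} (p : Pos) (h : okF f) : okF (sL f) ∧ tipR (evF p (sL f)) = evF p f := by
  obtain ⟨h1, h2, h3⟩ := h
  exact ⟨⟨(ev_ng p h2).2, h1, h3⟩, by simp [evF, sL, tipR, (ev_ng p h2).1]⟩

lemma okF_D {f : SF} (p : Pos) (h : okF f) : okF (sD f) ∧ tipU (evF p (sD f)) = evF p f := by
  obtain ⟨h1, h2, h3⟩ := h
  exact ⟨⟨(ev_ng p h3).2, h2, h1⟩, by simp [evF, sD, tipU, (ev_ng p h3).1]⟩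

/-- add the cell with the frame if it is in the mask `M` and not in the mask `m` of the cells
done -/
def addS (M : ℕ) (E : ℕ × List (ℕ × SF)) (t : ℕ) (q : SF) : ℕ × List (ℕ × SF) :=
  cond (bt M t && !bt E.1 t) (sb E.1 t, (t, q) :: E.2) E

/-- search from a queue -/
def bfsS (M : ℕ) : ℕ → ℕ × List (ℕ × SF) → List (ℕ × SF) → List (ℕ × SF)
  | 0, E, r => E.2 ++ r
  | k + 1, E, r => match E.2 with
    | [] => r
    | x :: q => bfsS M k (addS M (addS M (addS M (addS M (E.1, q) (Nat.add x.1 64) (sR x.2))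
      (Nat.add x.1 1) (sU x.2)) (Nat.sub x.1 64) (sL x.2)) (Nat.sub x.1 1) (sD x.2)) (x :: r)

def difS (E : List (ℕ × SF)) : Bool := E.all fun x => E.all fun y =>
  Nat.beq x.1 y.1 || !Nat.beq x.2.1 y.2.1

def isNetS (S : List ℕ) : Bool :=
  match S with
  | [] => false
  | s :: _ => force (maskOf S) fun M =>
    difS (bfsS M 6 (sb 0 s, [(s, (0, 2, 4))]) [])

section sound

variable {A : Finset (ℤ × ℤ)} {F : ℤ × ℤ → Pos} {S : List ℕ} {p : Pos}

/-- all entries are right -/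
def OkS (A : Finset (ℤ × ℤ)) (F : ℤ × ℤ → Pos) (p : Pos) (E : List (ℕ × SF)) : Prop :=
  ∀ x ∈ E, rg x.1 = true ∧ dec x.1 ∈ A ∧ okF x.2 ∧ F (dec x.1) = evF p x.2

lemma ok_addS (hS : ∀ c, c ∈ S → rg c = true ∧ dec c ∈ A) {E : ℕ × List (ℕ × SF)}
    (hE : OkS A F p E.2) {t : ℕ} {q : SF} (hq : okF q) (h : rg t = true → dec t ∈ A →
      F (dec t) = evF p q) : OkS A F p (addS (maskOf S) E t q).2 := by
  unfold addS
  by_cases hc : (bt (maskOf S) t && !bt E.1 t) = true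
  · rw [hc, cond_true]
    intro x hx
    rcases List.mem_cons.mp hx with rfl | hx
    · rw [Bool.and_eq_true, bt_eq, testBit_maskOf] at hc
      obtain ⟨a1, a2⟩ := hS _ hc.1
      exact ⟨a1, a2, hq, h a1 a2⟩
    · exact hE x hx
  · rw [Bool.not_eq_true] at hc
    rw [hc, cond_false]
    exact hE

lemma ok_bfsS (hS : ∀ c, c ∈ S → rg c = true ∧ dec c ∈ A)
    (hR : ∀ c, c ∈ A → (c.1 + 1, c.2) ∈ A → F (c.1 + 1, c.2) = tipR (F c))
    (hU : ∀ c, c ∈ A → (c.1, c.2 + 1) ∈ A → F (c.1, c.2 + 1) = tipU (F c)) :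
    ∀ (k : ℕ) (E : ℕ × List (ℕ × SF)) (r : List (ℕ × SF)), OkS A F p E.2 → OkS A F p r →
      OkS A F p (bfsS (maskOf S) k E r)
  | 0, E, r, hE, hr => by
    intro x hx
    rw [bfsS, List.mem_append] at hx
    rcases hx with hx | hx
    · exact hE x hx
    · exact hr x hx
  | _ + 1, (_, []), r, _, hr => hr
  | k + 1, (m, x :: q), r, hE, hr => by
    obtain ⟨x1, x2, x3, x4⟩ := hE x (List.mem_cons_self ..)
    obtain ⟨r1, r2, r3⟩ := rg_spec x1
    have hq : OkS A F p ((m, q) : ℕ × List (ℕ × SF)).2 :=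
      fun y hy => hE y (List.mem_cons_of_mem _ hy)
    change OkS A F p (bfsS (maskOf S) k _ (x :: r))
    refine ok_bfsS hS hR hU k _ _ ?_ (by
      intro y hy
      rcases List.mem_cons.mp hy with rfl | hy
      · exact ⟨x1, x2, x3, x4⟩
      · exact hr y hy)
    refine ok_addS hS (ok_addS hS (ok_addS hS (ok_addS hS hq (okF_R p x3).1 ?_)
      (okF_U p x3).1 ?_) (okF_L p x3).1 ?_) (okF_D p x3).1 ?_
    · intro _ hin
      change dec (x.1 + 64) ∈ A at hin
      change F (dec (x.1 + 64)) = _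
      rw [dec_right] at hin ⊢
      rw [hR _ x2 hin, x4, (okF_R p x3).2]
    · intro _ hin
      change dec (x.1 + 1) ∈ A at hin
      change F (dec (x.1 + 1)) = _
      rw [dec_up _ r3] at hin ⊢
      rw [hU _ x2 hin, x4, (okF_U p x3).2]
    · intro _ hin
      change dec (x.1 - 64) ∈ A at hin
      change F (dec (x.1 - 64)) = _
      have e : ((dec (x.1 - 64)).1 + 1, (dec (x.1 - 64)).2) = dec x.1 := by
        rw [dec_left _ r1]; simp
      have h1 := hR _ hin (by rw [e]; exact x2)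
      rw [e, x4, ← (okF_L p x3).2] at h1
      have inj : ∀ a b : Pos, tipR a = tipR b → a = b := by
        rintro ⟨a1, a2, a3⟩ ⟨b1, b2, b3⟩ hab
        simp only [tipR, Prod.mk.injEq, neg_inj] at hab
        obtain ⟨q1, q2, q3⟩ := hab
        rw [q1, q2, q3]
      exact (inj _ _ h1).symm
    · intro _ hin
      change dec (x.1 - 1) ∈ A at hin
      change F (dec (x.1 - 1)) = _
      have e : ((dec (x.1 - 1)).1, (dec (x.1 - 1)).2 + 1) = dec x.1 := by
        rw [dec_down _ r2]; simp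
      have h1 := hU _ hin (by rw [e]; exact x2)
      rw [e, x4, ← (okF_D p x3).2] at h1
      have inj : ∀ a b : Pos, tipU a = tipU b → a = b := by
        rintro ⟨a1, a2, a3⟩ ⟨b1, b2, b3⟩ hab
        simp only [tipU, Prod.mk.injEq, neg_inj] at hab
        obtain ⟨q1, q2, q3⟩ := hab
        rw [q1, q2, q3]
      exact (inj _ _ h1).symm

end sound

lemma isNetS_of {A : Finset (ℤ × ℤ)} {S : List ℕ} (hS : ∀ c, c ∈ S → rg c = true ∧ dec c ∈ A)
    (hne : S ≠ []) {F : ℤ × ℤ → Pos}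
    (hR : ∀ c, c ∈ A → (c.1 + 1, c.2) ∈ A → F (c.1 + 1, c.2) = tipR (F c))
    (hU : ∀ c, c ∈ A → (c.1, c.2 + 1) ∈ A → F (c.1, c.2 + 1) = tipU (F c))
    (hinj : ∀ c ∈ A, ∀ d ∈ A, (F c).1 = (F d).1 → c = d) : isNetS S = true := by
  match S, hne with
  | s :: l, _ =>
    simp only [isNetS, force_eq]
    obtain ⟨s1, s2⟩ := hS s (List.mem_cons_self ..)
    have h0 : OkS A F (F (dec s)) (sb 0 s, [(s, ((0, 2, 4) : SF))]).2 := by
      intro x hx
      simp only [List.mem_singleton] at hx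
      rw [hx]
      have hk : okF (0, 2, 4) := ⟨by norm_num, by norm_num, by norm_num⟩
      exact ⟨s1, s2, hk, rfl⟩
    have h5 : OkS A F (F (dec s)) (bfsS (maskOf (s :: l)) 6 (sb 0 s, [(s, (0, 2, 4))]) []) :=
      ok_bfsS hS hR hU 6 _ _ h0 (fun x hx => absurd hx (by simp))
    simp only [difS, List.all_eq_true, Bool.or_eq_true, Bool.not_eq_true', nbeq_iff]
    intro x hx y hy
    by_cases hxy : x.1 = y.1
    · exact Or.inl hxy
    · right
      rw [← Bool.not_eq_true, nbeq_iff]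
      intro hc
      apply hxy
      obtain ⟨a1, a2, a3, a4⟩ := h5 x hx
      obtain ⟨b1, b2, b3, b4⟩ := h5 y hy
      apply dec_inj
      apply hinj _ a2 _ b2
      rw [a4, b4]
      simp only [evF]
      rw [hc]

/-- the classification from lists of polyominoes -/
theorem classifyN {L2 L3 L4 L5 L6 FN : List (List ℕ)} {M2 M3 M4 M5 M6 FM : BT}
    (h12 : growN [[520]] M2 = true) (m2 : mskB L2 M2.keys = true)
    (h23 : growN L2 M3 = true) (m3 : mskB L3 M3.keys = true)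
    (h34 : growN L3 M4 = true) (m4 : mskB L4 M4.keys = true)
    (h45 : growN L4 M5 = true) (m5 : mskB L5 M5.keys = true)
    (h56 : growN L5 M6 = true) (m6 : mskB L6 M6.keys = true)
    (mF : mskB FN FM.keys = true) (r6 : ∀ S ∈ L6, S ≠ [] ∧ ∀ c ∈ S, yr c = true)
    (hFN : ∀ S ∈ L6, isNetS S = true → ∃ m ∈ FM.keys, maskOf S = m)
    (A : Finset (ℤ × ℤ)) (hA : IsEdgeNet A) : TrN FN A := by
  obtain ⟨hp, hcard, F, ⟨c, hcA, hF⟩, hR, hU, hinj⟩ := hA
  have t1 : TrN [[520]] {c} := by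
    refine ⟨_, List.mem_cons_self .., c - dec 520, fun x => ?_⟩
    rw [Finset.mem_singleton, mem_decL]
    simp only [List.mem_singleton, exists_eq_left]
    constructor
    · intro h
      rw [eq_sub_of_add_eq h, sub_sub_cancel]
    · rintro rfl
      abel
  obtain ⟨T2, s2, c2, n2, t2⟩ := growN_spec h12 m2 hp (Finset.singleton_subset_iff.mpr hcA)
    (Finset.singleton_nonempty c) (by rw [Finset.card_singleton]; omega) t1
  rw [Finset.card_singleton] at c2
  obtain ⟨T3, s3, c3, n3, t3⟩ := growN_spec h23 m3 hp s2 n2 (by omega) t2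
  obtain ⟨T4, s4, c4, n4, t4⟩ := growN_spec h34 m4 hp s3 n3 (by omega) t3
  obtain ⟨T5, s5, c5, n5, t5⟩ := growN_spec h45 m5 hp s4 n4 (by omega) t4
  obtain ⟨T6, s6, c6, n6, t6⟩ := growN_spec h56 m6 hp s5 n5 (by omega) t5
  have e6 : T6 = A := Finset.eq_of_subset_of_card_le s6 (by omega)
  rw [e6] at t6
  obtain ⟨S, hS, v, hv⟩ := t6
  obtain ⟨hne, hyr⟩ := r6 S hS
  have hnet : isNetS S = true := by
    refine isNetS_of (A := decL S) (F := fun x => F (x + v)) ?_ hne ?_ ?_ ?_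
    · intro c hc
      refine ⟨?_, dec_mem_decL.mpr hc⟩
      obtain ⟨y1, y2, y3⟩ := yr_spec (hyr c hc)
      simp only [rg, Bool.and_eq_true, Nat.ble_eq]
      refine ⟨by omega, ?_, ?_⟩
      · change 1 ≤ c % 64; omega
      · change c % 64 ≤ 62; omega
    · intro x hx hx'
      have e : ((x.1 + 1, x.2) : ℤ × ℤ) + v = ((x + v).1 + 1, (x + v).2) := by
        ext <;> simp; ring
      rw [e]
      apply hR
      · exact (hv x).mpr hx
      · rw [← e]; exact (hv _).mpr hx'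
    · intro x hx hx'
      have e : ((x.1, x.2 + 1) : ℤ × ℤ) + v = ((x + v).1, (x + v).2 + 1) := by
        ext <;> simp; ring
      rw [e]
      apply hU
      · exact (hv x).mpr hx
      · rw [← e]; exact (hv _).mpr hx'
    · intro x hx y hy hxy
      exact add_right_cancel (hinj _ ((hv x).mpr hx) _ ((hv y).mpr hy) hxy)
  obtain ⟨m, hm, hm'⟩ := hFN S hS hnet
  obtain ⟨S', hS', e, -⟩ := mskB_spec _ _ mF m hm
  refine ⟨S', hS', v, fun x => ?_⟩
  rw [hv, mem_decL, mem_decL]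
  have hmem : ∀ n, n ∈ S ↔ n ∈ S' := by
    intro n
    rw [← testBit_maskOf S, ← testBit_maskOf S', hm', e]
  constructor
  · rintro ⟨n, hn, h⟩; exact ⟨n, (hmem n).mp hn, h⟩
  · rintro ⟨n, hn, h⟩; exact ⟨n, (hmem n).mpr hn, h⟩

end Pool.Agent.Q228.Rep
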