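import Pool.Agent.Q228.Rep.Local

/-!
# Foldings of polyominoes to cubes: surjective maps of the right area are one-to-one inside
-/

set_option autoImplicit false

namespace Pool.Agent.Q228.Rep

open Pool.Agent.Helper697.Rep MeasureTheory Set Filter Topology

/-- area does not increase under a piecewise isometric map -/
lemma area_le (f : Plane → Space) (s : Finset (Set Plane)) :
    ∀ E : Set Plane, (E ⊆ ⋃ S ∈ s, S) →
      (∀ S ∈ s, IsClosed S ∧ ∀ x ∈ S, ∀ y ∈ S, dist (f x) (f y) = dist x y) →
      μ3 (f '' E) ≤ volume E := by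
  classical
  induction s using Finset.induction_on with
  | empty =>
    intro E hE _
    have : E = ∅ := by
      apply subset_empty_iff.mp
      simpa using hE
    rw [this]; simp
  | insert S s hS ih =>
    intro E hE hs
    obtain ⟨hSc, hSd⟩ := hs S (Finset.mem_insert_self _ _)
    have h1 : f '' E = f '' (E ∩ S) ∪ f '' (E \ S) := by
      rw [← image_union, inter_union_sdiff]
    rw [h1]
    calc μ3 (f '' (E ∩ S) ∪ f '' (E \ S)) ≤ μ3 (f '' (E ∩ S)) + μ3 (f '' (E \ S)) :=
          measure_union_le _ _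
      _ ≤ volume (E ∩ S) + volume (E \ S) := by
          apply add_le_add
          · exact (area_image f (E ∩ S) (fun x hx y hy => hSd x hx.2 y hy.2)).le
          · apply ih (E \ S) _ (fun T hT => hs T (Finset.mem_insert_of_mem hT))
            intro x hx
            have := hE hx.1
            simp only [Finset.mem_insert, iUnion_iUnion_eq_or_left, mem_union] at this
            exact this.resolve_left hx.2
      _ = volume E := measure_inter_add_sdiff E hSc.measurableSet

/-! ### Small balls on the surface of the cube -/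

/-- the directions allowed at the coordinate `r` in `[0, l]` -/
noncomputable def dirs (l r : ℝ) : Finset Bool := by
  classical
  exact if r = 0 then {true} else if r = l then {false} else Finset.univ

lemma ball_quads (l ε : ℝ) (hε : 0 < ε) (q : Plane) :
    volume (sq l ∩ Metric.closedBall q ε) ≤
      ((dirs l (q 0)).card * (dirs l (q 1)).card : ℕ) * volume (qd ε) := by
  classical
  have hsub : sq l ∩ Metric.closedBall q ε ⊆
      (⋃ st ∈ (dirs l (q 0)) ×ˢ (dirs l (q 1)), OQ q st.1 st.2 ε) ∪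
        ({p : Plane | 1 * p 0 + 0 * p 1 = q 0} ∪ {p : Plane | 0 * p 0 + 1 * p 1 = q 1}) := by
    rintro p ⟨⟨⟨a1, a2⟩, a3, a4⟩, hpB⟩
    rw [mem_ball2 _ _ _ hε.le] at hpB
    by_cases c0 : p 0 = q 0
    · right; left; simp [c0]
    by_cases c1 : p 1 = q 1
    · right; right; simp [c1]
    left
    have hdir : ∀ r x : ℝ, 0 ≤ x → x ≤ l → x ≠ r → ∃ s ∈ dirs l r, 0 < sg s * (x - r) := by
      intro r x h0 h1 hne
      unfold dirs
      rcases lt_or_gt_of_ne hne with h | h
      · refine ⟨false, ?_, by simp [sg]; exact h⟩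
        have : r ≠ 0 := by intro hc; rw [hc] at h; linarith
        rw [if_neg this]
        split_ifs <;> simp
      · refine ⟨true, ?_, by simp [sg]; exact h⟩
        have h2 : r ≠ l := by intro hc; rw [hc] at h; linarith
        split_ifs with h3 <;> simp
    obtain ⟨s, hs, hs'⟩ := hdir (q 0) (p 0) a1 a2 c0
    obtain ⟨t, ht, ht'⟩ := hdir (q 1) (p 1) a3 a4 c1
    rw [mem_iUnion₂]
    exact ⟨(s, t), Finset.mem_product.mpr ⟨hs, ht⟩, ⟨hs', ht'⟩, hpB⟩
  calc volume (sq l ∩ Metric.closedBall q ε) ≤ _ := measure_mono hsub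
    _ ≤ volume (⋃ st ∈ (dirs l (q 0)) ×ˢ (dirs l (q 1)), OQ q st.1 st.2 ε) +
        volume ({p : Plane | 1 * p 0 + 0 * p 1 = q 0} ∪
          {p : Plane | 0 * p 0 + 1 * p 1 = q 1}) := measure_union_le _ _
    _ = volume (⋃ st ∈ (dirs l (q 0)) ×ˢ (dirs l (q 1)), OQ q st.1 st.2 ε) := by
        have : volume ({p : Plane | 1 * p 0 + 0 * p 1 = q 0} ∪
            {p : Plane | 0 * p 0 + 1 * p 1 = q 1}) = 0 := by
          apply measure_union_null <;> apply vol_line <;> simp
        rw [this, add_zero]
    _ ≤ ∑ st ∈ (dirs l (q 0)) ×ˢ (dirs l (q 1)), volume (OQ q st.1 st.2 ε) :=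
        measure_biUnion_finset_le _ _
    _ = _ := by
        simp only [OQ_vol]
        rw [Finset.sum_const, Finset.card_product, nsmul_eq_mul]

/-- the explicit version of `exists_φ` -/
lemma φ_coords (j : Fin 3) : ∃ a b : Fin 3, a ≠ j ∧ b ≠ j ∧ a ≠ b ∧
    ∀ (c : ℝ) (x : Plane), φ j c x a = x 0 ∧ φ j c x b = x 1 := by
  fin_cases j
  · exact ⟨1, 2, by decide, by decide, by decide, fun c x => by simp [φ]⟩
  · exact ⟨0, 2, by decide, by decide, by decide, fun c x => by simp [φ]⟩
  · exact ⟨0, 1, by decide, by decide, by decide, fun c x => by simp [φ]⟩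

/-- near every point of the surface the area of small balls is at most that of a disc -/
lemma small_ball (l : ℝ) (z : Space) (hz : z ∈ cubeSurface l) :
    ∀ᶠ ε : ℝ in 𝓝[>] 0,
      μ3 (cubeSurface l ∩ Metric.closedBall z ε) ≤ 4 * volume (qd ε) := by
  classical
  -- the coordinates of `z` different from `0` or `l` stay so
  have ev : ∀ i : Fin 3, ∀ᶠ ε : ℝ in 𝓝[>] 0, (z i ≠ 0 → ε < |z i|) ∧ (z i ≠ l → ε < |z i - l|) := by
    intro i
    have h1 : ∀ᶠ ε : ℝ in 𝓝[>] 0, z i ≠ 0 → ε < |z i| := by
      by_cases h : z i = 0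
      · exact Eventually.of_forall fun _ hc => absurd h hc
      · filter_upwards [Ioo_mem_nhdsGT (abs_pos.mpr h)] with ε hε _ using hε.2
    have h2 : ∀ᶠ ε : ℝ in 𝓝[>] 0, z i ≠ l → ε < |z i - l| := by
      by_cases h : z i = l
      · exact Eventually.of_forall fun _ hc => absurd h hc
      · filter_upwards [Ioo_mem_nhdsGT (abs_pos.mpr (sub_ne_zero.mpr h))] with ε hε _ using hε.2
    exact h1.and h2
  have ev5 : ∀ᶠ ε : ℝ in 𝓝[>] 0, 0 < ε := self_mem_nhdsWithin
  filter_upwards [ev 0, ev 1, ev 2, ev5] with ε e0 e1 e2 hε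
  have e : ∀ i, (z i ≠ 0 → ε < |z i|) ∧ (z i ≠ l → ε < |z i - l|) := by
    intro i
    fin_cases i
    · exact e0
    · exact e1
    · exact e2
  have hcoord : ∀ p ∈ Metric.closedBall z ε, ∀ i, |p i - z i| ≤ ε := by
    intro p hp i
    rw [Metric.mem_closedBall] at hp
    have h1 := dist_sq3 p z
    have h2 : dist p z ^ 2 ≤ ε ^ 2 := pow_le_pow_left₀ dist_nonneg hp 2
    apply abs_le_of_sq_le_sq _ hε.le
    fin_cases i
    · change (p 0 - z 0) ^ 2 ≤ ε ^ 2
      nlinarith [sq_nonneg (p 1 - z 1), sq_nonneg (p 2 - z 2)]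
    · change (p 1 - z 1) ^ 2 ≤ ε ^ 2
      nlinarith [sq_nonneg (p 0 - z 0), sq_nonneg (p 2 - z 2)]
    · change (p 2 - z 2) ^ 2 ≤ ε ^ 2
      nlinarith [sq_nonneg (p 1 - z 1), sq_nonneg (p 0 - z 0)]
  -- boundary coordinates
  let B : Finset (Fin 3) := Finset.univ.filter fun i => z i = 0 ∨ z i = l
  -- parameters of `z` in the planes
  choose x hx a b haj hbj hab hxa hxb hsum using fun j => exists_φ j z
  have hsub : cubeSurface l ∩ Metric.closedBall z ε ⊆
      ⋃ j ∈ B, φ j (z j) '' (sq l ∩ Metric.closedBall (x j) ε) := by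
    rintro p ⟨⟨hp1, j, hj⟩, hpB⟩
    have hzj : p j = z j := by
      have h1 := hcoord p hpB j
      rcases hj with h | h
      · by_cases hc : z j = 0
        · rw [h, hc]
        · have := (e j).1 hc
          rw [h, zero_sub, abs_neg] at h1
          linarith
      · by_cases hc : z j = l
        · rw [h, hc]
        · have := (e j).2 hc
          rw [h, abs_sub_comm] at h1
          linarith
    have hjB : j ∈ B := by
      simp only [B, Finset.mem_filter, Finset.mem_univ, true_and]
      rw [← hzj]; exact hj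
    obtain ⟨q, hq, a', b', -, -, -, hqa, hqb, -⟩ := exists_φ j p
    rw [mem_iUnion₂]
    refine ⟨j, hjB, q, ⟨⟨?_, ?_⟩, ?_⟩, ?_⟩
    · rw [hqa]; exact hp1 a'
    · rw [hqb]; exact hp1 b'
    · rw [Metric.mem_closedBall, ← φ_dist j (z j), hx j, ← hzj, hq]
      exact hpB
    · rw [← hzj]; exact hq
  have hle : μ3 (cubeSurface l ∩ Metric.closedBall z ε) ≤
      ((∑ j ∈ B, (dirs l (x j 0)).card * (dirs l (x j 1)).card : ℕ) : ENNReal) *
        volume (qd ε) := by
    calc μ3 (cubeSurface l ∩ Metric.closedBall z ε) ≤ _ := measure_mono hsub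
      _ ≤ ∑ j ∈ B, μ3 (φ j (z j) '' (sq l ∩ Metric.closedBall (x j) ε)) :=
          measure_biUnion_finset_le _ _
      _ ≤ ∑ j ∈ B, (((dirs l (x j 0)).card * (dirs l (x j 1)).card : ℕ) : ENNReal) *
          volume (qd ε) := by
          apply Finset.sum_le_sum
          intro j _
          rw [area_image _ _ (fun x _ y _ => φ_dist _ _ x y)]
          exact ball_quads l ε hε (x j)
      _ = _ := by rw [← Finset.sum_mul, Nat.cast_sum]
  refine hle.trans ?_
  apply mul_le_mul_left
  have hB : B.Nonempty := by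
    obtain ⟨i, hi⟩ := hz.2
    exact ⟨i, by simp only [B, Finset.mem_filter, Finset.mem_univ, true_and]; exact hi⟩
  have hcard : ∀ i, (dirs l (z i)).card = if i ∈ B then 1 else 2 := by
    intro i
    unfold dirs
    by_cases h0 : z i = 0
    · have : i ∈ B := by simp [B, h0]
      rw [if_pos h0, if_pos this]; simp
    · by_cases h1 : z i = l
      · have : i ∈ B := by simp [B, h1]
        rw [if_neg h0, if_pos h1, if_pos this]; simp
      · have : i ∉ B := by simp [B, h0, h1]
        rw [if_neg h0, if_neg h1, if_neg this]; simp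
  have hfin : (∑ j ∈ B, (dirs l (x j 0)).card * (dirs l (x j 1)).card : ℕ) ≤ 4 := by
    have h1 : ∀ j ∈ B, (dirs l (x j 0)).card * (dirs l (x j 1)).card =
        (if a j ∈ B then 1 else 2) * (if b j ∈ B then 1 else 2) := by
      intro j _
      rw [hxa, hxb, hcard, hcard]
    rw [Finset.sum_congr rfl h1]
    clear_value B
    revert haj hbj hab
    clear hxa hxb hsum hx h1 hle hsub hcard
    intro haj hbj hab
    have key : ∀ (B : Finset (Fin 3)) (a b : Fin 3 → Fin 3), B.Nonempty →
        (∀ j, a j ≠ j) → (∀ j, b j ≠ j) → (∀ j, a j ≠ b j) →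
        (∑ j ∈ B, (if a j ∈ B then 1 else 2) * (if b j ∈ B then 1 else 2) : ℕ) ≤ 4 := by
      decide +kernel
    exact key B a b hB haj hbj hab
  exact_mod_cast hfin

/-- a piecewise isometric map of a polyomino of `6 l²` cells onto the surface of the cube of edge
`l` is one-to-one except for identifications of boundary points -/
theorem inj_of_surj {A : Finset (ℤ × ℤ)} {l : ℝ} (hl : 0 < l) {f : Plane → Space}
    (hsurj : f '' region A = cubeSurface l) (hcard : (A.card : ℝ) = 6 * l ^ 2)
    (hcr : CreasedOn f (region A)) :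
    ∀ x ∈ interior (region A), ∀ y ∈ region A, f x = f y → x = y := by
  classical
  intro x hx y hy hxy
  by_contra hne
  obtain ⟨C, hC, hU, hS⟩ := hcr
  obtain ⟨r, hr, hball⟩ := Metric.isOpen_iff.1 isOpen_interior x hx
  have hd : 0 < dist x y := dist_pos.mpr hne
  have hz : f x ∈ cubeSurface l := by
    rw [← hsurj]; exact ⟨x, interior_subset hx, rfl⟩
  have evC : ∀ w : Plane, ∀ᶠ ε : ℝ in 𝓝[>] 0, ∀ S ∈ C, w ∉ S → ∀ v ∈ S, ε < dist v w := by
    intro w
    rw [Filter.eventually_all_finite hC]
    intro S hSC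
    by_cases h : w ∈ S
    · exact Filter.Eventually.of_forall fun ε hc => absurd h hc
    · obtain ⟨δ, hδ, hb⟩ := Metric.isOpen_iff.1 (hS S hSC).2.1.isOpen_compl w h
      filter_upwards [Ioo_mem_nhdsGT hδ] with ε hε _ v hv
      by_contra hcon
      push Not at hcon
      have : v ∈ Metric.ball w δ := by
        rw [Metric.mem_ball]; linarith [hε.2]
      exact hb this hv
  have evI : ∀ δ : ℝ, 0 < δ → ∀ᶠ ε : ℝ in 𝓝[>] 0, ε ∈ Ioo 0 δ := fun δ hδ => Ioo_mem_nhdsGT hδ
  obtain ⟨ε, h1, h2, h3, h4, h5, h6, h7⟩ :=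
    ((small_ball l (f x) hz).and ((evC x).and ((evC y).and ((evI r hr).and
      ((evI _ (half_pos hd)).and ((evI _ (gap_pos (y 0))).and
      (evI _ (gap_pos (y 1))))))))).exists
  have hε : 0 < ε := h4.1
  set E1 := Metric.closedBall x ε with hE1
  set E2 := region A ∩ Metric.closedBall y ε with hE2
  have hE1R : E1 ⊆ region A := by
    refine Subset.trans ?_ interior_subset
    refine Subset.trans ?_ hball
    exact Metric.closedBall_subset_ball h4.2
  have hdisj : Disjoint E1 E2 := by
    rw [disjoint_left]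
    rintro p hp1 ⟨-, hp2⟩
    rw [hE1, Metric.mem_closedBall] at hp1
    rw [Metric.mem_closedBall] at hp2
    have := dist_triangle_left x y p
    linarith [h5.2]
  have hcovC : ∀ p ∈ region A, ∃ S ∈ C, p ∈ S := by
    intro p hp
    rw [← hU] at hp
    exact hp
  -- images are in the ball
  have him : ∀ w, w ∈ region A → (∀ S ∈ C, w ∉ S → ∀ v ∈ S, ε < dist v w) →
      ∀ p ∈ region A, dist p w ≤ ε → dist (f p) (f w) ≤ ε := by
    intro w _ hw p hp hpw
    obtain ⟨S, hSC, hpS⟩ := hcovC p hp
    have hwS : w ∈ S := by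
      by_contra hc
      have := hw S hSC hc p hpS
      linarith
    rw [(hS S hSC).2.2 p hpS w hwS]
    exact hpw
  have hxR := interior_subset hx
  have hsub : f '' E1 ∪ f '' E2 ⊆ cubeSurface l ∩ Metric.closedBall (f x) ε := by
    rintro _ (⟨p, hp, rfl⟩ | ⟨p, hp, rfl⟩)
    · refine ⟨?_, ?_⟩
      · rw [← hsurj]; exact ⟨p, hE1R hp, rfl⟩
      · rw [Metric.mem_closedBall]
        exact him x hxR h2 p (hE1R hp) hp
    · refine ⟨?_, ?_⟩
      · rw [← hsurj]; exact ⟨p, hp.1, rfl⟩
      · rw [Metric.mem_closedBall, hxy]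
        exact him y hy h3 p hp.1 hp.2
  -- area bookkeeping
  have hs : ∀ E ⊆ region A, μ3 (f '' E) ≤ volume E := by
    intro E hE
    apply area_le f hC.toFinset E
    · intro p hp
      obtain ⟨S, hSC, hpS⟩ := hcovC p (hE hp)
      rw [mem_iUnion₂]
      exact ⟨S, by simpa using hSC, hpS⟩
    · intro S hSC
      have := hS S (by simpa using hSC)
      exact this.2
  have hE1m : MeasurableSet E1 := Metric.isClosed_closedBall.measurableSet
  have hE2m : MeasurableSet E2 :=
    ((region_closed A).inter Metric.isClosed_closedBall).measurableSet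
  have htot : μ3 (cubeSurface l) = volume (region A) := by
    rw [surface_area l hl, vol_region, ← hcard, ENNReal.ofReal_natCast]
  have hfin : volume (region A) ≠ ⊤ := by rw [vol_region]; simp
  have hcompl : volume (region A) = volume (E1 ∪ E2) + volume (region A \ (E1 ∪ E2)) := by
    have h := measure_inter_add_sdiff (μ := (volume : Measure Plane)) (region A)
      (hE1m.union hE2m)
    rw [← h]
    congr 2
    rw [inter_eq_right]
    exact union_subset hE1R inter_subset_left
  have hge : volume (E1 ∪ E2) ≤ μ3 (f '' E1 ∪ f '' E2) := by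
    have h := calc volume (region A) = μ3 (cubeSurface l) := htot.symm
      _ = μ3 ((f '' E1 ∪ f '' E2) ∪ f '' (region A \ (E1 ∪ E2))) := by
          rw [← hsurj, ← image_union, ← image_union]
          congr 2
          rw [union_sdiff_self, union_eq_right.mpr]
          exact union_subset hE1R inter_subset_left
      _ ≤ μ3 (f '' E1 ∪ f '' E2) + μ3 (f '' (region A \ (E1 ∪ E2))) := measure_union_le _ _
      _ ≤ μ3 (f '' E1 ∪ f '' E2) + volume (region A \ (E1 ∪ E2)) := by
          gcongr
          exact hs _ sdiff_subset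
    rw [hcompl] at h
    have hfin2 : volume (region A \ (E1 ∪ E2)) ≠ ⊤ :=
      ne_top_of_le_ne_top hfin (measure_mono sdiff_subset)
    exact (ENNReal.add_le_add_iff_right hfin2).mp h
  rw [measure_union hdisj hE2m] at hge
  have hup : μ3 (f '' E1 ∪ f '' E2) ≤ 4 * volume (qd ε) := (measure_mono hsub).trans h1
  -- the ball has area `4 q`, the other set positive area
  have hb : 4 * volume (qd ε) ≤ volume E1 := by
    have hsub2 : (⋃ st ∈ (Finset.univ : Finset (Bool × Bool)), OQ x st.1 st.2 ε) ⊆ E1 := by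
      intro p hp
      obtain ⟨st, -, h⟩ := mem_iUnion₂.mp hp
      rw [hE1, mem_ball2 _ _ _ hε.le]
      exact h.2
    have h := measure_mono (μ := (volume : Measure Plane)) hsub2
    rw [measure_biUnion_finset] at h
    · simp only [OQ_vol] at h
      rw [Finset.sum_const, nsmul_eq_mul] at h
      have : (Finset.univ : Finset (Bool × Bool)).card = 4 := by decide
      rw [this] at h
      exact_mod_cast h
    · rintro ⟨s, t⟩ _ ⟨s', t'⟩ _ hne'
      change Disjoint (OQ x s t ε) (OQ x s' t' ε)
      rw [disjoint_left]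
      rintro p ⟨⟨a, b⟩, -⟩ ⟨⟨a', b'⟩, -⟩
      apply hne'
      have hs : s = s' := by
        cases s <;> cases s' <;> simp [sg] at a a' ⊢ <;> linarith
      have ht : t = t' := by
        cases t <;> cases t' <;> simp [sg] at b b' ⊢ <;> linarith
      rw [hs, ht]
    · intro st _
      exact OQ_meas _ _ _ _
  have hE2pos : 0 < volume E2 := by
    rw [hE2, local_area A y ε hε h6.2 h7.2]
    obtain ⟨c, hc, hyc⟩ := mem_iUnion₂.mp hy
    have hq : (quads A y).Nonempty := by
      obtain ⟨⟨a1, a2⟩, a3, a4⟩ := hyc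
      have hcl : ∀ (r : ℝ) (m : ℤ), (m : ℝ) ≤ r → r ≤ m + 1 → ∃ s, cl r s = m := by
        intro r m h1 h2
        rcases eq_or_lt_of_le h2 with h | h
        · refine ⟨false, ?_⟩
          simp only [cl, Bool.false_eq_true, if_false]
          rw [h]
          have : ⌈((m : ℝ) + 1)⌉ = m + 1 := by
            have : ((m : ℝ) + 1) = ((m + 1 : ℤ) : ℝ) := by push_cast; ring
            rw [this, Int.ceil_intCast]
          rw [this]; ring
        · refine ⟨true, ?_⟩
          simp only [cl, if_true]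
          rw [Int.floor_eq_iff]
          exact ⟨h1, h⟩
      obtain ⟨s, hs⟩ := hcl _ _ a1 a2
      obtain ⟨t, ht⟩ := hcl _ _ a3 a4
      refine ⟨(s, t), ?_⟩
      simp only [quads, Finset.mem_filter, Finset.mem_univ, true_and]
      rw [hs, ht]; exact hc
    have hqpos : 0 < volume (qd ε) := by
      have hsub : rect 0 (ε / 2) 0 (ε / 2) ⊆ qd ε := by
        rintro p ⟨⟨a, b⟩, c, d⟩
        refine ⟨⟨a.le, c.le⟩, ?_⟩
        nlinarith
      have hne : (rect 0 (ε / 2) 0 (ε / 2)).Nonempty :=
        ⟨!₂[ε / 4, ε / 4], by refine ⟨⟨?_, ?_⟩, ?_, ?_⟩ <;> simp <;> linarith⟩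
      have := (rect_open 0 (ε / 2) 0 (ε / 2)).measure_pos (volume : Measure Plane) hne
      exact lt_of_lt_of_le this (measure_mono hsub)
    have hcpos : 0 < (quads A y).card := Finset.card_pos.mpr hq
    exact ENNReal.mul_pos (by exact_mod_cast hcpos.ne') hqpos.ne'
  have hcontra : volume E1 + volume E2 ≤ volume E1 := hge.trans (hup.trans hb)
  have hE1fin : volume E1 ≠ ⊤ := ne_top_of_le_ne_top hfin (measure_mono hE1R)
  have : volume E2 ≤ 0 := by
    have h : volume E1 + volume E2 ≤ volume E1 + 0 := by rw [add_zero]; exact hcontra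
    exact (ENNReal.add_le_add_iff_left hE1fin).mp h
  exact absurd hE2pos (not_lt.mpr this)

end Pool.Agent.Q228.Rep
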