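import Pool.Agent.Q228.Rep.Faces

/-!
# Foldings of polyominoes to cubes: the region near a point
-/

set_option autoImplicit false

namespace Pool.Agent.Q228.Rep

open Pool.Agent.Helper697.Rep MeasureTheory Set Filter Topology

/-- the cell coordinate on the right (`true`) or left (`false`) of `r` -/
noncomputable def cl (r : ℝ) (s : Bool) : ℤ := if s then ⌊r⌋ else ⌈r⌉ - 1

noncomputable def gap (r : ℝ) : ℝ := min ((⌊r⌋ : ℝ) + 1 - r) (r - ((⌈r⌉ : ℝ) - 1))

lemma gap_pos (r : ℝ) : 0 < gap r := by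
  apply lt_min
  · have := Int.lt_floor_add_one r; linarith
  · have := Int.ceil_lt_add_one r; linarith

def sg (s : Bool) : ℝ := if s then 1 else -1

lemma sg_sq (s : Bool) : sg s * sg s = 1 := by cases s <;> simp [sg]

lemma cl_spec (r x : ℝ) (s : Bool) (h0 : 0 < sg s * (x - r)) (h : |x - r| < gap r) :
    (cl r s : ℝ) < x ∧ x < (cl r s : ℝ) + 1 := by
  have h1 := lt_min_iff.mp (lt_of_lt_of_le h le_rfl : |x - r| < min _ _)
  cases s
  · simp only [sg, cl, Bool.false_eq_true, if_false] at h0 ⊢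
    push_cast
    have h2 : x < r := by linarith
    rw [abs_of_neg (by linarith)] at h1
    have := Int.le_ceil r
    constructor <;> linarith [h1.2]
  · simp only [sg, cl, if_true] at h0 ⊢
    have h2 : r < x := by linarith
    rw [abs_of_pos (by linarith)] at h1
    have := Int.floor_le r
    constructor <;> linarith [h1.1]

/-- open quarter disc with corner `x` -/
def OQ (x : Plane) (s t : Bool) (ε : ℝ) : Set Plane :=
  {p | (0 < sg s * (p 0 - x 0) ∧ 0 < sg t * (p 1 - x 1)) ∧
    (p 0 - x 0) ^ 2 + (p 1 - x 1) ^ 2 ≤ ε ^ 2}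

lemma OQ_meas (x : Plane) (s t : Bool) (ε : ℝ) : MeasurableSet (OQ x s t ε) := by
  apply MeasurableSet.inter
  · apply IsOpen.measurableSet
    exact (isOpen_lt (g := fun p : Plane => sg s * (p 0 - x 0)) continuous_const
      (by fun_prop)).inter (isOpen_lt (g := fun p : Plane => sg t * (p 1 - x 1)) continuous_const
      (by fun_prop))
  · apply IsClosed.measurableSet
    exact isClosed_le (f := fun p : Plane => (p 0 - x 0) ^ 2 + (p 1 - x 1) ^ 2) (by fun_prop)
      continuous_const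

lemma qd_vol (ε : ℝ) : volume (qd ε) = volume (OQ 0 true true ε) := by
  apply le_antisymm
  · have hsub : qd ε ⊆ OQ 0 true true ε ∪ ({x : Plane | 1 * x 0 + 0 * x 1 = 0} ∪
        {x : Plane | 0 * x 0 + 1 * x 1 = 0}) := by
      rintro p ⟨⟨h0, h1⟩, h2⟩
      by_cases c0 : p 0 = 0
      · right; left; simp [c0]
      by_cases c1 : p 1 = 0
      · right; right; simp [c1]
      left
      have d0 := lt_of_le_of_ne h0 (Ne.symm c0)
      have d1 := lt_of_le_of_ne h1 (Ne.symm c1)
      refine ⟨⟨?_, ?_⟩, ?_⟩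
      · simpa [sg] using d0
      · simpa [sg] using d1
      · simpa using h2
    calc volume (qd ε) ≤ _ := measure_mono hsub
      _ ≤ volume (OQ 0 true true ε) + volume ({x : Plane | 1 * x 0 + 0 * x 1 = 0} ∪
        {x : Plane | 0 * x 0 + 1 * x 1 = 0}) := measure_union_le _ _
      _ = volume (OQ 0 true true ε) := by
        have : volume ({x : Plane | 1 * x 0 + 0 * x 1 = 0} ∪
            {x : Plane | 0 * x 0 + 1 * x 1 = 0}) = 0 := by
          apply measure_union_null <;> apply vol_line <;> simp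
        rw [this, add_zero]
  · apply measure_mono
    rintro p ⟨⟨h0, h1⟩, h2⟩
    refine ⟨⟨?_, ?_⟩, ?_⟩
    · simp [sg] at h0; exact h0.le
    · simp [sg] at h1; exact h1.le
    · simpa using h2

/-- the reflection and translation taking the standard quadrant to the given one -/
noncomputable def qm (x : Plane) (s t : Bool) (p : Plane) : Plane :=
  !₂[x 0 + sg s * p 0, x 1 + sg t * p 1]

lemma qm_dist (x : Plane) (s t : Bool) (p q : Plane) :
    dist (qm x s t p) (qm x s t q) = dist p q := by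
  have : dist (qm x s t p) (qm x s t q) ^ 2 = dist p q ^ 2 := by
    rw [dist_sq2, dist_sq2]
    simp only [qm]
    have h1 := sg_sq s
    have h2 := sg_sq t
    simp
    linear_combination (p 0 - q 0) ^ 2 * h1 + (p 1 - q 1) ^ 2 * h2
  exact (pow_left_inj₀ dist_nonneg dist_nonneg two_ne_zero).mp this

lemma OQ_eq (x : Plane) (s t : Bool) (ε : ℝ) : OQ x s t ε = qm x s t '' OQ 0 true true ε := by
  have h1 := sg_sq s
  have h2 := sg_sq t
  ext p
  constructor
  · rintro ⟨⟨a, b⟩, c⟩
    refine ⟨!₂[sg s * (p 0 - x 0), sg t * (p 1 - x 1)], ⟨⟨?_, ?_⟩, ?_⟩, ?_⟩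
    · simpa [sg] using a
    · simpa [sg] using b
    · simp
      calc (sg s * (p 0 - x 0)) ^ 2 + (sg t * (p 1 - x 1)) ^ 2 =
            (sg s * sg s) * (p 0 - x 0) ^ 2 + (sg t * sg t) * (p 1 - x 1) ^ 2 := by ring
        _ ≤ ε ^ 2 := by rw [h1, h2]; linarith
    · ext i
      fin_cases i
      · simp only [qm]
        simp
        linear_combination (p 0 - x 0) * h1
      · simp only [qm]
        simp
        linear_combination (p 1 - x 1) * h2
  · rintro ⟨q, ⟨⟨a, b⟩, c⟩, rfl⟩
    simp [sg] at a b c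
    have e0 : qm x s t q 0 = x 0 + sg s * q 0 := by simp [qm]
    have e1 : qm x s t q 1 = x 1 + sg t * q 1 := by simp [qm]
    refine ⟨⟨?_, ?_⟩, ?_⟩
    · rw [e0]
      have : sg s * (x 0 + sg s * q 0 - x 0) = q 0 := by linear_combination q 0 * h1
      rw [this]; exact a
    · rw [e1]
      have : sg t * (x 1 + sg t * q 1 - x 1) = q 1 := by linear_combination q 1 * h2
      rw [this]; exact b
    · rw [e0, e1]
      have : (x 0 + sg s * q 0 - x 0) ^ 2 + (x 1 + sg t * q 1 - x 1) ^ 2 = q 0 ^ 2 + q 1 ^ 2 := by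
        linear_combination q 0 ^ 2 * h1 + q 1 ^ 2 * h2
      rw [this]; exact c

lemma OQ_vol (x : Plane) (s t : Bool) (ε : ℝ) : volume (OQ x s t ε) = volume (qd ε) := by
  rw [OQ_eq, area_image2 _ _ (qm_dist x s t), qd_vol]

/-- the quadrants of `x` covered by the polyomino -/
noncomputable def quads (A : Finset (ℤ × ℤ)) (x : Plane) : Finset (Bool × Bool) :=
  Finset.univ.filter fun st => (cl (x 0) st.1, cl (x 1) st.2) ∈ A

lemma mem_ball2 (x p : Plane) (ε : ℝ) (hε : 0 ≤ ε) :
    p ∈ Metric.closedBall x ε ↔ (p 0 - x 0) ^ 2 + (p 1 - x 1) ^ 2 ≤ ε ^ 2 := by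
  rw [Metric.mem_closedBall, ← dist_sq2]
  exact (pow_le_pow_iff_left₀ dist_nonneg hε two_ne_zero).symm

/-- the local area of a polyomino -/
lemma local_area (A : Finset (ℤ × ℤ)) (x : Plane) (ε : ℝ) (hε : 0 < ε) (h0 : ε < gap (x 0))
    (h1 : ε < gap (x 1)) :
    volume (region A ∩ Metric.closedBall x ε) = (quads A x).card * volume (qd ε) := by
  have hcell : ∀ s t p, p ∈ OQ x s t ε → p ∈ oc (cl (x 0) s, cl (x 1) t) := by
    rintro s t p ⟨⟨a, b⟩, c⟩
    have e0 : |p 0 - x 0| < gap (x 0) := by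
      refine lt_of_le_of_lt ?_ h0
      exact abs_le_of_sq_le_sq (by nlinarith [sq_nonneg (p 1 - x 1)]) hε.le
    have e1 : |p 1 - x 1| < gap (x 1) := by
      refine lt_of_le_of_lt ?_ h1
      exact abs_le_of_sq_le_sq (by nlinarith [sq_nonneg (p 0 - x 0)]) hε.le
    exact ⟨cl_spec _ _ _ a e0, cl_spec _ _ _ b e1⟩
  have hcell2 : ∀ c d : ℤ × ℤ, ∀ p, p ∈ oc c → p ∈ square d → c = d := by
    rintro c d p ⟨⟨a1, a2⟩, a3, a4⟩ ⟨⟨b1, b2⟩, b3, b4⟩
    have i1 : (d.1 : ℝ) < c.1 + 1 := by linarith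
    have i2 : (c.1 : ℝ) < d.1 + 1 := by linarith
    have i3 : (d.2 : ℝ) < c.2 + 1 := by linarith
    have i4 : (c.2 : ℝ) < d.2 + 1 := by linarith
    have j1 : d.1 < c.1 + 1 := by exact_mod_cast i1
    have j2 : c.1 < d.1 + 1 := by exact_mod_cast i2
    have j3 : d.2 < c.2 + 1 := by exact_mod_cast i3
    have j4 : c.2 < d.2 + 1 := by exact_mod_cast i4
    ext <;> omega
  -- the union of the quarter discs
  have hunion : volume (⋃ st ∈ quads A x, OQ x st.1 st.2 ε) =
      (quads A x).card * volume (qd ε) := by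
    rw [measure_biUnion_finset]
    · simp [OQ_vol]
    · rintro ⟨s, t⟩ _ ⟨s', t'⟩ _ hne
      change Disjoint (OQ x s t ε) (OQ x s' t' ε)
      rw [disjoint_left]
      rintro p ⟨⟨a, b⟩, -⟩ ⟨⟨a', b'⟩, -⟩
      apply hne
      have hs : s = s' := by
        cases s <;> cases s' <;> simp [sg] at a a' ⊢ <;> linarith
      have ht : t = t' := by
        cases t <;> cases t' <;> simp [sg] at b b' ⊢ <;> linarith
      rw [hs, ht]
    · intro st _
      exact OQ_meas _ _ _ _
  rw [← hunion]
  apply le_antisymm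
  · have hsub : region A ∩ Metric.closedBall x ε ⊆ (⋃ st ∈ quads A x, OQ x st.1 st.2 ε) ∪
        ({p : Plane | 1 * p 0 + 0 * p 1 = x 0} ∪ {p : Plane | 0 * p 0 + 1 * p 1 = x 1}) := by
      rintro p ⟨hpR, hpB⟩
      rw [mem_ball2 _ _ _ hε.le] at hpB
      by_cases c0 : p 0 = x 0
      · right; left; simp [c0]
      by_cases c1 : p 1 = x 1
      · right; right; simp [c1]
      left
      obtain ⟨s, hs⟩ : ∃ s, 0 < sg s * (p 0 - x 0) := by
        rcases lt_or_gt_of_ne c0 with h | h
        · exact ⟨false, by simp [sg]; exact h⟩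
        · exact ⟨true, by simp [sg]; exact h⟩
      obtain ⟨t, ht⟩ : ∃ t, 0 < sg t * (p 1 - x 1) := by
        rcases lt_or_gt_of_ne c1 with h | h
        · exact ⟨false, by simp [sg]; exact h⟩
        · exact ⟨true, by simp [sg]; exact h⟩
      have hpO : p ∈ OQ x s t ε := ⟨⟨hs, ht⟩, hpB⟩
      obtain ⟨d, hd, hpd⟩ := mem_iUnion₂.mp hpR
      have := hcell2 _ d p (hcell s t p hpO) hpd
      rw [mem_iUnion₂]
      refine ⟨(s, t), ?_, hpO⟩
      simp only [quads, Finset.mem_filter, Finset.mem_univ, true_and]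
      rw [this]; exact hd
    calc volume (region A ∩ Metric.closedBall x ε) ≤ _ := measure_mono hsub
      _ ≤ _ + volume ({p : Plane | 1 * p 0 + 0 * p 1 = x 0} ∪
          {p : Plane | 0 * p 0 + 1 * p 1 = x 1}) := measure_union_le _ _
      _ = _ := by
        have : volume ({p : Plane | 1 * p 0 + 0 * p 1 = x 0} ∪
            {p : Plane | 0 * p 0 + 1 * p 1 = x 1}) = 0 := by
          apply measure_union_null <;> apply vol_line <;> simp
        rw [this, add_zero]
  · apply measure_mono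
    intro p hp
    obtain ⟨⟨s, t⟩, hst, hpO⟩ := mem_iUnion₂.mp hp
    simp only [quads, Finset.mem_filter, Finset.mem_univ, true_and] at hst
    refine ⟨square_sub_region hst (oc_sub _ (hcell s t p hpO)), ?_⟩
    rw [mem_ball2 _ _ _ hε.le]
    exact hpO.2

/-- away from lattice points the number of quadrants is even -/
lemma quads_even (A : Finset (ℤ × ℤ)) (x : Plane)
    (h : ¬ ((∃ a : ℤ, x 0 = a) ∧ ∃ b : ℤ, x 1 = b)) : Even (quads A x).card := by
  have hcl : ∀ r : ℝ, (¬ ∃ a : ℤ, r = a) → cl r true = cl r false := by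
    intro r hr
    simp only [cl, if_true, Bool.false_eq_true, if_false]
    have h1 : ⌈r⌉ = ⌊r⌋ + 1 := by
      rw [Int.ceil_eq_iff]
      have := Int.floor_le r
      have h2 := Int.lt_floor_add_one r
      push_cast
      refine ⟨?_, h2.le⟩
      have : (⌊r⌋ : ℝ) ≠ r := fun hc => hr ⟨⌊r⌋, hc.symm⟩
      have := lt_of_le_of_ne (Int.floor_le r) this
      linarith
    rw [h1]; ring
  have huniv : (Finset.univ : Finset (Bool × Bool)) =
      {(true, true), (true, false), (false, true), (false, false)} := by decide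
  by_cases h0 : ∃ a : ℤ, x 0 = a
  · have h1 : ¬ ∃ b : ℤ, x 1 = b := fun hb => h ⟨h0, hb⟩
    have e := hcl _ h1
    by_cases m1 : (cl (x 0) true, cl (x 1) false) ∈ A <;>
      by_cases m2 : (cl (x 0) false, cl (x 1) false) ∈ A <;>
      simp [quads, huniv, Finset.filter_insert, e, m1, m2, Finset.filter_singleton]
    · decide
  · have e := hcl _ h0
    by_cases m1 : (cl (x 0) false, cl (x 1) true) ∈ A <;>
      by_cases m2 : (cl (x 0) false, cl (x 1) false) ∈ A <;>
      simp [quads, huniv, Finset.filter_insert, e, m1, m2, Finset.filter_singleton]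
    · decide

end Pool.Agent.Q228.Rep
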