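import Pool.Agent.Q228.Rep.Glob

/-!
# Foldings of polyominoes to cubes: areas
-/

set_option autoImplicit false

namespace Pool.Agent.Q228.Rep

open Pool.Agent.Helper697.Rep MeasureTheory Set

/-- surface measure in space -/
noncomputable def μ3 : Measure Space := Measure.euclideanHausdorffMeasure 2

lemma μ2_eq : (Measure.euclideanHausdorffMeasure 2 : Measure Plane) = volume :=
  EuclideanSpace.euclideanHausdorffMeasure_eq_volume 2

/-- maps that are distance preserving on `E` preserve area on `E` -/
lemma area_image (g : Plane → Space) (E : Set Plane)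
    (hg : ∀ x ∈ E, ∀ y ∈ E, dist (g x) (g y) = dist x y) : μ3 (g '' E) = volume E := by
  have h1 : Isometry (fun x : E => g x) := Isometry.of_dist_eq fun x y => hg x x.2 y y.2
  have h2 := h1.euclideanHausdorffMeasure_image (d := 2) univ
  have h3 := (isometry_subtype_coe (s := E)).euclideanHausdorffMeasure_image (d := 2) univ
  have e1 : (fun x : E => g x) '' univ = g '' E := by
    ext z; simp
  have e2 : (Subtype.val : E → Plane) '' univ = E := by simp
  rw [e1] at h2
  rw [e2, μ2_eq] at h3
  rw [μ3, h2, ← h3]

/-- the same in the plane -/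
lemma area_image2 (g : Plane → Plane) (E : Set Plane)
    (hg : ∀ x y, dist (g x) (g y) = dist x y) : volume (g '' E) = volume E := by
  have h1 : Isometry g := Isometry.of_dist_eq hg
  have h2 := h1.euclideanHausdorffMeasure_image (d := 2) E
  rwa [μ2_eq] at h2

/-- area of the image under a folding -/
lemma area_fold (f : Plane → Space) (s : Finset (Set Plane)) :
    ∀ E : Set Plane, MeasurableSet E → ContinuousOn f E → InjOn f E → (E ⊆ ⋃ S ∈ s, S) →
      (∀ S ∈ s, IsClosed S ∧ ∀ x ∈ S, ∀ y ∈ S, dist (f x) (f y) = dist x y) →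
      μ3 (f '' E) = volume E := by
  classical
  induction s using Finset.induction_on with
  | empty =>
    intro E _ _ _ hE _
    have : E = ∅ := by
      apply subset_empty_iff.mp
      simpa using hE
    rw [this]; simp
  | insert S s hS ih =>
    intro E hEm hfc hfi hE hs
    obtain ⟨hSc, hSd⟩ := hs S (Finset.mem_insert_self _ _)
    have h1 : f '' E = f '' (E ∩ S) ∪ f '' (E \ S) := by
      rw [← image_union, inter_union_sdiff]
    have hm1 : MeasurableSet (E ∩ S) := hEm.inter hSc.measurableSet
    have hm2 : MeasurableSet (E \ S) := hEm.diff hSc.measurableSet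
    have hd : Disjoint (f '' (E ∩ S)) (f '' (E \ S)) := by
      rw [disjoint_left]
      rintro _ ⟨x, hx, rfl⟩ ⟨y, hy, hxy⟩
      have := hfi hy.1 hx.1 hxy
      rw [this] at hy
      exact hy.2 hx.2
    have hmi : MeasurableSet (f '' (E \ S)) :=
      hm2.image_of_continuousOn_injOn (hfc.mono sdiff_subset) (hfi.mono sdiff_subset)
    rw [h1, measure_union hd hmi]
    rw [area_image f (E ∩ S) (fun x hx y hy => hSd x hx.2 y hy.2)]
    rw [ih (E \ S) hm2 (hfc.mono sdiff_subset) (hfi.mono sdiff_subset) ?_
      (fun T hT => hs T (Finset.mem_insert_of_mem hT))]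
    · exact measure_inter_add_sdiff E hSc.measurableSet
    · intro x hx
      have := hE hx.1
      simp only [Finset.mem_insert, iUnion_iUnion_eq_or_left, mem_union] at this
      exact this.resolve_left hx.2

/-- null sets stay null -/
lemma null_fold (f : Plane → Space) (C : Set (Set Plane)) (hC : C.Finite) (N : Set Plane)
    (hN : N ⊆ ⋃₀ C) (hN0 : volume N = 0)
    (hs : ∀ S ∈ C, ∀ x ∈ S, ∀ y ∈ S, dist (f x) (f y) = dist x y) : μ3 (f '' N) = 0 := by
  have h1 : f '' N ⊆ ⋃ S ∈ C, f '' (N ∩ S) := by
    rintro _ ⟨x, hx, rfl⟩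
    obtain ⟨S, hS, hxS⟩ := hN hx
    rw [mem_iUnion₂]
    exact ⟨S, hS, x, ⟨hx, hxS⟩, rfl⟩
  apply measure_mono_null h1
  rw [measure_biUnion_null_iff hC.countable]
  intro S hS
  rw [area_image f (N ∩ S) (fun x hx y hy => hs S hS x hx.2 y hy.2)]
  exact measure_mono_null inter_subset_left hN0

lemma square_closed (c : ℤ × ℤ) : IsClosed (square c) :=
  ((isClosed_le continuous_const (coord_cont 0)).inter
    (isClosed_le (coord_cont 0) continuous_const)).inter
    ((isClosed_le continuous_const (coord_cont 1)).inter
    (isClosed_le (coord_cont 1) continuous_const))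

lemma region_closed (A : Finset (ℤ × ℤ)) : IsClosed (region A) :=
  Set.Finite.isClosed_biUnion (Finset.finite_toSet A) fun c _ => square_closed c

lemma region_bdry_null (A : Finset (ℤ × ℤ)) : volume (region A \ interior (region A)) = 0 := by
  have hsub : region A \ interior (region A) ⊆ ⋃ c ∈ A, (square c \ oc c) := by
    rintro x ⟨h1, h2⟩
    obtain ⟨c, hc, hxc⟩ := mem_iUnion₂.mp h1
    rw [mem_iUnion₂]
    refine ⟨c, hc, hxc, fun h => h2 ?_⟩
    exact interior_maximal ((oc_sub c).trans (square_sub_region hc)) (oc_open c) h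
  apply measure_mono_null hsub
  exact (measure_biUnion_null_iff (I := (A : Set (ℤ × ℤ))) (Finset.countable_toSet A)).mpr
    (fun c _ => square_diff_null c)

/-- foldings are measure preserving -/
lemma area_preserving {A : Finset (ℤ × ℤ)} {l : ℝ} {f : Plane → Space} (hf : Folds A l f)
    (B : Set Space) (hB : IsClosed B) :
    μ3 (cubeSurface l ∩ B) = volume (region A ∩ f ⁻¹' B) := by
  classical
  obtain ⟨C, hC, hU, hS⟩ := hf.creased
  have hcl : IsClosed (region A ∩ f ⁻¹' B) :=
    hf.cont.preimage_isClosed_of_isClosed (region_closed A) hB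
  set E := interior (region A) ∩ (region A ∩ f ⁻¹' B) with hE
  set N := (region A ∩ f ⁻¹' B) \ interior (region A) with hN
  have hEm : MeasurableSet E := isOpen_interior.measurableSet.inter hcl.measurableSet
  have hN0 : volume N = 0 := by
    apply measure_mono_null _ (region_bdry_null A)
    intro x hx
    exact ⟨hx.1.1, hx.2⟩
  have himg : cubeSurface l ∩ B = f '' E ∪ f '' N := by
    rw [← image_union]
    have : E ∪ N = region A ∩ f ⁻¹' B := by
      rw [hE, hN, inter_comm (interior (region A)), inter_union_sdiff]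
    rw [this, ← hf.surj, image_inter_preimage]
  have hμN : μ3 (f '' N) = 0 := by
    apply null_fold f C hC N _ hN0 (fun S hS' => (hS S hS').2.2)
    rw [hU]
    exact fun x hx => hx.1.1
  have hμE : μ3 (f '' E) = volume E := by
    apply area_fold f hC.toFinset E hEm
    · exact hf.cont.mono (fun x hx => hx.2.1)
    · exact hf.inj.mono inter_subset_left
    · intro x hx
      have hx' : x ∈ ⋃₀ C := by rw [hU]; exact hx.2.1
      obtain ⟨S, hSC, hxS⟩ := hx'
      rw [mem_iUnion₂]
      exact ⟨S, by simpa using hSC, hxS⟩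
    · intro S hSC
      have := hS S (by simpa using hSC)
      exact this.2
  have hvol : volume (region A ∩ f ⁻¹' B) = volume E := by
    have h1 := measure_inter_add_sdiff (μ := (volume : Measure Plane)) (region A ∩ f ⁻¹' B)
      (isOpen_interior (s := region A)).measurableSet
    rw [← h1, ← hN, hN0, add_zero, inter_comm]
  rw [hvol, himg]
  apply le_antisymm
  · calc μ3 (f '' E ∪ f '' N) ≤ μ3 (f '' E) + μ3 (f '' N) := measure_union_le _ _
      _ = volume E := by rw [hμN, hμE, add_zero]
  · rw [← hμE]
    exact measure_mono subset_union_left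

/-! ### Areas of rectangles -/

lemma vol_box (a b a' b' : ℝ) (hab : a ≤ b) (_ : a' ≤ b') :
    volume {p : Plane | (a ≤ p 0 ∧ p 0 ≤ b) ∧ (a' ≤ p 1 ∧ p 1 ≤ b')} =
      ENNReal.ofReal ((b - a) * (b' - a')) := by
  have h := (EuclideanSpace.volume_preserving_symm_measurableEquiv_toLp (Fin 2)).measure_preimage
    (s := Set.pi univ ![Icc a b, Icc a' b']) (by
      apply MeasurableSet.nullMeasurableSet
      apply MeasurableSet.univ_pi
      intro i
      fin_cases i
      · exact measurableSet_Icc
      · exact measurableSet_Icc)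
  rw [volume_pi, Measure.pi_pi, Fin.prod_univ_two] at h
  simp only [Matrix.cons_val_zero, Matrix.cons_val_one, Real.volume_Icc] at h
  rw [← ENNReal.ofReal_mul (by linarith)] at h
  rw [← h]
  congr 1
  ext p
  simp only [mem_ofPred_eq, mem_preimage, Set.mem_pi, mem_univ, true_implies]
  constructor
  · rintro ⟨h1, h2⟩ i
    fin_cases i
    · exact h1
    · exact h2
  · intro h
    exact ⟨h 0, h 1⟩

lemma vol_square (c : ℤ × ℤ) : volume (square c) = 1 := by
  have := vol_box c.1 (c.1 + 1) c.2 (c.2 + 1) (by linarith) (by linarith)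
  simp only [add_sub_cancel_left, mul_one, ENNReal.ofReal_one] at this
  exact this

lemma vol_region (A : Finset (ℤ × ℤ)) : volume (region A) = A.card := by
  have h : volume (⋃ c ∈ A, square c) = ∑ c ∈ A, volume (square c) := by
    apply measure_biUnion_finset₀
    · intro c _ d _ hcd
      have hsub : square c ∩ square d ⊆ (square c \ oc c) := by
        rintro x ⟨h1, h2⟩
        refine ⟨h1, fun h => hcd ?_⟩
        obtain ⟨⟨a1, a2⟩, a3, a4⟩ := h
        obtain ⟨⟨b1, b2⟩, b3, b4⟩ := h2
        have i1 : (d.1 : ℝ) < c.1 + 1 := by linarith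
        have i2 : (c.1 : ℝ) < d.1 + 1 := by linarith
        have i3 : (d.2 : ℝ) < c.2 + 1 := by linarith
        have i4 : (c.2 : ℝ) < d.2 + 1 := by linarith
        have j1 : d.1 < c.1 + 1 := by exact_mod_cast i1
        have j2 : c.1 < d.1 + 1 := by exact_mod_cast i2
        have j3 : d.2 < c.2 + 1 := by exact_mod_cast i3
        have j4 : c.2 < d.2 + 1 := by exact_mod_cast i4
        ext
        · omega
        · omega
      exact measure_mono_null hsub (square_diff_null c)
    · intro c _
      exact (square_closed c).measurableSet.nullMeasurableSet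
  unfold region
  rw [h]
  simp [vol_square]

end Pool.Agent.Q228.Rep
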