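import Pool.Agent.Helper697.RepDefs

/-!
# Nets of cubes, edge nets, rep-cubes: the definitions
-/

set_option autoImplicit false

namespace Pool.Agent.Q228.Rep

open Pool.Agent.Helper697.Rep

/-- `A` is a net of the cube of edge `l`: there is a continuous map of its region onto the surface
of the cube, distance preserving on each of finitely many closed convex pieces that cover the
region, and one-to-one up to identifications of boundary points. -/
def IsNet (A : Finset (ℤ × ℤ)) (l : ℝ) : Prop :=
  0 < l ∧ ∃ f : Plane → Space, ContinuousOn f (region A) ∧ f '' region A = cubeSurface l ∧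
    (∀ x ∈ interior (region A), ∀ y ∈ region A, f x = f y → x = y) ∧ CreasedOn f (region A)

/-- The grid squares outside `P` are connected through shared edges. For a polyomino `P` this says
that its boundary is one simple closed curve (no holes, no pinch points). -/
def NoHoles (P : Finset (ℤ × ℤ)) : Prop :=
  ∀ c, c ∉ P → ∀ d, d ∉ P → Relation.ReflTransGen (fun a b => a ∉ P ∧ b ∉ P ∧ EdgeAdj a b) c d

/-- The eight symmetries of the square lattice that fix the origin; `0, 1, 2, 3` are the
rotations. -/
def sym (g : Fin 8) (c : ℤ × ℤ) : ℤ × ℤ :=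
  match g with
  | 0 => (c.1, c.2)
  | 1 => (-c.2, c.1)
  | 2 => (-c.1, -c.2)
  | 3 => (c.2, -c.1)
  | 4 => (-c.1, c.2)
  | 5 => (c.2, c.1)
  | 6 => (c.1, -c.2)
  | 7 => (-c.2, -c.1)

/-- `B` is congruent to `A` (reflections allowed). -/
def Congruent (A B : Finset (ℤ × ℤ)) : Prop :=
  ∃ g : Fin 8, ∃ v : ℤ × ℤ, B = A.image fun c => sym g c + v

/-- `B` arises from `A` by a rotation and a translation. -/
def RotCongruent (A B : Finset (ℤ × ℤ)) : Prop :=
  ∃ g : Fin 8, g < 4 ∧ ∃ v : ℤ × ℤ, B = A.image fun c => sym g c + v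

/-- A position of a unit cube on a grid square: the outward normal of the bottom face, the
direction of the cube pointing to the right, the direction pointing up in the plane. -/
abbrev Pos : Type := (ℤ × ℤ × ℤ) × (ℤ × ℤ × ℤ) × (ℤ × ℤ × ℤ)

/-- the position after rolling over the right edge -/
def tipR (p : Pos) : Pos := (p.2.1, -p.1, p.2.2)

/-- the position after rolling over the upper edge -/
def tipU (p : Pos) : Pos := (p.2.2, p.2.1, -p.1)

/-- the start position -/
def pos0 : Pos := ((0, 0, -1), (1, 0, 0), (0, 1, 0))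

/-- `A` is an edge net of the unit cube: a hexomino such that the cube, put on one of its squares
in the start position, can be rolled over all squares consistently (the position on a square is the
one obtained by rolling from any neighbouring square of `A`), each face being at the bottom
exactly once. -/
def IsEdgeNet (A : Finset (ℤ × ℤ)) : Prop :=
  IsPolyomino A ∧ A.card = 6 ∧ ∃ F : ℤ × ℤ → Pos, (∃ c ∈ A, F c = pos0) ∧
    (∀ c, c ∈ A → (c.1 + 1, c.2) ∈ A → F (c.1 + 1, c.2) = tipR (F c)) ∧
    (∀ c, c ∈ A → (c.1, c.2 + 1) ∈ A → F (c.1, c.2 + 1) = tipU (F c)) ∧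
    ∀ c ∈ A, ∀ d ∈ A, (F c).1 = (F d).1 → c = d

/-- `P` is a rep-cube of order `k` with the set of pieces `Q`. -/
def RepCube (k : ℕ) (P : Finset (ℤ × ℤ)) (Q : Finset (Finset (ℤ × ℤ))) : Prop :=
  IsPolyomino P ∧ P.card = 6 * k ∧ IsNet P √(k : ℝ) ∧ Q.card = k ∧
    (∀ A ∈ Q, IsPolyomino A ∧ IsNet A 1) ∧
    (∀ A ∈ Q, ∀ B ∈ Q, A ≠ B → Disjoint A B) ∧ Q.biUnion id = P

end Pool.Agent.Q228.Rep
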