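import Pool.Agent.Q228.Rep.Inj

/-!
# Twisted foldings: rolling a cube of edge `√(a² + b²)` on the plane
-/

set_option autoImplicit false

namespace Pool.Agent.Q228.Rep

open Pool.Agent.Helper697.Rep

/-- integer vectors of space -/
abbrev Z3 : Type := ℤ × ℤ × ℤ

/-- a position of the rolling cube: the cube stands on the lattice square `(i, j)`; its bottom
face has the corner `O` and the edge vectors `U`, `V`, the third edge vector is `W` (all in the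
coordinates of the unit cube) -/
structure St where
  i : ℤ
  j : ℤ
  O : Z3
  U : Z3
  V : Z3
  W : Z3
deriving DecidableEq

/-- one coordinate of a frame: `O ∈ {0, 1}` and exactly one of the vectors has the coordinate
`1 - 2 O`, the other ones `0` -/
def VC (o u v w : ℤ) : Prop :=
  (o = 0 ∨ o = 1) ∧ ((u = 1 - 2 * o ∧ v = 0 ∧ w = 0) ∨ (u = 0 ∧ v = 1 - 2 * o ∧ w = 0) ∨
    (u = 0 ∧ v = 0 ∧ w = 1 - 2 * o))

instance (o u v w : ℤ) : Decidable (VC o u v w) := by unfold VC; infer_instance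

/-- valid frames -/
def Valid (T : St) : Prop :=
  (VC T.O.1 T.U.1 T.V.1 T.W.1 ∧ VC T.O.2.1 T.U.2.1 T.V.2.1 T.W.2.1 ∧
    VC T.O.2.2 T.U.2.2 T.V.2.2 T.W.2.2) ∧
  T.U.1 * T.U.1 + T.U.2.1 * T.U.2.1 + T.U.2.2 * T.U.2.2 = 1 ∧
  T.V.1 * T.V.1 + T.V.2.1 * T.V.2.1 + T.V.2.2 * T.V.2.2 = 1 ∧
  T.W.1 * T.W.1 + T.W.2.1 * T.W.2.1 + T.W.2.2 * T.W.2.2 = 1

instance (T : St) : Decidable (Valid T) := by unfold Valid; infer_instance

/-- rolling across the four sides -/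
def rollR (T : St) : St := ⟨T.i + 1, T.j, T.O + T.U, T.W, T.V, -T.U⟩
def rollL (T : St) : St := ⟨T.i - 1, T.j, T.O + T.W, -T.W, T.V, T.U⟩
def rollU (T : St) : St := ⟨T.i, T.j + 1, T.O + T.V, T.U, T.W, -T.V⟩
def rollD (T : St) : St := ⟨T.i, T.j - 1, T.O + T.W, T.U, -T.W, T.V⟩

lemma VC.addU {o u v w : ℤ} (h : VC o u v w) : VC (o + u) w v (-u) := by
  unfold VC at *; omega

lemma VC.addWU {o u v w : ℤ} (h : VC o u v w) : VC (o + w) (-w) v u := by
  unfold VC at *; omega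

lemma VC.addV {o u v w : ℤ} (h : VC o u v w) : VC (o + v) u w (-v) := by
  unfold VC at *; omega

lemma VC.addWV {o u v w : ℤ} (h : VC o u v w) : VC (o + w) u (-w) v := by
  unfold VC at *; omega

lemma valid_rollR {T : St} (h : Valid T) : Valid (rollR T) := by
  obtain ⟨⟨h1, h2, h3⟩, h4, h5, h6⟩ := h
  refine ⟨⟨h1.addU, h2.addU, h3.addU⟩, h6, h5, ?_⟩
  simp only [rollR, Prod.fst_neg, Prod.snd_neg]
  linarith

lemma valid_rollL {T : St} (h : Valid T) : Valid (rollL T) := by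
  obtain ⟨⟨h1, h2, h3⟩, h4, h5, h6⟩ := h
  refine ⟨⟨h1.addWU, h2.addWU, h3.addWU⟩, ?_, h5, h4⟩
  simp only [rollL, Prod.fst_neg, Prod.snd_neg]
  linarith

lemma valid_rollU {T : St} (h : Valid T) : Valid (rollU T) := by
  obtain ⟨⟨h1, h2, h3⟩, h4, h5, h6⟩ := h
  refine ⟨⟨h1.addV, h2.addV, h3.addV⟩, h4, h6, ?_⟩
  simp only [rollU, Prod.fst_neg, Prod.snd_neg]
  linarith

lemma valid_rollD {T : St} (h : Valid T) : Valid (rollD T) := by
  obtain ⟨⟨h1, h2, h3⟩, h4, h5, h6⟩ := h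
  refine ⟨⟨h1.addWV, h2.addWV, h3.addWV⟩, h4, ?_, h5⟩
  simp only [rollD, Prod.fst_neg, Prod.snd_neg]
  linarith

/-- the parameters of the lattice -/
structure Par where
  a : ℤ
  b : ℤ
  pos : 0 < a * a + b * b

/-- `a² + b²` -/
def Par.N (π : Par) : ℤ := π.a * π.a + π.b * π.b

lemma Par.Npos (π : Par) : (0 : ℝ) < π.N := by
  have := π.pos
  unfold Par.N
  exact_mod_cast this

/-- coordinates relative to the lattice square of `T`, scaled by `√N` -/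
noncomputable def cS (π : Par) (T : St) (p : Plane) : ℝ := π.a * p 0 + π.b * p 1 - π.N * T.i
noncomputable def cT (π : Par) (T : St) (p : Plane) : ℝ := -π.b * p 0 + π.a * p 1 - π.N * T.j

/-- the lattice square of `T` -/
def Lam (π : Par) (T : St) : Set Plane :=
  {p | (0 ≤ cS π T p ∧ cS π T p ≤ π.N) ∧ (0 ≤ cT π T p ∧ cT π T p ≤ π.N)}

/-- clamping and overshooting -/
noncomputable def cl' (n r : ℝ) : ℝ := max 0 (min n r)
noncomputable def ou (n r : ℝ) : ℝ := max 0 (r - n) + max 0 (-r)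

/-- one coordinate of the rolling map, without the factor `1 / √N` -/
noncomputable def gm (n S T : ℝ) (o u v w : ℤ) : ℝ :=
  n * o + cl' n S * u + cl' n T * v + (ou n S + ou n T) * w

/-- the affine map of a lattice square -/
noncomputable def gm0 (n S T : ℝ) (o u v : ℤ) : ℝ := n * o + S * u + T * v

/-- the rolling map around `T` -/
noncomputable def Fm (π : Par) (T : St) (p : Plane) : Space :=
  !₂[(√(π.N : ℝ))⁻¹ * gm π.N (cS π T p) (cT π T p) T.O.1 T.U.1 T.V.1 T.W.1,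
    (√(π.N : ℝ))⁻¹ * gm π.N (cS π T p) (cT π T p) T.O.2.1 T.U.2.1 T.V.2.1 T.W.2.1,
    (√(π.N : ℝ))⁻¹ * gm π.N (cS π T p) (cT π T p) T.O.2.2 T.U.2.2 T.V.2.2 T.W.2.2]

noncomputable def Fm0 (π : Par) (T : St) (p : Plane) : Space :=
  !₂[(√(π.N : ℝ))⁻¹ * gm0 π.N (cS π T p) (cT π T p) T.O.1 T.U.1 T.V.1,
    (√(π.N : ℝ))⁻¹ * gm0 π.N (cS π T p) (cT π T p) T.O.2.1 T.U.2.1 T.V.2.1,
    (√(π.N : ℝ))⁻¹ * gm0 π.N (cS π T p) (cT π T p) T.O.2.2 T.U.2.2 T.V.2.2]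

lemma cl'_in {n r : ℝ} (h0 : 0 ≤ r) (h1 : r ≤ n) : cl' n r = r := by
  rw [cl', min_eq_right h1, max_eq_right h0]

lemma ou_in {n r : ℝ} (h0 : 0 ≤ r) (h1 : r ≤ n) : ou n r = 0 := by
  rw [ou, max_eq_left (by linarith), max_eq_left (by linarith), add_zero]

lemma cl'_hi {n r : ℝ} (hn : 0 ≤ n) (h : n ≤ r) : cl' n r = n := by
  rw [cl', min_eq_left h, max_eq_right hn]

lemma ou_hi {n r : ℝ} (hn : 0 ≤ n) (h : n ≤ r) : ou n r = r - n := by
  rw [ou, max_eq_right (by linarith), max_eq_left (by linarith), add_zero]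

lemma cl'_lo {n r : ℝ} (hn : 0 ≤ n) (h : r ≤ 0) : cl' n r = 0 := by
  rw [cl', min_eq_right (by linarith), max_eq_left h]

lemma ou_lo {n r : ℝ} (hn : 0 ≤ n) (h : r ≤ 0) : ou n r = -r := by
  rw [ou, max_eq_left (by linarith), max_eq_right (by linarith), zero_add]

lemma Fm_eq_Fm0 (π : Par) (T : St) (p : Plane) (hp : p ∈ Lam π T) : Fm π T p = Fm0 π T p := by
  obtain ⟨⟨h1, h2⟩, h3, h4⟩ := hp
  unfold Fm Fm0 gm gm0
  rw [cl'_in h1 h2, cl'_in h3 h4, ou_in h1 h2, ou_in h3 h4]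
  simp only [add_zero, zero_mul]

lemma cl'_shift {n r : ℝ} (hn : 0 ≤ n) (h0 : 0 ≤ r) (h1 : r ≤ 2 * n) :
    cl' n (r - n) = ou n r ∧ ou n (r - n) = n - cl' n r := by
  rcases le_total r n with h | h
  · have e1 := cl'_lo (n := n) (r := r - n) hn (by linarith)
    have e2 := ou_lo (n := n) (r := r - n) hn (by linarith)
    rw [e1, e2, cl'_in h0 h, ou_in h0 h]
    exact ⟨rfl, by ring⟩
  · have e1 := cl'_in (n := n) (r := r - n) (by linarith) (by linarith)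
    have e2 := ou_in (n := n) (r := r - n) (by linarith) (by linarith)
    rw [e1, e2, cl'_hi hn h, ou_hi hn h]
    exact ⟨rfl, by ring⟩

lemma cl'_shift' {n r : ℝ} (hn : 0 ≤ n) (h0 : -n ≤ r) (h1 : r ≤ n) :
    cl' n (r + n) = n - ou n r ∧ ou n (r + n) = cl' n r := by
  rcases le_total r 0 with h | h
  · have e1 := cl'_in (n := n) (r := r + n) (by linarith) (by linarith)
    have e2 := ou_in (n := n) (r := r + n) (by linarith) (by linarith)
    rw [e1, e2, cl'_lo hn h, ou_lo hn h]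
    exact ⟨by ring, rfl⟩
  · have e1 := cl'_hi (n := n) (r := r + n) hn (by linarith)
    have e2 := ou_hi (n := n) (r := r + n) hn (by linarith)
    rw [e1, e2, cl'_in h h1, ou_in h h1]
    exact ⟨by ring, by ring⟩

lemma gm_R {n S T : ℝ} (hn : 0 ≤ n) (h0 : 0 ≤ S) (h1 : S ≤ 2 * n) (h2 : 0 ≤ T) (h3 : T ≤ n)
    (o u v w : ℤ) : gm n (S - n) T (o + u) w v (-u) = gm n S T o u v w := by
  obtain ⟨e1, e2⟩ := cl'_shift hn h0 h1
  unfold gm
  rw [e1, e2, ou_in h2 h3]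
  push_cast
  ring

lemma gm_L {n S T : ℝ} (hn : 0 ≤ n) (h0 : -n ≤ S) (h1 : S ≤ n) (h2 : 0 ≤ T) (h3 : T ≤ n)
    (o u v w : ℤ) : gm n (S + n) T (o + w) (-w) v u = gm n S T o u v w := by
  obtain ⟨e1, e2⟩ := cl'_shift' hn h0 h1
  unfold gm
  rw [e1, e2, ou_in h2 h3]
  push_cast
  ring

lemma gm_U {n S T : ℝ} (hn : 0 ≤ n) (h0 : 0 ≤ S) (h1 : S ≤ n) (h2 : 0 ≤ T) (h3 : T ≤ 2 * n)
    (o u v w : ℤ) : gm n S (T - n) (o + v) u w (-v) = gm n S T o u v w := by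
  obtain ⟨e1, e2⟩ := cl'_shift hn h2 h3
  unfold gm
  rw [e1, e2, ou_in h0 h1]
  push_cast
  ring

lemma gm_D {n S T : ℝ} (hn : 0 ≤ n) (h0 : 0 ≤ S) (h1 : S ≤ n) (h2 : -n ≤ T) (h3 : T ≤ n)
    (o u v w : ℤ) : gm n S (T + n) (o + w) u (-w) v = gm n S T o u v w := by
  obtain ⟨e1, e2⟩ := cl'_shift' hn h2 h3
  unfold gm
  rw [e1, e2, ou_in h0 h1]
  push_cast
  ring

/-- the four neighbours -/
def roll (D : Fin 4) (T : St) : St :=
  match D with
  | 0 => rollR T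
  | 1 => rollU T
  | 2 => rollL T
  | 3 => rollD T

lemma valid_roll {T : St} (D : Fin 4) (h : Valid T) : Valid (roll D T) := by
  fin_cases D
  · exact valid_rollR h
  · exact valid_rollU h
  · exact valid_rollL h
  · exact valid_rollD h

/-- the bounds of the union of two neighbouring lattice squares, in units of `N` -/
def lo1 (D : Fin 4) : ℤ := if D = 2 then -1 else 0
def hi1 (D : Fin 4) : ℤ := if D = 0 then 2 else 1
def lo2 (D : Fin 4) : ℤ := if D = 3 then -1 else 0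
def hi2 (D : Fin 4) : ℤ := if D = 1 then 2 else 1

def Strip (π : Par) (D : Fin 4) (T : St) : Set Plane :=
  {p | ((lo1 D : ℝ) * π.N ≤ cS π T p ∧ cS π T p ≤ hi1 D * π.N) ∧
    ((lo2 D : ℝ) * π.N ≤ cT π T p ∧ cT π T p ≤ hi2 D * π.N)}

lemma roll_eq (π : Par) (D : Fin 4) (T : St) (p : Plane) (hp : p ∈ Strip π D T) :
    Fm π (roll D T) p = Fm π T p := by
  have hn : (0 : ℝ) ≤ π.N := π.Npos.le
  obtain ⟨⟨h1, h2⟩, h3, h4⟩ := hp
  fin_cases D
  · simp [lo1, hi1, lo2, hi2] at h1 h2 h3 h4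
    have e1 : cS π (rollR T) p = cS π T p - π.N := by simp [cS, rollR]; ring
    have e2 : cT π (rollR T) p = cT π T p := by simp [cT, rollR]
    change Fm π (rollR T) p = _
    unfold Fm
    rw [e1, e2]
    simp only [rollR, Prod.fst_add, Prod.snd_add, Prod.fst_neg, Prod.snd_neg]
    rw [gm_R hn h1 h2 h3 h4, gm_R hn h1 h2 h3 h4, gm_R hn h1 h2 h3 h4]
  · simp [lo1, hi1, lo2, hi2] at h1 h2 h3 h4
    have e1 : cS π (rollU T) p = cS π T p := by simp [cS, rollU]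
    have e2 : cT π (rollU T) p = cT π T p - π.N := by simp [cT, rollU]; ring
    change Fm π (rollU T) p = _
    unfold Fm
    rw [e1, e2]
    simp only [rollU, Prod.fst_add, Prod.snd_add, Prod.fst_neg, Prod.snd_neg]
    rw [gm_U hn h1 h2 h3 h4, gm_U hn h1 h2 h3 h4, gm_U hn h1 h2 h3 h4]
  · simp [lo1, hi1, lo2, hi2] at h1 h2 h3 h4
    have e1 : cS π (rollL T) p = cS π T p + π.N := by simp [cS, rollL]; ring
    have e2 : cT π (rollL T) p = cT π T p := by simp [cT, rollL]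
    change Fm π (rollL T) p = _
    unfold Fm
    rw [e1, e2]
    simp only [rollL, Prod.fst_add, Prod.snd_add, Prod.fst_neg, Prod.snd_neg]
    rw [gm_L hn (by linarith) h2 h3 h4, gm_L hn (by linarith) h2 h3 h4,
      gm_L hn (by linarith) h2 h3 h4]
  · simp [lo1, hi1, lo2, hi2] at h1 h2 h3 h4
    have e1 : cS π (rollD T) p = cS π T p := by simp [cS, rollD]
    have e2 : cT π (rollD T) p = cT π T p + π.N := by simp [cT, rollD]; ring
    change Fm π (rollD T) p = _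
    unfold Fm
    rw [e1, e2]
    simp only [rollD, Prod.fst_add, Prod.snd_add, Prod.fst_neg, Prod.snd_neg]
    rw [gm_D hn h1 h2 (by linarith) h4, gm_D hn h1 h2 (by linarith) h4,
      gm_D hn h1 h2 (by linarith) h4]

/-- the lattice squares are contained in the strips -/
lemma lam_roll_sub (π : Par) (D : Fin 4) (T : St) : Lam π (roll D T) ⊆ Strip π D T := by
  have hn : (0 : ℝ) ≤ π.N := π.Npos.le
  rintro p ⟨⟨h1, h2⟩, h3, h4⟩
  fin_cases D
  · change 0 ≤ cS π (rollR T) p at h1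
    change cS π (rollR T) p ≤ _ at h2
    change 0 ≤ cT π (rollR T) p at h3
    change cT π (rollR T) p ≤ _ at h4
    have e1 : cS π (rollR T) p = cS π T p - π.N := by simp [cS, rollR]; ring
    have e2 : cT π (rollR T) p = cT π T p := by simp [cT, rollR]
    rw [e1] at h1 h2; rw [e2] at h3 h4
    refine ⟨⟨?_, ?_⟩, ?_, ?_⟩ <;> simp [lo1, hi1, lo2, hi2] <;> linarith
  · change 0 ≤ cS π (rollU T) p at h1
    change cS π (rollU T) p ≤ _ at h2
    change 0 ≤ cT π (rollU T) p at h3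
    change cT π (rollU T) p ≤ _ at h4
    have e1 : cS π (rollU T) p = cS π T p := by simp [cS, rollU]
    have e2 : cT π (rollU T) p = cT π T p - π.N := by simp [cT, rollU]; ring
    rw [e1] at h1 h2; rw [e2] at h3 h4
    refine ⟨⟨?_, ?_⟩, ?_, ?_⟩ <;> simp [lo1, hi1, lo2, hi2] <;> linarith
  · change 0 ≤ cS π (rollL T) p at h1
    change cS π (rollL T) p ≤ _ at h2
    change 0 ≤ cT π (rollL T) p at h3
    change cT π (rollL T) p ≤ _ at h4
    have e1 : cS π (rollL T) p = cS π T p + π.N := by simp [cS, rollL]; ring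
    have e2 : cT π (rollL T) p = cT π T p := by simp [cT, rollL]
    rw [e1] at h1 h2; rw [e2] at h3 h4
    refine ⟨⟨?_, ?_⟩, ?_, ?_⟩ <;> simp [lo1, hi1, lo2, hi2] <;> linarith
  · change 0 ≤ cS π (rollD T) p at h1
    change cS π (rollD T) p ≤ _ at h2
    change 0 ≤ cT π (rollD T) p at h3
    change cT π (rollD T) p ≤ _ at h4
    have e1 : cS π (rollD T) p = cS π T p := by simp [cS, rollD]
    have e2 : cT π (rollD T) p = cT π T p + π.N := by simp [cT, rollD]; ring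
    rw [e1] at h1 h2; rw [e2] at h3 h4
    refine ⟨⟨?_, ?_⟩, ?_, ?_⟩ <;> simp [lo1, hi1, lo2, hi2] <;> linarith

/-- the affine maps are isometric -/
lemma Fm0_dist (π : Par) (T : St) (hT : Valid T) (p q : Plane) :
    dist (Fm0 π T p) (Fm0 π T q) = dist p q := by
  obtain ⟨⟨h1, h2, h3⟩, h4, h5, h6⟩ := hT
  have hn := π.Npos
  have key : dist (Fm0 π T p) (Fm0 π T q) ^ 2 = dist p q ^ 2 := by
    rw [dist_sq2, dist_sq3]
    simp only [Fm0, gm0]
    simp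
    have hs : (√(π.N : ℝ))⁻¹ * (√(π.N : ℝ))⁻¹ = (π.N : ℝ)⁻¹ := by
      rw [← mul_inv, Real.mul_self_sqrt hn.le]
    set x := cS π T p - cS π T q with hx
    set y := cT π T p - cT π T q with hy
    have huv : (T.U.1 : ℝ) * T.V.1 = 0 ∧ (T.U.2.1 : ℝ) * T.V.2.1 = 0 ∧
        (T.U.2.2 : ℝ) * T.V.2.2 = 0 := by
      have aux : ∀ o u v w : ℤ, VC o u v w → (u : ℝ) * v = 0 := by
        rintro o u v w ⟨-, ⟨-, h, -⟩ | ⟨h, -, -⟩ | ⟨h, -, -⟩⟩ <;> rw [h] <;> simp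
      exact ⟨aux _ _ _ _ h1, aux _ _ _ _ h2, aux _ _ _ _ h3⟩
    have h4' : (T.U.1 : ℝ) * T.U.1 + T.U.2.1 * T.U.2.1 + T.U.2.2 * T.U.2.2 = 1 := by
      exact_mod_cast h4
    have h5' : (T.V.1 : ℝ) * T.V.1 + T.V.2.1 * T.V.2.1 + T.V.2.2 * T.V.2.2 = 1 := by
      exact_mod_cast h5
    have hxy : x ^ 2 + y ^ 2 = π.N * ((p 0 - q 0) ^ 2 + (p 1 - q 1) ^ 2) := by
      rw [hx, hy]; simp only [cS, cT, Par.N]; push_cast; ring
    have e : ∀ o u v : ℤ, (√(π.N : ℝ))⁻¹ * (π.N * o + cS π T p * u + cT π T p * v) -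
        (√(π.N : ℝ))⁻¹ * (π.N * o + cS π T q * u + cT π T q * v) =
        (√(π.N : ℝ))⁻¹ * (x * u + y * v) := by
      intro o u v; rw [hx, hy]; ring
    rw [e, e, e]
    obtain ⟨u1, u2, u3⟩ := huv
    calc ((√(π.N : ℝ))⁻¹ * (x * T.U.1 + y * T.V.1)) ^ 2 +
        ((√(π.N : ℝ))⁻¹ * (x * T.U.2.1 + y * T.V.2.1)) ^ 2 +
        ((√(π.N : ℝ))⁻¹ * (x * T.U.2.2 + y * T.V.2.2)) ^ 2
        = ((√(π.N : ℝ))⁻¹ * (√(π.N : ℝ))⁻¹) * (x ^ 2 * ((T.U.1 : ℝ) * T.U.1 +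
          T.U.2.1 * T.U.2.1 + T.U.2.2 * T.U.2.2) + y ^ 2 * ((T.V.1 : ℝ) * T.V.1 +
          T.V.2.1 * T.V.2.1 + T.V.2.2 * T.V.2.2) + 2 * x * y * ((T.U.1 : ℝ) * T.V.1 +
          (T.U.2.1 : ℝ) * T.V.2.1 + (T.U.2.2 : ℝ) * T.V.2.2)) := by ring
      _ = (π.N : ℝ)⁻¹ * (x ^ 2 + y ^ 2) := by rw [hs, h4', h5', u1, u2, u3]; ring
      _ = _ := by rw [hxy]; field_simp
  exact (pow_left_inj₀ dist_nonneg dist_nonneg two_ne_zero).mp key

/-- the lattice squares are mapped into the surface -/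
lemma Fm0_surface (π : Par) (T : St) (hT : Valid T) (p : Plane) (hp : p ∈ Lam π T) :
    Fm0 π T p ∈ cubeSurface √(π.N : ℝ) := by
  obtain ⟨⟨h1, h2⟩, h3, h4⟩ := hp
  obtain ⟨⟨v1, v2, v3⟩, h5, h6, h7⟩ := hT
  have hn := π.Npos
  have hq : 0 < √(π.N : ℝ) := Real.sqrt_pos.mpr hn
  have hN : (√(π.N : ℝ))⁻¹ * (π.N : ℝ) = √(π.N : ℝ) := by
    rw [inv_mul_eq_iff_eq_mul₀ hq.ne', Real.mul_self_sqrt hn.le]
  have hqi : 0 < (√(π.N : ℝ))⁻¹ := inv_pos.mpr hq
  have bd : ∀ x : ℝ, 0 ≤ x → x ≤ π.N → 0 ≤ (√(π.N : ℝ))⁻¹ * x ∧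
      (√(π.N : ℝ))⁻¹ * x ≤ √(π.N : ℝ) := by
    intro x hx0 hx1
    refine ⟨by positivity, ?_⟩
    calc (√(π.N : ℝ))⁻¹ * x ≤ (√(π.N : ℝ))⁻¹ * π.N := mul_le_mul_of_nonneg_left hx1 hqi.le
      _ = √(π.N : ℝ) := hN
  -- one coordinate
  have coord : ∀ o u v w : ℤ, VC o u v w →
      (0 ≤ (√(π.N : ℝ))⁻¹ * gm0 π.N (cS π T p) (cT π T p) o u v ∧
        (√(π.N : ℝ))⁻¹ * gm0 π.N (cS π T p) (cT π T p) o u v ≤ √(π.N : ℝ)) ∧
      (w ≠ 0 → (√(π.N : ℝ))⁻¹ * gm0 π.N (cS π T p) (cT π T p) o u v = 0 ∨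
        (√(π.N : ℝ))⁻¹ * gm0 π.N (cS π T p) (cT π T p) o u v = √(π.N : ℝ)) := by
    rintro o u v w ⟨ho, ⟨hu, hv, hw⟩ | ⟨hu, hv, hw⟩ | ⟨hu, hv, hw⟩⟩
    · refine ⟨?_, fun hc => absurd hw hc⟩
      apply bd
      · rcases ho with h | h <;> rw [hu, hv, h] <;> simp [gm0] <;> linarith
      · rcases ho with h | h <;> rw [hu, hv, h] <;> simp [gm0] <;> linarith
    · refine ⟨?_, fun hc => absurd hw hc⟩
      apply bd
      · rcases ho with h | h <;> rw [hu, hv, h] <;> simp [gm0] <;> linarith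
      · rcases ho with h | h <;> rw [hu, hv, h] <;> simp [gm0] <;> linarith
    · have hn' : (0 : ℝ) ≤ π.N := hn.le
      refine ⟨?_, fun _ => ?_⟩
      · apply bd
        · rcases ho with h | h <;> rw [hu, hv, h] <;> simp only [gm0] <;> push_cast <;> linarith
        · rcases ho with h | h <;> rw [hu, hv, h] <;> simp only [gm0] <;> push_cast <;> linarith
      · rcases ho with h | h
        · left; rw [hu, hv, h]; simp [gm0]
        · right; rw [hu, hv, h]; simp [gm0]; rw [hN]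
  have c1 := coord _ _ _ _ v1
  have c2 := coord _ _ _ _ v2
  have c3 := coord _ _ _ _ v3
  refine ⟨?_, ?_⟩
  · intro i
    fin_cases i
    · exact c1.1
    · exact c2.1
    · exact c3.1
  · by_cases w1 : T.W.1 = 0
    · by_cases w2 : T.W.2.1 = 0
      · have w3 : T.W.2.2 ≠ 0 := by
          intro hc; rw [w1, w2, hc] at h7; norm_num at h7
        exact ⟨2, c3.2 w3⟩
      · exact ⟨1, c2.2 w2⟩
    · exact ⟨0, c1.2 w1⟩

end Pool.Agent.Q228.Rep
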