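import Pool.Agent.Q228.Rep.Tw
import Pool.Agent.Helper697.RepData

/-!
# Twisted foldings: verification from finite data
-/

set_option autoImplicit false

namespace Pool.Agent.Q228.Rep

open Pool.Agent.Helper697.Rep MeasureTheory Set

/-- `A` folds onto the cube of edge `l` -/
def FoldsEdge (A : Finset (ℤ × ℤ)) (l : ℝ) : Prop :=
  0 < l ∧ ∃ f : Plane → Space, ContinuousOn f (region A) ∧ f '' region A = cubeSurface l ∧
    (∀ x ∈ interior (region A), ∀ y ∈ region A, f x = f y → x = y) ∧ CreasedOn f (region A)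

/-- the lattice point as a point of the plane -/
noncomputable def ptZ (q : ℤ × ℤ) : Plane := !₂[(q.1 : ℝ), (q.2 : ℝ)]

lemma ptZ0 (q : ℤ × ℤ) : ptZ q 0 = q.1 := by simp [ptZ]
lemma ptZ1 (q : ℤ × ℤ) : ptZ q 1 = q.2 := by simp [ptZ]

def sI (π : Par) (T : St) (q : ℤ × ℤ) : ℤ := π.a * q.1 + π.b * q.2 - π.N * T.i
def tI (π : Par) (T : St) (q : ℤ × ℤ) : ℤ := -π.b * q.1 + π.a * q.2 - π.N * T.j

lemma cS_ptZ (π : Par) (T : St) (q : ℤ × ℤ) : cS π T (ptZ q) = sI π T q := by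
  unfold cS sI; rw [ptZ0, ptZ1]; push_cast; ring

lemma cT_ptZ (π : Par) (T : St) (q : ℤ × ℤ) : cT π T (ptZ q) = tI π T q := by
  unfold cT tI; rw [ptZ0, ptZ1]; push_cast; ring

def inStrip (π : Par) (D : Fin 4) (T : St) (q : ℤ × ℤ) : Bool :=
  decide ((lo1 D * π.N ≤ sI π T q ∧ sI π T q ≤ hi1 D * π.N) ∧
    (lo2 D * π.N ≤ tI π T q ∧ tI π T q ≤ hi2 D * π.N))

lemma inStrip_mem {π : Par} {D : Fin 4} {T : St} {q : ℤ × ℤ} (h : inStrip π D T q = true) :
    ptZ q ∈ Strip π D T := by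
  simp only [inStrip, decide_eq_true_eq] at h
  obtain ⟨⟨h1, h2⟩, h3, h4⟩ := h
  unfold Strip
  simp only [mem_ofPred_eq]
  rw [cS_ptZ, cT_ptZ]
  refine ⟨⟨?_, ?_⟩, ?_, ?_⟩
  · exact_mod_cast h1
  · exact_mod_cast h2
  · exact_mod_cast h3
  · exact_mod_cast h4

lemma cS_comb (π : Par) (T : St) (p q : Plane) (x y : ℝ) (h : x + y = 1) :
    cS π T (x • p + y • q) = x * cS π T p + y * cS π T q := by
  simp only [cS, PiLp.add_apply, PiLp.smul_apply, smul_eq_mul]
  linear_combination (π.N * T.i : ℝ) * h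

lemma cT_comb (π : Par) (T : St) (p q : Plane) (x y : ℝ) (h : x + y = 1) :
    cT π T (x • p + y • q) = x * cT π T p + y * cT π T q := by
  simp only [cT, PiLp.add_apply, PiLp.smul_apply, smul_eq_mul]
  linear_combination (π.N * T.j : ℝ) * h

lemma strip_convex (π : Par) (D : Fin 4) (T : St) : Convex ℝ (Strip π D T) := by
  intro p hp q hq x y hx hy hxy
  obtain ⟨⟨h1, h2⟩, h3, h4⟩ := hp
  obtain ⟨⟨k1, k2⟩, k3, k4⟩ := hq
  unfold Strip
  simp only [mem_ofPred_eq]
  rw [cS_comb π T p q x y hxy, cT_comb π T p q x y hxy]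
  have e : ∀ c : ℝ, c = x * c + y * c := fun c => by rw [← add_mul, hxy, one_mul]
  refine ⟨⟨?_, ?_⟩, ?_, ?_⟩
  · rw [e (lo1 D * π.N)]
    exact add_le_add (mul_le_mul_of_nonneg_left h1 hx) (mul_le_mul_of_nonneg_left k1 hy)
  · rw [e (hi1 D * π.N)]
    exact add_le_add (mul_le_mul_of_nonneg_left h2 hx) (mul_le_mul_of_nonneg_left k2 hy)
  · rw [e (lo2 D * π.N)]
    exact add_le_add (mul_le_mul_of_nonneg_left h3 hx) (mul_le_mul_of_nonneg_left k3 hy)
  · rw [e (hi2 D * π.N)]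
    exact add_le_add (mul_le_mul_of_nonneg_left h4 hx) (mul_le_mul_of_nonneg_left k4 hy)

lemma lam_convex (π : Par) (T : St) : Convex ℝ (Lam π T) := by
  intro p hp q hq x y hx hy hxy
  obtain ⟨⟨h1, h2⟩, h3, h4⟩ := hp
  obtain ⟨⟨k1, k2⟩, k3, k4⟩ := hq
  unfold Lam
  simp only [mem_ofPred_eq]
  rw [cS_comb π T p q x y hxy, cT_comb π T p q x y hxy]
  have e : ∀ c : ℝ, c = x * c + y * c := fun c => by rw [← add_mul, hxy, one_mul]
  refine ⟨⟨?_, ?_⟩, ?_, ?_⟩
  · rw [e 0]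
    exact add_le_add (mul_le_mul_of_nonneg_left h1 hx) (mul_le_mul_of_nonneg_left k1 hy)
  · rw [e (π.N : ℝ)]
    exact add_le_add (mul_le_mul_of_nonneg_left h2 hx) (mul_le_mul_of_nonneg_left k2 hy)
  · rw [e 0]
    exact add_le_add (mul_le_mul_of_nonneg_left h3 hx) (mul_le_mul_of_nonneg_left k3 hy)
  · rw [e (π.N : ℝ)]
    exact add_le_add (mul_le_mul_of_nonneg_left h4 hx) (mul_le_mul_of_nonneg_left k4 hy)

lemma lam_closed (π : Par) (T : St) : IsClosed (Lam π T) := by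
  have h1 : Continuous (cS π T) := by unfold cS; fun_prop
  have h2 : Continuous (cT π T) := by unfold cT; fun_prop
  exact ((isClosed_le continuous_const h1).inter (isClosed_le h1 continuous_const)).inter
    ((isClosed_le continuous_const h2).inter (isClosed_le h2 continuous_const))

/-- agreement of two rolling maps on a segment, one step -/
def ag2 (π : Par) (T T' : St) (q q' : ℤ × ℤ) : Bool :=
  [0, 1, 2, 3].any fun D => inStrip π D T q && (inStrip π D T q' && decide (roll D T = T'))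

/-- agreement of two rolling maps on a segment, at most two steps -/
def ag (π : Par) (T T' : St) (q q' : ℤ × ℤ) : Bool :=
  decide (T = T') || (ag2 π T T' q q' ||
    [0, 1, 2, 3].any fun D => inStrip π D T q && (inStrip π D T q' &&
      ag2 π (roll D T) T' q q'))

lemma ag2_eq {π : Par} {T T' : St} {q q' : ℤ × ℤ} (h : ag2 π T T' q q' = true) (p : Plane)
    (hp : p ∈ segment ℝ (ptZ q) (ptZ q')) : Fm π T p = Fm π T' p := by
  simp only [ag2, List.any_eq_true, Bool.and_eq_true, decide_eq_true_eq] at h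
  obtain ⟨D, -, h1, h2, h3⟩ := h
  rw [← h3]
  exact (roll_eq π D T p ((strip_convex π D T).segment_subset (inStrip_mem h1)
    (inStrip_mem h2) hp)).symm

lemma ag_eq {π : Par} {T T' : St} {q q' : ℤ × ℤ} (h : ag π T T' q q' = true) (p : Plane)
    (hp : p ∈ segment ℝ (ptZ q) (ptZ q')) : Fm π T p = Fm π T' p := by
  simp only [ag, List.any_eq_true, Bool.and_eq_true, Bool.or_eq_true, decide_eq_true_eq] at h
  rcases h with h | h | ⟨D, -, h1, h2, h3⟩
  · rw [h]
  · exact ag2_eq h p hp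
  · rw [← ag2_eq h3 p hp]
    exact (roll_eq π D T p ((strip_convex π D T).segment_subset (inStrip_mem h1)
      (inStrip_mem h2) hp)).symm

/-! ### The cell is in the cross -/

/-- `α x + β y + γ ≤ 0` at the corners of the cell -/
def lin (c : ℤ × ℤ) (α β γ : ℤ) : Bool :=
  decide (α * c.1 + β * c.2 + γ ≤ 0 ∧ α * (c.1 + 1) + β * c.2 + γ ≤ 0 ∧
    α * c.1 + β * (c.2 + 1) + γ ≤ 0 ∧ α * (c.1 + 1) + β * (c.2 + 1) + γ ≤ 0)

lemma lin_spec {c : ℤ × ℤ} {α β γ : ℤ} (h : lin c α β γ = true) (p : Plane) (hp : p ∈ square c) :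
    (α : ℝ) * p 0 + β * p 1 + γ ≤ 0 := by
  simp only [lin, decide_eq_true_eq] at h
  obtain ⟨h1, h2, h3, h4⟩ := h
  obtain ⟨⟨a1, a2⟩, a3, a4⟩ := hp
  have h1' : (α : ℝ) * c.1 + β * c.2 + γ ≤ 0 := by exact_mod_cast h1
  have h2' : (α : ℝ) * (c.1 + 1) + β * c.2 + γ ≤ 0 := by exact_mod_cast h2
  have h3' : (α : ℝ) * c.1 + β * (c.2 + 1) + γ ≤ 0 := by exact_mod_cast h3
  have h4' : (α : ℝ) * (c.1 + 1) + β * (c.2 + 1) + γ ≤ 0 := by exact_mod_cast h4
  set x := p 0 - c.1 with hx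
  set y := p 1 - c.2 with hy
  have x0 : 0 ≤ x := by linarith
  have x1 : 0 ≤ 1 - x := by linarith
  have y0 : 0 ≤ y := by linarith
  have y1 : 0 ≤ 1 - y := by linarith
  have e : (α : ℝ) * p 0 + β * p 1 + γ =
      ((1 - x) * (1 - y)) * ((α : ℝ) * c.1 + β * c.2 + γ) +
      (x * (1 - y)) * ((α : ℝ) * (c.1 + 1) + β * c.2 + γ) +
      ((1 - x) * y) * ((α : ℝ) * c.1 + β * (c.2 + 1) + γ) +
      (x * y) * ((α : ℝ) * (c.1 + 1) + β * (c.2 + 1) + γ) := by
    rw [hx, hy]; ring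
  rw [e]
  have m1 := mul_nonpos_of_nonneg_of_nonpos (mul_nonneg x1 y1) h1'
  have m2 := mul_nonpos_of_nonneg_of_nonpos (mul_nonneg x0 y1) h2'
  have m3 := mul_nonpos_of_nonneg_of_nonpos (mul_nonneg x1 y0) h3'
  have m4 := mul_nonpos_of_nonneg_of_nonpos (mul_nonneg x0 y0) h4'
  linarith

/-- the candidates for separating directions -/
def cands (π : Par) : List (ℤ × ℤ) := [(1, 0), (0, 1), (π.a, π.b), (π.b, π.a)]

/-- not both `ε (s - m) > 0` and `δ (t - n) > 0` on the cell -/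
def quadOK (π : Par) (T : St) (c : ℤ × ℤ) (ε δ m n : ℤ) : Bool :=
  (cands π).any fun k => decide (0 ≤ k.1 ∧ 0 ≤ k.2 ∧ 0 < k.1 + k.2) &&
    lin c (k.1 * ε * π.a - k.2 * δ * π.b) (k.1 * ε * π.b + k.2 * δ * π.a)
      (k.1 * ε * (-π.N * T.i - m) + k.2 * δ * (-π.N * T.j - n))

lemma quadOK_spec {π : Par} {T : St} {c : ℤ × ℤ} {ε δ m n : ℤ}
    (h : quadOK π T c ε δ m n = true) (p : Plane) (hp : p ∈ square c)
    (h1 : 0 < (ε : ℝ) * (cS π T p - m)) (h2 : 0 < (δ : ℝ) * (cT π T p - n)) : False := by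
  simp only [quadOK, List.any_eq_true, Bool.and_eq_true, decide_eq_true_eq] at h
  obtain ⟨⟨k1, k2⟩, -, ⟨h3, h4, h5⟩, h6⟩ := h
  have h7 := lin_spec h6 p hp
  have h3' : (0 : ℝ) ≤ k1 := by exact_mod_cast h3
  have h4' : (0 : ℝ) ≤ k2 := by exact_mod_cast h4
  have h5' : (0 : ℝ) < k1 + k2 := by exact_mod_cast h5
  have h8 : (k1 : ℝ) * (ε * (cS π T p - m)) + k2 * (δ * (cT π T p - n)) ≤ 0 := by
    have e : (k1 : ℝ) * (ε * (cS π T p - m)) + k2 * (δ * (cT π T p - n)) =
        ((k1 * ε * π.a - k2 * δ * π.b : ℤ) : ℝ) * p 0 +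
        ((k1 * ε * π.b + k2 * δ * π.a : ℤ) : ℝ) * p 1 +
        ((k1 * ε * (-π.N * T.i - m) + k2 * δ * (-π.N * T.j - n) : ℤ) : ℝ) := by
      simp only [cS, cT]; push_cast; ring
    rw [e]; exact h7
  rcases eq_or_lt_of_le h3' with h | h
  · have hk2 : 0 < (k2 : ℝ) := by rw [← h] at h5'; linarith
    have := mul_pos hk2 h2
    rw [← h] at h8
    linarith
  · have g1 := mul_pos h h1
    have g2 := mul_nonneg h4' h2.le
    linarith

/-- the cell is in the cross of `T` -/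
def crossOK (π : Par) (T : St) (c : ℤ × ℤ) : Bool :=
  (lin c (-π.a) (-π.b) (π.N * T.i - π.N) && (lin c π.a π.b (-π.N * T.i - 2 * π.N) &&
  (lin c π.b (-π.a) (π.N * T.j - π.N) && lin c (-π.b) π.a (-π.N * T.j - 2 * π.N)))) &&
  (quadOK π T c 1 1 π.N π.N && (quadOK π T c (-1) 1 0 π.N &&
  (quadOK π T c (-1) (-1) 0 0 && quadOK π T c 1 (-1) π.N 0)))

lemma cross_spec {π : Par} {T : St} {c : ℤ × ℤ} (h : crossOK π T c = true) (p : Plane)
    (hp : p ∈ square c) : p ∈ Lam π T ∨ ∃ D, p ∈ Lam π (roll D T) := by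
  simp only [crossOK, Bool.and_eq_true] at h
  obtain ⟨⟨b1, b2, b3, b4⟩, q1, q2, q3, q4⟩ := h
  have c1 := lin_spec b1 p hp
  have c2 := lin_spec b2 p hp
  have c3 := lin_spec b3 p hp
  have c4 := lin_spec b4 p hp
  push_cast at c1 c2 c3 c4
  have s1 : -(π.N : ℝ) ≤ cS π T p := by simp only [cS]; linarith
  have s2 : cS π T p ≤ 2 * π.N := by simp only [cS]; linarith
  have t1 : -(π.N : ℝ) ≤ cT π T p := by simp only [cT]; linarith
  have t2 : cT π T p ≤ 2 * π.N := by simp only [cT]; linarith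
  have d1 := quadOK_spec q1 p hp
  have d2 := quadOK_spec q2 p hp
  have d3 := quadOK_spec q3 p hp
  have d4 := quadOK_spec q4 p hp
  push_cast at d1 d2 d3 d4
  have hn := π.Npos
  by_cases hs : cS π T p < 0
  · right
    have ht1 : cT π T p ≤ π.N := by
      by_contra hc
      push Not at hc
      exact d2 (by linarith) (by linarith)
    have ht0 : 0 ≤ cT π T p := by
      by_contra hc
      push Not at hc
      exact d3 (by linarith) (by linarith)
    refine ⟨2, ?_⟩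
    change p ∈ Lam π (rollL T)
    have e1 : cS π (rollL T) p = cS π T p + π.N := by simp [cS, rollL]; ring
    have e2 : cT π (rollL T) p = cT π T p := by simp [cT, rollL]
    refine ⟨⟨?_, ?_⟩, ?_, ?_⟩
    · rw [e1]; linarith
    · rw [e1]; linarith
    · rw [e2]; exact ht0
    · rw [e2]; exact ht1
  · push Not at hs
    by_cases hs' : cS π T p ≤ π.N
    · by_cases ht : cT π T p < 0
      · right
        refine ⟨3, ?_⟩
        change p ∈ Lam π (rollD T)
        have e1 : cS π (rollD T) p = cS π T p := by simp [cS, rollD]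
        have e2 : cT π (rollD T) p = cT π T p + π.N := by simp [cT, rollD]; ring
        refine ⟨⟨?_, ?_⟩, ?_, ?_⟩
        · rw [e1]; linarith
        · rw [e1]; linarith
        · rw [e2]; linarith
        · rw [e2]; linarith
      · push Not at ht
        by_cases ht' : cT π T p ≤ π.N
        · left; exact ⟨⟨hs, hs'⟩, ht, ht'⟩
        · push Not at ht'
          right
          refine ⟨1, ?_⟩
          change p ∈ Lam π (rollU T)
          have e1 : cS π (rollU T) p = cS π T p := by simp [cS, rollU]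
          have e2 : cT π (rollU T) p = cT π T p - π.N := by simp [cT, rollU]; ring
          refine ⟨⟨?_, ?_⟩, ?_, ?_⟩
          · rw [e1]; linarith
          · rw [e1]; linarith
          · rw [e2]; linarith
          · rw [e2]; linarith
    · push Not at hs'
      right
      have ht1 : cT π T p ≤ π.N := by
        by_contra hc
        push Not at hc
        exact d1 (by linarith) (by linarith)
      have ht0 : 0 ≤ cT π T p := by
        by_contra hc
        push Not at hc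
        exact d4 (by linarith) (by linarith)
      refine ⟨0, ?_⟩
      change p ∈ Lam π (rollR T)
      have e1 : cS π (rollR T) p = cS π T p - π.N := by simp [cS, rollR]; ring
      have e2 : cT π (rollR T) p = cT π T p := by simp [cT, rollR]
      refine ⟨⟨?_, ?_⟩, ?_, ?_⟩
      · rw [e1]; linarith
      · rw [e1]; linarith
      · rw [e2]; exact ht0
      · rw [e2]; exact ht1

/-! ### The faces -/

/-- frames of the six faces -/
def face : Fin 6 → St
  | 0 => ⟨0, 0, (0, 0, 0), (1, 0, 0), (0, 1, 0), (0, 0, 1)⟩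
  | 1 => ⟨0, 0, (0, 0, 1), (0, 1, 0), (1, 0, 0), (0, 0, -1)⟩
  | 2 => ⟨0, 0, (0, 0, 0), (0, 1, 0), (0, 0, 1), (1, 0, 0)⟩
  | 3 => ⟨0, 0, (1, 0, 0), (0, 0, 1), (0, 1, 0), (-1, 0, 0)⟩
  | 4 => ⟨0, 0, (0, 0, 0), (0, 0, 1), (1, 0, 0), (0, 1, 0)⟩
  | 5 => ⟨0, 0, (0, 1, 0), (1, 0, 0), (0, 0, 1), (0, -1, 0)⟩

/-- the point of the plane with given scaled coordinates -/
noncomputable def pST (π : Par) (S T : ℝ) : Plane :=
  !₂[(π.a * S - π.b * T) / π.N, (π.b * S + π.a * T) / π.N]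

lemma cS_pST (π : Par) (X : St) (S T : ℝ) : cS π X (pST π S T) = S - π.N * X.i := by
  have hn := π.Npos.ne'
  have e : (π.N : ℝ) = π.a * π.a + π.b * π.b := by simp only [Par.N]; push_cast; ring
  unfold cS pST
  simp
  field_simp
  rw [e]
  ring

lemma cT_pST (π : Par) (X : St) (S T : ℝ) : cT π X (pST π S T) = T - π.N * X.j := by
  have hn := π.Npos.ne'
  have e : (π.N : ℝ) = π.a * π.a + π.b * π.b := by simp only [Par.N]; push_cast; ring
  unfold cT pST
  simp
  field_simp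
  rw [e]
  ring

lemma surface_faces (π : Par) (z : Space) (hz : z ∈ cubeSurface √(π.N : ℝ)) :
    ∃ k : Fin 6, ∃ p ∈ Lam π (face k), Fm0 π (face k) p = z := by
  obtain ⟨h1, i, hi⟩ := hz
  have hn := π.Npos
  set q := √(π.N : ℝ) with hq
  have hq0 : 0 < q := Real.sqrt_pos.mpr hn
  have hqq : q * q = π.N := Real.mul_self_sqrt hn.le
  have hqi : q⁻¹ * q = 1 := inv_mul_cancel₀ hq0.ne'
  have hqN : q⁻¹ * (π.N : ℝ) = q := by rw [← hqq, ← mul_assoc, hqi, one_mul]
  have hb : ∀ i, 0 ≤ q * z i ∧ q * z i ≤ π.N := by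
    intro i
    obtain ⟨a, b⟩ := h1 i
    refine ⟨mul_nonneg hq0.le a, ?_⟩
    rw [← hqq]
    exact mul_le_mul_of_nonneg_left b hq0.le
  have hz' : ∀ i, q⁻¹ * (q * z i) = z i := fun i => by rw [← mul_assoc, hqi, one_mul]
  -- a face is hit
  have main : ∀ (k : Fin 6) (i j : Fin 3), (face k).i = 0 → (face k).j = 0 →
      (∀ m : Fin 3, z m = (![q⁻¹ * gm0 π.N (q * z i) (q * z j) (face k).O.1 (face k).U.1
        (face k).V.1, q⁻¹ * gm0 π.N (q * z i) (q * z j) (face k).O.2.1 (face k).U.2.1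
        (face k).V.2.1, q⁻¹ * gm0 π.N (q * z i) (q * z j) (face k).O.2.2 (face k).U.2.2
        (face k).V.2.2] : Fin 3 → ℝ) m) →
      ∃ k : Fin 6, ∃ p ∈ Lam π (face k), Fm0 π (face k) p = z := by
    intro k i j hi0 hj0 hm
    refine ⟨k, pST π (q * z i) (q * z j), ⟨⟨?_, ?_⟩, ?_, ?_⟩, ?_⟩
    · rw [cS_pST, hi0]; simpa using (hb i).1
    · rw [cS_pST, hi0]; simpa using (hb i).2
    · rw [cT_pST, hj0]; simpa using (hb j).1
    · rw [cT_pST, hj0]; simpa using (hb j).2
    · unfold Fm0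
      rw [cS_pST, cT_pST, hi0, hj0]
      have e1 : q * z i - (π.N : ℝ) * ((0 : ℤ) : ℝ) = q * z i := by push_cast; ring
      have e2 : q * z j - (π.N : ℝ) * ((0 : ℤ) : ℝ) = q * z j := by push_cast; ring
      rw [e1, e2]
      ext m
      rw [hm m]
  fin_cases i
  · simp only [Fin.zero_eta] at hi
    rcases hi with h | h
    · refine main 2 1 2 rfl rfl ?_
      intro m
      fin_cases m
      · simp [gm0, face, h]
      · simp [gm0, face, hz']
      · simp [gm0, face, hz']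
    · refine main 3 2 1 rfl rfl ?_
      intro m
      fin_cases m
      · simp [gm0, face, h, hqN]
      · simp [gm0, face, hz']
      · simp [gm0, face, hz']
  · simp only [Fin.mk_one] at hi
    rcases hi with h | h
    · refine main 4 2 0 rfl rfl ?_
      intro m
      fin_cases m
      · simp [gm0, face, hz']
      · simp [gm0, face, h]
      · simp [gm0, face, hz']
    · refine main 5 0 2 rfl rfl ?_
      intro m
      fin_cases m
      · simp [gm0, face, hz']
      · simp [gm0, face, h, hqN]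
      · simp [gm0, face, hz']
  · simp only [Fin.reduceFinMk] at hi
    rcases hi with h | h
    · refine main 0 0 1 rfl rfl ?_
      intro m
      fin_cases m
      · simp [gm0, face, hz']
      · simp [gm0, face, hz']
      · simp [gm0, face, h]
    · refine main 1 1 0 rfl rfl ?_
      intro m
      fin_cases m
      · simp [gm0, face, hz']
      · simp [gm0, face, hz']
      · simp [gm0, face, h, hqN]

/-- rotation of the frame -/
def rotS (T : St) : St := ⟨T.i, T.j, T.O + T.U, T.V, -T.U, T.W⟩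

/-- the corresponding rotation of the plane -/
noncomputable def rotP (π : Par) (p : Plane) : Plane := !₂[p 1 - π.b, π.a - p 0]

lemma rotP0 (π : Par) (p : Plane) : rotP π p 0 = p 1 - π.b := by simp [rotP]
lemma rotP1 (π : Par) (p : Plane) : rotP π p 1 = π.a - p 0 := by simp [rotP]

def rotC (π : Par) (c : ℤ × ℤ) : ℤ × ℤ := (c.2 - π.b, π.a - 1 - c.1)

lemma rot_coords (π : Par) (T : St) (hi : T.i = 0) (hj : T.j = 0) (p : Plane) :
    cS π (rotS T) (rotP π p) = cT π T p ∧ cT π (rotS T) (rotP π p) = π.N - cS π T p := by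
  have e : (π.N : ℝ) = π.a * π.a + π.b * π.b := by simp only [Par.N]; push_cast; ring
  constructor
  · simp only [cS, cT, rotS, hi, hj, rotP0, rotP1]; push_cast; ring
  · simp only [cS, cT, rotS, hi, hj, rotP0, rotP1]; rw [e]; push_cast; ring

lemma rot_Fm0 (π : Par) (T : St) (hi : T.i = 0) (hj : T.j = 0) (p : Plane) :
    Fm0 π (rotS T) (rotP π p) = Fm0 π T p := by
  obtain ⟨e1, e2⟩ := rot_coords π T hi hj p
  have key : ∀ o u v : ℤ, gm0 π.N (cT π T p) (π.N - cS π T p) (o + u) v (-u) =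
      gm0 π.N (cS π T p) (cT π T p) o u v := by
    intro o u v; unfold gm0; push_cast; ring
  unfold Fm0
  rw [e1, e2]
  simp only [rotS, Prod.fst_add, Prod.snd_add, Prod.fst_neg, Prod.snd_neg, key]

lemma rot_lam (π : Par) (T : St) (hi : T.i = 0) (hj : T.j = 0) (p : Plane) (hp : p ∈ Lam π T) :
    rotP π p ∈ Lam π (rotS T) := by
  obtain ⟨e1, e2⟩ := rot_coords π T hi hj p
  obtain ⟨⟨h1, h2⟩, h3, h4⟩ := hp
  refine ⟨⟨?_, ?_⟩, ?_, ?_⟩
  · rw [e1]; exact h3
  · rw [e1]; exact h4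
  · rw [e2]; linarith
  · rw [e2]; linarith

lemma rot_oc (π : Par) (c : ℤ × ℤ) (p : Plane) (hp : p ∈ oc c) : rotP π p ∈ oc (rotC π c) := by
  obtain ⟨⟨h1, h2⟩, h3, h4⟩ := hp
  refine ⟨⟨?_, ?_⟩, ?_, ?_⟩
  · rw [rotP0]; simp only [rotC]; push_cast; linarith
  · rw [rotP0]; simp only [rotC]; push_cast; linarith
  · rw [rotP1]; simp only [rotC]; push_cast; linarith
  · rw [rotP1]; simp only [rotC]; push_cast; linarith

/-- translation by lattice vectors -/
noncomputable def trP (π : Par) (i j : ℤ) (p : Plane) : Plane :=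
  !₂[p 0 + (π.a * i - π.b * j), p 1 + (π.b * i + π.a * j)]

lemma trP0 (π : Par) (i j : ℤ) (p : Plane) : trP π i j p 0 = p 0 + (π.a * i - π.b * j) := by
  simp [trP]
lemma trP1 (π : Par) (i j : ℤ) (p : Plane) : trP π i j p 1 = p 1 + (π.b * i + π.a * j) := by
  simp [trP]

def trC (π : Par) (i j : ℤ) (c : ℤ × ℤ) : ℤ × ℤ :=
  (c.1 + (π.a * i - π.b * j), c.2 + (π.b * i + π.a * j))

lemma tr_oc (π : Par) (i j : ℤ) (c : ℤ × ℤ) (p : Plane) (hp : p ∈ oc c) :
    trP π i j p ∈ oc (trC π i j c) := by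
  obtain ⟨⟨h1, h2⟩, h3, h4⟩ := hp
  refine ⟨⟨?_, ?_⟩, ?_, ?_⟩
  · rw [trP0]; simp only [trC]; push_cast; linarith
  · rw [trP0]; simp only [trC]; push_cast; linarith
  · rw [trP1]; simp only [trC]; push_cast; linarith
  · rw [trP1]; simp only [trC]; push_cast; linarith

lemma tr_coords (π : Par) (T T' : St) (hi : T.i = 0) (hj : T.j = 0) (p : Plane) :
    cS π T' (trP π T'.i T'.j p) = cS π T p ∧ cT π T' (trP π T'.i T'.j p) = cT π T p := by
  have e : (π.N : ℝ) = π.a * π.a + π.b * π.b := by simp only [Par.N]; push_cast; ring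
  constructor
  · simp only [cS, hi, trP0, trP1]; rw [e]; push_cast; ring
  · simp only [cT, hj, trP0, trP1]; rw [e]; push_cast; ring

lemma tr_Fm0 (π : Par) (T T' : St) (hi : T.i = 0) (hj : T.j = 0) (hO : T'.O = T.O)
    (hU : T'.U = T.U) (hV : T'.V = T.V) (p : Plane) :
    Fm0 π T' (trP π T'.i T'.j p) = Fm0 π T p := by
  obtain ⟨e1, e2⟩ := tr_coords π T T' hi hj p
  unfold Fm0
  rw [e1, e2, hO, hU, hV]

lemma tr_lam (π : Par) (T T' : St) (hi : T.i = 0) (hj : T.j = 0) (p : Plane)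
    (hp : p ∈ Lam π T) : trP π T'.i T'.j p ∈ Lam π T' := by
  obtain ⟨e1, e2⟩ := tr_coords π T T' hi hj p
  obtain ⟨⟨h1, h2⟩, h3, h4⟩ := hp
  refine ⟨⟨?_, ?_⟩, ?_, ?_⟩
  · rw [e1]; exact h1
  · rw [e1]; exact h2
  · rw [e2]; exact h3
  · rw [e2]; exact h4

end Pool.Agent.Q228.Rep
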