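import Pool.Agent.Q228.Rep.TwCheck
import Pool.Agent.Q228.Rep.Main
import Pool.Agent.Helper697.RepCrit4

/-!
# Twisted foldings: the criterion
-/

set_option autoImplicit false

namespace Pool.Agent.Q228.Rep

open Pool.Agent.Helper697.Rep MeasureTheory Set

abbrev Data : Type := List ((ℤ × ℤ) × St)

/-- the check for two cells -/
def pairOK (π : Par) (D : Data) (x y : (ℤ × ℤ) × St) : Bool :=
  (!decide (y.1 = (x.1.1 + 1, x.1.2)) ||
    ag π x.2 y.2 (x.1.1 + 1, x.1.2) (x.1.1 + 1, x.1.2 + 1)) &&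
  ((!decide (y.1 = (x.1.1, x.1.2 + 1)) ||
    ag π x.2 y.2 (x.1.1, x.1.2 + 1) (x.1.1 + 1, x.1.2 + 1)) &&
  ((!decide (y.1 = (x.1.1 + 1, x.1.2 + 1)) ||
    D.any fun z => decide (z.1 = (x.1.1 + 1, x.1.2)) || decide (z.1 = (x.1.1, x.1.2 + 1))) &&
  (!decide (y.1 = (x.1.1 + 1, x.1.2 - 1)) ||
    D.any fun z => decide (z.1 = (x.1.1 + 1, x.1.2)) || decide (z.1 = (x.1.1, x.1.2 - 1)))))

lemma seg_v {u v : ℤ} {p : Plane} (h0 : p 0 = (u : ℝ)) (h1 : (v : ℝ) ≤ p 1)
    (h2 : p 1 ≤ (v : ℝ) + 1) : p ∈ segment ℝ (ptZ (u, v)) (ptZ (u, v + 1)) := by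
  refine ⟨1 - (p 1 - v), p 1 - v, by linarith, by linarith, by ring, ?_⟩
  ext i
  fin_cases i
  · simp [ptZ]; rw [h0]; ring
  · simp [ptZ]; ring

lemma seg_h {u v : ℤ} {p : Plane} (h0 : p 1 = (v : ℝ)) (h1 : (u : ℝ) ≤ p 0)
    (h2 : p 0 ≤ (u : ℝ) + 1) : p ∈ segment ℝ (ptZ (u, v)) (ptZ (u + 1, v)) := by
  refine ⟨1 - (p 0 - u), p 0 - u, by linarith, by linarith, by ring, ?_⟩
  ext i
  fin_cases i
  · simp [ptZ]; ring
  · simp [ptZ]; rw [h0]; ring

section agree

variable {π : Par} {D : Data}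

lemma agR (hD : ∀ x ∈ D, ∀ y ∈ D, pairOK π D x y = true) {x y : (ℤ × ℤ) × St} (hx : x ∈ D)
    (hy : y ∈ D) (h : y.1 = (x.1.1 + 1, x.1.2)) {p : Plane} (hpx : p ∈ square x.1)
    (hpy : p ∈ square y.1) : Fm π x.2 p = Fm π y.2 p := by
  have h1 := hD x hx y hy
  simp only [pairOK, Bool.and_eq_true, Bool.or_eq_true, Bool.not_eq_true',
    decide_eq_false_iff_not] at h1
  have h2 := h1.1.resolve_left (fun hc => hc h)
  refine ag_eq h2 p ?_
  obtain ⟨⟨a1, a2⟩, a3, a4⟩ := hpx
  obtain ⟨⟨b1, b2⟩, b3, b4⟩ := hpy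
  rw [h] at b1 b2 b3 b4
  push_cast at b1 b2 b3 b4
  apply seg_v
  · push_cast; linarith
  · exact a3
  · exact a4

lemma agU (hD : ∀ x ∈ D, ∀ y ∈ D, pairOK π D x y = true) {x y : (ℤ × ℤ) × St} (hx : x ∈ D)
    (hy : y ∈ D) (h : y.1 = (x.1.1, x.1.2 + 1)) {p : Plane} (hpx : p ∈ square x.1)
    (hpy : p ∈ square y.1) : Fm π x.2 p = Fm π y.2 p := by
  have h1 := hD x hx y hy
  simp only [pairOK, Bool.and_eq_true, Bool.or_eq_true, Bool.not_eq_true',
    decide_eq_false_iff_not] at h1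
  have h2 := h1.2.1.resolve_left (fun hc => hc h)
  refine ag_eq h2 p ?_
  obtain ⟨⟨a1, a2⟩, a3, a4⟩ := hpx
  obtain ⟨⟨b1, b2⟩, b3, b4⟩ := hpy
  rw [h] at b1 b2 b3 b4
  push_cast at b1 b2 b3 b4
  apply seg_h
  · push_cast; linarith
  · exact a1
  · exact a2

lemma mem_sq {c : ℤ × ℤ} {p : Plane} (h1 : (c.1 : ℝ) ≤ p 0) (h2 : p 0 ≤ (c.1 : ℝ) + 1)
    (h3 : (c.2 : ℝ) ≤ p 1) (h4 : p 1 ≤ (c.2 : ℝ) + 1) : p ∈ square c := ⟨⟨h1, h2⟩, h3, h4⟩

lemma agree1 (hD : ∀ x ∈ D, ∀ y ∈ D, pairOK π D x y = true) (hnd : (D.map Prod.fst).Nodup)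
    {x y : (ℤ × ℤ) × St} (hx : x ∈ D) (hy : y ∈ D) {p : Plane} (hpx : p ∈ square x.1)
    (hpy : p ∈ square y.1) (hle : x.1.1 < y.1.1 ∨ (x.1.1 = y.1.1 ∧ x.1.2 ≤ y.1.2)) :
    Fm π x.2 p = Fm π y.2 p := by
  obtain ⟨⟨a1, a2⟩, a3, a4⟩ := id hpx
  obtain ⟨⟨b1, b2⟩, b3, b4⟩ := id hpy
  have c1 : x.1.1 ≤ y.1.1 + 1 := by
    have : (x.1.1 : ℝ) ≤ y.1.1 + 1 := by linarith
    exact_mod_cast this
  have c2 : y.1.1 ≤ x.1.1 + 1 := by
    have : (y.1.1 : ℝ) ≤ x.1.1 + 1 := by linarith
    exact_mod_cast this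
  have c3 : x.1.2 ≤ y.1.2 + 1 := by
    have : (x.1.2 : ℝ) ≤ y.1.2 + 1 := by linarith
    exact_mod_cast this
  have c4 : y.1.2 ≤ x.1.2 + 1 := by
    have : (y.1.2 : ℝ) ≤ x.1.2 + 1 := by linarith
    exact_mod_cast this
  have hcases : (y.1.1 = x.1.1 ∧ y.1.2 = x.1.2) ∨ (y.1.1 = x.1.1 ∧ y.1.2 = x.1.2 + 1) ∨
      (y.1.1 = x.1.1 + 1 ∧ y.1.2 = x.1.2) ∨ (y.1.1 = x.1.1 + 1 ∧ y.1.2 = x.1.2 + 1) ∨
      (y.1.1 = x.1.1 + 1 ∧ y.1.2 = x.1.2 - 1) := by omega
  have hxy := hD x hx y hy
  simp only [pairOK, Bool.and_eq_true, Bool.or_eq_true, Bool.not_eq_true',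
    decide_eq_false_iff_not, List.any_eq_true, decide_eq_true_eq] at hxy
  rcases hcases with ⟨h1, h2⟩ | ⟨h1, h2⟩ | ⟨h1, h2⟩ | ⟨h1, h2⟩ | ⟨h1, h2⟩
  · have : x = y := by
      have he : x.1 = y.1 := Prod.ext h1.symm h2.symm
      exact List.inj_on_of_nodup_map hnd hx hy he
    rw [this]
  · exact agU hD hx hy (Prod.ext h1 h2) hpx hpy
  · exact agR hD hx hy (Prod.ext h1 h2) hpx hpy
  · have hv : y.1 = (x.1.1 + 1, x.1.2 + 1) := Prod.ext h1 h2
    have h1' : (y.1.1 : ℝ) = x.1.1 + 1 := by exact_mod_cast h1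
    have h2' : (y.1.2 : ℝ) = x.1.2 + 1 := by exact_mod_cast h2
    obtain ⟨z, hz, hz'⟩ := hxy.2.2.1.resolve_left (fun hc => hc hv)
    rcases hz' with hz' | hz'
    · have hpz : p ∈ square z.1 := by
        rw [hz']
        apply mem_sq <;> push_cast <;> linarith
      rw [agR hD hx hz hz' hpx hpz]
      refine agU hD hz hy ?_ hpz hpy
      rw [hv, hz']
    · have hpz : p ∈ square z.1 := by
        rw [hz']
        apply mem_sq <;> push_cast <;> linarith
      rw [agU hD hx hz hz' hpx hpz]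
      refine agR hD hz hy ?_ hpz hpy
      rw [hv, hz']
  · have hv : y.1 = (x.1.1 + 1, x.1.2 - 1) := Prod.ext h1 h2
    have h1' : (y.1.1 : ℝ) = x.1.1 + 1 := by exact_mod_cast h1
    have h2' : (y.1.2 : ℝ) = x.1.2 - 1 := by
      have : (y.1.2 : ℝ) = ((x.1.2 - 1 : ℤ) : ℝ) := by exact_mod_cast h2
      rw [this]; push_cast; ring
    obtain ⟨z, hz, hz'⟩ := hxy.2.2.2.resolve_left (fun hc => hc hv)
    rcases hz' with hz' | hz'
    · have hpz : p ∈ square z.1 := by
        rw [hz']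
        apply mem_sq <;> push_cast <;> linarith
      rw [agR hD hx hz hz' hpx hpz]
      refine (agU hD hy hz ?_ hpy hpz).symm
      rw [hv, hz']
      simp
    · have hpz : p ∈ square z.1 := by
        rw [hz']
        apply mem_sq <;> push_cast <;> linarith
      have e1 : Fm π z.2 p = Fm π x.2 p := by
        refine agU hD hz hx ?_ hpz hpx
        rw [hz']
        simp
      rw [← e1]
      refine agR hD hz hy ?_ hpz hpy
      rw [hv, hz']

lemma agree (hD : ∀ x ∈ D, ∀ y ∈ D, pairOK π D x y = true) (hnd : (D.map Prod.fst).Nodup)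
    {x y : (ℤ × ℤ) × St} (hx : x ∈ D) (hy : y ∈ D) {p : Plane} (hpx : p ∈ square x.1)
    (hpy : p ∈ square y.1) : Fm π x.2 p = Fm π y.2 p := by
  rcases lt_trichotomy x.1.1 y.1.1 with h | h | h
  · exact agree1 hD hnd hx hy hpx hpy (Or.inl h)
  · rcases le_total x.1.2 y.1.2 with h' | h'
    · exact agree1 hD hnd hx hy hpx hpy (Or.inr ⟨h, h'⟩)
    · exact (agree1 hD hnd hy hx hpy hpx (Or.inr ⟨h.symm, h'⟩)).symm
  · exact (agree1 hD hnd hy hx hpy hpx (Or.inl h)).symm

end agree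

/-! ### The map -/

open Classical in
/-- the folding map of the data -/
noncomputable def fmap (π : Par) (D : Data) (p : Plane) : Space :=
  if h : ∃ x ∈ D, p ∈ square x.1 then Fm π h.choose.2 p else 0

lemma fmap_eq {π : Par} {D : Data} (hD : ∀ x ∈ D, ∀ y ∈ D, pairOK π D x y = true)
    (hnd : (D.map Prod.fst).Nodup) {x : (ℤ × ℤ) × St} (hx : x ∈ D) {p : Plane}
    (hp : p ∈ square x.1) : fmap π D p = Fm π x.2 p := by
  have h : ∃ x ∈ D, p ∈ square x.1 := ⟨x, hx, hp⟩
  unfold fmap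
  rw [dif_pos h]
  exact agree hD hnd h.choose_spec.1 hx h.choose_spec.2 hp

lemma mem_region_data {D : Data} {p : Plane} :
    p ∈ region (D.map Prod.fst).toFinset ↔ ∃ x ∈ D, p ∈ square x.1 := by
  unfold region
  simp only [List.mem_toFinset, List.mem_map, mem_iUnion, exists_prop]
  constructor
  · rintro ⟨c, ⟨x, hx, rfl⟩, hp⟩
    exact ⟨x, hx, hp⟩
  · rintro ⟨x, hx, hp⟩
    exact ⟨x.1, ⟨x, hx, rfl⟩, hp⟩

lemma Fm_cont (π : Par) (T : St) : Continuous (Fm π T) := by
  have h1 : Continuous (cS π T) := by unfold cS; fun_prop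
  have h2 : Continuous (cT π T) := by unfold cT; fun_prop
  have hg : ∀ o u v w : ℤ, Continuous fun p => (√(π.N : ℝ))⁻¹ *
      gm π.N (cS π T p) (cT π T p) o u v w := by
    intro o u v w
    unfold gm cl' ou
    fun_prop
  unfold Fm
  refine (PiLp.continuous_toLp 2 _).comp ?_
  apply continuous_pi
  intro i
  fin_cases i
  · exact hg _ _ _ _
  · exact hg _ _ _ _
  · exact hg _ _ _ _

lemma Fm0_cont (π : Par) (T : St) : Continuous (Fm0 π T) := by
  have h1 : Continuous (cS π T) := by unfold cS; fun_prop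
  have h2 : Continuous (cT π T) := by unfold cT; fun_prop
  have hg : ∀ o u v : ℤ, Continuous fun p => (√(π.N : ℝ))⁻¹ *
      gm0 π.N (cS π T p) (cT π T p) o u v := by
    intro o u v
    unfold gm0
    fun_prop
  unfold Fm0
  refine (PiLp.continuous_toLp 2 _).comp ?_
  apply continuous_pi
  intro i
  fin_cases i
  · exact hg _ _ _
  · exact hg _ _ _
  · exact hg _ _ _

lemma contOn_finset {ι : Type*} (s : Finset ι) (g : ι → Set Plane) (f : Plane → Space) :
    (∀ i ∈ s, IsClosed (g i)) → (∀ i ∈ s, ContinuousOn f (g i)) →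
    ContinuousOn f (⋃ i ∈ s, g i) := by
  classical
  induction s using Finset.induction_on with
  | empty => intro _ _; simp
  | insert a s ha ih =>
    intro hg hf
    rw [Finset.set_biUnion_insert]
    refine (hf a (Finset.mem_insert_self _ _)).union_of_isClosed
      (ih (fun i hi => hg i (Finset.mem_insert_of_mem hi))
        (fun i hi => hf i (Finset.mem_insert_of_mem hi))) (hg a (Finset.mem_insert_self _ _)) ?_
    exact isClosed_biUnion_finset (fun i hi => hg i (Finset.mem_insert_of_mem hi))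

/-- on the union of `T` and its neighbour -/
lemma piece_eq {π : Par} {T T' : St} (h : T' = T ∨ ∃ R, T' = roll R T) {p : Plane}
    (hp : p ∈ Lam π T') : Fm π T p = Fm0 π T' p := by
  rcases h with rfl | ⟨R, rfl⟩
  · exact Fm_eq_Fm0 π _ p hp
  · rw [← roll_eq π R T p (lam_roll_sub π R T hp)]
    exact Fm_eq_Fm0 π _ p hp

lemma piece_valid {T T' : St} (h : T' = T ∨ ∃ R, T' = roll R T) (hT : Valid T) : Valid T' := by
  rcases h with rfl | ⟨R, rfl⟩
  · exact hT
  · exact valid_roll R hT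

/-! ### Coverage -/

def opt (n : ℕ) (T : St) : St :=
  match n with
  | 0 => T
  | 1 => rollR T
  | 2 => rollU T
  | 3 => rollL T
  | _ => rollD T

lemma opt_cases (n : ℕ) (T : St) : opt n T = T ∨ ∃ R, opt n T = roll R T := by
  match n with
  | 0 => exact Or.inl rfl
  | 1 => exact Or.inr ⟨0, rfl⟩
  | 2 => exact Or.inr ⟨1, rfl⟩
  | 3 => exact Or.inr ⟨2, rfl⟩
  | n + 4 => exact Or.inr ⟨3, rfl⟩

/-- the cell does not meet the interior of the lattice square at the origin -/
def outB (π : Par) (d : ℤ × ℤ) : Bool :=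
  lin d π.a π.b 0 || (lin d (-π.a) (-π.b) π.N || (lin d (-π.b) π.a 0 || lin d π.b (-π.a) π.N))

def wit (π : Par) (D : Data) (k : Fin 6) (d : ℤ × ℤ) (w : ℕ) : Bool :=
  match w with
  | 0 => outB π d
  | w + 1 =>
    match D[w / 20]? with
    | none => false
    | some x =>
      decide ((opt (w / 4 % 5) x.2).O = (rotS^[w % 4] (face k)).O ∧
        (opt (w / 4 % 5) x.2).U = (rotS^[w % 4] (face k)).U ∧
        (opt (w / 4 % 5) x.2).V = (rotS^[w % 4] (face k)).V ∧
        x.1 = trC π (opt (w / 4 % 5) x.2).i (opt (w / 4 % 5) x.2).j ((rotC π)^[w % 4] d))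

def covB (π : Par) (D : Data) (W : Fin 6 → List ℕ) : Bool :=
  [0, 1, 2, 3, 4, 5].all fun k => (List.range (π.a + π.b).toNat).all fun i =>
    (List.range (π.a + π.b).toNat).all fun j =>
      wit π D k (i - π.b, j) ((W k).getD (i * (π.a + π.b).toNat + j) 0)

lemma face_ij (k : Fin 6) : (face k).i = 0 ∧ (face k).j = 0 := by
  fin_cases k <;> exact ⟨rfl, rfl⟩

lemma rotS_iter (T : St) (hi : T.i = 0) (hj : T.j = 0) (r : ℕ) :
    (rotS^[r] T).i = 0 ∧ (rotS^[r] T).j = 0 := by
  induction r with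
  | zero => exact ⟨hi, hj⟩
  | succ r ih =>
    rw [Function.iterate_succ_apply']
    exact ih

lemma rot_iter (π : Par) (T : St) (hi : T.i = 0) (hj : T.j = 0) (d : ℤ × ℤ) (p : Plane)
    (hp : p ∈ Lam π T) (hd : p ∈ oc d) (r : ℕ) :
    (rotP π)^[r] p ∈ Lam π (rotS^[r] T) ∧ (rotP π)^[r] p ∈ oc ((rotC π)^[r] d) ∧
      Fm0 π (rotS^[r] T) ((rotP π)^[r] p) = Fm0 π T p := by
  induction r with
  | zero => exact ⟨hp, hd, rfl⟩
  | succ r ih =>
    obtain ⟨h1, h2, h3⟩ := ih
    obtain ⟨hi', hj'⟩ := rotS_iter T hi hj r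
    simp only [Function.iterate_succ_apply']
    exact ⟨rot_lam π _ hi' hj' _ h1, rot_oc π _ _ h2, by rw [rot_Fm0 π _ hi' hj', h3]⟩

/-- the covered points -/
lemma wit_spec {π : Par} {D : Data} (hD : ∀ x ∈ D, ∀ y ∈ D, pairOK π D x y = true)
    (hnd : (D.map Prod.fst).Nodup) {k : Fin 6} {d : ℤ × ℤ} {w : ℕ} (h : wit π D k d w = true)
    (p : Plane) (hp : p ∈ Lam π (face k)) (hd : p ∈ oc d)
    (h1 : 0 < cS π (face k) p) (h2 : cS π (face k) p < π.N)
    (h3 : 0 < cT π (face k) p) (h4 : cT π (face k) p < π.N) :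
    Fm0 π (face k) p ∈ fmap π D '' region (D.map Prod.fst).toFinset := by
  obtain ⟨hi, hj⟩ := face_ij k
  match w with
  | 0 =>
    exfalso
    simp only [wit, outB, Bool.or_eq_true] at h
    unfold cS at h1 h2
    unfold cT at h3 h4
    rw [hi] at h1 h2
    rw [hj] at h3 h4
    push_cast at h1 h2 h3 h4
    rcases h with h | h | h | h
    · have := lin_spec h p (oc_sub d hd)
      push_cast at this
      linarith
    · have := lin_spec h p (oc_sub d hd)
      push_cast at this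
      linarith
    · have := lin_spec h p (oc_sub d hd)
      push_cast at this
      linarith
    · have := lin_spec h p (oc_sub d hd)
      push_cast at this
      linarith
  | w + 1 =>
    simp only [wit] at h
    split at h
    · exact absurd h (by simp)
    · rename_i x hx
      simp only [decide_eq_true_eq] at h
      obtain ⟨e1, e2, e3, e4⟩ := h
      have hxD : x ∈ D := List.mem_of_getElem? hx
      set T' := opt (w / 4 % 5) x.2 with hT'
      obtain ⟨g1, g2, g3⟩ := rot_iter π (face k) hi hj d p hp hd (w % 4)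
      obtain ⟨hi', hj'⟩ := rotS_iter (face k) hi hj (w % 4)
      have k1 := tr_lam π _ T' hi' hj' _ g1
      have k2 := tr_oc π T'.i T'.j _ _ g2
      have k3 := tr_Fm0 π _ T' hi' hj' e1 e2 e3 ((rotP π)^[w % 4] p)
      rw [← e4] at k2
      refine ⟨trP π T'.i T'.j ((rotP π)^[w % 4] p), mem_region_data.mpr ⟨x, hxD, oc_sub _ k2⟩, ?_⟩
      rw [fmap_eq hD hnd hxD (oc_sub _ k2), piece_eq (opt_cases (w / 4 % 5) x.2) k1, k3, g3]

/-- the generic points are dense in the lattice square -/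
lemma generic_dense (π : Par) (T : St) (p : Plane) (hp : p ∈ Lam π T) :
    p ∈ closure {q : Plane | (0 < cS π T q ∧ cS π T q < π.N) ∧ (0 < cT π T q ∧ cT π T q < π.N) ∧
      (∀ n : ℤ, q 0 ≠ n) ∧ ∀ n : ℤ, q 1 ≠ n} := by
  have hn := π.Npos
  have h1 : Continuous (cS π T) := by unfold cS; fun_prop
  have h2 : Continuous (cT π T) := by unfold cT; fun_prop
  -- the open square
  set U : Set Plane := {q | (0 < cS π T q ∧ cS π T q < π.N) ∧ (0 < cT π T q ∧ cT π T q < π.N)}
    with hU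
  have hUo : IsOpen U :=
    ((isOpen_lt continuous_const h1).inter (isOpen_lt h1 continuous_const)).inter
    ((isOpen_lt continuous_const h2).inter (isOpen_lt h2 continuous_const))
  -- the centre
  set c : Plane := pST π (π.N * T.i + π.N / 2) (π.N * T.j + π.N / 2) with hc
  have hcS : cS π T c = π.N / 2 := by rw [hc, cS_pST]; ring
  have hcT : cT π T c = π.N / 2 := by rw [hc, cT_pST]; ring
  have hpU : p ∈ closure U := by
    rw [mem_closure_iff_seq_limit]
    refine ⟨fun n : ℕ => ((1 : ℝ) - 1 / ((n : ℝ) + 1)) • p + (1 / ((n : ℝ) + 1)) • c, ?_, ?_⟩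
    · intro n
      have hx : (0 : ℝ) < 1 / ((n : ℝ) + 1) := by positivity
      have hx1 : 1 / ((n : ℝ) + 1) ≤ 1 := by
        rw [div_le_one (by positivity)]
        have : (0 : ℝ) ≤ n := Nat.cast_nonneg n
        linarith
      obtain ⟨⟨a1, a2⟩, a3, a4⟩ := hp
      set t : ℝ := 1 / ((n : ℝ) + 1) with ht
      have hs : (1 - t) + t = 1 := by ring
      rw [hU]
      simp only [mem_ofPred_eq]
      rw [cS_comb π T p c _ _ hs, cT_comb π T p c _ _ hs, hcS, hcT]
      refine ⟨⟨?_, ?_⟩, ?_, ?_⟩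
      · have : 0 ≤ (1 - t) * cS π T p := mul_nonneg (by linarith) a1
        have : 0 < t * (π.N / 2 : ℝ) := by positivity
        linarith
      · have h5 : (1 - t) * cS π T p ≤ (1 - t) * π.N :=
          mul_le_mul_of_nonneg_left a2 (by linarith)
        have h6 : 0 < t * (π.N / 2 : ℝ) := by positivity
        nlinarith
      · have : 0 ≤ (1 - t) * cT π T p := mul_nonneg (by linarith) a3
        have : 0 < t * (π.N / 2 : ℝ) := by positivity
        linarith
      · have h5 : (1 - t) * cT π T p ≤ (1 - t) * π.N :=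
          mul_le_mul_of_nonneg_left a4 (by linarith)
        have h6 : 0 < t * (π.N / 2 : ℝ) := by positivity
        nlinarith
    · have h0 := tendsto_one_div_add_atTop_nhds_zero_nat (𝕜 := ℝ)
      have h5 : Filter.Tendsto (fun n : ℕ => ((1 : ℝ) - 1 / ((n : ℝ) + 1)) • p +
          (1 / ((n : ℝ) + 1)) • c) Filter.atTop (nhds (((1 : ℝ) - 0) • p + (0 : ℝ) • c)) :=
        ((tendsto_const_nhds.sub h0).smul_const p).add (h0.smul_const c)
      simpa using h5
  -- the null set
  set Z : Set Plane := (⋃ n : ℤ, {q : Plane | 1 * q 0 + 0 * q 1 = n}) ∪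
    (⋃ n : ℤ, {q : Plane | 0 * q 0 + 1 * q 1 = n}) with hZ
  have hZ0 : volume Z = 0 := by
    apply measure_union_null
    · exact measure_iUnion_null fun n => vol_line _ _ _ (by simp)
    · exact measure_iUnion_null fun n => vol_line _ _ _ (by simp)
  have hdense : Dense Zᶜ := by
    rw [← interior_eq_empty_iff_dense_compl]
    by_contra hne
    have hpos : 0 < volume (interior Z) := isOpen_interior.measure_pos _
      (Set.nonempty_iff_ne_empty.mpr hne)
    have := measure_mono_null interior_subset hZ0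
    rw [this] at hpos
    exact lt_irrefl _ hpos
  have hcl : closure U ⊆ closure (U ∩ Zᶜ) :=
    closure_minimal (hdense.open_subset_closure_inter hUo) isClosed_closure
  refine closure_mono ?_ (hcl hpU)
  rintro q ⟨⟨q1, q2⟩, q3⟩
  refine ⟨q1, q2, ?_, ?_⟩
  · intro n hn
    exact q3 (Or.inl (mem_iUnion.mpr ⟨n, by simp [hn]⟩))
  · intro n hn
    exact q3 (Or.inr (mem_iUnion.mpr ⟨n, by simp [hn]⟩))

/-- all checks -/
def chkB (π : Par) (D : Data) (W : Fin 6 → List ℕ) : Bool :=
  decide (0 ≤ π.a ∧ 0 ≤ π.b) && (decide ((D.map Prod.fst).Nodup) &&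
  (decide ((D.length : ℤ) = 6 * π.N) && ((D.all fun x => decide (Valid x.2)) &&
  ((D.all fun x => crossOK π x.2 x.1) && ((D.all fun x => D.all fun y => pairOK π D x y) &&
  covB π D W)))))

theorem folds_of_props {π : Par} {D : Data} {W : Fin 6 → List ℕ} (ha : 0 ≤ π.a)
    (hb : 0 ≤ π.b) (hnd : (D.map Prod.fst).Nodup) (hlen : (D.length : ℤ) = 6 * π.N)
    (hval : ∀ x ∈ D, Valid x.2) (hcross : ∀ x ∈ D, crossOK π x.2 x.1 = true)
    (hpair : ∀ x ∈ D, ∀ y ∈ D, pairOK π D x y = true) (hcov : covB π D W = true) :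
    FoldsEdge (D.map Prod.fst).toFinset √(π.N : ℝ) := by
  have hn := π.Npos
  have hq : 0 < √(π.N : ℝ) := Real.sqrt_pos.mpr hn
  have hf : ∀ x ∈ D, ∀ p ∈ square x.1, fmap π D p = Fm π x.2 p :=
    fun x hx p hp => fmap_eq hpair hnd hx hp
  have hregion : region (D.map Prod.fst).toFinset = ⋃ c ∈ (D.map Prod.fst).toFinset, square c := rfl
  -- continuity
  have hcont : ContinuousOn (fmap π D) (region (D.map Prod.fst).toFinset) := by
    apply contOn_finset
    · intro c _; exact square_closed c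
    · intro c hc
      simp only [List.mem_toFinset, List.mem_map] at hc
      obtain ⟨x, hx, rfl⟩ := hc
      exact ((Fm_cont π x.2).continuousOn (s := square x.1)).congr (fun p hp => hf x hx p hp)
  -- the pieces
  have hcr : CreasedOn (fmap π D) (region (D.map Prod.fst).toFinset) := by
    refine ⟨⋃ x ∈ {x | x ∈ D}, {S | ∃ n : Fin 5, S = square x.1 ∩ Lam π (opt n x.2)}, ?_, ?_, ?_⟩
    · refine Set.Finite.biUnion (List.finite_toSet D) ?_
      intro x _
      have : {S | ∃ n : Fin 5, S = square x.1 ∩ Lam π (opt n x.2)} =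
          Set.range fun n : Fin 5 => square x.1 ∩ Lam π (opt n x.2) := by
        ext S; simp [eq_comm]
      rw [this]
      exact Set.finite_range _
    · ext p
      rw [mem_region_data]
      constructor
      · rintro ⟨S, hS, hp⟩
        simp only [mem_iUnion, mem_ofPred_eq, exists_prop] at hS
        obtain ⟨x, hx, n, rfl⟩ := hS
        exact ⟨x, hx, hp.1⟩
      · rintro ⟨x, hx, hp⟩
        have : ∃ n : Fin 5, p ∈ Lam π (opt n x.2) := by
          rcases cross_spec (hcross x hx) p hp with h | ⟨R, h⟩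
          · exact ⟨0, h⟩
          · fin_cases R
            · exact ⟨1, h⟩
            · exact ⟨2, h⟩
            · exact ⟨3, h⟩
            · exact ⟨4, h⟩
        obtain ⟨n, hn⟩ := this
        refine ⟨square x.1 ∩ Lam π (opt n x.2), ?_, hp, hn⟩
        simp only [mem_iUnion, mem_ofPred_eq, exists_prop]
        exact ⟨x, hx, n, rfl⟩
    · intro S hS
      simp only [mem_iUnion, mem_ofPred_eq, exists_prop] at hS
      obtain ⟨x, hx, n, rfl⟩ := hS
      refine ⟨(square_convex x.1).inter (lam_convex π _), (square_closed x.1).inter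
        (lam_closed π _), ?_⟩
      rintro p ⟨hp1, hp2⟩ q ⟨hq1, hq2⟩
      rw [hf x hx p hp1, hf x hx q hq1, piece_eq (opt_cases n x.2) hp2,
        piece_eq (opt_cases n x.2) hq2]
      exact Fm0_dist π _ (piece_valid (opt_cases n x.2) (hval x hx)) p q
  -- the image
  have hcomp : IsCompact (region (D.map Prod.fst).toFinset) :=
    Metric.isCompact_of_isClosed_isBounded (region_closed _) (region_bdd _)
  have himc : IsClosed (fmap π D '' region (D.map Prod.fst).toFinset) :=
    (hcomp.image_of_continuousOn hcont).isClosed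
  have him : fmap π D '' region (D.map Prod.fst).toFinset = cubeSurface √(π.N : ℝ) := by
    apply subset_antisymm
    · rintro z ⟨p, hp, rfl⟩
      obtain ⟨x, hx, hp⟩ := mem_region_data.mp hp
      rw [hf x hx p hp]
      rcases cross_spec (hcross x hx) p hp with h | ⟨R, h⟩
      · rw [piece_eq (Or.inl rfl) h]
        exact Fm0_surface π _ (hval x hx) p h
      · rw [piece_eq (Or.inr ⟨R, rfl⟩) h]
        exact Fm0_surface π _ (valid_roll R (hval x hx)) p h
    · intro z hz
      obtain ⟨k, p, hp, rfl⟩ := surface_faces π z hz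
      have h1 := generic_dense π (face k) p hp
      have h2 : Fm0 π (face k) p ∈ closure (Fm0 π (face k) ''
          {q : Plane | (0 < cS π (face k) q ∧ cS π (face k) q < π.N) ∧
            (0 < cT π (face k) q ∧ cT π (face k) q < π.N) ∧
            (∀ n : ℤ, q 0 ≠ n) ∧ ∀ n : ℤ, q 1 ≠ n}) :=
        image_closure_subset_closure_image (Fm0_cont π _) ⟨p, h1, rfl⟩
      refine closure_minimal ?_ himc h2
      rintro z ⟨q, ⟨⟨a1, a2⟩, ⟨a3, a4⟩, a5, a6⟩, rfl⟩
      -- the cell of q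
      set d : ℤ × ℤ := (⌊q 0⌋, ⌊q 1⌋) with hd
      have hqd : q ∈ oc d := by
        refine ⟨⟨?_, ?_⟩, ?_, ?_⟩
        · exact lt_of_le_of_ne (Int.floor_le _) (fun hc => a5 _ hc.symm)
        · exact Int.lt_floor_add_one _
        · exact lt_of_le_of_ne (Int.floor_le _) (fun hc => a6 _ hc.symm)
        · exact Int.lt_floor_add_one _
      obtain ⟨hi, hj⟩ := face_ij k
      have ha' : (0 : ℝ) ≤ π.a := by exact_mod_cast ha
      have hb' : (0 : ℝ) ≤ π.b := by exact_mod_cast hb
      have eN : (π.N : ℝ) = π.a * π.a + π.b * π.b := by simp only [Par.N]; push_cast; ring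
      have x1 : -(π.b : ℝ) ≤ q 0 := by
        have : -(π.b : ℝ) * π.N ≤ q 0 * π.N := by
          have e : q 0 * π.N = π.a * cS π (face k) q - π.b * cT π (face k) q := by
            unfold cS cT; rw [hi, hj, eN]; push_cast; ring
          rw [e]
          nlinarith [mul_nonneg ha' a1.le, mul_le_mul_of_nonneg_left a4.le hb']
        exact le_of_mul_le_mul_right this hn
      have x2 : q 0 ≤ π.a := by
        have : q 0 * π.N ≤ π.a * π.N := by
          have e : q 0 * π.N = π.a * cS π (face k) q - π.b * cT π (face k) q := by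
            unfold cS cT; rw [hi, hj, eN]; push_cast; ring
          rw [e]
          nlinarith [mul_nonneg hb' a3.le, mul_le_mul_of_nonneg_left a2.le ha']
        exact le_of_mul_le_mul_right this hn
      have y1 : 0 ≤ q 1 := by
        have : 0 * (π.N : ℝ) ≤ q 1 * π.N := by
          have e : q 1 * π.N = π.b * cS π (face k) q + π.a * cT π (face k) q := by
            unfold cS cT; rw [hi, hj, eN]; push_cast; ring
          rw [e]
          nlinarith [mul_nonneg hb' a1.le, mul_nonneg ha' a3.le]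
        exact le_of_mul_le_mul_right this hn
      have y2 : q 1 ≤ π.a + π.b := by
        have : q 1 * π.N ≤ (π.a + π.b) * π.N := by
          have e : q 1 * π.N = π.b * cS π (face k) q + π.a * cT π (face k) q := by
            unfold cS cT; rw [hi, hj, eN]; push_cast; ring
          rw [e]
          nlinarith [mul_le_mul_of_nonneg_left a2.le hb', mul_le_mul_of_nonneg_left a4.le ha']
        exact le_of_mul_le_mul_right this hn
      have d1 : -π.b ≤ d.1 := Int.le_floor.mpr (by push_cast; exact x1)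
      have d2 : d.1 < π.a := Int.floor_lt.mpr (lt_of_le_of_ne x2 (a5 _))
      have d3 : 0 ≤ d.2 := Int.le_floor.mpr (by push_cast; exact y1)
      have d4 : d.2 < π.a + π.b := Int.floor_lt.mpr (lt_of_le_of_ne (by push_cast; exact y2) (a6 _))
      simp only [covB, List.all_eq_true, List.mem_range] at hcov
      have hk : k ∈ ([0, 1, 2, 3, 4, 5] : List (Fin 6)) := by fin_cases k <;> simp
      have h3 := hcov k hk (d.1 + π.b).toNat (by omega) d.2.toNat (by omega)
      have e1 : (((d.1 + π.b).toNat : ℕ) : ℤ) - π.b = d.1 := by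
        rw [Int.toNat_of_nonneg (by omega)]; ring
      have e2 : ((d.2.toNat : ℕ) : ℤ) = d.2 := Int.toNat_of_nonneg d3
      rw [e1, e2] at h3
      exact wit_spec hpair hnd h3 q ⟨⟨a1.le, a2.le⟩, a3.le, a4.le⟩ hqd a1 a2 a3 a4
  -- the number of cells
  have hcard : (((D.map Prod.fst).toFinset.card : ℕ) : ℝ) = 6 * √(π.N : ℝ) ^ 2 := by
    rw [Real.sq_sqrt hn.le, List.toFinset_card_of_nodup hnd, List.length_map]
    exact_mod_cast hlen
  exact ⟨hq, fmap π D, hcont, him, inj_of_surj hq him hcard hcr, hcr⟩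

theorem folds_of_chk {π : Par} {D : Data} {W : Fin 6 → List ℕ} (h : chkB π D W = true) :
    FoldsEdge (D.map Prod.fst).toFinset √(π.N : ℝ) := by
  simp only [chkB, Bool.and_eq_true, decide_eq_true_eq, List.all_eq_true] at h
  obtain ⟨⟨ha, hb⟩, hnd, hlen, hval, hcross, hpair, hcov⟩ := h
  exact folds_of_props ha hb hnd hlen hval hcross hpair hcov

end Pool.Agent.Q228.Rep
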