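import Pool.Agent.Q228.Rep.Local

/-!
# Foldings of polyominoes to cubes: vertices of the cube come from lattice points
-/

set_option autoImplicit false

namespace Pool.Agent.Q228.Rep

open Pool.Agent.Helper697.Rep MeasureTheory Set Filter Topology

lemma ev_lt (δ : ℝ) (hδ : 0 < δ) : ∀ᶠ ε : ℝ in 𝓝[>] 0, ε < δ := by
  filter_upwards [Ioo_mem_nhdsGT hδ] with ε hε using hε.2

lemma region_bdd (A : Finset (ℤ × ℤ)) : Bornology.IsBounded (region A) := by
  refine (Bornology.isBounded_biUnion (s := (A : Set (ℤ × ℤ))) (Finset.finite_toSet A)).mpr ?_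
  intro c _
  rw [Metric.isBounded_iff_subset_closedBall (!₂[(c.1 : ℝ), (c.2 : ℝ)] : Plane)]
  refine ⟨2, ?_⟩
  rintro p ⟨⟨a, b⟩, c', d⟩
  rw [mem_ball2 _ _ _ (by norm_num)]
  simp
  nlinarith

lemma vertex_zero {A : Finset (ℤ × ℤ)} {l : ℝ} {f : Plane → Space} (hf : Folds A l f) :
    ∃ x ∈ region A, f x = 0 ∧ (∃ a : ℤ, x 0 = a) ∧ ∃ b : ℤ, x 1 = b := by
  classical
  obtain ⟨C, hC, hU, hS⟩ := hf.creased
  set V : Set Plane := {x | x ∈ region A ∧ f x = 0} with hV
  have hVfin : V.Finite := by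
    have hsub : V ⊆ ⋃ S ∈ C, (S ∩ {x | f x = 0}) := by
      rintro x ⟨h1, h2⟩
      rw [← hU] at h1
      obtain ⟨S, hSC, hxS⟩ := h1
      rw [mem_iUnion₂]
      exact ⟨S, hSC, hxS, h2⟩
    refine Set.Finite.subset (hC.biUnion ?_) hsub
    intro S hSC
    apply Set.Subsingleton.finite
    intro x hx y hy
    have := (hS S hSC).2.2 x hx.1 y hy.1
    rw [hx.2, hy.2, dist_self] at this
    exact dist_eq_zero.mp this.symm
  have hRc : IsCompact (region A) :=
    Metric.isCompact_of_isClosed_isBounded (region_closed A) (region_bdd A)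
  -- smallness conditions
  have ev1 : ∀ᶠ ε : ℝ in 𝓝[>] 0, ∀ S ∈ C, (¬ ∃ x ∈ S, f x = 0) → ∀ x ∈ S, ε < dist (f x) 0 := by
    rw [Filter.eventually_all_finite hC]
    intro S hSC
    by_cases h : ∃ x ∈ S, f x = 0
    · exact Filter.Eventually.of_forall fun ε hc => absurd h hc
    · have hSR : S ⊆ region A := by rw [← hU]; exact subset_sUnion_of_mem hSC
      have hSc : IsCompact S := hRc.of_isClosed_subset (hS S hSC).2.1 hSR
      have himg : IsClosed (f '' S) := (hSc.image_of_continuousOn (hf.cont.mono hSR)).isClosed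
      have h0 : (0 : Space) ∈ (f '' S)ᶜ := by
        rintro ⟨x, hx, hx0⟩
        exact h ⟨x, hx, hx0⟩
      obtain ⟨δ, hδ, hball⟩ := Metric.isOpen_iff.1 himg.isOpen_compl 0 h0
      filter_upwards [ev_lt δ hδ] with ε hε _ x hx
      by_contra hcon
      push Not at hcon
      have : f x ∈ Metric.ball (0 : Space) δ := by
        rw [Metric.mem_ball]; linarith
      exact hball this ⟨x, hx, rfl⟩
  have ev2 : ∀ᶠ ε : ℝ in 𝓝[>] 0, ∀ x ∈ V, ∀ S ∈ C, x ∉ S → ∀ y ∈ S, ε < dist y x := by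
    rw [Filter.eventually_all_finite hVfin]
    intro x _
    rw [Filter.eventually_all_finite hC]
    intro S hSC
    by_cases h : x ∈ S
    · exact Filter.Eventually.of_forall fun ε hc => absurd h hc
    · obtain ⟨δ, hδ, hball⟩ := Metric.isOpen_iff.1 (hS S hSC).2.1.isOpen_compl x h
      filter_upwards [ev_lt δ hδ] with ε hε _ y hy
      by_contra hcon
      push Not at hcon
      have : y ∈ Metric.ball x δ := by
        rw [Metric.mem_ball]; linarith
      exact hball this hy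
  have ev3 : ∀ᶠ ε : ℝ in 𝓝[>] 0, ∀ x ∈ V, ∀ y ∈ V, x ≠ y → 2 * ε < dist x y := by
    rw [Filter.eventually_all_finite hVfin]
    intro x _
    rw [Filter.eventually_all_finite hVfin]
    intro y _
    by_cases h : x = y
    · exact Filter.Eventually.of_forall fun ε hc => absurd h hc
    · filter_upwards [ev_lt (dist x y / 2) (by have := dist_pos.mpr h; linarith)] with ε hε _
      linarith
  have ev4 : ∀ᶠ ε : ℝ in 𝓝[>] 0, ∀ x ∈ V, ε < gap (x 0) ∧ ε < gap (x 1) := by
    rw [Filter.eventually_all_finite hVfin]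
    intro x _
    filter_upwards [ev_lt _ (gap_pos (x 0)), ev_lt _ (gap_pos (x 1))] with ε h1 h2
    exact ⟨h1, h2⟩
  have ev5 : ∀ᶠ ε : ℝ in 𝓝[>] 0, 0 < ε := self_mem_nhdsWithin
  obtain ⟨ε, h1, h2, h3, h4, h5, h6⟩ :=
    (ev1.and (ev2.and (ev3.and (ev4.and (ev5.and (ev_lt l hf.pos)))))).exists
  -- the preimage of the ball
  have hpre : region A ∩ f ⁻¹' Metric.closedBall 0 ε =
      ⋃ x ∈ hVfin.toFinset, (region A ∩ Metric.closedBall x ε) := by
    ext p
    simp only [mem_iUnion₂, mem_inter_iff, mem_preimage, Metric.mem_closedBall,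
      Set.Finite.mem_toFinset]
    constructor
    · rintro ⟨hpR, hp⟩
      have hpC : p ∈ ⋃₀ C := by rw [hU]; exact hpR
      obtain ⟨S, hSC, hpS⟩ := hpC
      have hex : ∃ x ∈ S, f x = 0 := by
        by_contra hc
        have := h1 S hSC hc p hpS
        linarith
      obtain ⟨x, hxS, hx0⟩ := hex
      have hxR : x ∈ region A := by rw [← hU]; exact ⟨S, hSC, hxS⟩
      refine ⟨x, ⟨hxR, hx0⟩, hpR, ?_⟩
      rw [← (hS S hSC).2.2 p hpS x hxS, hx0]
      exact hp
    · rintro ⟨x, hxV, hpR, hpx⟩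
      refine ⟨hpR, ?_⟩
      have hpC : p ∈ ⋃₀ C := by rw [hU]; exact hpR
      obtain ⟨S, hSC, hpS⟩ := hpC
      have hxS : x ∈ S := by
        by_contra hc
        have := h2 x hxV S hSC hc p hpS
        linarith
      rw [← hxV.2, (hS S hSC).2.2 p hpS x hxS]
      exact hpx
  have harea := area_preserving hf (Metric.closedBall 0 ε) Metric.isClosed_closedBall
  rw [corner_area l ε h5 h6, hpre, measure_biUnion_finset] at harea
  rotate_left
  · intro x hx y hy hxy
    change Disjoint (region A ∩ Metric.closedBall x ε) (region A ∩ Metric.closedBall y ε)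
    rw [disjoint_left]
    rintro p ⟨-, hp1⟩ ⟨-, hp2⟩
    rw [Metric.mem_closedBall] at hp1 hp2
    have h7 := h3 x (by simpa using hx) y (by simpa using hy) hxy
    have h8 := dist_triangle_left x y p
    linarith
  · intro x _
    exact ((region_closed A).inter Metric.isClosed_closedBall).measurableSet
  have hsum : ∑ x ∈ hVfin.toFinset, volume (region A ∩ Metric.closedBall x ε) =
      ((∑ x ∈ hVfin.toFinset, (quads A x).card : ℕ) : ENNReal) * volume (qd ε) := by
    rw [Nat.cast_sum, Finset.sum_mul]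
    apply Finset.sum_congr rfl
    intro x hx
    have := h4 x (by simpa using hx)
    exact local_area A x ε h5 this.1 this.2
  rw [hsum] at harea
  -- positivity and finiteness of the quarter disc
  have hqpos : volume (qd ε) ≠ 0 := by
    have hsub : rect 0 (ε / 2) 0 (ε / 2) ⊆ qd ε := by
      rintro p ⟨⟨a, b⟩, c, d⟩
      refine ⟨⟨a.le, c.le⟩, ?_⟩
      nlinarith
    have hne : (rect 0 (ε / 2) 0 (ε / 2)).Nonempty :=
      ⟨!₂[ε / 4, ε / 4], by refine ⟨⟨?_, ?_⟩, ?_, ?_⟩ <;> simp <;> linarith⟩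
    have := (rect_open 0 (ε / 2) 0 (ε / 2)).measure_pos (volume : Measure Plane) hne
    exact (lt_of_lt_of_le this (measure_mono hsub)).ne'
  have hqfin : volume (qd ε) ≠ ⊤ := by
    have hsub : qd ε ⊆ Metric.closedBall 0 ε := by
      rintro p ⟨_, h⟩
      rw [mem_ball2 _ _ _ h5.le]
      simpa using h
    exact (lt_of_le_of_lt (measure_mono hsub) Metric.isBounded_closedBall.measure_lt_top).ne
  have h3' : (3 : ENNReal) = ((∑ x ∈ hVfin.toFinset, (quads A x).card : ℕ) : ENNReal) :=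
    (ENNReal.mul_left_inj hqpos hqfin).mp harea
  have h3'' : 3 = ∑ x ∈ hVfin.toFinset, (quads A x).card := by exact_mod_cast h3'
  by_contra hcon
  have heven : Even (∑ x ∈ hVfin.toFinset, (quads A x).card) := by
    apply Finset.even_sum
    intro x hx
    have hxV : x ∈ V := by simpa using hx
    apply quads_even
    rintro ⟨ha, hb⟩
    exact hcon ⟨x, hxV.1, hxV.2, ha, hb⟩
  rw [← h3''] at heven
  revert heven
  decide

/-- the central symmetry of the cube -/
noncomputable def cs (l : ℝ) (z : Space) : Space := !₂[l - z 0, l - z 1, l - z 2]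

lemma cs_dist (l : ℝ) (z z' : Space) : dist (cs l z) (cs l z') = dist z z' := by
  have : dist (cs l z) (cs l z') ^ 2 = dist z z' ^ 2 := by
    rw [dist_sq3, dist_sq3]
    simp [cs]
    ring
  exact (pow_left_inj₀ dist_nonneg dist_nonneg two_ne_zero).mp this

lemma cs_apply (l : ℝ) (z : Space) (i : Fin 3) : cs l z i = l - z i := by
  fin_cases i <;> simp [cs]

lemma cs_cs (l : ℝ) (z : Space) : cs l (cs l z) = z := by
  ext i; rw [cs_apply, cs_apply]; ring

lemma folds_cs {A : Finset (ℤ × ℤ)} {l : ℝ} {f : Plane → Space} (hf : Folds A l f) :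
    Folds A l (fun x => cs l (f x)) := by
  have hiso : Isometry (cs l) := Isometry.of_dist_eq (cs_dist l)
  refine ⟨hf.pos, hiso.continuous.comp_continuousOn hf.cont, ?_, ?_, ?_⟩
  · have hmem : ∀ z ∈ cubeSurface l, cs l z ∈ cubeSurface l := by
      rintro z ⟨h1, i, hi⟩
      refine ⟨fun j => ?_, i, ?_⟩
      · rw [cs_apply]; have := h1 j; constructor <;> linarith
      · rw [cs_apply]
        rcases hi with h | h
        · right; rw [h]; ring
        · left; rw [h]; ring
    ext z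
    constructor
    · rintro ⟨x, hx, rfl⟩
      apply hmem
      rw [← hf.surj]; exact ⟨x, hx, rfl⟩
    · intro hz
      have := hmem z hz
      rw [← hf.surj] at this
      obtain ⟨x, hx, hxz⟩ := this
      exact ⟨x, hx, by simp only; rw [hxz, cs_cs]⟩
  · intro x hx y hy hxy
    exact hf.inj hx hy (hiso.injective hxy)
  · obtain ⟨C, hC, hU, hS⟩ := hf.creased
    refine ⟨C, hC, hU, fun S hSC => ⟨(hS S hSC).1, (hS S hSC).2.1, fun x hx y hy => ?_⟩⟩
    rw [cs_dist]
    exact (hS S hSC).2.2 x hx y hy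

/-- lattice points at two different vertices of the cube -/
lemma two_vertices {A : Finset (ℤ × ℤ)} {l : ℝ} {f : Plane → Space} (hf : Folds A l f) :
    ∃ x ∈ region A, ∃ x' ∈ region A, x ≠ x' ∧ hh l (f x) = 2 ∧ hh l (f x') = 2 ∧
      ((∃ a : ℤ, x 0 = a) ∧ ∃ b : ℤ, x 1 = b) ∧ ((∃ a : ℤ, x' 0 = a) ∧ ∃ b : ℤ, x' 1 = b) := by
  obtain ⟨x, hx, hx0, hxl⟩ := vertex_zero hf
  obtain ⟨x', hx', hx0', hxl'⟩ := vertex_zero (folds_cs hf)
  have hl := hf.pos
  have e : ∀ i, f x' i = l := by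
    intro i
    have := congrArg (fun z : Space => z i) hx0'
    simp only [cs_apply, PiLp.zero_apply] at this
    linarith
  refine ⟨x, hx, x', hx', ?_, ?_, ?_, hxl, hxl'⟩
  · rintro rfl
    have := e 0
    rw [hx0] at this
    simp at this
    linarith
  · rw [hx0]; simp [hh]; norm_num
  · unfold hh
    rw [e 0, e 1, e 2, div_self hl.ne', mul_one, Real.cos_two_pi]; norm_num

lemma cos_eq_one (l r : ℝ) (hl : 0 < l) (h : Real.cos (2 * Real.pi * (r / l)) = 1) :
    ∃ n : ℤ, r = n * l := by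
  rw [Real.cos_eq_one_iff] at h
  obtain ⟨n, hn⟩ := h
  refine ⟨n, ?_⟩
  have h1 : r / l = n := by
    have := Real.pi_pos
    have h2 : 2 * Real.pi * (r / l) = 2 * Real.pi * n := by linarith
    exact mul_left_cancel₀ (by positivity) h2
  rw [div_eq_iff hl.ne'] at h1
  exact h1

/-- the edge of the cube is a quotient of lengths of lattice vectors -/
theorem lattice_relation {A : Finset (ℤ × ℤ)} {l : ℝ} {f : Plane → Space} (hA : IsPolyomino A)
    (hf : Folds A l f) :
    ∃ a b m n : ℤ, 0 < a ^ 2 + b ^ 2 ∧ l ^ 2 * ((m : ℝ) ^ 2 + (n : ℝ) ^ 2) =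
      (a : ℝ) ^ 2 + (b : ℝ) ^ 2 := by
  obtain ⟨y, u, w, ho, ⟨j, huj, hwj, hyj⟩, hglob⟩ := global hA hf
  obtain ⟨x, hx, x', hx', hne, h1, h2, ⟨⟨a, ha⟩, ⟨b, hb⟩⟩, ⟨⟨a', ha'⟩, ⟨b', hb'⟩⟩⟩ :=
    two_vertices hf
  rw [hglob x hx] at h1
  rw [hglob x' hx'] at h2
  have key : ∀ z : Space, hh l z = 2 → ∀ i, ∃ n : ℤ, z i = n * l := by
    intro z hz i
    apply cos_eq_one l _ hf.pos
    unfold hh at hz
    have c0 := Real.cos_le_one (2 * Real.pi * (z 0 / l))
    have c1 := Real.cos_le_one (2 * Real.pi * (z 1 / l))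
    have c2 := Real.cos_le_one (2 * Real.pi * (z 2 / l))
    fin_cases i
    · change Real.cos (2 * Real.pi * (z 0 / l)) = 1; linarith
    · change Real.cos (2 * Real.pi * (z 1 / l)) = 1; linarith
    · change Real.cos (2 * Real.pi * (z 2 / l)) = 1; linarith
  have k1 := key _ h1
  have k2 := key _ h2
  have hd := aff_dist (y := y) ho x x'
  have hd2 : dist x x' ^ 2 = ((a - a' : ℤ) : ℝ) ^ 2 + ((b - b' : ℤ) : ℝ) ^ 2 := by
    rw [dist_sq2, ha, hb, ha', hb']; push_cast; ring
  have hpos : 0 < dist x x' ^ 2 := by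
    have := dist_pos.mpr hne
    positivity
  obtain ⟨i1, i2, hsum, -⟩ := others j
  obtain ⟨m1, hm1⟩ := k1 i1
  obtain ⟨m1', hm1'⟩ := k2 i1
  obtain ⟨m2, hm2⟩ := k1 i2
  obtain ⟨m2', hm2'⟩ := k2 i2
  refine ⟨a - a', b - b', m1 - m1', m2 - m2', ?_, ?_⟩
  · rw [hd2] at hpos
    exact_mod_cast hpos
  · rw [← hd2, ← hd, dist_sq3]
    have := hsum (fun i => (aff y u w x i - aff y u w x' i) ^ 2)
    simp only at this
    rw [this, hm1, hm1', hm2, hm2', aff_apply, aff_apply, huj, hwj]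
    push_cast
    ring

end Pool.Agent.Q228.Rep
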